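import Pool.Agent.Work.MP_36d6be_co_V.Defs

/-!
Block D: Siegel's lemma for the auxiliary function.
-/

set_option autoImplicit false

namespace Pool.Agent.Work.MP_36d6be_co_V

open Polynomial

namespace BlockD

/-! ### The `l¹` norm of an integer polynomial -/

/-- the `l¹` norm -/
noncomputable def l1 (p : ℤ[X]) : ℝ := ∑ i ∈ p.support, |((p.coeff i : ℤ) : ℝ)|

lemma l1_nonneg (p : ℤ[X]) : 0 ≤ l1 p := Finset.sum_nonneg fun _ _ => abs_nonneg _

lemma l1_eq_of_subset (p : ℤ[X]) (s : Finset ℕ) (hs : p.support ⊆ s) :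
    l1 p = ∑ i ∈ s, |((p.coeff i : ℤ) : ℝ)| := by
  unfold l1
  apply Finset.sum_subset hs
  intro i _ hi
  rw [notMem_support_iff.mp hi]
  simp

lemma coeff_le_l1 (p : ℤ[X]) (i : ℕ) : |((p.coeff i : ℤ) : ℝ)| ≤ l1 p := by
  by_cases h : i ∈ p.support
  · exact Finset.single_le_sum (f := fun i => |((p.coeff i : ℤ) : ℝ)|)
      (fun _ _ => abs_nonneg _) h
  · rw [notMem_support_iff.mp h]
    simpa using l1_nonneg p

lemma l1_zero : l1 0 = 0 := by simp [l1]

lemma l1_add (p q : ℤ[X]) : l1 (p + q) ≤ l1 p + l1 q := by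
  rw [l1_eq_of_subset (p + q) (p.support ∪ q.support) support_add,
    l1_eq_of_subset p (p.support ∪ q.support) Finset.subset_union_left,
    l1_eq_of_subset q (p.support ∪ q.support) Finset.subset_union_right,
    ← Finset.sum_add_distrib]
  refine Finset.sum_le_sum fun i _ => ?_
  rw [coeff_add]
  push_cast
  exact abs_add_le _ _

lemma l1_sum {ι : Type*} (s : Finset ι) (f : ι → ℤ[X]) :
    l1 (∑ i ∈ s, f i) ≤ ∑ i ∈ s, l1 (f i) := by
  classical
  induction s using Finset.induction_on with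
  | empty => simp [l1_zero]
  | insert a s ha ih =>
    rw [Finset.sum_insert ha, Finset.sum_insert ha]
    exact (l1_add _ _).trans (by gcongr)

lemma l1_monomial_mul (n : ℕ) (a : ℤ) (q : ℤ[X]) : l1 (monomial n a * q) ≤ |(a : ℝ)| * l1 q := by
  have hsub : (monomial n a * q).support ⊆ q.support.map (addRightEmbedding n) := by
    intro i hi
    rw [mem_support_iff] at hi
    rw [Finset.mem_map]
    by_cases hni : n ≤ i
    · refine ⟨i - n, ?_, ?_⟩
      · rw [mem_support_iff]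
        intro h
        apply hi
        rw [← C_mul_X_pow_eq_monomial, mul_assoc, coeff_C_mul, X_pow_mul, coeff_mul_X_pow', if_pos hni,
          h, mul_zero]
      · simp [hni]
    · exfalso
      apply hi
      rw [← C_mul_X_pow_eq_monomial, mul_assoc, coeff_C_mul, X_pow_mul, coeff_mul_X_pow', if_neg hni,
        mul_zero]
  rw [l1_eq_of_subset _ _ hsub, Finset.sum_map, l1, Finset.mul_sum]
  refine Finset.sum_le_sum fun i _ => ?_
  rw [addRightEmbedding_apply, ← C_mul_X_pow_eq_monomial, mul_assoc, coeff_C_mul, X_pow_mul,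
    coeff_mul_X_pow]
  push_cast
  rw [abs_mul]

lemma l1_mul (p q : ℤ[X]) : l1 (p * q) ≤ l1 p * l1 q := by
  conv_lhs => rw [p.as_sum_support, Finset.sum_mul]
  refine (l1_sum _ _).trans ?_
  conv_rhs => rw [l1, Finset.sum_mul]
  exact Finset.sum_le_sum fun i _ => l1_monomial_mul _ _ _

lemma l1_one : l1 1 = 1 := by
  rw [l1_eq_of_subset 1 {0}]
  · simp
  · intro i hi
    rw [mem_support_iff, coeff_one] at hi
    rw [Finset.mem_singleton]
    by_contra h
    rw [if_neg h] at hi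
    exact hi rfl

lemma l1_pow (p : ℤ[X]) (n : ℕ) : l1 (p ^ n) ≤ l1 p ^ n := by
  induction n with
  | zero => rw [pow_zero, pow_zero, l1_one]
  | succ n ih =>
    rw [pow_succ, pow_succ]
    exact (l1_mul _ _).trans (mul_le_mul_of_nonneg_right ih (l1_nonneg _))

lemma l1_C (a : ℤ) : l1 (C a) = |(a : ℝ)| := by
  rw [l1_eq_of_subset (C a) {0}]
  · simp
  · intro i hi
    rw [mem_support_iff, coeff_C] at hi
    rw [Finset.mem_singleton]
    by_contra h
    rw [if_neg h] at hi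
    exact hi rfl

lemma l1_X : l1 (X : ℤ[X]) = 1 := by
  rw [l1_eq_of_subset X {1}]
  · simp
  · intro i hi
    rw [mem_support_iff, coeff_X] at hi
    rw [Finset.mem_singleton]
    by_contra h
    rw [if_neg (Ne.symm h)] at hi
    exact hi rfl

/-! ### Bounds for power series with polynomial coefficients -/

/-- size and degree bounds for the coefficients of a power series -/
def Bd (f : PowerSeries ℤ[X]) (A B : ℝ) (e : ℕ) : Prop :=
  ∀ k, l1 (PowerSeries.coeff k f) ≤ A * B ^ k ∧ (PowerSeries.coeff k f).natDegree ≤ e + 3 * k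

lemma Bd.mono {f : PowerSeries ℤ[X]} {A A' B B' : ℝ} {e e' : ℕ} (h : Bd f A B e) (hA : A ≤ A')
    (hA0 : 0 ≤ A') (hB : B ≤ B') (hB0 : 0 ≤ B) (he : e ≤ e') : Bd f A' B' e' := by
  intro k
  obtain ⟨h1, h2⟩ := h k
  refine ⟨h1.trans ?_, by omega⟩
  gcongr

lemma Bd.mul {f g : PowerSeries ℤ[X]} {A A' B : ℝ} {e e' : ℕ} (hf : Bd f A B e)
    (hg : Bd g A' B e') (hA : 0 ≤ A) (hA' : 0 ≤ A') (hB : 0 ≤ B) :
    Bd (f * g) (A * A') (2 * B) (e + e') := by
  intro k
  rw [PowerSeries.coeff_mul]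
  constructor
  · refine (l1_sum _ _).trans ?_
    calc ∑ p ∈ Finset.HasAntidiagonal.antidiagonal k, l1 (PowerSeries.coeff p.1 f * PowerSeries.coeff p.2 g)
        ≤ ∑ _p ∈ Finset.HasAntidiagonal.antidiagonal k, A * A' * B ^ k := by
          refine Finset.sum_le_sum fun p hp => ?_
          rw [Finset.HasAntidiagonal.mem_antidiagonal] at hp
          refine (l1_mul _ _).trans ?_
          calc l1 (PowerSeries.coeff p.1 f) * l1 (PowerSeries.coeff p.2 g)
              ≤ (A * B ^ p.1) * (A' * B ^ p.2) := by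
                exact mul_le_mul (hf p.1).1 (hg p.2).1 (l1_nonneg _) (by positivity)
            _ = A * A' * B ^ k := by rw [← hp, pow_add]; ring
      _ = (k + 1) * (A * A' * B ^ k) := by
          rw [Finset.sum_const, Finset.Nat.card_antidiagonal, nsmul_eq_mul]
          push_cast
          ring
      _ ≤ 2 ^ k * (A * A' * B ^ k) := by
          apply mul_le_mul_of_nonneg_right _ (by positivity)
          have : k + 1 ≤ 2 ^ k := Nat.lt_two_pow_self
          exact_mod_cast this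
      _ = A * A' * (2 * B) ^ k := by rw [mul_pow]; ring
  · apply natDegree_sum_le_of_forall_le
    intro p hp
    rw [Finset.HasAntidiagonal.mem_antidiagonal] at hp
    refine natDegree_mul_le.trans ?_
    have := (hf p.1).2
    have := (hg p.2).2
    omega

lemma Bd_one : Bd 1 1 1 0 := by
  intro k
  rw [PowerSeries.coeff_one]
  split_ifs with h
  · rw [l1_one, natDegree_one]; simp
  · rw [l1_zero, natDegree_zero]; simp

lemma sqc_abs_le (k : ℕ) : |((sqc k : ℤ) : ℝ)| ≤ 4 ^ k := by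
  rcases k with _ | n
  · simp [sqc]
  · unfold sqc
    push_cast
    rw [abs_mul, abs_mul, abs_pow, abs_neg, abs_one, one_pow, one_mul]
    have h1 : (catalan n : ℝ) ≤ 4 ^ n := by
      have h2 : catalan n ≤ n.centralBinom := by
        rw [catalan_eq_centralBinom_div]
        exact Nat.div_le_self _ _
      have h3 : n.centralBinom ≤ 4 ^ n := by
        rw [Nat.centralBinom_eq_two_mul_choose]
        calc (2 * n).choose n ≤ 2 ^ (2 * n) := Nat.choose_le_two_pow _ _
          _ = 4 ^ n := by rw [pow_mul]; norm_num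
      exact_mod_cast h2.trans h3
    have h4 : (0 : ℝ) ≤ catalan n := by positivity
    rw [abs_of_nonneg h4, abs_of_pos (by norm_num : (0 : ℝ) < 2), pow_succ]
    nlinarith

lemma coeff_wg (γ b : Fin 4 → ℤ) (i : Fin 4) (k : ℕ) :
    PowerSeries.coeff k (wg γ b i) = g γ b i * (u γ b i ^ k * C (sqc k)) := by
  unfold wg
  rw [PowerSeries.coeff_C_mul, PowerSeries.coeff_rescale, PowerSeries.coeff_map]
  unfold sq
  rw [PowerSeries.coeff_mk]

lemma natDegree_g_le (γ b : Fin 4 → ℤ) (i : Fin 4) : (g γ b i).natDegree ≤ 1 := by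
  unfold g
  refine natDegree_mul_le.trans ?_
  rw [natDegree_C, zero_add]
  exact natDegree_X_sub_C_le _

lemma natDegree_u_le (γ b : Fin 4 → ℤ) (i : Fin 4) : (u γ b i).natDegree ≤ 3 := by
  unfold u
  refine natDegree_mul_le.trans ?_
  rw [natDegree_C, zero_add]
  refine (natDegree_prod_le _ _).trans ?_
  calc ∑ l ∈ Finset.univ.erase i, (g γ b l).natDegree
      ≤ ∑ _l ∈ Finset.univ.erase i, 1 := Finset.sum_le_sum fun l _ => natDegree_g_le γ b l
    _ = 3 := by
        rw [Finset.sum_const, Finset.card_erase_of_mem (Finset.mem_univ _), Finset.card_univ,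
          Fintype.card_fin]
        rfl

lemma natDegree_G_le (γ b : Fin 4 → ℤ) : (G γ b).natDegree ≤ 4 := by
  unfold G
  refine (natDegree_prod_le _ _).trans ?_
  calc ∑ l, (g γ b l).natDegree ≤ ∑ _l : Fin 4, 1 :=
        Finset.sum_le_sum fun l _ => natDegree_g_le γ b l
    _ = 4 := by simp

/-- a common constant -/
noncomputable def c0 (γ b : Fin 4 → ℤ) : ℝ :=
  1 + ∑ i, l1 (g γ b i) + 4 * ∑ i, l1 (u γ b i) + 4 * l1 (G γ b)

lemma one_le_c0 (γ b : Fin 4 → ℤ) : 1 ≤ c0 γ b := by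
  unfold c0
  have h1 : 0 ≤ ∑ i, l1 (g γ b i) := Finset.sum_nonneg fun _ _ => l1_nonneg _
  have h2 : 0 ≤ ∑ i, l1 (u γ b i) := Finset.sum_nonneg fun _ _ => l1_nonneg _
  have h3 := l1_nonneg (G γ b)
  linarith

lemma l1_g_le (γ b : Fin 4 → ℤ) (i : Fin 4) : l1 (g γ b i) ≤ c0 γ b := by
  unfold c0
  have h1 : l1 (g γ b i) ≤ ∑ i, l1 (g γ b i) :=
    Finset.single_le_sum (f := fun i => l1 (g γ b i)) (fun _ _ => l1_nonneg _) (Finset.mem_univ i)
  have h2 : 0 ≤ ∑ i, l1 (u γ b i) := Finset.sum_nonneg fun _ _ => l1_nonneg _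
  have h3 := l1_nonneg (G γ b)
  linarith

lemma four_l1_u_le (γ b : Fin 4 → ℤ) (i : Fin 4) : 4 * l1 (u γ b i) ≤ c0 γ b := by
  unfold c0
  have h1 : l1 (u γ b i) ≤ ∑ i, l1 (u γ b i) :=
    Finset.single_le_sum (f := fun i => l1 (u γ b i)) (fun _ _ => l1_nonneg _) (Finset.mem_univ i)
  have h2 : 0 ≤ ∑ i, l1 (g γ b i) := Finset.sum_nonneg fun _ _ => l1_nonneg _
  have h3 := l1_nonneg (G γ b)
  linarith

lemma four_l1_G_le (γ b : Fin 4 → ℤ) : 4 * l1 (G γ b) ≤ c0 γ b := by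
  unfold c0
  have h1 : 0 ≤ ∑ i, l1 (g γ b i) := Finset.sum_nonneg fun _ _ => l1_nonneg _
  have h2 : 0 ≤ ∑ i, l1 (u γ b i) := Finset.sum_nonneg fun _ _ => l1_nonneg _
  linarith

lemma Bd_wg (γ b : Fin 4 → ℤ) (i : Fin 4) : Bd (wg γ b i) (c0 γ b) (c0 γ b) 1 := by
  intro k
  have hc := one_le_c0 γ b
  rw [coeff_wg]
  constructor
  · calc l1 (g γ b i * (u γ b i ^ k * C (sqc k)))
        ≤ l1 (g γ b i) * (l1 (u γ b i) ^ k * 4 ^ k) := by
          refine (l1_mul _ _).trans ?_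
          apply mul_le_mul_of_nonneg_left _ (l1_nonneg _)
          refine (l1_mul _ _).trans ?_
          rw [l1_C]
          exact mul_le_mul (l1_pow _ _) (sqc_abs_le k) (abs_nonneg _)
            (pow_nonneg (l1_nonneg _) _)
      _ = l1 (g γ b i) * (4 * l1 (u γ b i)) ^ k := by rw [mul_pow]; ring
      _ ≤ c0 γ b * c0 γ b ^ k := by
          have h1 := l1_g_le γ b i
          have h2 := four_l1_u_le γ b i
          have h3 := l1_nonneg (u γ b i)
          have h4 := l1_nonneg (g γ b i)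
          gcongr
  · refine natDegree_mul_le.trans ?_
    have h1 := natDegree_g_le γ b i
    have h2 : (u γ b i ^ k * C (sqc k)).natDegree ≤ 3 * k := by
      refine natDegree_mul_le.trans ?_
      rw [natDegree_C, add_zero]
      refine natDegree_pow_le.trans ?_
      have := natDegree_u_le γ b i
      nlinarith
    omega

/-- sign does not matter -/
lemma Bd_int_mul {f : PowerSeries ℤ[X]} {A B : ℝ} {e : ℕ} (h : Bd f A B e) {s : ℤ}
    (hs : s = 1 ∨ s = -1) : Bd ((s : PowerSeries ℤ[X]) * f) A B e := by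
  rcases hs with rfl | rfl
  · simpa using h
  · intro k
    have h1 : PowerSeries.coeff k ((((-1 : ℤ)) : PowerSeries ℤ[X]) * f) =
        - PowerSeries.coeff k f := by
      simp
    rw [h1]
    have h2 : l1 (-PowerSeries.coeff k f) = l1 (PowerSeries.coeff k f) := by
      unfold l1
      rw [support_neg]
      refine Finset.sum_congr rfl fun i _ => ?_
      rw [coeff_neg]
      push_cast
      rw [abs_neg]
    rw [h2, natDegree_neg]
    exact h k

lemma coeff_yg_pow (γ b : Fin 4 → ℤ) (n k : ℕ) :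
    PowerSeries.coeff k (yg γ b ^ n) = (n.choose k : ℤ[X]) * X ^ (n - k) * (4 * G γ b) ^ k := by
  unfold yg
  rw [add_comm, add_pow]
  rw [map_sum]
  by_cases hk : k ≤ n
  · rw [Finset.sum_eq_single_of_mem k (Finset.mem_range.mpr (by omega))]
    · rw [mul_pow, ← map_pow, ← map_pow]
      have : (PowerSeries.C ((4 * G γ b) ^ k) * PowerSeries.X ^ k *
          PowerSeries.C ((X : ℤ[X]) ^ (n - k)) * ((n.choose k : ℕ) : PowerSeries ℤ[X])) =
          PowerSeries.C ((n.choose k : ℤ[X]) * X ^ (n - k) * (4 * G γ b) ^ k) *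
            PowerSeries.X ^ k := by
        rw [map_mul, map_mul, map_natCast]
        ring
      rw [this, PowerSeries.coeff_C_mul, PowerSeries.coeff_X_pow_self, mul_one]
    · intro j hj hjk
      rw [mul_pow, ← map_pow, ← map_pow]
      have : (PowerSeries.C ((4 * G γ b) ^ j) * PowerSeries.X ^ j *
          PowerSeries.C ((X : ℤ[X]) ^ (n - j)) * ((n.choose j : ℕ) : PowerSeries ℤ[X])) =
          PowerSeries.C ((n.choose j : ℤ[X]) * X ^ (n - j) * (4 * G γ b) ^ j) *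
            PowerSeries.X ^ j := by
        rw [map_mul, map_mul, map_natCast]
        ring
      rw [this, PowerSeries.coeff_C_mul, PowerSeries.coeff_X_pow, if_neg (Ne.symm hjk), mul_zero]
  · rw [Nat.choose_eq_zero_of_lt (by omega)]
    simp only [Nat.cast_zero, zero_mul]
    apply Finset.sum_eq_zero
    intro j hj
    rw [Finset.mem_range] at hj
    rw [mul_pow, ← map_pow, ← map_pow]
    have : (PowerSeries.C ((4 * G γ b) ^ j) * PowerSeries.X ^ j *
        PowerSeries.C ((X : ℤ[X]) ^ (n - j)) * ((n.choose j : ℕ) : PowerSeries ℤ[X])) =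
        PowerSeries.C ((n.choose j : ℤ[X]) * X ^ (n - j) * (4 * G γ b) ^ j) *
          PowerSeries.X ^ j := by
      rw [map_mul, map_mul, map_natCast]
      ring
    rw [this, PowerSeries.coeff_C_mul, PowerSeries.coeff_X_pow, if_neg (by omega), mul_zero]

lemma Bd_yg_pow (γ b : Fin 4 → ℤ) (n : ℕ) : Bd (yg γ b ^ n) (2 ^ n) (c0 γ b) n := by
  intro k
  rw [coeff_yg_pow]
  have hc := one_le_c0 γ b
  constructor
  · have h1 : l1 (4 * G γ b) ≤ c0 γ b := by
      refine (l1_mul _ _).trans ?_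
      have : l1 (4 : ℤ[X]) = 4 := by
        have : (4 : ℤ[X]) = C 4 := by simp
        rw [this, l1_C]; norm_num
      rw [this]
      exact four_l1_G_le γ b
    have h2 : l1 ((n.choose k : ℤ[X])) ≤ 2 ^ n := by
      have : (n.choose k : ℤ[X]) = C (n.choose k : ℤ) := by simp
      rw [this, l1_C]
      push_cast
      rw [abs_of_nonneg (by positivity)]
      exact_mod_cast Nat.choose_le_two_pow _ _
    have h3 : l1 ((X : ℤ[X]) ^ (n - k)) ≤ 1 := by
      refine (l1_pow _ _).trans ?_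
      rw [l1_X, one_pow]
    calc l1 ((n.choose k : ℤ[X]) * X ^ (n - k) * (4 * G γ b) ^ k)
        ≤ l1 ((n.choose k : ℤ[X]) * X ^ (n - k)) * l1 ((4 * G γ b) ^ k) := l1_mul _ _
      _ ≤ (l1 ((n.choose k : ℤ[X])) * l1 ((X : ℤ[X]) ^ (n - k))) * (l1 (4 * G γ b)) ^ k :=
          mul_le_mul (l1_mul _ _) (l1_pow _ _) (l1_nonneg _)
            (mul_nonneg (l1_nonneg _) (l1_nonneg _))
      _ ≤ (2 ^ n * 1) * (c0 γ b) ^ k := by
          have := l1_nonneg (4 * G γ b)
          have := l1_nonneg ((X : ℤ[X]) ^ (n - k))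
          gcongr
      _ = _ := by ring
  · by_cases hk : k ≤ n
    · refine natDegree_mul_le.trans ?_
      have h1 : ((n.choose k : ℤ[X]) * X ^ (n - k)).natDegree ≤ n - k := by
        refine natDegree_mul_le.trans ?_
        rw [natDegree_natCast, natDegree_X_pow, zero_add]
      have h2 : ((4 * G γ b) ^ k).natDegree ≤ 4 * k := by
        refine natDegree_pow_le.trans ?_
        have h3 : (4 * G γ b).natDegree ≤ 4 := by
          refine natDegree_mul_le.trans ?_
          have : (4 : ℤ[X]) = C 4 := by simp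
          rw [this, natDegree_C, zero_add]
          exact natDegree_G_le γ b
        nlinarith
      omega
    · rw [Nat.choose_eq_zero_of_lt (by omega)]
      simp


lemma Bd_prod_wg (γ b : Fin 4 → ℤ) (s : Fin 4 → ℤ) (hs : ∀ i, s i = 1 ∨ s i = -1)
    (I : Finset (Fin 4)) :
    Bd (∏ i ∈ I, (s i : PowerSeries ℤ[X]) * wg γ b i) (c0 γ b ^ I.card)
      (2 ^ I.card * c0 γ b) I.card := by
  have hc := one_le_c0 γ b
  induction I using Finset.induction_on with
  | empty =>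
    rw [Finset.prod_empty, Finset.card_empty]
    exact Bd_one.mono (by simp) (by simp) (by simpa using hc) (by norm_num) le_rfl
  | insert a I ha ih =>
    rw [Finset.prod_insert ha, Finset.card_insert_of_notMem ha, mul_comm]
    have h1 : Bd ((s a : PowerSeries ℤ[X]) * wg γ b a) (c0 γ b) (2 ^ I.card * c0 γ b) 1 := by
      refine (Bd_int_mul (Bd_wg γ b a) (hs a)).mono le_rfl (by linarith) ?_ (by linarith) le_rfl
      have : (1 : ℝ) ≤ 2 ^ I.card := one_le_pow₀ (by norm_num)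
      nlinarith
    have h2 := ih.mul h1 (by positivity) (by linarith) (by positivity)
    convert h2 using 1
    rw [pow_succ]
    ring

/-- the columns of the linear system -/
noncomputable def colf (γ b : Fin 4 → ℤ) (s : Fin 4 → ℤ) (I : Finset (Fin 4)) (a b' : ℕ) :
    PowerSeries ℤ[X] :=
  PowerSeries.C ((X : ℤ[X]) ^ a) * (yg γ b ^ b' * ∏ i ∈ I, (s i : PowerSeries ℤ[X]) * wg γ b i)

lemma Bd_colf (γ b : Fin 4 → ℤ) (s : Fin 4 → ℤ) (hs : ∀ i, s i = 1 ∨ s i = -1)
    (I : Finset (Fin 4)) (a b' : ℕ) :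
    Bd (colf γ b s I a b') (2 ^ b' * c0 γ b ^ 4) (32 * c0 γ b) (a + (b' + 4)) := by
  have hc := one_le_c0 γ b
  have hI : I.card ≤ 4 := by
    calc I.card ≤ (Finset.univ : Finset (Fin 4)).card := Finset.card_le_card (Finset.subset_univ _)
      _ = 4 := by simp
  have h1 : Bd (∏ i ∈ I, (s i : PowerSeries ℤ[X]) * wg γ b i) (c0 γ b ^ 4)
      (16 * c0 γ b) 4 := by
    refine (Bd_prod_wg γ b s hs I).mono (pow_le_pow_right₀ hc hI) (by positivity) ?_
      (by positivity) hI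
    have : (2 : ℝ) ^ I.card ≤ 2 ^ 4 := pow_le_pow_right₀ (by norm_num) hI
    norm_num at this
    gcongr
  have h2 : Bd (yg γ b ^ b') (2 ^ b') (16 * c0 γ b) b' :=
    (Bd_yg_pow γ b b').mono le_rfl (by positivity) (by linarith) (by linarith) le_rfl
  have h3 := h2.mul h1 (by positivity) (by positivity) (by positivity)
  intro k
  unfold colf
  rw [PowerSeries.coeff_C_mul]
  obtain ⟨h4, h5⟩ := h3 k
  constructor
  · refine (l1_mul _ _).trans ?_
    have h6 : l1 ((X : ℤ[X]) ^ a) ≤ 1 := by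
      refine (l1_pow _ _).trans ?_
      rw [l1_X, one_pow]
    calc l1 ((X : ℤ[X]) ^ a) *
          l1 (PowerSeries.coeff k (yg γ b ^ b' * ∏ i ∈ I, (s i : PowerSeries ℤ[X]) * wg γ b i))
        ≤ 1 * (2 ^ b' * c0 γ b ^ 4 * (2 * (16 * c0 γ b)) ^ k) :=
          mul_le_mul h6 h4 (l1_nonneg _) (by norm_num)
      _ = 2 ^ b' * c0 γ b ^ 4 * (32 * c0 γ b) ^ k := by
          rw [one_mul]
          congr 2
          ring
  · refine natDegree_mul_le.trans ?_
    rw [natDegree_X_pow]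
    omega

/-- rows -/
abbrev Row (L1 L2 K : ℕ) : Type :=
  Σ (j : Fin 5), Σ (k : Fin (kap j * K)), Fin (L1 + L2 + 3 + 3 * (k : ℕ))

lemma card_inner (L N : ℕ) :
    ∑ k : Fin N, (L + 3 + 3 * (k : ℕ)) = N * (L + 3) + 3 * (∑ k ∈ Finset.range N, k) := by
  rw [Finset.sum_add_distrib, ← Finset.mul_sum, Fin.sum_univ_eq_sum_range (fun k => k) N]
  simp

lemma card_row (L1 L2 K : ℕ) :
    Fintype.card (Row L1 L2 K) = 8 * K * (L1 + L2) + 30 * K ^ 2 + 12 * K := by
  rw [Fintype.card_sigma]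
  simp only [Fintype.card_sigma, Fintype.card_fin, card_inner]
  rw [Fin.sum_univ_five]
  have h0 : kap 0 = 1 := by decide
  have h1 : kap 1 = 1 := by decide
  have h2 : kap 2 = 1 := by decide
  have h3 : kap 3 = 1 := by decide
  have h4 : kap 4 = 4 := by decide
  rw [h0, h1, h2, h3, h4]
  have e1 := Finset.sum_range_id_mul_two (1 * K)
  have e2 := Finset.sum_range_id_mul_two (4 * K)
  rcases K with _ | K
  · simp
  have e3 : (1 * (K + 1)) * (1 * (K + 1) - 1) = (K + 1) * K := by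
    rw [one_mul, Nat.add_sub_cancel]
  have e4 : (4 * (K + 1)) * (4 * (K + 1) - 1) = 4 * (K + 1) * (4 * K + 3) := by
    congr 1
  rw [e3] at e1
  rw [e4] at e2
  nlinarith

/-- entries -/
noncomputable def mat (γ b : Fin 4 → ℤ) (L1 L2 K : ℕ) :
    Matrix (Row L1 L2 K) (Finset (Fin 4) × Fin L1 × Fin L2) ℤ :=
  fun r c => (PowerSeries.coeff (r.2.1 : ℕ) (colf γ b (sgn r.1) c.1 c.2.1 c.2.2)).coeff
    (r.2.2 : ℕ)

lemma sgn_eq (j : Fin 5) (i : Fin 4) : sgn j i = 1 ∨ sgn j i = -1 := by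
  unfold sgn
  split_ifs
  · right; rfl
  · left; rfl

lemma kap_le (j : Fin 5) : kap j ≤ 4 := by
  unfold kap
  split_ifs <;> omega

/-- the final constant -/
noncomputable def C0 (γ b : Fin 4 → ℤ) : ℝ := 2 * c0 γ b ^ 4 * (32 * c0 γ b) ^ 4

lemma one_le_C0 (γ b : Fin 4 → ℤ) : 1 ≤ C0 γ b := by
  unfold C0
  have hc := one_le_c0 γ b
  have h1 : (1 : ℝ) ≤ c0 γ b ^ 4 := one_le_pow₀ hc
  have h2 : (1 : ℝ) ≤ (32 * c0 γ b) ^ 4 := one_le_pow₀ (by linarith)
  nlinarith

lemma entry_le (γ b : Fin 4 → ℤ) (L1 L2 K : ℕ) (hL2 : 0 < L2)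
    (r : Row L1 L2 K) (c : Finset (Fin 4) × Fin L1 × Fin L2) :
    |((mat γ b L1 L2 K r c : ℤ) : ℝ)| ≤ C0 γ b ^ (L2 + K) := by
  have hc := one_le_c0 γ b
  unfold mat
  refine (coeff_le_l1 _ _).trans ?_
  refine (Bd_colf γ b (sgn r.1) (sgn_eq r.1) c.1 c.2.1 c.2.2 r.2.1).1.trans ?_
  have hk : (r.2.1 : ℕ) ≤ 4 * K := by
    have h1 := r.2.1.isLt
    have h2 := kap_le r.1
    have h3 : kap r.1 * K ≤ 4 * K := Nat.mul_le_mul_right _ h2
    omega
  have hb : (c.2.2 : ℕ) ≤ L2 := c.2.2.isLt.le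
  have h32 : (1 : ℝ) ≤ 32 * c0 γ b := by linarith
  have h4 : (1 : ℝ) ≤ c0 γ b ^ 4 := one_le_pow₀ hc
  calc (2 : ℝ) ^ (c.2.2 : ℕ) * c0 γ b ^ 4 * (32 * c0 γ b) ^ (r.2.1 : ℕ)
      ≤ 2 ^ L2 * (c0 γ b ^ 4) ^ L2 * (32 * c0 γ b) ^ (4 * K) := by
        have e1 : (2 : ℝ) ^ (c.2.2 : ℕ) ≤ 2 ^ L2 := pow_le_pow_right₀ (by norm_num) hb
        have e2 : c0 γ b ^ 4 ≤ (c0 γ b ^ 4) ^ L2 := le_self_pow₀ h4 hL2.ne'
        have e3 : (32 * c0 γ b) ^ (r.2.1 : ℕ) ≤ (32 * c0 γ b) ^ (4 * K) :=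
          pow_le_pow_right₀ h32 hk
        gcongr
    _ = (2 * c0 γ b ^ 4) ^ L2 * ((32 * c0 γ b) ^ 4) ^ K := by
        rw [mul_pow 2 (c0 γ b ^ 4) L2, ← pow_mul (32 * c0 γ b) 4 K]
    _ ≤ C0 γ b ^ L2 * C0 γ b ^ K := by
        unfold C0
        have e1 : (1 : ℝ) ≤ (32 * c0 γ b) ^ 4 := one_le_pow₀ h32
        have e2 : (1 : ℝ) ≤ 2 * c0 γ b ^ 4 := by linarith
        have e3 : 2 * c0 γ b ^ 4 ≤ 2 * c0 γ b ^ 4 * (32 * c0 γ b) ^ 4 :=
          le_mul_of_one_le_right (by linarith) e1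
        have e4 : (32 * c0 γ b) ^ 4 ≤ 2 * c0 γ b ^ 4 * (32 * c0 γ b) ^ 4 :=
          le_mul_of_one_le_left (by linarith) e2
        gcongr
    _ = C0 γ b ^ (L2 + K) := by rw [pow_add]

/-- The unknown polynomials. -/
noncomputable def cpoly (L1 L2 : ℕ) (t : Finset (Fin 4) × Fin L1 × Fin L2 → ℤ)
    (I : Finset (Fin 4)) : ℤ[X][X] :=
  ofFn L2 (fun b' : Fin L2 => ofFn L1 (fun a : Fin L1 => t (I, a, b')))

lemma ev2_cpoly (γ b : Fin 4 → ℤ) (L1 L2 : ℕ) (t : Finset (Fin 4) × Fin L1 × Fin L2 → ℤ)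
    (I : Finset (Fin 4)) :
    ev2 xg (yg γ b) (cpoly L1 L2 t I) =
      ∑ b' : Fin L2, ∑ a : Fin L1,
        PowerSeries.C (C (t (I, a, b'))) * PowerSeries.C ((X : ℤ[X]) ^ (a : ℕ)) *
          yg γ b ^ (b' : ℕ) := by
  unfold cpoly ev2
  rw [ofFn_eq_sum_monomial, map_sum]
  refine Finset.sum_congr rfl fun b' _ => ?_
  rw [coe_eval₂RingHom, eval₂_monomial, ofFn_eq_sum_monomial, map_sum, Finset.sum_mul]
  refine Finset.sum_congr rfl fun a _ => ?_
  rw [coe_eval₂RingHom, eval₂_monomial]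
  unfold xg
  rw [map_pow]
  congr 2
  simp

lemma Fev_cpoly (γ b : Fin 4 → ℤ) (s : Fin 4 → ℤ) (L1 L2 : ℕ)
    (t : Finset (Fin 4) × Fin L1 × Fin L2 → ℤ) :
    Fev (cpoly L1 L2 t) xg (yg γ b) (fun i => (s i : PowerSeries ℤ[X]) * wg γ b i) =
      ∑ c : Finset (Fin 4) × Fin L1 × Fin L2,
        PowerSeries.C (C (t c)) * colf γ b s c.1 c.2.1 c.2.2 := by
  unfold Fev
  rw [Fintype.sum_prod_type]
  refine Finset.sum_congr rfl fun I _ => ?_
  rw [Fintype.sum_prod_type_right, ev2_cpoly, Finset.sum_mul]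
  refine Finset.sum_congr rfl fun b' _ => ?_
  rw [Finset.sum_mul]
  refine Finset.sum_congr rfl fun a _ => ?_
  unfold colf
  ring

lemma natDegree_coeff_colf (γ b : Fin 4 → ℤ) (s : Fin 4 → ℤ) (hs : ∀ i, s i = 1 ∨ s i = -1)
    (L1 L2 : ℕ) (I : Finset (Fin 4)) (a : Fin L1) (b' : Fin L2) (k r : ℕ)
    (hr : L1 + L2 + 3 + 3 * k ≤ r) :
    (PowerSeries.coeff k (colf γ b s I a b')).coeff r = 0 := by
  apply coeff_eq_zero_of_natDegree_lt
  have h1 := (Bd_colf γ b s hs I a b' k).2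
  have := a.isLt
  have := b'.isLt
  omega

end BlockD

open BlockD in
/-- BLOCK D (Siegel's lemma for the auxiliary function). -/
theorem blockD (γ b : Fin 4 → ℤ) : ∃ C0 : ℝ, 1 ≤ C0 ∧ ∀ L1 L2 K m n : ℕ, 0 < K → 0 < L1 → 0 < L2 →
    m = 8 * K * (L1 + L2) + 30 * K ^ 2 + 12 * K → n = 16 * L1 * L2 → m < n →
    ∃ c : Finset (Fin 4) → ℤ[X][X], c ≠ 0 ∧
      (∀ I, (c I).natDegree < L2) ∧ (∀ I j, ((c I).coeff j).natDegree < L1) ∧
      (∀ j : Fin 5, Vanishes γ b c (sgn j) (kap j * K)) ∧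
      ∀ I j i, |((((c I).coeff j).coeff i : ℤ) : ℝ)| ≤
        ((n : ℝ) * C0 ^ (L2 + K)) ^ ((m : ℝ) / ((n : ℝ) - (m : ℝ))) := by
  refine ⟨BlockD.C0 γ b, one_le_C0 γ b, ?_⟩
  intro L1 L2 K m n hK hL1 hL2 hm hn hmn
  have hrow : Fintype.card (Row L1 L2 K) = m := by rw [card_row, hm]
  have hcol : Fintype.card (Finset (Fin 4) × Fin L1 × Fin L2) = n := by
    rw [Fintype.card_prod, Fintype.card_prod, Fintype.card_fin, Fintype.card_fin,
      Fintype.card_finset, Fintype.card_fin, hn]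
    ring
  have hm0 : 0 < m := by
    rw [hm]
    positivity
  obtain ⟨t, ht0, htA, htn⟩ := Int.Matrix.exists_ne_zero_int_vec_norm_le (mat γ b L1 L2 K)
    (by rw [hrow, hcol]; exact hmn) (by rw [hrow]; exact hm0)
  rw [hrow, hcol] at htn
  have hC := one_le_C0 γ b
  have hCp : (1 : ℝ) ≤ BlockD.C0 γ b ^ (L2 + K) := one_le_pow₀ hC
  let _ := Matrix.seminormedAddCommGroup (m := Row L1 L2 K)
    (n := Finset (Fin 4) × Fin L1 × Fin L2) (α := ℤ)
  have hA : ‖mat γ b L1 L2 K‖ ≤ BlockD.C0 γ b ^ (L2 + K) := by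
    rw [Matrix.norm_le_iff (by linarith)]
    intro r c
    rw [Int.norm_eq_abs]
    exact entry_le γ b L1 L2 K hL2 r c
  have hmnR : (m : ℝ) < n := by exact_mod_cast hmn
  have htn' : ‖t‖ ≤ ((n : ℝ) * BlockD.C0 γ b ^ (L2 + K)) ^ ((m : ℝ) / ((n : ℝ) - (m : ℝ))) := by
    refine htn.trans ?_
    apply Real.rpow_le_rpow (by positivity) _ (div_nonneg (by positivity) (by linarith))
    apply mul_le_mul_of_nonneg_left _ (by positivity)
    exact max_le hCp hA
  refine ⟨cpoly L1 L2 t, ?_, ?_, ?_, ?_, ?_⟩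
  · -- nonzero
    intro h0
    apply ht0
    funext c
    obtain ⟨I, a, b'⟩ := c
    have h1 := congrFun h0 I
    have h2 : ((cpoly L1 L2 t I).coeff b').coeff a = t (I, a, b') := by
      unfold cpoly
      rw [ofFn_coeff_eq_val_of_lt _ b'.isLt, ofFn_coeff_eq_val_of_lt _ a.isLt]
    rw [← h2, h1]
    simp
  · intro I
    exact ofFn_natDegree_lt hL2 _
  · intro I j
    by_cases hj : j < L2
    · unfold cpoly
      rw [ofFn_coeff_eq_val_of_lt _ hj]
      exact ofFn_natDegree_lt hL1 _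
    · unfold cpoly
      rw [ofFn_coeff_eq_zero_of_ge _ (not_lt.mp hj), natDegree_zero]
      exact hL1
  · intro j
    unfold Vanishes
    rw [PowerSeries.X_pow_dvd_iff]
    intro k hk
    rw [Fev_cpoly, map_sum]
    ext r
    rw [finsetSum_coeff, coeff_zero]
    have hterm : ∀ c : Finset (Fin 4) × Fin L1 × Fin L2,
        (PowerSeries.coeff k (PowerSeries.C (C (t c)) *
          colf γ b (sgn j) c.1 c.2.1 c.2.2)).coeff r =
        t c * (PowerSeries.coeff k (colf γ b (sgn j) c.1 c.2.1 c.2.2)).coeff r := by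
      intro c
      rw [PowerSeries.coeff_C_mul, coeff_C_mul]
    rw [Finset.sum_congr rfl fun c _ => hterm c]
    by_cases hr : r < L1 + L2 + 3 + 3 * k
    · have h1 := congrFun htA ⟨j, ⟨k, hk⟩, ⟨r, hr⟩⟩
      rw [Matrix.mulVec, dotProduct, Pi.zero_apply] at h1
      rw [← h1]
      refine Finset.sum_congr rfl fun c _ => ?_
      unfold mat
      rw [mul_comm]
    · apply Finset.sum_eq_zero
      intro c _
      rw [natDegree_coeff_colf γ b (sgn j) (sgn_eq j) L1 L2 c.1 c.2.1 c.2.2 k r (not_lt.mp hr),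
        mul_zero]
  · intro I j i
    have h0 : (0 : ℝ) ≤ ((n : ℝ) * BlockD.C0 γ b ^ (L2 + K)) ^
        ((m : ℝ) / ((n : ℝ) - (m : ℝ))) := by positivity
    by_cases hj : j < L2
    · by_cases hi : i < L1
      · have h2 : ((cpoly L1 L2 t I).coeff j).coeff i = t (I, ⟨i, hi⟩, ⟨j, hj⟩) := by
          unfold cpoly
          rw [ofFn_coeff_eq_val_of_lt _ hj, ofFn_coeff_eq_val_of_lt _ hi]
        rw [h2]
        refine le_trans ?_ htn'
        rw [← Int.norm_eq_abs]
        exact norm_le_pi_norm t _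
      · have h2 : ((cpoly L1 L2 t I).coeff j).coeff i = 0 := by
          unfold cpoly
          rw [ofFn_coeff_eq_val_of_lt _ hj, ofFn_coeff_eq_zero_of_ge _ (not_lt.mp hi)]
        rw [h2]
        simpa using h0
    · have h2 : ((cpoly L1 L2 t I).coeff j).coeff i = 0 := by
        unfold cpoly
        rw [ofFn_coeff_eq_zero_of_ge _ (not_lt.mp hj), coeff_zero]
      rw [h2]
      simpa using h0

end Pool.Agent.Work.MP_36d6be_co_V
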