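import Pool.Agent.Work.MP_36d6be_co_V.Defs
import Mathlib.RingTheory.PowerSeries.Catalan

/-!
The power series `sq` is a square root of `1 + 4 X`, and consequences on the generic point.
-/

set_option autoImplicit false

namespace Pool.Agent.Work.MP_36d6be_co_V.BlockE

open Polynomial

theorem sqc_succ (n : ℕ) : sqc (n + 1) = (-1) ^ n * 2 * catalan n := rfl

theorem sq_sq : sq ^ 2 = 1 + 4 * (PowerSeries.X : PowerSeries ℤ) := by
  set A : PowerSeries ℤ := PowerSeries.mk (fun n => (-1) ^ n * (catalan n : ℤ)) with hA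
  have h1 : sq = 1 + 2 * (PowerSeries.X * A) := by
    ext n
    cases n with
    | zero => simp [sq, sqc]
    | succ n =>
      have : (2 : PowerSeries ℤ) = PowerSeries.C 2 := (map_ofNat _ 2).symm
      rw [this, map_add, PowerSeries.coeff_C_mul, PowerSeries.coeff_succ_X_mul]
      simp [sq, sqc, hA, PowerSeries.coeff_one]
      ring
  have h2 : A + PowerSeries.X * A ^ 2 = 1 := by
    ext n
    cases n with
    | zero => simp [hA]
    | succ n =>
      rw [map_add, PowerSeries.coeff_succ_X_mul, pow_two, PowerSeries.coeff_mul,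
        PowerSeries.coeff_one, if_neg (Nat.succ_ne_zero n)]
      have h3 : ∀ ij ∈ Finset.HasAntidiagonal.antidiagonal n, PowerSeries.coeff ij.1 A * PowerSeries.coeff ij.2 A
          = (-1) ^ n * ((catalan ij.1 * catalan ij.2 : ℕ) : ℤ) := by
        intro ij hij
        rw [Finset.HasAntidiagonal.mem_antidiagonal] at hij
        simp only [hA, PowerSeries.coeff_mk]
        rw [← hij, pow_add]
        push_cast
        ring
      rw [Finset.sum_congr rfl h3, ← Finset.mul_sum, ← Nat.cast_sum, ← catalan_succ']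
      simp only [hA, PowerSeries.coeff_mk]
      ring
  rw [h1]
  linear_combination (4 * PowerSeries.X) * h2

section

variable (γ b : Fin 4 → ℤ)

theorem G_mul (i : Fin 4) : C (γ i) * G γ b = g γ b i * u γ b i := by
  unfold G u
  rw [← Finset.mul_prod_erase Finset.univ (g γ b) (Finset.mem_univ i)]
  ring

theorem eval₂_xg (p : ℤ[X]) :
    p.eval₂ (Int.castRingHom (PowerSeries ℤ[X])) xg = PowerSeries.C p := by
  have : eval₂RingHom (Int.castRingHom (PowerSeries ℤ[X])) xg =
      (PowerSeries.C : ℤ[X] →+* PowerSeries ℤ[X]) := by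
    apply Polynomial.ringHom_ext'
    · exact RingHom.ext_int _ _
    · simp [xg]
  exact congrArg (fun f => f p) this

theorem eval₂_g {R : Type*} [CommRing R] (y : R) (i : Fin 4) :
    (g γ b i).eval₂ (Int.castRingHom R) y = γ i * (y - b i) := by
  rw [g, eval₂_mul, eval₂_sub, eval₂_C, eval₂_X, eval₂_C]
  simp

theorem wg_sq (i : Fin 4) : wg γ b i ^ 2 =
    (g γ b i).eval₂ (Int.castRingHom (PowerSeries ℤ[X])) xg *
      (g γ b i).eval₂ (Int.castRingHom (PowerSeries ℤ[X])) (yg γ b) := by
  have h1 : PowerSeries.rescale (u γ b i) (PowerSeries.map (C : ℤ →+* ℤ[X]) sq) ^ 2 =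
      1 + 4 * (PowerSeries.C (u γ b i) * PowerSeries.X) := by
    rw [← map_pow, ← map_pow, sq_sq]
    rw [map_add, map_add, map_mul, map_mul, map_one, map_one, map_ofNat, map_ofNat,
      PowerSeries.map_X, PowerSeries.rescale_X]
  rw [wg, mul_pow, h1, eval₂_xg, eval₂_g]
  have h2 : (γ i : PowerSeries ℤ[X]) * (yg γ b - (b i : PowerSeries ℤ[X])) =
      PowerSeries.C (g γ b i) * (1 + 4 * (PowerSeries.C (u γ b i) * PowerSeries.X)) := by
    have e1 : (γ i : PowerSeries ℤ[X]) = PowerSeries.C (C (γ i)) := by simp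
    have e2 : (b i : PowerSeries ℤ[X]) = PowerSeries.C (C (b i)) := by simp
    have e3 : (4 : PowerSeries ℤ[X]) = PowerSeries.C (4 : ℤ[X]) := (map_ofNat _ 4).symm
    have e4 : PowerSeries.C (C (γ i)) * PowerSeries.C (G γ b) =
      PowerSeries.C (g γ b i) * PowerSeries.C (u γ b i) := by
      rw [← map_mul, ← map_mul, G_mul]
    have e5 : PowerSeries.C (g γ b i) =
        PowerSeries.C (C (γ i)) * (PowerSeries.C (X : ℤ[X]) - PowerSeries.C (C (b i))) := by
      rw [g, map_mul, map_sub]
    rw [e1, e2, e3, yg, map_mul]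
    have e6 : (PowerSeries.C (4 : ℤ[X]) : PowerSeries ℤ[X]) = 4 := map_ofNat _ 4
    rw [e6]
    linear_combination (4 * PowerSeries.X) * e4 - e5
  rw [h2]
  ring

end

end Pool.Agent.Work.MP_36d6be_co_V.BlockE
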