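import Pool.Agent.Work.MP_36d6be_co_V.EMul
import Pool.Agent.Work.MP_36d6be_co_V.ESqrt

/-!
Block E: the norm of the auxiliary function, divided by a power of the diagonal.
-/

set_option autoImplicit false

namespace Pool.Agent.Work.MP_36d6be_co_V

open Polynomial

namespace BlockE

variable (γ b : Fin 4 → ℤ)

theorem ev2_generic (P : ℤ[X][X]) :
    ev2 xg (yg γ b) P = P.eval₂ (PowerSeries.C : ℤ[X] →+* PowerSeries ℤ[X]) (yg γ b) := by
  unfold ev2
  rw [coe_eval₂RingHom]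
  congr 1
  apply Polynomial.ringHom_ext'
  · exact RingHom.ext_int _ _
  · simp [xg]

theorem coeff_ev2_generic (P : ℤ[X][X]) (k : ℕ) :
    PowerSeries.coeff k (ev2 xg (yg γ b) P) = (P.comp (X + C X)).coeff k * (4 * G γ b) ^ k := by
  have h1 : ev2 xg (yg γ b) P = (P.comp (X + C X)).eval₂
      (PowerSeries.C : ℤ[X] →+* PowerSeries ℤ[X]) (PowerSeries.C (4 * G γ b) * PowerSeries.X) := by
    rw [eval₂_comp, ev2_generic]
    congr 1
    simp [yg]
    ring
  rw [h1, eval₂_eq_sum_range, map_sum]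
  have h2 : ∀ i ∈ Finset.range ((P.comp (X + C X)).natDegree + 1),
      PowerSeries.coeff k (PowerSeries.C ((P.comp (X + C X)).coeff i) *
        (PowerSeries.C (4 * G γ b) * PowerSeries.X) ^ i) =
      if k = i then (P.comp (X + C X)).coeff i * (4 * G γ b) ^ i else 0 := by
    intro i _
    rw [mul_pow, ← map_pow, ← mul_assoc, ← map_mul, PowerSeries.coeff_C_mul,
      PowerSeries.coeff_X_pow]
    split_ifs <;> simp
  rw [Finset.sum_congr rfl h2, Finset.sum_ite_eq]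
  split_ifs with h
  · rfl
  · have : (P.comp (X + C X)).coeff k = 0 := by
      apply coeff_eq_zero_of_natDegree_lt
      simpa using h
    rw [this, zero_mul]

theorem G_ne_zero (hγ : ∀ i, γ i ≠ 0) : G γ b ≠ 0 :=
  Finset.prod_ne_zero_iff.mpr fun i _ => g_ne_zero γ b hγ i

theorem dvd_of_generic (hγ : ∀ i, γ i ≠ 0) (P : ℤ[X][X]) (k : ℕ)
    (h : (PowerSeries.X : PowerSeries ℤ[X]) ^ k ∣ ev2 xg (yg γ b) P) :
    (X - C X) ^ k ∣ P := by
  rw [X_sub_C_pow_dvd_iff, X_pow_dvd_iff]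
  rw [PowerSeries.X_pow_dvd_iff] at h
  intro d hd
  have h1 := h d hd
  rw [coeff_ev2_generic] at h1
  refine (mul_eq_zero.mp h1).resolve_right (pow_ne_zero _ (mul_ne_zero ?_ (G_ne_zero γ b hγ)))
  have : (4 : ℤ[X]) = C 4 := (map_ofNat C 4).symm
  rw [this]
  exact C_ne_zero.mpr (by norm_num)

/-- the set of flipped signs -/
def fs (j : Fin 5) : Finset (Fin 4) := Finset.univ.filter fun i => sgn j i = -1

theorem fs_inj : Function.Injective fs := by
  unfold fs sgn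
  decide

theorem flp_fs {R : Type*} [CommRing R] (j : Fin 5) (w : Fin 4 → R) :
    flp (fs j) w = fun i => ((sgn j i : ℤ) : R) * w i := by
  funext i
  unfold flp fs
  simp only [Finset.mem_filter, Finset.mem_univ, true_and]
  unfold sgn
  split_ifs <;> simp_all

theorem generic_dvd (c : Finset (Fin 4) → ℤ[X][X]) (K : ℕ)
    (h : ∀ j : Fin 5, Vanishes γ b c (sgn j) (kap j * K)) :
    (PowerSeries.X : PowerSeries ℤ[X]) ^ (8 * K) ∣ ev2 xg (yg γ b) (nn γ b c ∅) := by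
  rw [ev2_nn γ b xg (yg γ b) (wg γ b) (fun i => by rw [wg_sq, ev2_dd]) c]
  have h1 : ∏ I ∈ Finset.univ.image fs, Fev c xg (yg γ b) (flp I (wg γ b)) ∣
      ∏ I : Finset (Fin 4), Fev c xg (yg γ b) (flp I (wg γ b)) :=
    Finset.prod_dvd_prod_of_subset _ _ _ (Finset.subset_univ _)
  refine dvd_trans ?_ h1
  rw [Finset.prod_image fun a _ b _ hab => fs_inj hab]
  have h2 : (PowerSeries.X : PowerSeries ℤ[X]) ^ (8 * K) =
      ∏ j : Fin 5, (PowerSeries.X : PowerSeries ℤ[X]) ^ (kap j * K) := by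
    rw [Finset.prod_pow_eq_pow_sum]
    congr 1
    simp [Fin.sum_univ_succ, kap]
    ring
  rw [h2]
  apply Finset.prod_dvd_prod_of_dvd
  intro j _
  have := h j
  unfold Vanishes at this
  rwa [flp_fs]

theorem l1_comp_le {A : Type*} [CommRing A] {f : A → ℝ} (hf : SN f) (p q : A[X]) (E : ℝ)
    (h : l1 f q ≤ E) (h1 : 1 ≤ E) (n : ℕ) (hn : p.natDegree ≤ n) :
    l1 f (p.comp q) ≤ l1 f p * E ^ n := by
  rw [comp_eq_sum_left, sum_def]
  refine (l1_sum hf _ _).trans ?_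
  have h0 : l1 f p = ∑ i ∈ p.support, f (p.coeff i) := rfl
  rw [h0, Finset.sum_mul]
  apply Finset.sum_le_sum
  intro i hi
  refine (l1_mul hf _ _).trans ?_
  rw [l1_C hf]
  apply mul_le_mul_of_nonneg_left _ (hf.nonneg _)
  refine (hf.l1.pow _ _).trans ?_
  refine (pow_le_pow_left₀ (l1_nonneg hf _) h _).trans ?_
  exact pow_le_pow_right₀ h1 ((le_natDegree_of_mem_supp _ hi).trans hn)

theorem n1_X : n1 (X : ℤ[X]) ≤ 1 := l1_X nz_sn

theorem n2_quot (M : ℤ[X][X]) (k n : ℕ)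
    (hM : ((X - C X : ℤ[X][X]) ^ k * M).natDegree ≤ n) :
    n2 M ≤ n2 ((X - C X) ^ k * M) * 4 ^ n := by
  have hX : l1 n1 (X + C X : ℤ[X][X]) ≤ 2 := by
    refine (l1_add n1_sn _ _).trans ?_
    rw [l1_C n1_sn]
    have := l1_X n1_sn
    have := n1_X
    linarith
  have hX' : l1 n1 (X - C X : ℤ[X][X]) ≤ 2 := by
    rw [sub_eq_add_neg]
    refine (l1_add n1_sn _ _).trans ?_
    rw [l1_neg n1_sn, l1_C n1_sn]
    have := l1_X n1_sn
    have := n1_X
    linarith
  by_cases hM0 : M = 0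
  · subst hM0
    have : n2 (0 : ℤ[X][X]) = 0 := n2_sn.zero
    rw [mul_zero, this, zero_mul]
  have hdeg : M.natDegree ≤ n := by
    refine le_trans ?_ hM
    rw [natDegree_mul (pow_ne_zero _ (X_sub_C_ne_zero _)) hM0]
    omega
  have e1 : M = (M.comp (X + C X)).comp (X - C X) := by
    rw [comp_assoc]
    simp
  have hdeg2 : (M.comp (X + C X)).natDegree ≤ n := by
    rw [natDegree_comp]
    simpa using hdeg
  have e2 : ((X - C X : ℤ[X][X]) ^ k * M).comp (X + C X) = X ^ k * M.comp (X + C X) := by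
    rw [mul_comp, pow_comp]
    simp
  have h1 : n2 M ≤ n2 (M.comp (X + C X)) * 2 ^ n := by
    conv_lhs => rw [e1]
    exact l1_comp_le n1_sn _ _ 2 hX' (by norm_num) n hdeg2
  have h2 : n2 (M.comp (X + C X)) ≤ n2 ((X - C X) ^ k * M) * 2 ^ n := by
    have : n2 (M.comp (X + C X)) = n2 (((X - C X : ℤ[X][X]) ^ k * M).comp (X + C X)) := by
      rw [e2]
      exact (l1_X_pow_mul _ k).symm
    rw [this]
    exact l1_comp_le n1_sn _ _ 2 hX (by norm_num) n hM
  calc n2 M ≤ n2 (M.comp (X + C X)) * 2 ^ n := h1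
    _ ≤ n2 ((X - C X) ^ k * M) * 2 ^ n * 2 ^ n := by gcongr
    _ = n2 ((X - C X) ^ k * M) * 4 ^ n := by
        have : (4 : ℝ) = 2 * 2 := by norm_num
        rw [this, mul_pow]
        ring

theorem size_le (L1 L2 B p q r : ℝ) (hp : 0 ≤ p) (hq : 0 ≤ q) (hr : 0 ≤ r) (h1 : 1 ≤ L1)
    (h2 : 1 ≤ L2) :
    16 * B + (16 * L1 + 16 * L2 + 16 * p + 15 * q + 60 * r + 16 * r * L2) ≤
      16 * B + (16 + 16 * p + 15 * q + 60 * r + 16 * r) * (L1 + L2) := by
  have a1 : p * 1 ≤ p * (L1 + L2) := mul_le_mul_of_nonneg_left (by linarith) hp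
  have a2 : q * 1 ≤ q * (L1 + L2) := mul_le_mul_of_nonneg_left (by linarith) hq
  have a3 : r * 1 ≤ r * (L1 + L2) := mul_le_mul_of_nonneg_left (by linarith) hr
  have a4 : r * L2 ≤ r * (L1 + L2) := mul_le_mul_of_nonneg_left (by linarith) hr
  linarith

theorem size_eq (L1 L2 : ℕ) (B k : ℝ) (hk : 1 ≤ k) :
    (16 * Real.exp L1 * Real.exp L2 * Real.exp B) ^ 16 * k ^ 15 * 4 ^ (16 * L2 + 60) =
      Real.exp (16 * B + (16 * L1 + 16 * L2 + 16 * Real.log 16 + 15 * Real.log k +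
            60 * Real.log 4 + 16 * Real.log 4 * L2)) := by
  have e1 : (16 * Real.exp L1 * Real.exp L2 * Real.exp B) =
      Real.exp (Real.log 16 + L1 + L2 + B) := by
    rw [Real.exp_add, Real.exp_add, Real.exp_add, Real.exp_log (by norm_num)]
  have e2 : ∀ (t : ℝ) (n : ℕ), (Real.exp t) ^ n = Real.exp (n * t) := fun t n =>
    (Real.exp_nat_mul t n).symm
  have e3 : k ^ 15 = Real.exp ((15 : ℕ) * Real.log k) := by
    rw [← e2, Real.exp_log (by linarith)]
  have e4 : ∀ n : ℕ, (4 : ℝ) ^ n = Real.exp (n * Real.log 4) := by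
    intro n
    rw [← e2, Real.exp_log (by norm_num)]
  rw [e1, e2, e3, e4, ← Real.exp_add, ← Real.exp_add]
  congr 1
  push_cast
  ring

end BlockE

open BlockE

/-- BLOCK E (the norm of the auxiliary function, divided by a power of the diagonal). -/
theorem blockE (γ b : Fin 4 → ℤ) (hγ : ∀ i, γ i ≠ 0) (hb : Function.Injective b) :
    ∃ C1 : ℝ, 1 ≤ C1 ∧ ∀ (L1 L2 K : ℕ) (c : Finset (Fin 4) → ℤ[X][X]) (B : ℝ), 0 ≤ B →
      c ≠ 0 → (∀ I, (c I).natDegree < L2) → (∀ I j, ((c I).coeff j).natDegree < L1) →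
      (∀ I j i, |((((c I).coeff j).coeff i : ℤ) : ℝ)| ≤ Real.exp B) →
      (∀ j : Fin 5, Vanishes γ b c (sgn j) (kap j * K)) →
      ∃ M : ℤ[X][X], M ≠ 0 ∧ M.natDegree + 8 * K ≤ 16 * L2 + 60 ∧
        (∀ j, (M.coeff j).natDegree ≤ 16 * L1 + 60) ∧
        (∀ i j, |(((M.coeff j).coeff i : ℤ) : ℝ)| ≤ Real.exp (16 * B + C1 * (L1 + L2))) ∧
        ∀ (R : Type) [CommRing R] (x y : R) (w : Fin 4 → R),
          (∀ i, w i ^ 2 = (g γ b i).eval₂ (Int.castRingHom R) x *
            (g γ b i).eval₂ (Int.castRingHom R) y) →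
          Fev c x y w ∣ (y - x) ^ (8 * K) * ev2 x y M := by
  have hc1 := one_le_cst γ b
  have hlc : 0 ≤ Real.log (cst γ b) := Real.log_nonneg hc1
  have hl4 : 0 ≤ Real.log 4 := Real.log_nonneg (by norm_num)
  have hl16 : 0 ≤ Real.log 16 := Real.log_nonneg (by norm_num)
  set C1 : ℝ := 16 + 16 * Real.log 16 + 15 * Real.log (cst γ b) + 60 * Real.log 4 +
    16 * Real.log 4 with hC1
  refine ⟨C1, by rw [hC1]; linarith, ?_⟩
  intro L1 L2 K c B hB hc hd2 hd1 hco hv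
  have hL2 : 0 < L2 := lt_of_le_of_lt (Nat.zero_le _) (hd2 ∅)
  have hL1 : 0 < L1 := lt_of_le_of_lt (Nat.zero_le _) (hd1 ∅ 0)
  have hN0 := nn_ne_zero γ b hγ hb c hc
  obtain ⟨M, hM⟩ := dvd_of_generic γ b hγ _ _ (generic_dvd γ b c K hv)
  have hM0 : M ≠ 0 := by
    rintro rfl
    exact hN0 (by rw [hM, mul_zero])
  have hX0 : (X - C X : ℤ[X][X]) ^ (8 * K) ≠ 0 := pow_ne_zero _ (X_sub_C_ne_zero _)
  have hDB : DB (16 * (L2 - 1) + 60) (16 * (L1 - 1) + 60) (nn γ b c ∅) := by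
    apply DB_nn
    intro I
    refine ⟨Nat.le_sub_one_of_lt (hd2 I), ?_⟩
    rw [← inner_iff]
    exact fun j => Nat.le_sub_one_of_lt (hd1 I j)
  have hdegN : (nn γ b c ∅).natDegree = 8 * K + M.natDegree := by
    rw [hM, natDegree_mul hX0 hM0, natDegree_pow, natDegree_X_sub_C, mul_one]
  refine ⟨M, hM0, ?_, ?_, ?_, ?_⟩
  · have := hDB.1
    omega
  · rw [inner_iff]
    have h1 := hDB.2
    rw [hM, map_mul, natDegree_mul] at h1
    · omega
    · exact (map_ne_zero_iff _ Bivariate.swap.injective).mpr hX0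
    · exact (map_ne_zero_iff _ Bivariate.swap.injective).mpr hM0
  · intro i j
    refine (coeff_le_n2 M j i).trans ?_
    have h1 : n2 M ≤ n2 (nn γ b c ∅) * 4 ^ (16 * L2 + 60) := by
      have := n2_quot M (8 * K) (16 * L2 + 60) (by
        rw [← hM]
        have := hDB.1
        omega)
      rwa [← hM] at this
    have h2 : nf c ≤ 16 * L1 * L2 * Real.exp B := by
      unfold nf
      calc ∑ I, n2 (c I) ≤ ∑ I : Finset (Fin 4), L1 * L2 * Real.exp B :=
            Finset.sum_le_sum fun I _ =>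
              n2_le_of_coeff (c I) L1 L2 _ (hd2 I) (hd1 I) (fun j i => hco I j i)
        _ = 16 * L1 * L2 * Real.exp B := by
            simp
            ring
    have h3 := n2_nn γ b c _ h2
    have hL1e : (L1 : ℝ) ≤ Real.exp L1 := by
      have := Real.add_one_le_exp (L1 : ℝ)
      linarith
    have hL2e : (L2 : ℝ) ≤ Real.exp L2 := by
      have := Real.add_one_le_exp (L2 : ℝ)
      linarith
    have hL1r : (1 : ℝ) ≤ L1 := by exact_mod_cast hL1
    have hL2r : (1 : ℝ) ≤ L2 := by exact_mod_cast hL2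
    calc n2 M ≤ n2 (nn γ b c ∅) * 4 ^ (16 * L2 + 60) := h1
      _ ≤ (16 * L1 * L2 * Real.exp B) ^ 16 * cst γ b ^ 15 * 4 ^ (16 * L2 + 60) := by gcongr
      _ ≤ (16 * Real.exp L1 * Real.exp L2 * Real.exp B) ^ 16 * cst γ b ^ 15 *
            4 ^ (16 * L2 + 60) := by gcongr
      _ = Real.exp (16 * B + (16 * L1 + 16 * L2 + 16 * Real.log 16 + 15 * Real.log (cst γ b) +
            60 * Real.log 4 + 16 * Real.log 4 * L2)) := size_eq L1 L2 B (cst γ b) hc1
      _ ≤ Real.exp (16 * B + C1 * (L1 + L2)) := by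
          apply Real.exp_le_exp.mpr
          exact size_le L1 L2 B _ _ _ hl16 hlc hl4 hL1r hL2r
  · intro R _ x y w hw
    have h1 := Fev_dvd γ b x y w (fun i => by rw [hw, ev2_dd]) c
    rw [hM, map_mul, map_pow, map_sub] at h1
    have e1 : ev2 x y (X : ℤ[X][X]) = y := by simp [ev2]
    have e2 : ev2 x y (C X : ℤ[X][X]) = x := by simp [ev2]
    rwa [e1, e2] at h1

end Pool.Agent.Work.MP_36d6be_co_V
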