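import Pool.Agent.Work.MP_36d6be_co_V.LocalF

/-!
Block C, conclusion.
-/

set_option autoImplicit false

namespace Pool.Agent.Work.MP_36d6be_co_V

open Finset

variable {γ b : Fin 4 → ℤ} {P P' : IPt γ b}

lemma m2_upper (i j : Fin 4) :
    m2 P P' i j ≤ Real.log 4 + 4 * lc2 γ b + 5 * hh P + hh P' / 2 := by
  obtain ⟨d, δ, t, hd, hδ, hD, hZ, hδγ, htpos, ht⟩ := split_den P'
  have p1 := P.hpos i
  have p2 := P.hpos j
  have p3 := htpos i
  have p4 := htpos j
  have hne : P.Z i * t j + P.Z j * t i ≠ 0 := by positivity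
  have hM : P.D * (P.D * (2 * P.Z i * P.Z j) * (P.Z i * t j + P.Z j * t i)) ≠ 0 := by
    have := P.hD
    positivity
  refine (mu_le P P' _ _ hM fun p hg hi => hg.pair hD hZ i j hi hne).trans ?_
  have hk : (P.D * (P.D * (2 * P.Z i * P.Z j) * (P.Z i * t j + P.Z j * t i))) ^ 2 ≤
      ((4 : ℕ) * c2 γ b ^ 4 * HH P ^ 5) ^ 2 * HH P' := by
    have c1 := c2_ge_one γ b
    have c4 := HH_ge_one P
    have c4' := HH_ge_one P'
    have a : ∀ r s : Fin 4, (P.Z r * t s) ^ 2 ≤ c2 γ b ^ 4 * HH P ^ 2 * HH P' := by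
      intro r s
      calc (P.Z r * t s) ^ 2 = P.Z r ^ 2 * t s ^ 2 := by ring
        _ ≤ (c2 γ b * HH P) ^ 2 * (c2 γ b ^ 2 * HH P') :=
            mul_le_mul (pow_le_pow_left₀ (P.hpos r).le (Z_le P r) 2)
              (t_le P' hδγ ht s) (by positivity) (by positivity)
        _ = _ := by ring
    have a3 := sq_add_le _ _ _ (a i j) (a j i)
    have a4 : (P.D * (P.D * (2 * P.Z i * P.Z j))) ^ 2 ≤ (2 * c2 γ b ^ 2 * HH P ^ 4) ^ 2 := by
      have hD' := P.hD
      apply pow_le_pow_left₀ (by positivity)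
      have a5 : 2 * P.Z i * P.Z j ≤ 2 * (c2 γ b * HH P) * (c2 γ b * HH P) :=
        mul_le_mul (by linarith [Z_le P i]) (Z_le P j) p2.le (by positivity)
      calc P.D * (P.D * (2 * P.Z i * P.Z j))
          ≤ HH P * (HH P * (2 * (c2 γ b * HH P) * (c2 γ b * HH P))) :=
            mul_le_mul (D_le P) (mul_le_mul (D_le P) a5 (by positivity) (by positivity))
              (by positivity) (by positivity)
        _ = _ := by ring
    calc (P.D * (P.D * (2 * P.Z i * P.Z j) * (P.Z i * t j + P.Z j * t i))) ^ 2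
        = (P.D * (P.D * (2 * P.Z i * P.Z j))) ^ 2 * (P.Z i * t j + P.Z j * t i) ^ 2 := by ring
      _ ≤ (2 * c2 γ b ^ 2 * HH P ^ 4) ^ 2 * (4 * (c2 γ b ^ 4 * HH P ^ 2 * HH P')) :=
          mul_le_mul a4 a3 (by positivity) (by positivity)
      _ = _ := by push_cast; ring
  have := log_le_of_le2 P P' _ hM 4 4 5 (by norm_num) hk
  push_cast at this ⊢
  unfold lc2
  linarith

lemma log_den_le (i j k : Fin 4) (hN : N0 P P' ≠ 0) :
    Real.log ((SE P P' i j k).den : ℝ) ≤
      2 * Real.log |(EE P i j k : ℝ)| + 2 * m3 P P' i j k := by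
  classical
  set S := SE P P' i j k with hS
  rw [log_nat_eq_sum]
  have h1 : ∀ p ∈ S.den.primeFactors, (padicValNat p S.den : ℝ) * Real.log p ≤
      2 * ((padicValInt p (EE P i j k) : ℝ) * Real.log p) +
      2 * (if Good P P' p ∧ eps P P' p i * eps P P' p j * eps P P' p k = -1
        then Lw P P' p else 0) := by
    intro p hp
    have hpp := Nat.prime_of_mem_primeFactors hp
    have : Fact p.Prime := ⟨hpp⟩
    have h2 := v_den P P' i j k hN p
    rw [← hS] at h2
    have h3 : (0 : ℝ) ≤ Real.log p := Real.log_natCast_nonneg p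
    have h4 : (padicValNat p S.den : ℝ) ≤ 2 * padicValInt p (EE P i j k) +
      2 * (if Good P P' p ∧ eps P P' p i * eps P P' p j * eps P P' p k = -1
        then vN P P' p else 0) := by exact_mod_cast h2
    calc (padicValNat p S.den : ℝ) * Real.log p ≤ _ := mul_le_mul_of_nonneg_right h4 h3
      _ = _ := by
        unfold Lw
        split_ifs <;> push_cast <;> ring
  refine (sum_le_sum h1).trans ?_
  rw [sum_add_distrib, ← mul_sum, ← mul_sum]
  apply add_le_add
  · apply mul_le_mul_of_nonneg_left _ (by norm_num)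
    apply sum_log_le _ _ _ _ (EE_ne P i j k)
    · intro p hp
      exact padicValInt_dvd _
    · intro p hp
      exact Nat.prime_of_mem_primeFactors hp
  · apply mul_le_mul_of_nonneg_left _ (by norm_num)
    unfold m3 mu
    rw [← sum_filter, ← sum_filter]
    apply sum_le_sum_of_subset_of_nonneg
    · intro p hp
      rw [mem_filter] at hp ⊢
      exact ⟨mem_gs.2 hp.2.1, hp.2.2⟩
    · intro p _ _
      exact Lw_nonneg P P' p

/-- abstract bound of the sum in terms of `HH` -/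
lemma SE_abs (h : Rel P P') (i j k : Fin 4) :
    |((SE P P' i j k : ℚ) : ℝ)| ≤ 192 * (c2 γ b : ℝ) ^ 22 * (HH P : ℝ) ^ 2 := by
  have hD : (0 : ℚ) < P.D := by exact_mod_cast P.hD
  have hD' : (0 : ℚ) < P'.D := by exact_mod_cast P'.hD
  have hcc := cc_ge_one γ b
  have hccq : (1 : ℚ) ≤ cc γ b := by exact_mod_cast hcc
  have hGpos : 0 < Ga γ i j k := mul_pos (mul_pos (h.hγ i) (h.hγ j)) (h.hγ k)
  have hGq : (1 : ℚ) ≤ Ga γ i j k := by exact_mod_cast hGpos
  have hGle : (Ga γ i j k : ℚ) ≤ (cc γ b : ℚ) ^ 3 := by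
    have e : Ga γ i j k ≤ cc γ b ^ 3 := by
      unfold Ga
      have a1 := (le_abs_self _).trans (γ_le γ b i)
      have a2 := (le_abs_self _).trans (γ_le γ b j)
      have a3 := (le_abs_self _).trans (γ_le γ b k)
      calc γ i * γ j * γ k ≤ cc γ b * cc γ b * cc γ b :=
            mul_le_mul (mul_le_mul a1 a2 (h.hγ j).le (by linarith)) a3 (h.hγ k).le
              (by positivity)
        _ = _ := by ring
    exact_mod_cast e
  have hE : (1 : ℚ) ≤ (cc γ b : ℚ) ^ 4 := one_le_pow₀ hccq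
  have he : ∀ l : Fin 4, |(Ga γ i j k : ℚ) * b l| ≤ (cc γ b : ℚ) ^ 4 := by
    intro l
    rw [abs_mul, abs_of_pos (by linarith)]
    have : |(b l : ℚ)| ≤ cc γ b := by exact_mod_cast b_le γ b l
    calc (Ga γ i j k : ℚ) * |(b l : ℚ)| ≤ (cc γ b : ℚ) ^ 3 * cc γ b :=
          mul_le_mul hGle this (abs_nonneg _) (by positivity)
      _ = _ := by ring
  have hX1 : (1 : ℚ) ≤ P.A / P.D := by
    rw [one_le_div hD]; exact_mod_cast h.one
  have hx1 : (1 : ℚ) ≤ xE P i j k := by
    unfold xE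
    rw [mul_div_assoc]
    exact one_le_mul_of_one_le_of_one_le hGq hX1
  have hxx : 2 * xE P i j k ≤ xE P' i j k := by
    unfold xE
    rw [mul_div_assoc, mul_div_assoc]
    have h2 : 2 * ((P.A : ℚ) / P.D) ≤ P'.A / P'.D := by
      rw [← mul_div_assoc, div_le_div_iff₀ hD hD']
      have := h.two
      have h3 : 2 * ((P.A : ℚ) * P'.D) ≤ P'.A * P.D := by exact_mod_cast this
      linarith
    nlinarith
  have hy : 0 ≤ yE P i j k := by
    unfold yE
    have p1 : (0 : ℚ) < P.Z i := by exact_mod_cast P.hpos i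
    have p2 : (0 : ℚ) < P.Z j := by exact_mod_cast P.hpos j
    have p3 : (0 : ℚ) < P.Z k := by exact_mod_cast P.hpos k
    have : (0 : ℚ) < Ga γ i j k := by linarith
    positivity
  have hy' : 0 ≤ yE P' i j k := by
    unfold yE
    have p1 : (0 : ℚ) < P'.Z i := by exact_mod_cast P'.hpos i
    have p2 : (0 : ℚ) < P'.Z j := by exact_mod_cast P'.hpos j
    have p3 : (0 : ℚ) < P'.Z k := by exact_mod_cast P'.hpos k
    have : (0 : ℚ) < Ga γ i j k := by linarith
    positivity
  have c1 := curve_eq P i j k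
  have c1' := curve_eq P' i j k
  push_cast at c1 c1'
  have hS := SE_formula P P' i j k h.N0_ne _ _ _ _ _ _ _ _ rfl rfl rfl rfl rfl rfl rfl rfl
  have hb := arch_bound (xE P i j k) (xE P' i j k) (yE P i j k) (yE P' i j k) _ _ _
    ((cc γ b : ℚ) ^ 4) _ hE hx1 hxx (he i) (he j) (he k) hy hy' c1 c1' hS
  -- bound the coordinate
  have hHq : (1 : ℚ) ≤ HH P := by exact_mod_cast HH_ge_one P
  have hxle : xE P i j k ≤ (cc γ b : ℚ) ^ 3 * HH P := by
    unfold xE
    rw [mul_div_assoc]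
    apply mul_le_mul hGle _ (by positivity) (by positivity)
    rw [div_le_iff₀ hD]
    have a1 : (P.A : ℚ) ≤ HH P := by exact_mod_cast (le_abs_self _).trans (A_le P)
    have a2 : (1 : ℚ) ≤ P.D := by exact_mod_cast P.hD
    nlinarith
  have hc2 : (cc γ b : ℚ) ≤ c2 γ b := by exact_mod_cast cc_le_c2 γ b
  have hfin : |SE P P' i j k| ≤ 192 * (c2 γ b : ℚ) ^ 22 * (HH P : ℚ) ^ 2 := by
    calc |SE P P' i j k| ≤ 192 * ((cc γ b : ℚ) ^ 4) ^ 4 * xE P i j k ^ 2 := hb
      _ ≤ 192 * ((cc γ b : ℚ) ^ 4) ^ 4 * ((cc γ b : ℚ) ^ 3 * HH P) ^ 2 := by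
          gcongr
      _ = 192 * (cc γ b : ℚ) ^ 22 * (HH P : ℚ) ^ 2 := by ring
      _ ≤ _ := by gcongr
  exact_mod_cast hfin

lemma m3_lower (h : Rel P P') (i j k : Fin 4) :
    ht (SE P P' i j k) / 2 - (Real.log 32 + Real.log 192 / 2) - 21 * lc2 γ b - 16 * hh P
      ≤ m3 P P' i j k := by
  have hc : (1 : ℝ) ≤ c2 γ b := by exact_mod_cast c2_ge_one γ b
  have hH : (1 : ℝ) ≤ HH P := by exact_mod_cast HH_ge_one P
  have h1 := ht_le (SE P P' i j k) _ (by
    have a1 : (1 : ℝ) ≤ (c2 γ b : ℝ) ^ 22 := one_le_pow₀ hc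
    have a2 : (1 : ℝ) ≤ (HH P : ℝ) ^ 2 := one_le_pow₀ hH
    nlinarith [one_le_mul_of_one_le_of_one_le a1 a2]) (SE_abs h i j k)
  rw [Real.log_mul (by positivity) (by positivity), Real.log_mul (by positivity) (by positivity),
    Real.log_pow, Real.log_pow] at h1
  have h2 := log_den_le i j k h.N0_ne (P := P) (P' := P')
  have h3 := log_EE_le P i j k
  unfold lc2 at *
  unfold hh at *
  push_cast at h1
  linarith

/-- BLOCK C. -/
theorem blockC (γ b : Fin 4 → ℤ) : ∃ C : ℝ, 0 ≤ C ∧ ∀ P P' : IPt γ b, Rel P P' →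
    -hh P' + 3 / 8 * (ht (SE P P' 0 1 2) + ht (SE P P' 0 1 3) + ht (SE P P' 0 2 3) +
      ht (SE P P' 1 2 3)) - C * (1 + hh P) ≤ WW P P' := by
  refine ⟨1000 * (1 + lc2 γ b + Real.log 2 + Real.log 4 + Real.log 16 + Real.log 32 +
    Real.log 192), ?_, ?_⟩
  · have := lc2_nonneg γ b
    have a1 : 0 ≤ Real.log 2 := Real.log_nonneg (by norm_num)
    have a2 : 0 ≤ Real.log 4 := Real.log_nonneg (by norm_num)
    have a3 : 0 ≤ Real.log 16 := Real.log_nonneg (by norm_num)
    have a4 : 0 ≤ Real.log 32 := Real.log_nonneg (by norm_num)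
    have a5 : 0 ≤ Real.log 192 := Real.log_nonneg (by norm_num)
    positivity
  · intro P P' h
    have hl := lc2_nonneg γ b
    have a1 : 0 ≤ Real.log 2 := Real.log_nonneg (by norm_num)
    have a2 : 0 ≤ Real.log 4 := Real.log_nonneg (by norm_num)
    have a3 : 0 ≤ Real.log 16 := Real.log_nonneg (by norm_num)
    have a4 : 0 ≤ Real.log 32 := Real.log_nonneg (by norm_num)
    have a5 : 0 ≤ Real.log 192 := Real.log_nonneg (by norm_num)
    have hP := hh_nonneg P
    rw [WW_eq]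
    have s0 := m1_lower h 0
    have s1 := m1_lower h 1
    have s2 := m1_lower h 2
    have s3 := m1_lower h 3
    have t01 := m2_upper (P := P) (P' := P') 0 1
    have t02 := m2_upper (P := P) (P' := P') 0 2
    have t03 := m2_upper (P := P) (P' := P') 0 3
    have t12 := m2_upper (P := P) (P' := P') 1 2
    have t13 := m2_upper (P := P) (P' := P') 1 3
    have t23 := m2_upper (P := P) (P' := P') 2 3
    have u0 := m3_lower h 0 1 2
    have u1 := m3_lower h 0 1 3
    have u2 := m3_lower h 0 2 3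
    have u3 := m3_lower h 1 2 3
    set L := 1 + lc2 γ b + Real.log 2 + Real.log 4 + Real.log 16 + Real.log 32 +
      Real.log 192 with hL
    have hprod : 1000 * hh P ≤ 1000 * L * hh P := by
      have : 1 ≤ L := by rw [hL]; linarith
      nlinarith
    have e : 1000 * L * (1 + hh P) = 1000 * L + 1000 * L * hh P := by ring
    rw [e]
    linarith

end Pool.Agent.Work.MP_36d6be_co_V
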