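import Pool.Agent.Work.MP_36d6be_co_V.BlockB
import Pool.Agent.Work.MP_36d6be_co_V.LocalG

/-!
# Block G2: choice of parameters and the final contradiction
-/

set_option autoImplicit false

namespace Pool.Agent.Work.MP_36d6be_co_V

open Polynomial Filter

namespace G2

/-- Final numerical contradiction. -/
lemma numeric (l h t s W C' Cb C2 : ℝ) (hl : 3 ≤ l) (hh1 : 1 ≤ h) (hC' : 0 ≤ C')
    (hC2 : 0 ≤ C2)
    (hlE : 37001 + 5760 * C' + 4320 * C2 ≤ l) (hhE : Cb + 8652 * C2 ≤ h)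
    (hs : l * h ≤ s) (ht : t ≤ (l + 1) ^ 2 * h)
    (hW : t / 2 + 3 * (1 - 1 / 300) * s - C' * (1 + h) ≤ W)
    (hF : (2880 * l - 8220) * W ≤ Cb * l ^ 2 + 4320 * l ^ 2 * h + 1440 * l * t
      + C2 * (4320 * l ^ 2 + 1440 * l + (2880 * l - 8220)) + C2 * (1440 * l + (2880 * l - 8220)) * h
      + (2 * (3 * l ^ 2) + 1) * (C2 + 4 * h) + (2 * 2 + 1) * (C2 + 4 * h + 4 * t) + 3 * t) :
    False := by
  have hK : 0 ≤ 2880 * l - 8220 := by linarith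
  have h1 : (2880 * l - 8220) * (t / 2 + 3 * (1 - 1 / 300) * (l * h) - C' * (1 + h)) ≤
      (2880 * l - 8220) * W := by
    apply mul_le_mul_of_nonneg_left _ hK
    have : 3 * (1 - 1 / 300) * (l * h) ≤ 3 * (1 - 1 / 300) * s := by
      apply mul_le_mul_of_nonneg_left hs
      norm_num
    linarith
  have hlh : 0 < l * h := by positivity
  have hl2h : 0 < l ^ 2 * h := by positivity
  have q1 : h ≤ l * h := by nlinarith
  have q2 : l ≤ l * h := by nlinarith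
  have q3 : l ≤ l ^ 2 := by nlinarith
  have q4 : 1 ≤ l ^ 2 := by nlinarith
  have p1 : C' * l ≤ C' * (l * h) := mul_le_mul_of_nonneg_left q2 hC'
  have p2 : C2 * l ≤ C2 * l ^ 2 := mul_le_mul_of_nonneg_left q3 hC2
  have p3 : C2 * 1 ≤ C2 * l ^ 2 := mul_le_mul_of_nonneg_left q4 hC2
  have p4 : (37001 + 5760 * C' + 4320 * C2) * (l * h) ≤ l * (l * h) :=
    mul_le_mul_of_nonneg_right hlE hlh.le
  have p5 : (Cb + 8652 * C2) * l ^ 2 ≤ h * l ^ 2 :=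
    mul_le_mul_of_nonneg_right hhE (by positivity)
  have p6 : 0 ≤ C' * (1 + h) := by positivity
  have p7 : 0 ≤ C2 * h := by positivity
  have ht2 : t ≤ l ^ 2 * h + 2 * (l * h) + h := by nlinarith
  nlinarith

lemma size_real (l C0 n y : ℝ) (hC0 : 1 ≤ C0) (hl : 3 ≤ l) (N : ℕ)
    (he1 : (N : ℝ) ≤ 4320 * l) (hn : n = 99532800 * l ^ 3)
    (hy : y ≤ 48 * l) (hy0 : 0 ≤ y) :
    (n * C0 ^ N) ^ y ≤
      Real.exp (48 * (Real.log 99532800 + 3 + 4320 * Real.log C0) * l ^ 2) := by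
  have hl0 : (0 : ℝ) < l := by linarith
  have hn0 : (0 : ℝ) < n := by rw [hn]; positivity
  have hx0 : (0 : ℝ) < n * C0 ^ N := mul_pos hn0 (pow_pos (by linarith) _)
  rw [Real.rpow_def_of_pos hx0]
  apply Real.exp_le_exp.2
  have hlogC0 : 0 ≤ Real.log C0 := Real.log_nonneg hC0
  have hlog9 : 0 ≤ Real.log (99532800 : ℝ) := Real.log_nonneg (by norm_num)
  have h1 : Real.log (n * C0 ^ N) ≤
      Real.log 99532800 * l + 3 * l + 4320 * l * Real.log C0 := by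
    rw [Real.log_mul hn0.ne' (pow_pos (by linarith) _).ne', Real.log_pow, hn,
      Real.log_mul (by norm_num) (by positivity), Real.log_pow]
    have e1 : Real.log l ≤ l := (Real.log_le_sub_one_of_pos hl0).trans (by linarith)
    have e3 : (N : ℝ) * Real.log C0 ≤ 4320 * l * Real.log C0 :=
      mul_le_mul_of_nonneg_right he1 hlogC0
    have e4 : Real.log (99532800 : ℝ) * 1 ≤ Real.log 99532800 * l :=
      mul_le_mul_of_nonneg_left (by linarith) hlog9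
    push_cast
    linarith
  have h1' : 0 ≤ Real.log 99532800 * l + 3 * l + 4320 * l * Real.log C0 :=
    add_nonneg (add_nonneg (mul_nonneg hlog9 hl0.le) (by linarith))
      (mul_nonneg (by linarith) hlogC0)
  calc Real.log (n * C0 ^ N) * y
      ≤ (Real.log 99532800 * l + 3 * l + 4320 * l * Real.log C0) *
        y := mul_le_mul_of_nonneg_right h1 hy0
    _ ≤ (Real.log 99532800 * l + 3 * l + 4320 * l * Real.log C0) * (48 * l) :=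
        mul_le_mul_of_nonneg_left hy h1'
    _ = _ := by ring

lemma stepA (l Cb C1 : ℝ) (hl : 1 ≤ l) (hC1 : 0 ≤ C1) :
    16 * (Cb * l ^ 2) + C1 * (4320 * l ^ 2 + 1440 * l) ≤ (16 * Cb + 5760 * C1) * l ^ 2 := by
  have h1 : l ≤ l ^ 2 := by nlinarith
  have h2 : C1 * l ≤ C1 * l ^ 2 := mul_le_mul_of_nonneg_left h1 hC1
  nlinarith

lemma stepQ (l Cb' : ℝ) (hl : 1 ≤ l) :
    Cb' * l ^ 2 + Real.log (((69120 * l ^ 2 + 60) + 1) * ((65820 : ℝ) + 1) ^ 2) +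
      ((69120 * l ^ 2 + 60) + (65820 : ℝ)) * Real.log 2 ≤
      (Cb' + 4332473222 + 135000) * l ^ 2 := by
  have hl2 : 1 ≤ l ^ 2 := by nlinarith
  have h2 : Real.log (((69120 * l ^ 2 + 60) + 1) * ((65820 : ℝ) + 1) ^ 2) ≤
      (69120 * l ^ 2 + 60 + 1) + ((65820 : ℝ) + 1) ^ 2 := by
    rw [Real.log_mul (by positivity) (by positivity)]
    have e1 := Real.log_le_sub_one_of_pos (x := (69120 * l ^ 2 + 60) + 1) (by positivity)
    have e2 := Real.log_le_sub_one_of_pos (x := ((65820 : ℝ) + 1) ^ 2) (by positivity)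
    linarith
  have h3 : Real.log 2 ≤ 1 := by
    have := Real.log_le_sub_one_of_pos (x := (2 : ℝ)) (by norm_num)
    linarith
  have h4 : ((69120 * l ^ 2 + 60) + (65820 : ℝ)) * Real.log 2 ≤
      ((69120 * l ^ 2 + 60) + (65820 : ℝ)) * 1 :=
    mul_le_mul_of_nonneg_left h3 (by positivity)
  have h5 : ((65820 : ℝ) + 1) ^ 2 = 4332404041 := by norm_num
  rw [h5] at h2 ⊢
  linarith

lemma stepR (l h Cq : ℝ) (hh : 131642 * Cq + 1 ≤ h) :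
    8 * ((65820 : ℝ) + 1) * (Cq * l ^ 2) ≤ 4 * (l ^ 2 * h) := by
  have h1 : (131642 * Cq) * l ^ 2 ≤ h * l ^ 2 :=
    mul_le_mul_of_nonneg_right (by linarith) (by positivity)
  linarith

lemma stepW (CG CC h t s S : ℝ) (W : ℝ) (hh : 1 ≤ h)
    (h1 : 4 * t + 8 * (1 - 1 / 300) * s - CG ≤ S) (h2 : -t + 3 / 8 * S - CC * (1 + h) ≤ W) :
    t / 2 + 3 * (1 - 1 / 300) * s - (CC + |CG|) * (1 + h) ≤ W := by
  have h3 : |CG| ≤ |CG| * (1 + h) := by nlinarith [abs_nonneg CG]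
  have h4 : CG ≤ |CG| := le_abs_self CG
  have h5 : 0 ≤ |CG| := abs_nonneg CG
  linarith

lemma param_real (l L1 L2 K m n : ℝ) (hl : 3 ≤ l) (hL1 : L1 = 4320 * l ^ 2) (hL2 : L2 = 1440 * l)
    (hK : K = 2880 * l - 8220) (hm : m = 8 * K * (L1 + L2) + 30 * K ^ 2 + 12 * K)
    (hn : n = 16 * L1 * L2) (hm0 : 0 ≤ m) :
    n = 99532800 * l ^ 3 ∧ m < n ∧ m / (n - m) ≤ 48 * l ∧ 0 ≤ m / (n - m) := by
  have hnr : n = 99532800 * l ^ 3 := by rw [hn, hL1, hL2]; ring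
  have hdiff : n - m = 2073600 * l ^ 2 + 1515075840 * l - 2026953360 := by
    rw [hm, hnr, hK, hL1, hL2]; ring
  have hge : 2073600 * l ^ 2 ≤ n - m := by rw [hdiff]; linarith
  have hpos : 0 < n - m := by
    have : 0 < 2073600 * l ^ 2 := by positivity
    linarith
  refine ⟨hnr, by linarith, ?_, ?_⟩
  · rw [div_le_iff₀ hpos]
    have h1 : (48 * l) * (2073600 * l ^ 2) ≤ 48 * l * (n - m) :=
      mul_le_mul_of_nonneg_left hge (by linarith)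
    have h2 : m ≤ n := by linarith
    calc m ≤ n := h2
      _ = (48 * l) * (2073600 * l ^ 2) := by rw [hnr]; ring
      _ ≤ _ := h1
  · exact div_nonneg hm0 hpos.le

end G2

open G2 in
/-- BLOCK G2 (choice of parameters; final contradiction), with the other blocks as hypotheses. -/
theorem finiteness_core (γ b : Fin 4 → ℤ) (hγ : ∀ i, 0 < γ i)
    (P : ℕ → IPt γ b)
    (hG1 : ∃ C : ℝ, ∀ H0 Λ : ℝ, ∃ m n, m < n ∧ H0 ≤ hh (P m) ∧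
      Λ * hh (P m) ≤ hh (P n) ∧ Rel (P m) (P n) ∧
      4 * hh (P n) + 8 * (1 - 1 / 300) * Real.sqrt (hh (P m) * hh (P n)) - C ≤
        ht (SE (P m) (P n) 0 1 2) + ht (SE (P m) (P n) 0 1 3) + ht (SE (P m) (P n) 0 2 3) +
        ht (SE (P m) (P n) 1 2 3))
    (hD : ∃ C0 : ℝ, 1 ≤ C0 ∧ ∀ L1 L2 K m n : ℕ, 0 < K → 0 < L1 → 0 < L2 →
      m = 8 * K * (L1 + L2) + 30 * K ^ 2 + 12 * K → n = 16 * L1 * L2 → m < n →
      ∃ c : Finset (Fin 4) → ℤ[X][X], c ≠ 0 ∧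
        (∀ I, (c I).natDegree < L2) ∧ (∀ I j, ((c I).coeff j).natDegree < L1) ∧
        (∀ j : Fin 5, Vanishes γ b c (sgn j) (kap j * K)) ∧
        ∀ I j i, |((((c I).coeff j).coeff i : ℤ) : ℝ)| ≤
          ((n : ℝ) * C0 ^ (L2 + K)) ^ ((m : ℝ) / ((n : ℝ) - (m : ℝ))))
    (hE : ∃ C1 : ℝ, 1 ≤ C1 ∧ ∀ (L1 L2 K : ℕ) (c : Finset (Fin 4) → ℤ[X][X]) (B : ℝ), 0 ≤ B →
      c ≠ 0 → (∀ I, (c I).natDegree < L2) → (∀ I j, ((c I).coeff j).natDegree < L1) →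
      (∀ I j i, |((((c I).coeff j).coeff i : ℤ) : ℝ)| ≤ Real.exp B) →
      (∀ j : Fin 5, Vanishes γ b c (sgn j) (kap j * K)) →
      ∃ M : ℤ[X][X], M ≠ 0 ∧ M.natDegree + 8 * K ≤ 16 * L2 + 60 ∧
        (∀ j, (M.coeff j).natDegree ≤ 16 * L1 + 60) ∧
        (∀ i j, |(((M.coeff j).coeff i : ℤ) : ℝ)| ≤ Real.exp (16 * B + C1 * (L1 + L2))) ∧
        ∀ (R : Type) [CommRing R] (x y : R) (w : Fin 4 → R),
          (∀ i, w i ^ 2 = (g γ b i).eval₂ (Int.castRingHom R) x *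
            (g γ b i).eval₂ (Int.castRingHom R) y) →
          Fev c x y w ∣ (y - x) ^ (8 * K) * ev2 x y M)
    (hF : ∃ C2 : ℝ, 1 ≤ C2 ∧ ∀ (L1 L2 K m1 m2 : ℕ) (c : Finset (Fin 4) → ℤ[X][X]) (B : ℝ)
      (M : ℤ[X][X]), 0 < L1 → 0 < L2 → 0 < K → 0 < m1 → 0 < m2 → 0 ≤ B →
      (∀ I, (c I).natDegree < L2) → (∀ I j, ((c I).coeff j).natDegree < L1) →
      (∀ I j i, |((((c I).coeff j).coeff i : ℤ) : ℝ)| ≤ Real.exp B) →
      (∀ j : Fin 5, Vanishes γ b c (sgn j) (kap j * K)) →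
      (∀ (R : Type) [CommRing R] (x y : R) (w : Fin 4 → R),
          (∀ i, w i ^ 2 = (g γ b i).eval₂ (Int.castRingHom R) x *
            (g γ b i).eval₂ (Int.castRingHom R) y) →
          Fev c x y w ∣ (y - x) ^ (8 * K) * ev2 x y M) →
      ∀ P P' : IPt γ b, Rel P P' →
      (∃ i < m1, ∃ j < m2, taylorCoeff M ((P.A : ℚ) / P.D) ((P'.A : ℚ) / P'.D) i j ≠ 0) →
      K * WW P P' ≤ B + L1 * hh P + L2 * hh P' + C2 * (L1 + L2 + K) + C2 * (L2 + K) * hh P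
        + (2 * m1 + 1) * (C2 + 4 * hh P) + (2 * m2 + 1) * (C2 + 4 * hh P + 4 * hh P')
        + 3 * hh P') : False := by
  obtain ⟨CG, hG⟩ := hG1
  obtain ⟨CC, hCC0, hC⟩ := blockC γ b
  obtain ⟨C0, hC0, hD⟩ := hD
  obtain ⟨C1, hC1, hE⟩ := hE
  obtain ⟨C2, hC2, hF⟩ := hF
  obtain ⟨C', hC'⟩ : ∃ x : ℝ, x = CC + |CG| := ⟨_, rfl⟩
  have hC'0 : 0 ≤ C' := by rw [hC']; positivity
  obtain ⟨Cb, hCb⟩ : ∃ x : ℝ, x = 48 * (Real.log 99532800 + 3 + 4320 * Real.log C0) := ⟨_, rfl⟩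
  have hlogC0 : 0 ≤ Real.log C0 := Real.log_nonneg hC0
  have hlog9 : 0 ≤ Real.log (99532800 : ℝ) := Real.log_nonneg (by norm_num)
  have hCb0 : 0 ≤ Cb := by rw [hCb]; positivity
  obtain ⟨Cb', hCb'⟩ : ∃ x : ℝ, x = 16 * Cb + 5760 * C1 := ⟨_, rfl⟩
  have hCb'0 : 0 ≤ Cb' := by rw [hCb']; positivity
  obtain ⟨Cq, hCq⟩ : ∃ x : ℝ, x = Cb' + 4332473222 + 135000 := ⟨_, rfl⟩
  have hCq0 : 0 ≤ Cq := by rw [hCq]; positivity
  -- the lower bounds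
  obtain ⟨l0, hl0⟩ := exists_nat_ge (max 210 (37001 + 5760 * C' + 4320 * C2))
  have hl0a : (210 : ℝ) ≤ l0 := (le_max_left _ _).trans hl0
  have hl0b : 37001 + 5760 * C' + 4320 * C2 ≤ (l0 : ℝ) := (le_max_right _ _).trans hl0
  obtain ⟨m', n', _, hH0, hΛ, hRel, hS⟩ := hG (max 1 (max (Cb + 8652 * C2) (131642 * Cq + 1)))
    ((l0 : ℝ) ^ 2)
  obtain ⟨h, hh_def⟩ : ∃ h, h = hh (P m') := ⟨_, rfl⟩
  obtain ⟨t, ht_def⟩ : ∃ t, t = hh (P n') := ⟨_, rfl⟩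
  rw [← hh_def] at hH0 hΛ hS
  rw [← ht_def] at hΛ hS
  have hh1 : 1 ≤ h := (le_max_left _ _).trans hH0
  have hhE : Cb + 8652 * C2 ≤ h := (le_max_left _ _).trans ((le_max_right _ _).trans hH0)
  have hhq : 131642 * Cq + 1 ≤ h := (le_max_right _ _).trans ((le_max_right _ _).trans hH0)
  have hh0 : 0 < h := by linarith
  -- the parameter l
  obtain ⟨l, hl_def⟩ : ∃ l, l = ⌊Real.sqrt (t / h)⌋₊ := ⟨_, rfl⟩
  have hth : (l0 : ℝ) ^ 2 ≤ t / h := by rw [le_div_iff₀ hh0]; exact hΛ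
  have hsq : (l0 : ℝ) ≤ Real.sqrt (t / h) := Real.le_sqrt_of_sq_le hth
  have hl0l : l0 ≤ l := by rw [hl_def]; exact Nat.le_floor hsq
  have hlr : (l0 : ℝ) ≤ l := by exact_mod_cast hl0l
  have hl210 : (210 : ℝ) ≤ l := hl0a.trans hlr
  have hl210' : 210 ≤ l := by exact_mod_cast hl210
  have hlE : 37001 + 5760 * C' + 4320 * C2 ≤ (l : ℝ) := hl0b.trans hlr
  have hth0 : 0 ≤ t / h := le_trans (sq_nonneg _) hth
  have hle : (l : ℝ) ≤ Real.sqrt (t / h) := by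
    rw [hl_def]; exact Nat.floor_le (Real.sqrt_nonneg _)
  have hlt : Real.sqrt (t / h) < l + 1 := by rw [hl_def]; exact Nat.lt_floor_add_one _
  have hl2 : (l : ℝ) ^ 2 * h ≤ t := by
    have h1 : (l : ℝ) ^ 2 ≤ t / h := by
      calc (l : ℝ) ^ 2 ≤ Real.sqrt (t / h) ^ 2 := pow_le_pow_left₀ (Nat.cast_nonneg _) hle 2
        _ = t / h := Real.sq_sqrt hth0
    rwa [le_div_iff₀ hh0] at h1
  have hl3 : t ≤ ((l : ℝ) + 1) ^ 2 * h := by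
    have h1 : t / h ≤ ((l : ℝ) + 1) ^ 2 := by
      calc t / h = Real.sqrt (t / h) ^ 2 := (Real.sq_sqrt hth0).symm
        _ ≤ ((l : ℝ) + 1) ^ 2 := pow_le_pow_left₀ (Real.sqrt_nonneg _) hlt.le 2
    rwa [div_le_iff₀ hh0] at h1
  have hl2h : 0 < (l : ℝ) ^ 2 * h := mul_pos (pow_pos (by linarith) 2) hh0
  have ht0 : 0 < t := lt_of_lt_of_le hl2h hl2
  -- sizes
  obtain ⟨L1, hL1⟩ : ∃ L1, L1 = 4320 * l ^ 2 := ⟨_, rfl⟩
  obtain ⟨L2, hL2⟩ : ∃ L2, L2 = 1440 * l := ⟨_, rfl⟩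
  obtain ⟨K, hK⟩ : ∃ K, K + 8220 = 2880 * l := ⟨2880 * l - 8220, by omega⟩
  obtain ⟨m, hm⟩ : ∃ m, m = 8 * K * (L1 + L2) + 30 * K ^ 2 + 12 * K := ⟨_, rfl⟩
  obtain ⟨n, hn⟩ : ∃ n, n = 16 * L1 * L2 := ⟨_, rfl⟩
  have hL1p : 0 < L1 := by rw [hL1]; exact Nat.mul_pos (by norm_num) (Nat.pow_pos (by omega))
  have hL2p : 0 < L2 := by omega
  have hKp : 0 < K := by omega
  have hMdeg : ∀ d : ℕ, d + 8 * K ≤ 16 * L2 + 60 → d ≤ 65820 := by intro d hd; omega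
  have hN : L2 + K ≤ 4320 * l := by omega
  have h3l : 2 * (65820 + 1) ≤ 3 * l ^ 2 := by nlinarith
  have hKr : (K : ℝ) = 2880 * l - 8220 := by
    have h2 : ((K + 8220 : ℕ) : ℝ) = ((2880 * l : ℕ) : ℝ) := by rw [hK]
    push_cast at h2
    linarith
  have hL1r : (L1 : ℝ) = 4320 * (l : ℝ) ^ 2 := by rw [hL1]; push_cast; ring
  have hL2r : (L2 : ℝ) = 1440 * (l : ℝ) := by rw [hL2]; push_cast; ring
  have hmr : (m : ℝ) = 8 * K * (L1 + L2) + 30 * K ^ 2 + 12 * K := by rw [hm]; push_cast; ring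
  have hnr' : (n : ℝ) = 16 * L1 * L2 := by rw [hn]; push_cast; ring
  obtain ⟨hnr, hmn, hy, hy0⟩ := param_real l L1 L2 K m n (by linarith) hL1r hL2r hKr hmr hnr'
    (Nat.cast_nonneg _)
  have hmn' : m < n := by exact_mod_cast hmn
  have hNr : ((L2 + K : ℕ) : ℝ) ≤ 4320 * (l : ℝ) := by exact_mod_cast hN
  clear hN hK hL2 hL1
  obtain ⟨c, hc0, hcd, hcd', hcv, hcb⟩ := hD L1 L2 K m n hKp hL1p hL2p hm hn hmn'
  have hsize := size_real l C0 n _ hC0 (by linarith) (L2 + K) hNr hnr hy hy0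
  rw [← hCb] at hsize
  have hcb' : ∀ I j i, |((((c I).coeff j).coeff i : ℤ) : ℝ)| ≤ Real.exp (Cb * (l : ℝ) ^ 2) :=
    fun I j i => (hcb I j i).trans hsize
  have hB0 : 0 ≤ Cb * (l : ℝ) ^ 2 := mul_nonneg hCb0 (sq_nonneg _)
  obtain ⟨M, hM0, hMd, hMd', hMb, hMdiv⟩ := hE L1 L2 K c (Cb * (l : ℝ) ^ 2) hB0 hc0 hcd hcd'
    hcb' hcv
  -- Roth's lemma
  have hMd2 : M.natDegree ≤ 65820 := hMdeg _ hMd
  have hB'le : 16 * (Cb * (l : ℝ) ^ 2) + C1 * (L1 + L2) ≤ Cb' * (l : ℝ) ^ 2 := by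
    rw [hL1r, hL2r, hCb']
    exact stepA l Cb C1 (by linarith) (by linarith)
  have hB'0 : 0 ≤ Cb' * (l : ℝ) ^ 2 := mul_nonneg hCb'0 (sq_nonneg _)
  have hMb' : ∀ i j, |(((M.coeff j).coeff i : ℤ) : ℝ)| ≤ Real.exp (Cb' * (l : ℝ) ^ 2) :=
    fun i j => (hMb i j).trans (Real.exp_le_exp.2 hB'le)
  have hx : ht (((P m').A : ℚ) / (P m').D) = h := by rw [hh_def]; exact (hh_eq (P m')).symm
  have hy' : ht (((P n').A : ℚ) / (P n').D) = t := by rw [ht_def]; exact (hh_eq (P n')).symm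
  obtain ⟨d1, hd1⟩ : ∃ d1, d1 = 16 * L1 + 60 := ⟨_, rfl⟩
  rw [← hd1] at hMd'
  have hd1r : (d1 : ℝ) = 69120 * (l : ℝ) ^ 2 + 60 := by
    rw [hd1]; push_cast; rw [hL1r]; ring
  obtain ⟨d2, hd2⟩ : ∃ d2 : ℕ, d2 = 65820 := ⟨_, rfl⟩
  rw [← hd2] at hMd2
  have hd2r : (d2 : ℝ) = 65820 := by rw [hd2]; norm_num
  obtain ⟨m1, hm1⟩ : ∃ m1, m1 = 3 * l ^ 2 := ⟨_, rfl⟩
  have hm1r : (m1 : ℝ) = 3 * (l : ℝ) ^ 2 := by rw [hm1]; push_cast; ring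
  have hm1p : 0 < m1 := by omega
  have hm1d : 2 * (d2 + 1) ≤ m1 := by omega
  have h2d : 2 ≤ 2 * (d2 + 1) := by omega
  clear hm1 hd2 hd1 h3l
  have hQ : Cb' * (l : ℝ) ^ 2 + Real.log (((d1 : ℝ) + 1) * ((d2 : ℝ) + 1) ^ 2) +
      ((d1 : ℝ) + (d2 : ℝ)) * Real.log 2 ≤ Cq * (l : ℝ) ^ 2 := by
    rw [hd1r, hd2r, hCq]
    exact stepQ l Cb' (by linarith)
  have hQ2 : 8 * ((d2 : ℝ) + 1) * (Cb' * (l : ℝ) ^ 2 + Real.log (((d1 : ℝ) + 1) *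
      ((d2 : ℝ) + 1) ^ 2) + ((d1 : ℝ) + (d2 : ℝ)) * Real.log 2) ≤ 4 * ((l : ℝ) ^ 2 * h) := by
    refine (mul_le_mul_of_nonneg_left hQ (by rw [hd2r]; norm_num)).trans ?_
    rw [hd2r]
    exact stepR l h Cq hhq
  obtain ⟨i, hi, j, hj, hij⟩ := blockB M hM0 d1 d2 m1 2
    (Cb' * (l : ℝ) ^ 2) hB'0 hMd2 hMd' hMb' (((P m').A : ℚ) / (P m').D)
    (((P n').A : ℚ) / (P n').D)
    (by rw [hy']; exact ht0) hm1d h2d
    (by
      rw [hy']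
      refine hQ2.trans ?_
      have : ((2 : ℕ) : ℝ) ^ 2 = 4 := by norm_num
      rw [this]
      linarith)
    (by
      rw [hx, hm1r]
      refine lt_of_le_of_lt hQ2 ?_
      have : ((2 : ℕ) : ℝ) = 2 := by norm_num
      rw [this]
      linarith)
  -- the final inequality
  have hFin := hF L1 L2 K m1 2 c (Cb * (l : ℝ) ^ 2) M hL1p hL2p hKp hm1p
    (by norm_num) hB0 hcd hcd' hcb' hcv hMdiv (P m') (P n') hRel ⟨i, hi, j, hj, hij⟩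
  have hWW := hC (P m') (P n') hRel
  rw [← hh_def, ← ht_def] at hFin hWW
  have hsqrt : (l : ℝ) * h ≤ Real.sqrt (h * t) := by
    apply Real.le_sqrt_of_sq_le
    have h1 : h * ((l : ℝ) ^ 2 * h) ≤ h * t := mul_le_mul_of_nonneg_left hl2 hh0.le
    calc ((l : ℝ) * h) ^ 2 = h * ((l : ℝ) ^ 2 * h) := by ring
      _ ≤ h * t := h1
  have hW : t / 2 + 3 * (1 - 1 / 300) * Real.sqrt (h * t) - C' * (1 + h) ≤
      WW (P m') (P n') := by
    rw [hC']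
    exact stepW CG CC h t (Real.sqrt (h * t)) _ _ hh1 hS hWW
  refine numeric l h t (Real.sqrt (h * t)) (WW (P m') (P n')) C' Cb C2 (by linarith) hh1 hC'0
    (by linarith) hlE hhE hsqrt hl3 hW ?_
  rw [← hKr]
  refine hFin.trans (le_of_eq ?_)
  rw [hL1r, hL2r, hm1r]
  push_cast
  ring

end Pool.Agent.Work.MP_36d6be_co_V
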