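import Pool.Agent.Work.MP_36d6be_co_V.LocalA
import Pool.Agent.Work.MP_36d6be_co.Main

/-!
Block H: from the finiteness theorem to the absence of infinite chains and to the frozen
statement.
-/

set_option autoImplicit false

namespace Pool.Agent.Work.MP_36d6be_co_V

open Filter Topology

/-- The statement of the finiteness theorem. -/
def Finiteness : Prop :=
  ∀ (γ b : Fin 4 → ℤ), (∀ i, 0 < γ i) → Function.Injective b →
    ∀ P : ℕ → IPt γ b, Tendsto (fun n => ((P n).A : ℝ) / (P n).D) atTop atTop → False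

/-- An integral point from a rational point. -/
lemma exists_ipt (γ b : Fin 4 → ℤ) (hγ : ∀ i, 0 < γ i) (X : ℚ) (z : Fin 4 → ℚ)
    (hz : ∀ i, z i ^ 2 = γ i * (X - b i)) (hX : ∀ i, (b i : ℚ) < X) :
    ∃ P : IPt γ b, ((P.A : ℤ) : ℝ) / P.D = (X : ℝ) := by
  have hD : (0 : ℚ) < X.den := by exact_mod_cast X.den_pos
  have hXq : (X.num : ℚ) / X.den = X := Rat.num_div_den X
  have hint : ∀ i, ∃ Z : ℤ, 0 < Z ∧ Z ^ 2 = γ i * X.den * (X.num - b i * X.den) := by
    intro i
    have h1 : (z i * X.den) ^ 2 = ((γ i * X.den * (X.num - b i * X.den) : ℤ) : ℚ) := by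
      push_cast
      rw [mul_pow, hz i]
      nth_rewrite 1 [← hXq]
      field_simp
    have h2 : IsSquare (((γ i * X.den * (X.num - b i * X.den) : ℤ)) : ℚ) := by
      rw [← h1]; exact ⟨_, pow_two _⟩
    rw [Rat.isSquare_intCast_iff] at h2
    obtain ⟨Z, hZ⟩ := h2
    have hpos : (0 : ℚ) < ((γ i * X.den * (X.num - b i * X.den) : ℤ) : ℚ) := by
      rw [← h1, mul_pow, hz i]
      have := hX i
      have hg : (0 : ℚ) < γ i := by exact_mod_cast hγ i
      have h3 : (0 : ℚ) < X - b i := by linarith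
      positivity
    have hpos' : 0 < γ i * X.den * (X.num - b i * X.den) := by exact_mod_cast hpos
    refine ⟨|Z|, ?_, ?_⟩
    · rw [abs_pos]
      rintro rfl
      rw [hZ] at hpos'
      simp at hpos'
    · rw [sq_abs, hZ, pow_two]
  choose Z hZ0 hZ using hint
  refine ⟨⟨X.num, X.den, Z, by exact_mod_cast X.den_pos, ?_, hZ, hZ0⟩, ?_⟩
  · exact Rat.isCoprime_num_den X
  · simp only
    have h4 : (((X.num : ℚ) / X.den : ℚ) : ℝ) = ((X : ℚ) : ℝ) := by rw [hXq]
    push_cast at h4 ⊢
    exact h4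

/-- Rational form of the finiteness theorem. -/
theorem finiteness_rat' (hF : Finiteness) (γ b : Fin 4 → ℤ) (hγ : ∀ i, 0 < γ i)
    (hb : Function.Injective b) (X : ℕ → ℚ) (z : ℕ → Fin 4 → ℚ)
    (hz : ∀ n i, z n i ^ 2 = γ i * (X n - b i))
    (hX : Tendsto (fun n => (X n : ℝ)) atTop atTop) : False := by
  have h1 : ∀ᶠ n in atTop, ∀ i, (b i : ℝ) < X n := by
    rw [eventually_all]
    intro i
    exact hX.eventually_gt_atTop _
  obtain ⟨N, hN⟩ := eventually_atTop.1 h1
  have h2 : ∀ n, ∃ P : IPt γ b, ((P.A : ℤ) : ℝ) / P.D = ((X (n + N) : ℚ) : ℝ) := fun n =>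
    exists_ipt γ b hγ (X (n + N)) (z (n + N)) (hz _) fun i => by
      exact_mod_cast hN (n + N) (by omega) i
  choose P hP using h2
  refine hF γ b hγ hb P ?_
  have h3 : (fun n => ((P n).A : ℝ) / (P n).D) = fun n => ((X (n + N) : ℚ) : ℝ) := by
    funext n; exact hP n
  rw [h3]
  exact (tendsto_add_atTop_iff_nat N).2 hX

/-- There is no infinite chain. -/
theorem not_hasInfiniteChain (hF : Finiteness) : ¬ MP_36d6be_co.HasInfiniteChain := by
  rintro ⟨c, hc, r, hr, hr0, hch⟩
  have hcpos : 0 < c := by rcases hc with rfl | rfl <;> norm_num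
  have hrR : ∀ n, (0 : ℝ) < r n := fun n => by exact_mod_cast hr n
  have hinf : Tendsto (fun n => (r n : ℝ)⁻¹) atTop atTop := by
    apply Filter.Tendsto.inv_tendsto_nhdsGT_zero
    rw [tendsto_nhdsWithin_iff]
    exact ⟨hr0, Eventually.of_forall fun n => hrR n⟩
  obtain ⟨φ, hφ, hmono⟩ := strictMono_subseq_of_tendsto_atTop hinf
  have hanti : ∀ m n, m < n → r (φ n) < r (φ m) := by
    intro m n hmn
    have h1 := hmono hmn
    simp only [Function.comp] at h1
    have h2 := (inv_lt_inv₀ (hrR _) (hrR _)).1 h1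
    exact_mod_cast h2
  -- the four parameters
  set R : Fin 4 → ℚ := fun i => r (φ i) with hR
  have hRpos : ∀ i, 0 < R i := fun i => hr _
  have hRinj : Function.Injective R := by
    intro i j hij
    by_contra hne
    rcases lt_or_gt_of_ne hne with h | h
    · exact absurd hij (hanti i j h).ne'
    · exact absurd hij (hanti j i h).ne
  set β : Fin 4 → ℚ := fun i => 1 / (4 * R i) with hβ
  have hβinj : Function.Injective β := by
    intro i j hij
    apply hRinj
    have h1 := (hRpos i).ne'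
    have h2 := (hRpos j).ne'
    simp only [hβ] at hij
    field_simp at hij
    linarith
  set N : ℤ := ∏ i, ((β i).den : ℤ) with hN
  have hNpos : 0 < N := Finset.prod_pos fun i _ => by exact_mod_cast (β i).den_pos
  have hNq : (0 : ℚ) < N := by exact_mod_cast hNpos
  have hbex : ∀ i, ∃ b : ℤ, (b : ℚ) = N * β i := by
    intro i
    refine ⟨(∏ l ∈ Finset.univ.erase i, ((β l).den : ℤ)) * (β i).num, ?_⟩
    have h1 : N = ((β i).den : ℤ) * ∏ l ∈ Finset.univ.erase i, ((β l).den : ℤ) :=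
      (Finset.mul_prod_erase Finset.univ (fun l => ((β l).den : ℤ)) (Finset.mem_univ i)).symm
    rw [h1]
    push_cast
    have h2 : (β i).den * β i = (β i).num := Rat.den_mul_eq_num (β i)
    rw [← h2]
    ring
  choose b hb using hbex
  have hbinj : Function.Injective b := by
    intro i j hij
    apply hβinj
    have h1 : (N : ℚ) * β i = N * β j := by rw [← hb, ← hb, hij]
    exact mul_left_cancel₀ hNq.ne' h1
  set γ' : Fin 4 → ℚ := fun i => 4 * c * R i / N with hγ'
  have hγ'pos : ∀ i, 0 < γ' i := fun i => by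
    have := hRpos i
    simp only [hγ']
    positivity
  set γ : Fin 4 → ℤ := fun i => (γ' i).num * (γ' i).den with hγdef
  have hγpos : ∀ i, 0 < γ i := fun i =>
    mul_pos (Rat.num_pos.2 (hγ'pos i)) (by exact_mod_cast (γ' i).den_pos)
  have hγq : ∀ i, (γ i : ℚ) = γ' i * (γ' i).den ^ 2 := by
    intro i
    have h2 : γ' i * (γ' i).den = (γ' i).num := Rat.mul_den_eq_num (γ' i)
    simp only [hγdef]
    push_cast
    rw [← h2]
    ring
  -- the points
  have hs : ∀ (n : ℕ) (i : Fin 4), ∃ s : ℚ, 4 * R i = (1 + c * s ^ 2) * r (φ (n + 4)) := by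
    intro n i
    obtain ⟨s, -, hs⟩ := hch (φ i) (φ (n + 4)) (hφ (by have := i.2; omega))
    exact ⟨s, hs⟩
  choose s hs using hs
  refine finiteness_rat' hF γ b hγpos hbinj (fun n => N / r (φ (n + 4)))
    (fun n i => c * s n i * (γ' i).den) ?_ ?_
  · intro n i
    have h1 := hs n i
    have h2 := (hr (φ (n + 4))).ne'
    have h3 := (hRpos i).ne'
    rw [hγq, hb]
    simp only [hγ', hβ]
    field_simp
    linear_combination (-1) * h1
  · have h1 : Tendsto (fun n => (r (φ (n + 4)) : ℝ)⁻¹) atTop atTop :=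
      (tendsto_add_atTop_iff_nat 4).2 (hinf.comp hφ.tendsto_atTop)
    have h2 : (0 : ℝ) < N := by exact_mod_cast hNpos
    have h3 := h1.const_mul_atTop h2
    refine h3.congr fun n => ?_
    push_cast
    rfl

/-- The frozen statement from the finiteness theorem. -/
theorem not_continuum (hF : Finiteness) :
    ¬ (∃ S : Set (lp (fun _ : ℕ => ℝ) 2),
      Cardinal.mk S = Cardinal.continuum ∧
      ∀ a ∈ S, ∀ b ∈ S, ∀ c ∈ S, a ≠ b → b ≠ c → a ≠ c →
        ∃ q : ℚ, q ≠ 0 ∧
          (1 / 2 : ℝ) * Real.sqrt (‖b - a‖ ^ 2 * ‖c - a‖ ^ 2 - (inner ℝ (b - a) (c - a)) ^ 2)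
            = (q : ℝ)) := by
  rintro ⟨S, hS, h⟩
  exact not_hasInfiniteChain hF (MP_36d6be_co.main_equiv.1.1 ⟨S, hS, h⟩)

end Pool.Agent.Work.MP_36d6be_co_V
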