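import Pool.Agent.Work.MP_36d6be_co_V.FE

/-!
Block F1: size of the coefficients of the auxiliary function on the branch.
-/

set_option autoImplicit false

namespace Pool.Agent.Work.MP_36d6be_co_V

open Finset

/-- truncated weighted `ℓ¹` norm -/
noncomputable def nrm (r : ℝ) (T : ℕ) (f : PowerSeries ℚ) : ℝ :=
  ∑ n ∈ range (T + 1), |((PowerSeries.coeff n f : ℚ) : ℝ)| * r ^ n

section nrm

variable {r : ℝ} (hr : 0 < r) (T : ℕ)

include hr

lemma nrm_nonneg (f : PowerSeries ℚ) : 0 ≤ nrm r T f :=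
  sum_nonneg fun n _ => mul_nonneg (abs_nonneg _) (pow_nonneg hr.le n)

lemma nrm_add (f g : PowerSeries ℚ) : nrm r T (f + g) ≤ nrm r T f + nrm r T g := by
  unfold nrm
  rw [← sum_add_distrib]
  apply sum_le_sum
  intro n _
  rw [← add_mul]
  apply mul_le_mul_of_nonneg_right _ (pow_nonneg hr.le n)
  rw [map_add]
  push_cast
  exact abs_add_le _ _

lemma nrm_sum {ι : Type*} (s : Finset ι) (f : ι → PowerSeries ℚ) :
    nrm r T (∑ i ∈ s, f i) ≤ ∑ i ∈ s, nrm r T (f i) := by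
  classical
  induction s using Finset.induction_on with
  | empty => simp [nrm]
  | insert a s ha ih =>
    rw [sum_insert ha, sum_insert ha]
    exact (nrm_add hr T _ _).trans (add_le_add le_rfl ih)

lemma nrm_mul (f g : PowerSeries ℚ) : nrm r T (f * g) ≤ nrm r T f * nrm r T g := by
  set a : ℕ → ℝ := fun n => |((PowerSeries.coeff n f : ℚ) : ℝ)| * r ^ n with ha
  set b : ℕ → ℝ := fun n => |((PowerSeries.coeff n g : ℚ) : ℝ)| * r ^ n with hb
  have ha0 : ∀ n, 0 ≤ a n := fun n => mul_nonneg (abs_nonneg _) (pow_nonneg hr.le n)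
  have hb0 : ∀ n, 0 ≤ b n := fun n => mul_nonneg (abs_nonneg _) (pow_nonneg hr.le n)
  have h1 : ∀ n, |((PowerSeries.coeff n (f * g) : ℚ) : ℝ)| * r ^ n ≤
      ∑ k ∈ range (n + 1), a k * b (n - k) := by
    intro n
    rw [PowerSeries.coeff_mul,
      Finset.Nat.sum_antidiagonal_eq_sum_range_succ
        (fun i j => PowerSeries.coeff i f * PowerSeries.coeff j g) n]
    push_cast
    refine (mul_le_mul_of_nonneg_right (abs_sum_le_sum_abs _ _) (pow_nonneg hr.le n)).trans ?_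
    rw [sum_mul]
    apply sum_le_sum
    intro k hk
    rw [mem_range] at hk
    have e : r ^ n = r ^ k * r ^ (n - k) := by rw [← pow_add]; congr 1; omega
    rw [abs_mul, e]
    apply le_of_eq
    simp only [ha, hb]
    ring
  calc nrm r T (f * g) ≤ ∑ n ∈ range (T + 1), ∑ k ∈ range (n + 1), a k * b (n - k) :=
        sum_le_sum fun n _ => h1 n
    _ = ∑ k ∈ range (T + 1), ∑ n ∈ Ico k (T + 1), a k * b (n - k) := by
        apply sum_comm'
        intro n k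
        simp only [mem_range, mem_Ico]
        omega
    _ ≤ ∑ k ∈ range (T + 1), a k * ∑ m ∈ range (T + 1), b m := by
        apply sum_le_sum
        intro k _
        rw [← mul_sum]
        apply mul_le_mul_of_nonneg_left _ (ha0 k)
        rw [sum_Ico_eq_sum_range]
        simp only [Nat.add_sub_cancel_left]
        apply sum_le_sum_of_subset_of_nonneg
        · intro m hm
          rw [mem_range] at hm ⊢
          omega
        · intro m _ _; exact hb0 m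
    _ = nrm r T f * nrm r T g := by rw [← sum_mul]; rfl

lemma nrm_C (a : ℚ) : nrm r T (PowerSeries.C a) ≤ |(a : ℝ)| := by
  unfold nrm
  rw [sum_range_succ']
  have : ∑ k ∈ range T, |((PowerSeries.coeff (k + 1) (PowerSeries.C a) : ℚ) : ℝ)| *
      r ^ (k + 1) = 0 := by
    apply sum_eq_zero
    intro k _
    simp [PowerSeries.coeff_C]
  rw [this]
  simp

lemma nrm_int (a : ℤ) : nrm r T (a : PowerSeries ℚ) ≤ |(a : ℝ)| := by
  rw [← C_int]
  have := nrm_C hr T ((a : ℤ) : ℚ)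
  simpa using this

lemma nrm_one : nrm r T 1 ≤ 1 := by
  have := nrm_int hr T 1
  simpa using this

lemma nrm_X_pow (p : ℕ) : nrm r T (PowerSeries.X ^ p) ≤ r ^ p := by
  unfold nrm
  calc ∑ n ∈ range (T + 1), |((PowerSeries.coeff n (PowerSeries.X ^ p : PowerSeries ℚ) : ℚ) : ℝ)|
        * r ^ n = ∑ n ∈ range (T + 1), if n = p then r ^ p else 0 := by
        apply sum_congr rfl
        intro n _
        rw [PowerSeries.coeff_X_pow]
        split_ifs with h
        · rw [h]; simp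
        · simp
    _ ≤ r ^ p := by
        rw [sum_ite_eq']
        split_ifs
        · exact le_rfl
        · exact pow_nonneg hr.le p

lemma nrm_pow (f : PowerSeries ℚ) (A : ℝ) (h : nrm r T f ≤ A) (n : ℕ) :
    nrm r T (f ^ n) ≤ A ^ n := by
  have hA : 0 ≤ A := (nrm_nonneg hr T f).trans h
  induction n with
  | zero => simpa using nrm_one hr T
  | succ n ih =>
    rw [pow_succ, pow_succ]
    exact (nrm_mul hr T _ _).trans (mul_le_mul ih h (nrm_nonneg hr T _) (pow_nonneg hA n))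

lemma nrm_prod {ι : Type*} (s : Finset ι) (f : ι → PowerSeries ℚ) (A : ℝ)
    (h : ∀ i ∈ s, nrm r T (f i) ≤ A) (hA : 0 ≤ A) : nrm r T (∏ i ∈ s, f i) ≤ A ^ s.card := by
  classical
  induction s using Finset.induction_on with
  | empty => simpa using nrm_one hr T
  | insert a s ha ih =>
    rw [prod_insert ha, card_insert_of_notMem ha, pow_succ, mul_comm (A ^ s.card)]
    exact (nrm_mul hr T _ _).trans (mul_le_mul (h a (mem_insert_self a s))
      (ih fun i hi => h i (mem_insert_of_mem hi)) (nrm_nonneg hr T _) hA)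

lemma coeff_le_nrm (f : PowerSeries ℚ) (e : ℕ) (he : e ≤ T) :
    |((PowerSeries.coeff e f : ℚ) : ℝ)| * r ^ e ≤ nrm r T f := by
  unfold nrm
  exact single_le_sum (f := fun n => |((PowerSeries.coeff n f : ℚ) : ℝ)| * r ^ n)
    (fun n _ => mul_nonneg (abs_nonneg _) (pow_nonneg hr.le n)) (mem_range.2 (by omega))

variable {γ b : Fin 4 → ℤ}

lemma nrm_fS (P : IPt γ b) (p : ℕ) (hp : p ≠ 0) (i : Fin 4)
    (hm : 8 * |(mI P i : ℝ)| * r ^ p ≤ 1) : nrm r T (fS P p hp i) ≤ 2 := by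
  set a : ℕ → ℝ := fun k => (|(mI P i : ℝ)| ^ k * 4 ^ k) * r ^ (p * k) with ha
  have ha0 : ∀ k, 0 ≤ a k := fun k => by simp only [ha]; positivity
  have hcoef : ∀ n, |((PowerSeries.coeff n (fS P p hp i) : ℚ) : ℝ)| * r ^ n ≤
      if p ∣ n then a (n / p) else 0 := by
    intro n
    unfold fS fZ
    rw [PowerSeries.coeff_map, PowerSeries.coeff_expand]
    split_ifs with h
    · rw [PowerSeries.coeff_rescale]
      have e1 : p * (n / p) = n := Nat.mul_div_cancel' h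
      simp only [ha, e1]
      apply mul_le_mul_of_nonneg_right _ (pow_nonneg hr.le n)
      have e2 : PowerSeries.coeff (n / p) sq = sqc (n / p) := by simp [sq]
      rw [e2]
      simp only [eq_intCast]
      push_cast
      rw [abs_mul, abs_pow]
      apply mul_le_mul_of_nonneg_left _ (pow_nonneg (abs_nonneg _) _)
      have := sqc_abs_le (n / p)
      exact_mod_cast this
    · simp
  have hpos : 0 < p := Nat.pos_of_ne_zero hp
  calc nrm r T (fS P p hp i) ≤ ∑ n ∈ range (T + 1), (if p ∣ n then a (n / p) else 0) :=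
        sum_le_sum fun n _ => hcoef n
    _ = ∑ n ∈ (range (T + 1)).filter (fun n => p ∣ n), a (n / p) := by rw [sum_filter]
    _ = ∑ k ∈ ((range (T + 1)).filter (fun n => p ∣ n)).image (fun n => n / p), a k := by
        rw [sum_image]
        intro x hx y hy hxy
        have hx' := (mem_filter.1 hx).2
        have hy' := (mem_filter.1 hy).2
        simp only at hxy
        rw [← Nat.mul_div_cancel' hx', ← Nat.mul_div_cancel' hy', hxy]
    _ ≤ ∑ k ∈ range (T + 1), a k := by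
        apply sum_le_sum_of_subset_of_nonneg
        · intro k hk
          rw [mem_image] at hk
          obtain ⟨n, hn, rfl⟩ := hk
          rw [mem_filter, mem_range] at hn
          rw [mem_range]
          have := Nat.div_le_self n p
          omega
        · intro k _ _; exact ha0 k
    _ ≤ ∑ k ∈ range (T + 1), (1 / 2 : ℝ) ^ k := by
        apply sum_le_sum
        intro k _
        simp only [ha]
        rw [pow_mul, ← mul_pow, ← mul_pow]
        apply pow_le_pow_left₀ (by positivity)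
        linarith
    _ ≤ 2 := by
        rw [geom_sum_eq (by norm_num)]
        have : (0 : ℝ) < (1 / 2) ^ (T + 1) := by positivity
        rw [div_le_iff_of_neg (by norm_num)]
        linarith

end nrm

section sizes

variable {γ b : Fin 4 → ℤ} (P : IPt γ b)

lemma aI_abs_le (i : Fin 4) : |(aI P i : ℝ)| ≤ (c2 γ b : ℝ) * HH P := by
  have h1 := g_le P i
  have h2 : |aI P i| ≤ |γ i * (P.A - b i * P.D)| := by
    have e : γ i * (P.A - b i * P.D) = γ i * aI P i := rfl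
    rw [e, abs_mul]
    exact le_mul_of_one_le_left (abs_nonneg _) (Int.one_le_abs (P.γ_ne i))
  exact_mod_cast h2.trans h1

lemma HH_one : (1 : ℝ) ≤ HH P := by exact_mod_cast HH_ge_one P

lemma c2_one (γ b : Fin 4 → ℤ) : (1 : ℝ) ≤ c2 γ b := by exact_mod_cast c2_ge_one γ b

lemma D_le_HH : |(P.D : ℝ)| ≤ HH P := by
  have h : (0 : ℝ) < P.D := by exact_mod_cast P.hD
  rw [abs_of_pos h]
  exact_mod_cast D_le P

lemma prod_aI_le (s : Finset (Fin 4)) :
    |((∏ l ∈ s, aI P l : ℤ) : ℝ)| ≤ ((c2 γ b : ℝ) * HH P) ^ s.card := by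
  push_cast
  rw [abs_prod]
  calc ∏ i ∈ s, |(aI P i : ℝ)| ≤ ∏ _i ∈ s, ((c2 γ b : ℝ) * HH P) :=
        prod_le_prod (fun i _ => abs_nonneg _) fun i _ => aI_abs_le P i
    _ = _ := by rw [prod_const]

lemma rho_le : |(rho P : ℝ)| ≤ 4 * (c2 γ b : ℝ) ^ 4 * (HH P : ℝ) ^ 4 := by
  unfold rho
  have h := prod_aI_le P univ
  rw [card_univ, Fintype.card_fin] at h
  push_cast at h ⊢
  rw [abs_mul, abs_of_pos (by norm_num : (0 : ℝ) < 4)]
  calc 4 * |∏ i, (aI P i : ℝ)| ≤ 4 * ((c2 γ b : ℝ) * HH P) ^ 4 := by linarith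
    _ = _ := by ring

lemma mI_le (i : Fin 4) : |(mI P i : ℝ)| ≤ (c2 γ b : ℝ) ^ 4 * (HH P : ℝ) ^ 4 := by
  unfold mI
  have h := prod_aI_le P (univ.erase i)
  have hcard : (univ.erase i).card = 3 := by
    rw [card_erase_of_mem (mem_univ i)]; simp
  rw [hcard] at h
  have hH := HH_one P
  have hc := c2_one γ b
  rw [Int.cast_mul, abs_mul]
  calc |(P.D : ℝ)| * |((∏ l ∈ univ.erase i, aI P l : ℤ) : ℝ)|
      ≤ (HH P : ℝ) * ((c2 γ b : ℝ) * HH P) ^ 3 :=
        mul_le_mul (D_le_HH P) h (abs_nonneg _) (by positivity)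
    _ = (c2 γ b : ℝ) ^ 3 * (HH P : ℝ) ^ 4 := by ring
    _ ≤ _ := by
        apply mul_le_mul_of_nonneg_right _ (by positivity)
        exact pow_le_pow_right₀ hc (by norm_num)

lemma nrm_D_Xh {r : ℝ} (hr : 0 < r) (T p : ℕ)
    (h : 4 * (c2 γ b : ℝ) ^ 4 * (HH P : ℝ) ^ 4 * r ^ p ≤ 1) :
    nrm r T ((P.D : PowerSeries ℚ) * Xh P p) ≤ 2 * HH P := by
  rw [D_Xh]
  have hH := HH_one P
  have h1 : nrm r T (P.A : PowerSeries ℚ) ≤ HH P := by
    refine (nrm_int hr T _).trans ?_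
    exact_mod_cast A_le P
  have h2 : nrm r T ((P.D : PowerSeries ℚ) * (rho P : PowerSeries ℚ) *
      PowerSeries.X ^ p) ≤ HH P := by
    have h3 : nrm r T ((P.D : PowerSeries ℚ) * (rho P : PowerSeries ℚ)) ≤
        (HH P : ℝ) * (4 * (c2 γ b : ℝ) ^ 4 * (HH P : ℝ) ^ 4) := by
      refine (nrm_mul hr T _ _).trans ?_
      exact mul_le_mul ((nrm_int hr T _).trans (D_le_HH P))
        ((nrm_int hr T _).trans (rho_le P)) (nrm_nonneg hr T _) (by linarith)
    refine (nrm_mul hr T _ _).trans ?_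
    calc nrm r T ((P.D : PowerSeries ℚ) * (rho P : PowerSeries ℚ)) *
          nrm r T (PowerSeries.X ^ p)
        ≤ ((HH P : ℝ) * (4 * (c2 γ b : ℝ) ^ 4 * (HH P : ℝ) ^ 4)) * r ^ p :=
          mul_le_mul h3 (nrm_X_pow hr T p) (nrm_nonneg hr T _) (by positivity)
      _ = (HH P : ℝ) * (4 * (c2 γ b : ℝ) ^ 4 * (HH P : ℝ) ^ 4 * r ^ p) := by ring
      _ ≤ (HH P : ℝ) * 1 := mul_le_mul_of_nonneg_left h (by linarith)
      _ = _ := mul_one _
  exact (nrm_add hr T _ _).trans (by linarith)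

end sizes

open Polynomial

lemma nrm_ev2 {γ b : Fin 4 → ℤ} (P P' : IPt γ b) {r : ℝ} (hr : 0 < r) (T p q : ℕ)
    (h : 4 * (c2 γ b : ℝ) ^ 4 * (HH P : ℝ) ^ 4 * r ^ p ≤ 1)
    (h' : 4 * (c2 γ b : ℝ) ^ 4 * (HH P' : ℝ) ^ 4 * r ^ q ≤ 1)
    (Q : ℤ[X][X]) (L1 L2 : ℕ) (B : ℝ) (hL1 : 0 < L1) (hL2 : 0 < L2)
    (h2 : Q.natDegree < L2) (h1 : ∀ j, (Q.coeff j).natDegree < L1)
    (hB : ∀ j i, |(((Q.coeff j).coeff i : ℤ) : ℝ)| ≤ Real.exp B) :
    nrm r T ((P.D : PowerSeries ℚ) ^ (L1 - 1) * (P'.D : PowerSeries ℚ) ^ (L2 - 1) *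
      ev2 (Xh P p) (Xh P' q) Q) ≤
      L1 * L2 * Real.exp B * (2 * (HH P : ℝ)) ^ (L1 - 1) * (2 * (HH P' : ℝ)) ^ (L2 - 1) := by
  have hH := HH_one P
  have hH' := HH_one P'
  rw [ev2_eq_sum _ _ Q (L2 - 1) (by omega), mul_sum]
  refine (nrm_sum hr T _ _).trans ?_
  have hL2' : L2 - 1 + 1 = L2 := by omega
  have hL1' : L1 - 1 + 1 = L1 := by omega
  have hterm : ∀ m ∈ range (L2 - 1 + 1), nrm r T ((P.D : PowerSeries ℚ) ^ (L1 - 1) *
      (P'.D : PowerSeries ℚ) ^ (L2 - 1) * ((Q.coeff m).eval₂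
      (Int.castRingHom (PowerSeries ℚ)) (Xh P p) * Xh P' q ^ m)) ≤
      L1 * Real.exp B * (2 * (HH P : ℝ)) ^ (L1 - 1) * (2 * (HH P' : ℝ)) ^ (L2 - 1) := by
    intro m hm
    rw [mem_range] at hm
    have e : (P.D : PowerSeries ℚ) ^ (L1 - 1) * (P'.D : PowerSeries ℚ) ^ (L2 - 1) *
        ((Q.coeff m).eval₂ (Int.castRingHom (PowerSeries ℚ)) (Xh P p) * Xh P' q ^ m) =
        ((P.D : PowerSeries ℚ) ^ (L1 - 1) * (Q.coeff m).eval₂
          (Int.castRingHom (PowerSeries ℚ)) (Xh P p)) *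
        ((P'.D : PowerSeries ℚ) ^ (L2 - 1 - m) * ((P'.D : PowerSeries ℚ) * Xh P' q) ^ m) := by
      have : (P'.D : PowerSeries ℚ) ^ (L2 - 1) = (P'.D : PowerSeries ℚ) ^ (L2 - 1 - m) *
          (P'.D : PowerSeries ℚ) ^ m := by
        rw [← pow_add]; congr 1; omega
      rw [this, mul_pow]; ring
    rw [e]
    have hb2 : nrm r T ((P'.D : PowerSeries ℚ) ^ (L2 - 1 - m) *
        ((P'.D : PowerSeries ℚ) * Xh P' q) ^ m) ≤ (2 * (HH P' : ℝ)) ^ (L2 - 1) := by
      refine (nrm_mul hr T _ _).trans ?_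
      have a1 := nrm_pow hr T _ _ ((nrm_int hr T P'.D).trans ((D_le_HH P').trans
        (by linarith : (HH P' : ℝ) ≤ 2 * HH P'))) (L2 - 1 - m)
      have a2 := nrm_pow hr T _ _ (nrm_D_Xh P' hr T q h') m
      calc _ ≤ (2 * (HH P' : ℝ)) ^ (L2 - 1 - m) * (2 * (HH P' : ℝ)) ^ m :=
            mul_le_mul a1 a2 (nrm_nonneg hr T _) (by positivity)
        _ = _ := by rw [← pow_add]; congr 1; omega
    have hb1 : nrm r T ((P.D : PowerSeries ℚ) ^ (L1 - 1) * (Q.coeff m).eval₂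
          (Int.castRingHom (PowerSeries ℚ)) (Xh P p)) ≤
        L1 * Real.exp B * (2 * (HH P : ℝ)) ^ (L1 - 1) := by
      have hlt : (Q.coeff m).natDegree < L1 - 1 + 1 := by have := h1 m; omega
      rw [eval₂_eq_sum_range' (Int.castRingHom (PowerSeries ℚ)) hlt, mul_sum]
      refine (nrm_sum hr T _ _).trans ?_
      have hin : ∀ i ∈ range (L1 - 1 + 1), nrm r T ((P.D : PowerSeries ℚ) ^ (L1 - 1) *
          ((Int.castRingHom (PowerSeries ℚ)) ((Q.coeff m).coeff i) * Xh P p ^ i)) ≤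
          Real.exp B * (2 * (HH P : ℝ)) ^ (L1 - 1) := by
        intro i hi
        rw [mem_range] at hi
        have e2 : (P.D : PowerSeries ℚ) ^ (L1 - 1) *
            ((Int.castRingHom (PowerSeries ℚ)) ((Q.coeff m).coeff i) * Xh P p ^ i) =
            (((Q.coeff m).coeff i : ℤ) : PowerSeries ℚ) *
            ((P.D : PowerSeries ℚ) ^ (L1 - 1 - i) * ((P.D : PowerSeries ℚ) * Xh P p) ^ i) := by
          have : (P.D : PowerSeries ℚ) ^ (L1 - 1) = (P.D : PowerSeries ℚ) ^ (L1 - 1 - i) *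
              (P.D : PowerSeries ℚ) ^ i := by
            rw [← pow_add]; congr 1; omega
          rw [this, mul_pow]
          simp only [eq_intCast]
          ring
        rw [e2]
        refine (nrm_mul hr T _ _).trans ?_
        apply mul_le_mul ((nrm_int hr T _).trans (hB m i)) _ (nrm_nonneg hr T _)
          (Real.exp_pos _).le
        refine (nrm_mul hr T _ _).trans ?_
        have a1 := nrm_pow hr T _ _ ((nrm_int hr T P.D).trans ((D_le_HH P).trans
          (by linarith : (HH P : ℝ) ≤ 2 * HH P))) (L1 - 1 - i)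
        have a2 := nrm_pow hr T _ _ (nrm_D_Xh P hr T p h) i
        calc _ ≤ (2 * (HH P : ℝ)) ^ (L1 - 1 - i) * (2 * (HH P : ℝ)) ^ i :=
              mul_le_mul a1 a2 (nrm_nonneg hr T _) (by positivity)
          _ = _ := by rw [← pow_add]; congr 1; omega
      refine (sum_le_sum hin).trans (le_of_eq ?_)
      rw [sum_const, card_range, hL1', nsmul_eq_mul]
      ring
    refine (nrm_mul hr T _ _).trans ?_
    exact mul_le_mul hb1 hb2 (nrm_nonneg hr T _) (by positivity)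
  refine (sum_le_sum hterm).trans (le_of_eq ?_)
  rw [sum_const, card_range, hL2', nsmul_eq_mul]
  ring

/-- BLOCK F1 (size of the coefficients of the auxiliary function on the branch). -/
theorem blockF1 (γ b : Fin 4 → ℤ) : ∃ C : ℝ, 1 ≤ C ∧
    ∀ (P P' : IPt γ b) (p q : ℕ) (hp : p ≠ 0) (hq : q ≠ 0) (L1 L2 : ℕ)
      (c : Finset (Fin 4) → ℤ[X][X]) (B r : ℝ) (e : ℕ),
      0 < L1 → 0 < L2 → 0 < r →
      C * (HH P : ℝ) ^ 4 * r ^ p ≤ 1 → C * (HH P' : ℝ) ^ 4 * r ^ q ≤ 1 →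
      (∀ I, (c I).natDegree < L2) → (∀ I j, ((c I).coeff j).natDegree < L1) →
      (∀ I j i, |((((c I).coeff j).coeff i : ℤ) : ℝ)| ≤ Real.exp B) →
      |((PowerSeries.coeff e (Fh P P' p q hp hq c) : ℚ) : ℝ)| * r ^ e *
        ((P.D : ℝ) ^ (L1 + 3) * (P'.D : ℝ) ^ (L2 + 3)) ≤
        C * L1 * L2 * Real.exp B * (2 * (HH P : ℝ)) ^ (L1 + 3) * (2 * (HH P' : ℝ)) ^ (L2 + 3) := by
  have hc := c2_one γ b
  refine ⟨4096 * (c2 γ b : ℝ) ^ 8, ?_, ?_⟩
  · have : (1 : ℝ) ≤ (c2 γ b : ℝ) ^ 8 := one_le_pow₀ hc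
    linarith
  intro P P' p q hp hq L1 L2 c B r e hL1 hL2 hr hP hP' h2 h1 hB
  have hH := HH_one P
  have hH' := HH_one P'
  have hc48 : (c2 γ b : ℝ) ^ 4 ≤ (c2 γ b : ℝ) ^ 8 := pow_le_pow_right₀ hc (by norm_num)
  have k1 : ∀ (Q : IPt γ b) (n : ℕ), 4096 * (c2 γ b : ℝ) ^ 8 * (HH Q : ℝ) ^ 4 * r ^ n ≤ 1 →
      4 * (c2 γ b : ℝ) ^ 4 * (HH Q : ℝ) ^ 4 * r ^ n ≤ 1 := by
    intro Q n hQ
    have hHQ := HH_one Q
    refine le_trans ?_ hQ
    gcongr
    linarith
  have k2 : ∀ (Q : IPt γ b) (n : ℕ) (i : Fin 4),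
      4096 * (c2 γ b : ℝ) ^ 8 * (HH Q : ℝ) ^ 4 * r ^ n ≤ 1 →
      8 * |(mI Q i : ℝ)| * r ^ n ≤ 1 := by
    intro Q n i hQ
    have hHQ := HH_one Q
    have hm := mI_le Q i
    calc 8 * |(mI Q i : ℝ)| * r ^ n ≤ 8 * ((c2 γ b : ℝ) ^ 4 * (HH Q : ℝ) ^ 4) * r ^ n := by
          gcongr
      _ = 8 * (c2 γ b : ℝ) ^ 4 * (HH Q : ℝ) ^ 4 * r ^ n := by ring
      _ ≤ 4096 * (c2 γ b : ℝ) ^ 8 * (HH Q : ℝ) ^ 4 * r ^ n := by
          gcongr
          linarith
      _ ≤ 1 := hQ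
  have hP4 := k1 P p hP
  have hP4' := k1 P' q hP'
  -- norm of the scaled branch
  have hw : ∀ i : Fin 4, nrm r e ((P.D : PowerSeries ℚ) * P'.D * wh P P' p q hp hq i) ≤
      4 * (c2 γ b : ℝ) ^ 2 * ((HH P : ℝ) * HH P') := by
    intro i
    rw [DD_wh]
    have z1 : |(P.Z i : ℝ)| ≤ (c2 γ b : ℝ) * HH P := by
      have : (0 : ℝ) < P.Z i := by exact_mod_cast P.hpos i
      rw [abs_of_pos this]
      exact_mod_cast Z_le P i
    have z2 : |(P'.Z i : ℝ)| ≤ (c2 γ b : ℝ) * HH P' := by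
      have : (0 : ℝ) < P'.Z i := by exact_mod_cast P'.hpos i
      rw [abs_of_pos this]
      exact_mod_cast Z_le P' i
    have f1 := nrm_fS hr e P p hp i (k2 P p i hP)
    have f2 := nrm_fS hr e P' q hq i (k2 P' q i hP')
    have a1 : nrm r e ((P.Z i : PowerSeries ℚ) * P'.Z i) ≤
        ((c2 γ b : ℝ) * HH P) * ((c2 γ b : ℝ) * HH P') :=
      (nrm_mul hr e _ _).trans (mul_le_mul ((nrm_int hr e _).trans z1)
        ((nrm_int hr e _).trans z2) (nrm_nonneg hr e _) (by positivity))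
    have a2 : nrm r e (fS P p hp i * fS P' q hq i) ≤ 2 * 2 :=
      (nrm_mul hr e _ _).trans (mul_le_mul f1 f2 (nrm_nonneg hr e _) (by norm_num))
    refine (nrm_mul hr e _ _).trans ?_
    calc _ ≤ (((c2 γ b : ℝ) * HH P) * ((c2 γ b : ℝ) * HH P')) * (2 * 2) :=
          mul_le_mul a1 a2 (nrm_nonneg hr e _) (by positivity)
      _ = _ := by ring
  -- norm of the scaled function
  have htot : nrm r e ((P.D : PowerSeries ℚ) ^ (L1 + 3) * (P'.D : PowerSeries ℚ) ^ (L2 + 3) *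
      Fh P P' p q hp hq c) ≤ 4096 * (c2 γ b : ℝ) ^ 8 * L1 * L2 * Real.exp B *
        (2 * (HH P : ℝ)) ^ (L1 + 3) * (2 * (HH P' : ℝ)) ^ (L2 + 3) := by
    unfold Fh Fev
    rw [mul_sum]
    refine (nrm_sum hr e _ _).trans ?_
    have hI : ∀ I ∈ (univ : Finset (Finset (Fin 4))),
        nrm r e ((P.D : PowerSeries ℚ) ^ (L1 + 3) * (P'.D : PowerSeries ℚ) ^ (L2 + 3) *
          (ev2 (Xh P p) (Xh P' q) (c I) * ∏ i ∈ I, wh P P' p q hp hq i)) ≤
        256 * (c2 γ b : ℝ) ^ 8 * L1 * L2 * Real.exp B *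
        (2 * (HH P : ℝ)) ^ (L1 + 3) * (2 * (HH P' : ℝ)) ^ (L2 + 3) := by
      intro I _
      have hI4 : I.card ≤ 4 := (card_le_univ I).trans (by simp)
      have e1 : (P.D : PowerSeries ℚ) ^ (L1 + 3) * (P'.D : PowerSeries ℚ) ^ (L2 + 3) *
          (ev2 (Xh P p) (Xh P' q) (c I) * ∏ i ∈ I, wh P P' p q hp hq i) =
          ((P.D : PowerSeries ℚ) ^ (4 - I.card) * (P'.D : PowerSeries ℚ) ^ (4 - I.card)) *
          ((P.D : PowerSeries ℚ) ^ (L1 - 1) * (P'.D : PowerSeries ℚ) ^ (L2 - 1) *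
            ev2 (Xh P p) (Xh P' q) (c I)) *
          ∏ i ∈ I, ((P.D : PowerSeries ℚ) * P'.D * wh P P' p q hp hq i) := by
        rw [prod_mul_distrib, prod_const, mul_pow]
        have e2 : (P.D : PowerSeries ℚ) ^ (L1 + 3) = (P.D : PowerSeries ℚ) ^ (4 - I.card) *
            (P.D : PowerSeries ℚ) ^ (L1 - 1) * (P.D : PowerSeries ℚ) ^ I.card := by
          rw [← pow_add, ← pow_add]; congr 1; omega
        have e3 : (P'.D : PowerSeries ℚ) ^ (L2 + 3) = (P'.D : PowerSeries ℚ) ^ (4 - I.card) *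
            (P'.D : PowerSeries ℚ) ^ (L2 - 1) * (P'.D : PowerSeries ℚ) ^ I.card := by
          rw [← pow_add, ← pow_add]; congr 1; omega
        rw [e2, e3]
        ring
      rw [e1]
      have a1 : nrm r e ((P.D : PowerSeries ℚ) ^ (4 - I.card) *
          (P'.D : PowerSeries ℚ) ^ (4 - I.card)) ≤
          (HH P : ℝ) ^ (4 - I.card) * (HH P' : ℝ) ^ (4 - I.card) :=
        (nrm_mul hr e _ _).trans (mul_le_mul
          (nrm_pow hr e _ _ ((nrm_int hr e P.D).trans (D_le_HH P)) _)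
          (nrm_pow hr e _ _ ((nrm_int hr e P'.D).trans (D_le_HH P')) _)
          (nrm_nonneg hr e _) (by positivity))
      have a2 := nrm_ev2 P P' hr e p q hP4 hP4' (c I) L1 L2 B hL1 hL2 (h2 I) (h1 I) (hB I)
      have a3 := nrm_prod hr e I (fun i => (P.D : PowerSeries ℚ) * P'.D * wh P P' p q hp hq i)
        (4 * (c2 γ b : ℝ) ^ 2 * ((HH P : ℝ) * HH P')) (fun i _ => hw i) (by positivity)
      have a4 : (4 * (c2 γ b : ℝ) ^ 2 * ((HH P : ℝ) * HH P')) ^ I.card ≤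
          (256 * (c2 γ b : ℝ) ^ 8) * ((HH P : ℝ) ^ I.card * (HH P' : ℝ) ^ I.card) := by
        rw [mul_pow, mul_pow ((HH P : ℝ))]
        apply mul_le_mul_of_nonneg_right _ (by positivity)
        calc (4 * (c2 γ b : ℝ) ^ 2) ^ I.card ≤ (4 * (c2 γ b : ℝ) ^ 2) ^ 4 := by
              apply pow_le_pow_right₀ _ hI4
              have : (1 : ℝ) ≤ (c2 γ b : ℝ) ^ 2 := one_le_pow₀ hc
              linarith
          _ = _ := by ring
      have b1 : (HH P : ℝ) ^ (4 - I.card) * (HH P : ℝ) ^ I.card ≤ (2 * (HH P : ℝ)) ^ 4 := by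
        rw [← pow_add, Nat.sub_add_cancel hI4]
        exact pow_le_pow_left₀ (by linarith) (by linarith) 4
      have b2 : (HH P' : ℝ) ^ (4 - I.card) * (HH P' : ℝ) ^ I.card ≤ (2 * (HH P' : ℝ)) ^ 4 := by
        rw [← pow_add, Nat.sub_add_cancel hI4]
        exact pow_le_pow_left₀ (by linarith) (by linarith) 4
      have e4 : (2 * (HH P : ℝ)) ^ (L1 + 3) = (2 * (HH P : ℝ)) ^ (L1 - 1) *
          (2 * (HH P : ℝ)) ^ 4 := by rw [← pow_add]; congr 1; omega
      have e5 : (2 * (HH P' : ℝ)) ^ (L2 + 3) = (2 * (HH P' : ℝ)) ^ (L2 - 1) *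
          (2 * (HH P' : ℝ)) ^ 4 := by rw [← pow_add]; congr 1; omega
      refine (nrm_mul hr e _ _).trans ?_
      refine (mul_le_mul ((nrm_mul hr e _ _).trans (mul_le_mul a1 a2 (nrm_nonneg hr e _)
        (by positivity))) (a3.trans a4) (nrm_nonneg hr e _) (by positivity)).trans ?_
      rw [e4, e5]
      calc (HH P : ℝ) ^ (4 - I.card) * (HH P' : ℝ) ^ (4 - I.card) *
            (L1 * L2 * Real.exp B * (2 * (HH P : ℝ)) ^ (L1 - 1) *
              (2 * (HH P' : ℝ)) ^ (L2 - 1)) *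
            ((256 * (c2 γ b : ℝ) ^ 8) * ((HH P : ℝ) ^ I.card * (HH P' : ℝ) ^ I.card))
          = (256 * (c2 γ b : ℝ) ^ 8 * L1 * L2 * Real.exp B * (2 * (HH P : ℝ)) ^ (L1 - 1) *
              (2 * (HH P' : ℝ)) ^ (L2 - 1)) *
            (((HH P : ℝ) ^ (4 - I.card) * (HH P : ℝ) ^ I.card) *
              ((HH P' : ℝ) ^ (4 - I.card) * (HH P' : ℝ) ^ I.card)) := by ring
        _ ≤ (256 * (c2 γ b : ℝ) ^ 8 * L1 * L2 * Real.exp B * (2 * (HH P : ℝ)) ^ (L1 - 1) *
              (2 * (HH P' : ℝ)) ^ (L2 - 1)) *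
            ((2 * (HH P : ℝ)) ^ 4 * (2 * (HH P' : ℝ)) ^ 4) := by
            apply mul_le_mul_of_nonneg_left _ (by positivity)
            exact mul_le_mul b1 b2 (by positivity) (by positivity)
        _ = _ := by ring
    refine (sum_le_sum hI).trans (le_of_eq ?_)
    rw [sum_const, card_univ]
    simp only [Fintype.card_finset, Fintype.card_fin]
    rw [nsmul_eq_mul]
    push_cast
    ring
  have hcoef := coeff_le_nrm hr e ((P.D : PowerSeries ℚ) ^ (L1 + 3) *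
    (P'.D : PowerSeries ℚ) ^ (L2 + 3) * Fh P P' p q hp hq c) e le_rfl
  have hD : (0 : ℝ) < P.D := by exact_mod_cast P.hD
  have hD' : (0 : ℝ) < P'.D := by exact_mod_cast P'.hD
  have hce : ((PowerSeries.coeff e ((P.D : PowerSeries ℚ) ^ (L1 + 3) *
    (P'.D : PowerSeries ℚ) ^ (L2 + 3) * Fh P P' p q hp hq c) : ℚ) : ℝ) =
    ((P.D : ℝ) ^ (L1 + 3) * (P'.D : ℝ) ^ (L2 + 3)) *
      ((PowerSeries.coeff e (Fh P P' p q hp hq c) : ℚ) : ℝ) := by
    have e6 : (P.D : PowerSeries ℚ) ^ (L1 + 3) * (P'.D : PowerSeries ℚ) ^ (L2 + 3) =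
        PowerSeries.C ((P.D : ℚ) ^ (L1 + 3) * (P'.D : ℚ) ^ (L2 + 3)) := by
      rw [map_mul, map_pow, map_pow, C_int, C_int]
    rw [e6, PowerSeries.coeff_C_mul]
    push_cast
    ring
  rw [hce, abs_mul, abs_of_pos (by positivity : (0 : ℝ) < (P.D : ℝ) ^ (L1 + 3) *
    (P'.D : ℝ) ^ (L2 + 3))] at hcoef
  calc _ = (P.D : ℝ) ^ (L1 + 3) * (P'.D : ℝ) ^ (L2 + 3) *
      |((PowerSeries.coeff e (Fh P P' p q hp hq c) : ℚ) : ℝ)| * r ^ e := by ring
    _ ≤ _ := hcoef.trans htot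

end Pool.Agent.Work.MP_36d6be_co_V
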