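import Pool.Agent.Work.MP_36d6be_co_V.FDefs

/-!
Block F2: order of vanishing on a monomial curve.
-/

set_option autoImplicit false

namespace Pool.Agent.Work.MP_36d6be_co_V

open Polynomial

/-- Taylor expansion of the evaluation map. -/
lemma ev2_taylor (M : ℤ[X][X]) (x y : ℚ) (ξ η : PowerSeries ℚ) :
    ev2 (PowerSeries.C x + ξ) (PowerSeries.C y + η) M =
      ∑ j ∈ (taylor (C y) (M.map (mapRingHom (Int.castRingHom ℚ)))).support,
        (∑ i ∈ (taylor x ((taylor (C y) (M.map (mapRingHom (Int.castRingHom ℚ)))).coeff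
          j)).support, PowerSeries.C (taylorCoeff M x y i j) * ξ ^ i) * η ^ j := by
  set Mq : ℚ[X][X] := M.map (mapRingHom (Int.castRingHom ℚ)) with hMq
  set N1 : ℚ[X][X] := taylor (C y) Mq with hN1
  set φ : ℚ[X] →+* PowerSeries ℚ :=
    eval₂RingHom (PowerSeries.C : ℚ →+* PowerSeries ℚ) (PowerSeries.C x + ξ) with hφ
  have h1 : ev2 (PowerSeries.C x + ξ) (PowerSeries.C y + η) M =
      Mq.eval₂ φ (PowerSeries.C y + η) := by
    unfold ev2
    rw [hMq, coe_eval₂RingHom, eval₂_map]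
    congr 1
    apply Polynomial.ringHom_ext
    · intro n
      simp [hφ]
    · simp [hφ]
  have h2 : N1.eval₂ φ η = Mq.eval₂ φ (PowerSeries.C y + η) := by
    rw [hN1, taylor_apply, eval₂_comp]
    congr 1
    simp [hφ, add_comm]
  have h3 : ∀ a : ℚ[X], φ a = ∑ i ∈ (taylor x a).support,
      PowerSeries.C ((taylor x a).coeff i) * ξ ^ i := by
    intro a
    have h4 : (taylor x a).eval₂ (PowerSeries.C : ℚ →+* PowerSeries ℚ) ξ = φ a := by
      rw [taylor_apply, eval₂_comp, hφ, coe_eval₂RingHom]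
      congr 1
      simp [add_comm]
    rw [← h4, eval₂_eq_sum]
    rfl
  rw [h1, ← h2, eval₂_eq_sum]
  unfold Polynomial.sum
  apply Finset.sum_congr rfl
  intro j _
  change φ (N1.coeff j) * η ^ j = _
  rw [h3]
  rfl

/-- BLOCK F2 (order of vanishing on a monomial curve). -/
theorem blockF2 (M : ℤ[X][X]) (x y : ℚ) (m1 m2 N p q : ℕ) (hm1 : 0 < m1) (hm2 : 0 < m2)
    (ρ ρ' : ℚ) (hρ : ρ ≠ 0) (hρ' : ρ' ≠ 0)
    (h : ∃ i < m1, ∃ j < m2, taylorCoeff M x y i j ≠ 0)
    (hN : N = 2 * m2 + 2) (hp : p = N * m2) (hq : q = N * m1 + 1) :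
    ∃ e ≤ 2 * N * m1 * m2, PowerSeries.coeff e
      (ev2 (PowerSeries.C x + PowerSeries.C ρ * PowerSeries.X ^ p)
        (PowerSeries.C y + PowerSeries.C ρ' * PowerSeries.X ^ q) M) ≠ 0 := by
  classical
  have hex : ∃ e, ∃ i j, p * i + q * j = e ∧ taylorCoeff M x y i j ≠ 0 := by
    obtain ⟨i, -, j, -, hT⟩ := h
    exact ⟨_, i, j, rfl, hT⟩
  obtain ⟨i0, j0, he0, hT0⟩ := Nat.find_spec hex
  set e0 := Nat.find hex with he0def
  have hmin : e0 ≤ 2 * N * m1 * m2 := by
    obtain ⟨i, hi, j, hj, hT⟩ := h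
    have h1 : e0 ≤ p * i + q * j := Nat.find_min' hex ⟨i, j, rfl, hT⟩
    refine h1.trans ?_
    rw [hp, hq]
    have a1 : N * m2 * (i + 1) ≤ N * m2 * m1 := Nat.mul_le_mul_left _ hi
    have a2 : N * m1 * j ≤ N * m1 * m2 := Nat.mul_le_mul_left _ hj.le
    have a3 : j ≤ N * m2 := by
      calc j ≤ m2 := hj.le
        _ = 1 * m2 := (one_mul _).symm
        _ ≤ N * m2 := Nat.mul_le_mul_right _ (by omega)
    have a4 : N * m2 * m1 = N * m1 * m2 := by ring
    have a5 : 2 * N * m1 * m2 = N * m1 * m2 + N * m1 * m2 := by ring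
    have a6 : (N * m1 + 1) * j = N * m1 * j + j := by ring
    rw [a5, a6]
    rw [mul_add, mul_one, a4] at a1
    omega
  have huniq : ∀ i j, p * i + q * j = e0 → i = i0 ∧ j = j0 := by
    intro i j hij
    have hjlt : ∀ i j, p * i + q * j = e0 → j < N := by
      intro i j hij
      by_contra hcon
      push Not at hcon
      have h1 : q * N ≤ e0 := by
        calc q * N ≤ q * j := Nat.mul_le_mul_left _ hcon
          _ ≤ e0 := by omega
      rw [hq, hN] at h1
      rw [hN] at hmin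
      nlinarith
    have hj1 := hjlt i j hij
    have hj0 := hjlt i0 j0 he0
    have e1 : p * i + q * j = N * (m2 * i + m1 * j) + j := by rw [hp, hq]; ring
    have e2 : p * i0 + q * j0 = N * (m2 * i0 + m1 * j0) + j0 := by rw [hp, hq]; ring
    have hjj : j = j0 := by
      have h1 : (p * i + q * j) % N = j := by
        rw [e1, Nat.mul_add_mod, Nat.mod_eq_of_lt hj1]
      have h2 : (p * i0 + q * j0) % N = j0 := by
        rw [e2, Nat.mul_add_mod, Nat.mod_eq_of_lt hj0]
      rw [hij] at h1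
      rw [he0] at h2
      omega
    subst hjj
    refine ⟨?_, rfl⟩
    have hppos : 0 < p := by rw [hp]; exact Nat.mul_pos (by omega) hm2
    have : p * i = p * i0 := by omega
    exact Nat.eq_of_mul_eq_mul_left hppos this
  refine ⟨e0, hmin, ?_⟩
  rw [ev2_taylor]
  set N1 : ℚ[X][X] := taylor (C y) (M.map (mapRingHom (Int.castRingHom ℚ))) with hN1
  have hcoef : ∀ i j, PowerSeries.coeff e0
      (PowerSeries.C (taylorCoeff M x y i j) * (PowerSeries.C ρ * PowerSeries.X ^ p) ^ i *
        (PowerSeries.C ρ' * PowerSeries.X ^ q) ^ j) =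
      if p * i + q * j = e0 then taylorCoeff M x y i j * ρ ^ i * ρ' ^ j else 0 := by
    intro i j
    have e : PowerSeries.C (taylorCoeff M x y i j) * (PowerSeries.C ρ * PowerSeries.X ^ p) ^ i *
        (PowerSeries.C ρ' * PowerSeries.X ^ q) ^ j =
        PowerSeries.C (taylorCoeff M x y i j * ρ ^ i * ρ' ^ j) *
          PowerSeries.X ^ (p * i + q * j) := by
      rw [map_mul, map_mul, map_pow, map_pow, mul_pow, mul_pow, ← pow_mul, ← pow_mul, pow_add]
      ring
    rw [e, PowerSeries.coeff_C_mul, PowerSeries.coeff_X_pow]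
    split_ifs with h1 h2 h2
    · rw [mul_one]
    · exact absurd h1.symm h2
    · exact absurd h2.symm h1
    · rw [mul_zero]
  have hsum : PowerSeries.coeff e0 (∑ j ∈ N1.support,
        (∑ i ∈ (taylor x (N1.coeff j)).support, PowerSeries.C (taylorCoeff M x y i j) *
          (PowerSeries.C ρ * PowerSeries.X ^ p) ^ i) *
          (PowerSeries.C ρ' * PowerSeries.X ^ q) ^ j) =
      ∑ j ∈ N1.support, ∑ i ∈ (taylor x (N1.coeff j)).support,
        (if p * i + q * j = e0 then taylorCoeff M x y i j * ρ ^ i * ρ' ^ j else 0) := by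
    rw [map_sum]
    apply Finset.sum_congr rfl
    intro j _
    rw [Finset.sum_mul, map_sum]
    apply Finset.sum_congr rfl
    intro i _
    exact hcoef i j
  rw [hsum]
  have hT0' : (taylor x (N1.coeff j0)).coeff i0 ≠ 0 := hT0
  have hj0 : j0 ∈ N1.support := by
    rw [mem_support_iff]
    intro h0
    rw [h0] at hT0'
    simp at hT0'
  have hi0 : i0 ∈ (taylor x (N1.coeff j0)).support := mem_support_iff.2 hT0'
  rw [Finset.sum_eq_single_of_mem j0 hj0, Finset.sum_eq_single_of_mem i0 hi0, if_pos he0]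
  · exact mul_ne_zero (mul_ne_zero hT0 (pow_ne_zero _ hρ)) (pow_ne_zero _ hρ')
  · intro i _ hi
    rw [if_neg]
    intro h1
    exact hi (huniq i j0 h1).1
  · intro j _ hj
    apply Finset.sum_eq_zero
    intro i _
    rw [if_neg]
    intro h1
    exact hj (huniq i j h1).2

end Pool.Agent.Work.MP_36d6be_co_V
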