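import Pool.Agent.Work.MP_36d6be_co_V.FG
import Pool.Agent.Work.MP_36d6be_co_V.BlockF1
import Pool.Agent.Work.MP_36d6be_co_V.BlockF2

/-!
Block F, conclusion.
-/

set_option autoImplicit false

namespace Pool.Agent.Work.MP_36d6be_co_V

open Finset

variable {γ b : Fin 4 → ℤ}

lemma Xh_sub_const (P P' : IPt γ b) (hN : N0 P P' ≠ 0) (p q : ℕ) (hp : p ≠ 0) (hq : q ≠ 0) :
    PowerSeries.constantCoeff (Xh P' q - Xh P p) ≠ 0 := by
  intro h
  have h1 := om_const P P' p q hp hq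
  unfold om at h1
  rw [map_mul, h, mul_zero] at h1
  exact hN (by exact_mod_cast h1.symm)

lemma rho_ne (P : IPt γ b) : rho P ≠ 0 :=
  mul_ne_zero (by norm_num) (prod_ne_zero_iff.2 fun i _ => aI_ne P i)

/-- The sum over the good primes. -/
lemma KWW_le (P P' : IPt γ b) (K T : ℕ) (Z : ℤ) (hZ : Z ≠ 0)
    (h : ∀ pr, Good P P' pr → pat (eps P P' pr) * K * vN P P' pr ≤
        padicValInt pr Z + T * padicValInt pr (KK P)) :
    (K : ℝ) * WW P P' ≤ Real.log |(Z : ℝ)| + T * Real.log |(KK P : ℝ)| := by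
  unfold WW
  rw [mul_sum]
  have h1 : ∀ p ∈ gs P P', (K : ℝ) * (Lw P P' p * (pat (eps P P' p) : ℝ)) ≤
      (padicValInt p Z : ℝ) * Real.log p + T * ((padicValInt p (KK P) : ℝ) * Real.log p) := by
    intro p hp
    have h2 := h p (mem_gs.1 hp)
    have h3 : ((pat (eps P P' p) : ℝ) * K * vN P P' p) ≤
        padicValInt p Z + T * padicValInt p (KK P) := by exact_mod_cast h2
    have h4 : (0 : ℝ) ≤ Real.log p := Real.log_natCast_nonneg p
    calc (K : ℝ) * (Lw P P' p * (pat (eps P P' p) : ℝ)) =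
        ((pat (eps P P' p) : ℝ) * K * vN P P' p) * Real.log p := by unfold Lw; ring
      _ ≤ (padicValInt p Z + T * padicValInt p (KK P)) * Real.log p :=
          mul_le_mul_of_nonneg_right h3 h4
      _ = _ := by ring
  refine (sum_le_sum h1).trans ?_
  rw [sum_add_distrib, ← mul_sum]
  have hpr : ∀ p ∈ gs P P', p.Prime := fun p hp => (mem_gs.1 hp).1
  apply add_le_add
  · exact sum_log_le _ hpr _ _ hZ fun p _ => padicValInt_dvd _
  · apply mul_le_mul_of_nonneg_left _ (Nat.cast_nonneg _)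
    exact sum_log_le _ hpr _ _ (KK_ne P) fun p _ => padicValInt_dvd _

open Polynomial

theorem blockF (γ b : Fin 4 → ℤ) (hγ : ∀ i, 0 < γ i) :
    ∃ C2 : ℝ, 1 ≤ C2 ∧ ∀ (L1 L2 K m1 m2 : ℕ) (c : Finset (Fin 4) → ℤ[X][X]) (B : ℝ)
      (M : ℤ[X][X]), 0 < L1 → 0 < L2 → 0 < K → 0 < m1 → 0 < m2 → 0 ≤ B →
      (∀ I, (c I).natDegree < L2) → (∀ I j, ((c I).coeff j).natDegree < L1) →
      (∀ I j i, |((((c I).coeff j).coeff i : ℤ) : ℝ)| ≤ Real.exp B) →
      (∀ j : Fin 5, Vanishes γ b c (sgn j) (kap j * K)) →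
      (∀ (R : Type) [CommRing R] (x y : R) (w : Fin 4 → R),
          (∀ i, w i ^ 2 = (g γ b i).eval₂ (Int.castRingHom R) x *
            (g γ b i).eval₂ (Int.castRingHom R) y) →
          Fev c x y w ∣ (y - x) ^ (8 * K) * ev2 x y M) →
      ∀ P P' : IPt γ b, Rel P P' →
      (∃ i < m1, ∃ j < m2, taylorCoeff M ((P.A : ℚ) / P.D) ((P'.A : ℚ) / P'.D) i j ≠ 0) →
      K * WW P P' ≤ B + L1 * hh P + L2 * hh P' + C2 * (L1 + L2 + K) + C2 * (L2 + K) * hh P
        + (2 * m1 + 1) * (C2 + 4 * hh P) + (2 * m2 + 1) * (C2 + 4 * hh P + 4 * hh P')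
        + 3 * hh P' := by
  obtain ⟨C, hC, hF1⟩ := blockF1 γ b
  have hlC : 0 ≤ Real.log C := Real.log_nonneg hC
  have hl2 := lc2_nonneg γ b
  have hl16 : 0 ≤ Real.log 16 := Real.log_nonneg (by norm_num)
  refine ⟨1000 * (1 + Real.log C + Real.log 16 + lc2 γ b), by linarith, ?_⟩
  intro L1 L2 K m1 m2 c B M hL1 hL2 hK hm1 hm2 hB h2 h1 hcB hv hM P P' hR hNV
  have hN := hR.N0_ne
  obtain ⟨N, hNdef⟩ : ∃ N, N = 2 * m2 + 2 := ⟨_, rfl⟩
  obtain ⟨p, hpdef⟩ : ∃ p, p = N * m2 := ⟨_, rfl⟩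
  obtain ⟨q, hqdef⟩ : ∃ q, q = N * m1 + 1 := ⟨_, rfl⟩
  have hNpos : 0 < N := by omega
  have hppos : 0 < p := by rw [hpdef]; exact Nat.mul_pos hNpos hm2
  have hqpos : 0 < q := by omega
  have hp : p ≠ 0 := hppos.ne'
  have hq : q ≠ 0 := hqpos.ne'
  -- order bound
  obtain ⟨e1, he1, hcoef⟩ := blockF2 M _ _ m1 m2 N p q hm1 hm2 (rho P : ℚ) (rho P' : ℚ)
    (by exact_mod_cast rho_ne P) (by exact_mod_cast rho_ne P') hNV hNdef hpdef hqdef
  change PowerSeries.coeff e1 (ev2 (Xh P p) (Xh P' q) M) ≠ 0 at hcoef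
  have hMne : ev2 (Xh P p) (Xh P' q) M ≠ 0 := by
    intro h0; rw [h0] at hcoef; simp at hcoef
  have hsubc := Xh_sub_const P P' hN p q hp hq
  have hsub : Xh P' q - Xh P p ≠ 0 := by
    intro h0; rw [h0] at hsubc; simp at hsubc
  obtain ⟨G', hG'⟩ := hM (PowerSeries ℚ) (Xh P p) (Xh P' q) (wh P P' p q hp hq)
    (fun i => wh_sq P P' p q hp hq i)
  change (Xh P' q - Xh P p) ^ (8 * K) * ev2 (Xh P p) (Xh P' q) M =
    Fh P P' p q hp hq c * G' at hG'
  have hprod : (Xh P' q - Xh P p) ^ (8 * K) * ev2 (Xh P p) (Xh P' q) M ≠ 0 :=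
    mul_ne_zero (pow_ne_zero _ hsub) hMne
  have hFne : Fh P P' p q hp hq c ≠ 0 := by
    intro h0; rw [h0, zero_mul] at hG'; exact hprod hG'
  set e0 := (Fh P P' p q hp hq c).order.toNat with he0
  have he01 : e0 ≤ e1 := by
    have ho : (Fh P P' p q hp hq c).order ≤
        ((Xh P' q - Xh P p) ^ (8 * K) * ev2 (Xh P p) (Xh P' q) M).order := by
      rw [hG', PowerSeries.order_mul]
      exact le_self_add
    have ho2 : ((Xh P' q - Xh P p) ^ (8 * K) * ev2 (Xh P p) (Xh P' q) M).order ≤ (e1 : ℕ∞) := by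
      rw [PowerSeries.order_mul, PowerSeries.order_pow]
      have hz : (Xh P' q - Xh P p).order = 0 := by
        have : (Xh P' q - Xh P p).order ≤ ((0 : ℕ) : ℕ∞) :=
          PowerSeries.order_le 0 (by rwa [PowerSeries.coeff_zero_eq_constantCoeff])
        exact le_antisymm this zero_le
      rw [hz, smul_zero, zero_add]
      exact PowerSeries.order_le _ hcoef
    have ho3 := ho.trans ho2
    rw [← PowerSeries.coe_toNat_order hFne] at ho3
    exact_mod_cast ho3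
  -- the leading coefficient
  obtain ⟨Z, hZ0, hZ, hZv⟩ := blockF3 P P' hN p q hp hq L1 L2 K hK hL1 hL2 c h2 h1 hv hFne
  have hsum := KWW_le P P' K (60 * (L2 + K)) Z hZ0 hZv
  have hKK := log_KK_le P
  -- the size of the leading coefficient
  have hh0 := hh_nonneg P
  have hh0' := hh_nonneg P'
  have hCpos : 0 < C := by linarith
  have hHpos : (0 : ℝ) < HH P := by exact_mod_cast lt_of_lt_of_le one_pos (HH_ge_one P)
  have hHpos' : (0 : ℝ) < HH P' := by exact_mod_cast lt_of_lt_of_le one_pos (HH_ge_one P')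
  have hpR : (0 : ℝ) < p := by exact_mod_cast hppos
  have hqR : (0 : ℝ) < q := by exact_mod_cast hqpos
  set s : ℝ := (Real.log C + 4 * hh P) / p + (Real.log C + 4 * hh P') / q with hs
  have hs1 : 0 ≤ (Real.log C + 4 * hh P) / p := by positivity
  have hs2 : 0 ≤ (Real.log C + 4 * hh P') / q := by positivity
  have hs0 : 0 ≤ s := add_nonneg hs1 hs2
  have hexpH : ∀ Q : IPt γ b, (HH Q : ℝ) = Real.exp (hh Q) := by
    intro Q
    have : (0 : ℝ) < HH Q := by exact_mod_cast lt_of_lt_of_le one_pos (HH_ge_one Q)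
    unfold hh; rw [Real.exp_log this]
  have hr : ∀ (Q : IPt γ b) (n : ℕ), Real.log C + 4 * hh Q ≤ n * s →
      C * (HH Q : ℝ) ^ 4 * Real.exp (-s) ^ n ≤ 1 := by
    intro Q n hn
    have : C * (HH Q : ℝ) ^ 4 * Real.exp (-s) ^ n =
        Real.exp (Real.log C + 4 * hh Q - n * s) := by
      rw [hexpH Q, ← Real.exp_nat_mul, ← Real.exp_nat_mul]
      nth_rewrite 1 [← Real.exp_log hCpos]
      rw [← Real.exp_add, ← Real.exp_add]
      congr 1
      push_cast
      ring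
    rw [this]
    exact Real.exp_le_one_iff.2 (by linarith)
  have hr1 : C * (HH P : ℝ) ^ 4 * Real.exp (-s) ^ p ≤ 1 := by
    apply hr
    have : (p : ℝ) * s = (Real.log C + 4 * hh P) + p * ((Real.log C + 4 * hh P') / q) := by
      rw [hs]; field_simp
    rw [this]
    have : 0 ≤ (p : ℝ) * ((Real.log C + 4 * hh P') / q) := by positivity
    linarith
  have hr2 : C * (HH P' : ℝ) ^ 4 * Real.exp (-s) ^ q ≤ 1 := by
    apply hr
    have : (q : ℝ) * s = q * ((Real.log C + 4 * hh P) / p) + (Real.log C + 4 * hh P') := by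
      rw [hs]; field_simp
    rw [this]
    have : 0 ≤ (q : ℝ) * ((Real.log C + 4 * hh P) / p) := by positivity
    linarith
  have hF1' := hF1 P P' p q hp hq L1 L2 c B (Real.exp (-s)) e0 hL1 hL2 (Real.exp_pos _) hr1 hr2
    h2 h1 hcB
  have hZabs : |(Z : ℝ)| = |((PowerSeries.coeff e0 (Fh P P' p q hp hq c) : ℚ) : ℝ)| *
      ((P.D : ℝ) ^ (L1 + 3) * (P'.D : ℝ) ^ (L2 + 3)) := by
    rw [lcQ_eq_coeff, ← he0] at hZ
    have h3 : (Z : ℝ) = ((PowerSeries.coeff e0 (Fh P P' p q hp hq c) : ℚ) : ℝ) *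
      ((P.D : ℝ) ^ (L1 + 3) * (P'.D : ℝ) ^ (L2 + 3)) := by exact_mod_cast hZ
    have hDpos : (0 : ℝ) < P.D := by exact_mod_cast P.hD
    have hDpos' : (0 : ℝ) < P'.D := by exact_mod_cast P'.hD
    rw [h3, abs_mul, abs_of_pos (by positivity : (0 : ℝ) <
      (P.D : ℝ) ^ (L1 + 3) * (P'.D : ℝ) ^ (L2 + 3))]
  have hZle : |(Z : ℝ)| * Real.exp (-s) ^ e0 ≤
      C * L1 * L2 * Real.exp B * (2 * (HH P : ℝ)) ^ (L1 + 3) * (2 * (HH P' : ℝ)) ^ (L2 + 3) := by
    rw [hZabs]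
    linarith
  have hZpos : 0 < |(Z : ℝ)| := abs_pos.2 (by exact_mod_cast hZ0)
  have hL1R : (0 : ℝ) < L1 := by exact_mod_cast hL1
  have hL2R : (0 : ℝ) < L2 := by exact_mod_cast hL2
  have hlog := Real.log_le_log (by positivity) hZle
  rw [Real.log_mul hZpos.ne' (by positivity), Real.log_mul (by positivity) (by positivity),
    Real.log_mul (by positivity) (by positivity), Real.log_mul (by positivity) (by positivity),
    Real.log_mul (by positivity) (by positivity), Real.log_mul (by positivity) (by positivity),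
    Real.log_exp, Real.log_pow, Real.log_pow, Real.log_pow, Real.log_exp,
    Real.log_mul (by norm_num) hHpos.ne', Real.log_mul (by norm_num) hHpos'.ne'] at hlog
  change _ ≤ _ + _ * (_ + hh P) + _ * (_ + hh P') at hlog
  have hlL1 : Real.log L1 ≤ L1 := (Real.log_le_sub_one_of_pos hL1R).trans (by linarith)
  have hlL2 : Real.log L2 ≤ L2 := (Real.log_le_sub_one_of_pos hL2R).trans (by linarith)
  have hlog2 : Real.log 2 ≤ 1 := by
    have := Real.log_two_lt_d9; linarith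
  have hlog2' : 0 ≤ Real.log 2 := Real.log_nonneg (by norm_num)
  -- the exponent
  have hes : (e0 : ℝ) * s ≤ 2 * m1 * (Real.log C + 4 * hh P) +
      2 * m2 * (Real.log C + 4 * hh P') := by
    have he0R : (e0 : ℝ) ≤ 2 * N * m1 * m2 := by
      have : e0 ≤ 2 * N * m1 * m2 := he01.trans he1
      exact_mod_cast this
    calc (e0 : ℝ) * s ≤ (2 * N * m1 * m2) * s := mul_le_mul_of_nonneg_right he0R hs0
      _ = (2 * N * m1 * m2 / p) * (Real.log C + 4 * hh P) +
          (2 * N * m1 * m2 / q) * (Real.log C + 4 * hh P') := by rw [hs]; ring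
      _ ≤ 2 * m1 * (Real.log C + 4 * hh P) + 2 * m2 * (Real.log C + 4 * hh P') := by
          apply add_le_add
          · apply mul_le_mul_of_nonneg_right _ (by positivity)
            rw [div_le_iff₀ hpR, hpdef]
            push_cast
            apply le_of_eq; ring
          · apply mul_le_mul_of_nonneg_right _ (by positivity)
            rw [div_le_iff₀ hqR, hqdef]
            push_cast
            have : (0 : ℝ) ≤ 2 * m2 := by positivity
            nlinarith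
  -- final computation
  have hL1' : (1 : ℝ) ≤ L1 := by exact_mod_cast hL1
  have hL2' : (1 : ℝ) ≤ L2 := by exact_mod_cast hL2
  have hK' : (1 : ℝ) ≤ K := by exact_mod_cast hK
  have hm1' : (0 : ℝ) ≤ m1 := Nat.cast_nonneg _
  have hm2' : (0 : ℝ) ≤ m2 := Nat.cast_nonneg _
  push_cast at hsum hlog
  set h := hh P with hh_def
  set h' := hh P' with hh_def'
  set x := Real.log C with hx
  set y := Real.log 16 with hy
  set w := lc2 γ b with hw
  set T : ℝ := 1000 * (1 + x + y + w) with hT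
  have hT1 : 1000 ≤ T := by rw [hT]; linarith
  have hTx : x ≤ T := by rw [hT]; linarith
  have q1 : 60 * ((L2 : ℝ) + K) * Real.log |(KK P : ℝ)| ≤
      60 * ((L2 : ℝ) + K) * (y + 4 * w + 8 * h) :=
    mul_le_mul_of_nonneg_left hKK (by positivity)
  have q2 : ((L2 : ℝ) + K) * (60 * (y + 4 * w)) ≤ ((L2 : ℝ) + K) * (T - 1000 - 1000 * x) :=
    mul_le_mul_of_nonneg_left (by rw [hT]; linarith) (by positivity)
  have q3 : 1000 * (L1 : ℝ) ≤ T * L1 := mul_le_mul_of_nonneg_right hT1 (by positivity)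
  have q4 : x ≤ x * ((L2 : ℝ) + K) := le_mul_of_one_le_right hlC (by linarith)
  have q5 : h ≤ ((L2 : ℝ) + K) * h := le_mul_of_one_le_left hh0 (by linarith)
  have q6 : 1000 * (((L2 : ℝ) + K) * h) ≤ T * (((L2 : ℝ) + K) * h) :=
    mul_le_mul_of_nonneg_right hT1 (by positivity)
  have q7 : 2 * (m1 : ℝ) * x ≤ 2 * m1 * T := mul_le_mul_of_nonneg_left hTx (by positivity)
  have q8 : 2 * (m2 : ℝ) * x ≤ 2 * m2 * T := mul_le_mul_of_nonneg_left hTx (by positivity)
  have q9 : 0 ≤ (m2 : ℝ) * h := by positivity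
  have q10 : ((L1 : ℝ) + 3) * Real.log 2 ≤ (L1 : ℝ) + 3 :=
    mul_le_of_le_one_right (by positivity) hlog2
  have q11 : ((L2 : ℝ) + 3) * Real.log 2 ≤ (L2 : ℝ) + 3 :=
    mul_le_of_le_one_right (by positivity) hlog2
  have e1 : ((L1 : ℝ) + 3) * (Real.log 2 + h) = ((L1 : ℝ) + 3) * Real.log 2 + L1 * h + 3 * h := by
    ring
  have e2 : ((L2 : ℝ) + 3) * (Real.log 2 + h') =
      ((L2 : ℝ) + 3) * Real.log 2 + L2 * h' + 3 * h' := by ring
  have e3 : (2 * (m1 : ℝ) + 1) * (T + 4 * h) = 2 * m1 * T + T + 8 * (m1 * h) + 4 * h := by ring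
  have e4 : (2 * (m2 : ℝ) + 1) * (T + 4 * h + 4 * h') =
      2 * m2 * T + T + 8 * (m2 * h) + 8 * (m2 * h') + 4 * h + 4 * h' := by ring
  have e5 : 2 * (m1 : ℝ) * (x + 4 * h) + 2 * m2 * (x + 4 * h') =
      2 * m1 * x + 2 * m2 * x + 8 * (m1 * h) + 8 * (m2 * h') := by ring
  have e6 : 60 * ((L2 : ℝ) + K) * (y + 4 * w + 8 * h) =
      ((L2 : ℝ) + K) * (60 * (y + 4 * w)) + 480 * (((L2 : ℝ) + K) * h) := by ring
  have e7 : T * ((L1 : ℝ) + L2 + K) = T * L1 + ((L2 : ℝ) + K) * (T - 1000 - 1000 * x) +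
      1000 * ((L2 : ℝ) + K) + 1000 * (x * ((L2 : ℝ) + K)) := by ring
  have e8 : T * ((L2 : ℝ) + K) * h = T * (((L2 : ℝ) + K) * h) := by ring
  have e9 : (e0 : ℝ) * -s = -(e0 * s) := by ring
  rw [e3, e4, e7, e8]
  rw [e1, e2, e9] at hlog
  rw [e5] at hes
  rw [e6] at q1
  linarith

end Pool.Agent.Work.MP_36d6be_co_V
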