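import Pool.Agent.Work.MP_36d6be_co_V.BlockG1
import Pool.Agent.Work.MP_36d6be_co_V.BlockG2
import Pool.Agent.Work.MP_36d6be_co_V.BlockD
import Pool.Agent.Work.MP_36d6be_co_V.BlockE
import Pool.Agent.Work.MP_36d6be_co_V.FH
import Pool.Agent.Work.MP_36d6be_co_V.BlockH

/-!
The finiteness theorem: there is no sequence of rational points on the curve
`z_i ^ 2 = γ_i (X - b_i)`, `i = 0, 1, 2, 3`, whose `X`-coordinates tend to `+∞`.
-/

set_option autoImplicit false

namespace Pool.Agent.Work.MP_36d6be_co_V

open Polynomial Filter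

theorem finiteness (γ b : Fin 4 → ℤ) (hγ : ∀ i, 0 < γ i) (hb : Function.Injective b)
    (P : ℕ → IPt γ b) (hP : Tendsto (fun n => ((P n).A : ℝ) / (P n).D) atTop atTop) : False :=
  finiteness_core γ b hγ P (blockG1 γ b hγ hb P hP (1 / 300) (by norm_num)) (blockD γ b)
    (blockE γ b (fun i => (hγ i).ne') hb) (blockF γ b hγ)

theorem finiteness_prop : Finiteness := fun γ b hγ hb P hP => finiteness γ b hγ hb P hP

/-- There is no infinite chain. -/
theorem no_infinite_chain : ¬ MP_36d6be_co.HasInfiniteChain :=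
  not_hasInfiniteChain finiteness_prop

end Pool.Agent.Work.MP_36d6be_co_V
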