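import Mathlib

/-!
Common definitions for the finiteness theorem for the genus five curves
`z_i ^ 2 = γ_i (X - b_i)`, `i = 0, 1, 2, 3`.
-/

set_option autoImplicit false

namespace Pool.Agent.Work.MP_36d6be_co_V

open Polynomial

/-- Logarithmic height of a rational number. -/
noncomputable def ht (x : ℚ) : ℝ := Real.log ((max x.num.natAbs x.den : ℕ) : ℝ)

section defs

variable (γ b : Fin 4 → ℤ)

/-- The linear polynomial `γ_i (X - b_i)`. -/
noncomputable def g (i : Fin 4) : ℤ[X] := C (γ i) * (X - C (b i))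

/-- The product of the four linear polynomials. -/
noncomputable def G : ℤ[X] := ∏ i, g γ b i

/-- `γ_i` times the product of the three other linear polynomials. -/
noncomputable def u (i : Fin 4) : ℤ[X] := C (γ i) * ∏ l ∈ Finset.univ.erase i, g γ b l

end defs

/-- Evaluation of a bivariate integer polynomial (inner variable at `x`, outer variable at `y`). -/
noncomputable def ev2 {R : Type*} [CommRing R] (x y : R) : ℤ[X][X] →+* R :=
  eval₂RingHom (eval₂RingHom (Int.castRingHom R) x) y

/-- The function `∑ c_I(x,y) ∏_{i ∈ I} w_i`. -/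
noncomputable def Fev {R : Type*} [CommRing R] (c : Finset (Fin 4) → ℤ[X][X]) (x y : R)
    (w : Fin 4 → R) : R := ∑ I, ev2 x y (c I) * ∏ i ∈ I, w i

/-- The coefficients of `sqrt (1 + 4 T)`. -/
def sqc : ℕ → ℤ
  | 0 => 1
  | (n + 1) => (-1) ^ n * 2 * catalan n

/-- The integral power series `sqrt (1 + 4 T)`. -/
def sq : PowerSeries ℤ := PowerSeries.mk sqc

/-- The five sign patterns. -/
def sgn (j : Fin 5) (i : Fin 4) : ℤ := if (j : ℕ) = 4 ∨ (j : ℕ) = (i : ℕ) then -1 else 1

/-- Multiplicities of the five sign patterns. -/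
def kap (j : Fin 5) : ℕ := if (j : ℕ) = 4 then 4 else 1

section van

variable (γ b : Fin 4 → ℤ)

/-- generic point `x = X` as a constant power series -/
noncomputable def xg : PowerSeries ℤ[X] := PowerSeries.C (X : ℤ[X])

/-- the point `y = X + 4 G(X) T` -/
noncomputable def yg : PowerSeries ℤ[X] :=
  PowerSeries.C (X : ℤ[X]) + PowerSeries.C (4 * G γ b) * PowerSeries.X

/-- `w_i = g_i(X) sqrt (1 + 4 u_i T)`, the square root of `g_i(x) g_i(y)` -/
noncomputable def wg (i : Fin 4) : PowerSeries ℤ[X] :=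
  PowerSeries.C (g γ b i) * PowerSeries.rescale (u γ b i) (PowerSeries.map (C : ℤ →+* ℤ[X]) sq)

/-- `F(c; x, y, s w)` vanishes to order at least `k` along the diagonal. -/
def Vanishes (c : Finset (Fin 4) → ℤ[X][X]) (s : Fin 4 → ℤ) (k : ℕ) : Prop :=
  (PowerSeries.X : PowerSeries ℤ[X]) ^ k ∣
    Fev c xg (yg γ b) (fun i => (s i : PowerSeries ℤ[X]) * wg γ b i)

end van

/-- The Taylor coefficient of `M` at `(x, y)` of order `(i, j)`. -/
noncomputable def taylorCoeff (M : ℤ[X][X]) (x y : ℚ) (i j : ℕ) : ℚ :=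
  (taylor x ((taylor (C y) (M.map (mapRingHom (Int.castRingHom ℚ)))).coeff j)).coeff i

end Pool.Agent.Work.MP_36d6be_co_V
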