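import Mathlib
import Pool.Agent.Work.MP_36d6be_co_V.Defs
import Pool.Agent.Work.MP_684405_nt.WeakMW

/-!
# Block A: Mordell-Weil and heights on `y² = (x-e1)(x-e2)(x-e3)`
-/

set_option autoImplicit false

namespace Pool.Agent.Work.MP_36d6be_co_V

open Filter Topology Matrix

section abs

variable {A : Type*} [AddCommGroup A]

/-- The canonical height attached to a function satisfying the parallelogram law up to `O(1)`. -/
theorem exists_canonical (h : A → ℝ) (C : ℝ) (h0 : ∀ x, 0 ≤ h x)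
    (hp : ∀ x y, |h (x + y) + h (x - y) - 2 * (h x + h y)| ≤ C) :
    ∃ (q : A → ℝ) (C' : ℝ), (∀ x, |q x - h x| ≤ C') ∧ (∀ x, 0 ≤ q x) ∧
      ∀ x y, q (x + y) + q (x - y) = 2 * (q x + q y) := by
  set C1 : ℝ := C + h 0 with hC1
  have hd : ∀ x, |h ((2 : ℕ) • x) - 4 * h x| ≤ C1 := by
    intro x
    have h1 := hp x x
    rw [sub_self, ← two_nsmul] at h1
    have h2 := h0 (0 : A)
    rw [abs_le] at h1 ⊢
    constructor <;> linarith [h1.1, h1.2]
  have hC10 : 0 ≤ C1 := (abs_nonneg _).trans (hd 0)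
  set a : A → ℕ → ℝ := fun x n => h ((2 ^ n : ℕ) • x) / 4 ^ n with ha
  have hstep : ∀ x n, dist (a x n) (a x (n + 1)) ≤ (C1 / 4) * (1 / 4 : ℝ) ^ n := by
    intro x n
    have h1 := hd ((2 ^ n : ℕ) • x)
    have h2 : (2 : ℕ) • ((2 ^ n : ℕ) • x) = (2 ^ (n + 1) : ℕ) • x := by
      rw [smul_smul, pow_succ']
    rw [h2] at h1
    rw [Real.dist_eq]
    have h3 : a x n - a x (n + 1) = -(h ((2 ^ (n + 1) : ℕ) • x) - 4 * h ((2 ^ n : ℕ) • x)) /
        4 ^ (n + 1) := by
      simp only [ha]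
      rw [pow_succ' (4 : ℝ)]
      field_simp
      ring
    rw [h3, abs_div, abs_neg, abs_of_pos (by positivity : (0 : ℝ) < 4 ^ (n + 1)),
      div_le_iff₀ (by positivity)]
    refine h1.trans (le_of_eq ?_)
    rw [pow_succ, one_div, inv_pow]
    field_simp
  have hr : (1 / 4 : ℝ) < 1 := by norm_num
  have hlim : ∀ x, ∃ l, Tendsto (a x) atTop (𝓝 l) := fun x =>
    cauchySeq_tendsto_of_complete (cauchySeq_of_le_geometric _ _ hr (hstep x))
  choose q hq using hlim
  refine ⟨q, (C1 / 4) / (1 - 1 / 4), ?_, ?_, ?_⟩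
  · intro x
    have h1 := dist_le_of_le_geometric_of_tendsto₀ _ _ hr (hstep x) (hq x)
    have h2 : a x 0 = h x := by simp [ha]
    rw [h2, dist_comm, Real.dist_eq] at h1
    exact h1
  · intro x
    refine ge_of_tendsto' (hq x) fun n => ?_
    simp only [ha]
    have := h0 ((2 ^ n : ℕ) • x)
    positivity
  · intro x y
    have h1 : Tendsto (fun n => a (x + y) n + a (x - y) n - 2 * (a x n + a y n)) atTop
        (𝓝 (q (x + y) + q (x - y) - 2 * (q x + q y))) :=
      ((hq _).add (hq _)).sub (((hq _).add (hq _)).const_mul 2)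
    have h2 : Tendsto (fun n => a (x + y) n + a (x - y) n - 2 * (a x n + a y n)) atTop (𝓝 0) := by
      have h3 : Tendsto (fun n : ℕ => C * (1 / 4 : ℝ) ^ n) atTop (𝓝 0) := by
        have := (tendsto_pow_atTop_nhds_zero_of_lt_one (by norm_num : (0 : ℝ) ≤ 1 / 4) hr).const_mul C
        simpa using this
      refine squeeze_zero_norm (fun n => ?_) h3
      have h4 := hp ((2 ^ n : ℕ) • x) ((2 ^ n : ℕ) • y)
      rw [← smul_add, ← smul_sub] at h4
      have h5 : a (x + y) n + a (x - y) n - 2 * (a x n + a y n) =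
          (h ((2 ^ n : ℕ) • (x + y)) + h ((2 ^ n : ℕ) • (x - y)) -
            2 * (h ((2 ^ n : ℕ) • x) + h ((2 ^ n : ℕ) • y))) / 4 ^ n := by
        simp only [ha]
        ring
      rw [h5, Real.norm_eq_abs, abs_div, abs_of_pos (by positivity : (0 : ℝ) < 4 ^ n),
        div_le_iff₀ (by positivity)]
      refine h4.trans (le_of_eq ?_)
      rw [one_div, inv_pow]
      field_simp
    have h6 := tendsto_nhds_unique h1 h2
    linarith

/-- The bilinear form attached to a function satisfying the parallelogram law. -/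
theorem exists_bilin (q : A → ℝ) (hp : ∀ x y, q (x + y) + q (x - y) = 2 * (q x + q y)) :
    ∃ B : A →+ A →+ ℝ, (∀ x, B x x = q x) ∧ ∀ x y, B x y = B y x := by
  have q0 : q 0 = 0 := by
    have := hp 0 0
    simp only [add_zero, sub_zero] at this
    linarith
  have qneg : ∀ x, q (-x) = q x := by
    intro x
    have := hp 0 x
    rw [zero_add, zero_sub, q0] at this
    linarith
  have qsub : ∀ x y, q (x - y) = q (y - x) := by
    intro x y
    rw [← qneg, neg_sub]
  have cube : ∀ x y z, q (x + y + z) = q (x + y) + q (x + z) + q (y + z) - q x - q y - q z := by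
    intro x y z
    have h1 := hp (x + y) z
    have h2 := hp x (y - z)
    have h3 := hp (x + z) y
    have h4 := hp y z
    have e1 : x + z + y = x + y + z := by abel
    have e2 : x + z - y = x - (y - z) := by abel
    have e3 : x + y - z = x + (y - z) := by abel
    rw [e1, e2] at h3
    rw [e3] at h1
    linarith
  let B : A → A → ℝ := fun x y => (q (x + y) - q x - q y) / 2
  have hadd : ∀ x y z, B (x + y) z = B x z + B y z := by
    intro x y z
    simp only [B]
    rw [cube]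
    ring
  have hsymm : ∀ x y, B x y = B y x := by
    intro x y
    simp only [B]
    rw [add_comm x y]
    ring
  refine ⟨AddMonoidHom.mk' (fun x => AddMonoidHom.mk' (fun y => B x y) ?_) ?_, ?_, ?_⟩
  · intro y z
    rw [hsymm, hadd, hsymm y, hsymm z]
  · intro x y
    ext z
    simp [hadd]
  · intro x
    have h1 := hp x x
    rw [sub_self, q0] at h1
    simp only [AddMonoidHom.mk'_apply, B]
    linarith
  · intro x y
    simp only [AddMonoidHom.mk'_apply]
    exact hsymm x y

/-- In coordinates. -/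
lemma bilin_sum (B : A →+ A →+ ℝ) {n : ℕ} (g : Fin n → A) (c d : Fin n → ℤ) :
    B (∑ i, c i • g i) (∑ j, d j • g j) = ∑ i, ∑ j, (c i : ℝ) * (d j : ℝ) * B (g i) (g j) := by
  have h1 : B (∑ i, c i • g i) = ∑ i, c i • B (g i) := by
    rw [map_sum]
    exact Finset.sum_congr rfl fun i _ => map_zsmul _ _ _
  rw [h1, AddMonoidHom.finsetSum_apply]
  refine Finset.sum_congr rfl fun i _ => ?_
  rw [AddMonoidHom.smul_apply, map_sum, Finset.smul_sum]
  refine Finset.sum_congr rfl fun j _ => ?_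
  rw [map_zsmul]
  simp only [zsmul_eq_mul]
  ring

/-- A nonnegative function with the approximate parallelogram law on a finitely generated
abelian group is represented, up to `O(1)`, by the square of a Euclidean norm. -/
theorem exists_euclid [AddGroup.FG A] (h : A → ℝ) (C : ℝ) (h0 : ∀ x, 0 ≤ h x)
    (hp : ∀ x y, |h (x + y) + h (x - y) - 2 * (h x + h y)| ≤ C) :
    ∃ (C' : ℝ) (r : ℕ) (φ : A → EuclideanSpace ℝ (Fin r)),
      (∀ x, |‖φ x‖ ^ 2 - h x| ≤ C') ∧ (∀ x y, |‖φ x + φ y‖ ^ 2 - h (x + y)| ≤ C') := by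
  obtain ⟨q, C', hq, hq0, hqp⟩ := exists_canonical h C h0 hp
  obtain ⟨B, hB, hBs⟩ := exists_bilin q hqp
  have : Module.Finite ℤ A := Module.Finite.iff_addGroup_fg.2 inferInstance
  obtain ⟨n, g, hg⟩ := Module.Finite.exists_fin (R := ℤ) (M := A)
  have hrep : ∀ x : A, ∃ c : Fin n → ℤ, ∑ i, c i • g i = x := by
    intro x
    apply Submodule.mem_span_range_iff_exists_fun ℤ |>.1
    rw [hg]
    exact Submodule.mem_top
  choose co hco using hrep
  set M : Matrix (Fin n) (Fin n) ℝ := Matrix.of fun i j => B (g i) (g j) with hM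
  have hMq : ∀ c : Fin n → ℤ, (fun i => (c i : ℝ)) ⬝ᵥ (M *ᵥ fun i => (c i : ℝ)) =
      q (∑ i, c i • g i) := by
    intro c
    rw [← hB, bilin_sum]
    simp only [dotProduct, mulVec, hM, of_apply, Finset.mul_sum]
    refine Finset.sum_congr rfl fun i _ => Finset.sum_congr rfl fun j _ => ?_
    ring
  have hpos : ∀ v : Fin n → ℝ, 0 ≤ v ⬝ᵥ (M *ᵥ v) := by
    have hcont : Continuous fun v : Fin n → ℝ => v ⬝ᵥ (M *ᵥ v) := by
      simp only [dotProduct, mulVec]
      fun_prop
    have hclosed : IsClosed {v : Fin n → ℝ | 0 ≤ v ⬝ᵥ (M *ᵥ v)} :=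
      isClosed_le continuous_const hcont
    have hdense : DenseRange (fun (w : Fin n → ℚ) (i : Fin n) => (w i : ℝ)) := by
      exact DenseRange.piMap fun _ => Rat.denseRange_cast
    intro v
    refine hclosed.closure_subset_iff.2 ?_ (hdense v)
    rintro _ ⟨w, rfl⟩
    -- clear denominators
    set D : ℕ := ∏ i, (w i).den with hD
    have hD0 : (0 : ℝ) < D := by
      have : 0 < D := Finset.prod_pos fun i _ => (w i).den_pos
      exact_mod_cast this
    have hint : ∀ i, ∃ z : ℤ, (z : ℝ) = (D : ℝ) * (w i : ℝ) := by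
      intro i
      obtain ⟨k, hk⟩ : (w i).den ∣ D := Finset.dvd_prod_of_mem _ (Finset.mem_univ i)
      refine ⟨k * (w i).num, ?_⟩
      have h1 : (w i : ℝ) = (w i).num / (w i).den := by
        exact_mod_cast (Rat.num_div_den (w i)).symm
      have h2 : ((w i).den : ℝ) ≠ 0 := by exact_mod_cast (w i).den_nz
      rw [h1, hk]
      push_cast
      field_simp
    choose z hz using hint
    have h1 := hMq z
    have h2 : (fun i => (z i : ℝ)) = (D : ℝ) • (fun i => ((w i : ℚ) : ℝ)) := by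
      ext i
      simp [hz]
    rw [h2, mulVec_smul, smul_dotProduct, dotProduct_smul, smul_eq_mul, smul_eq_mul] at h1
    have h3 := hq0 (∑ i, z i • g i)
    rw [← h1] at h3
    rw [Set.mem_ofPred_eq]
    by_contra hneg
    rw [not_le] at hneg
    have h4 : (D : ℝ) * ((D : ℝ) * ((fun i => ((w i : ℚ) : ℝ)) ⬝ᵥ
        (M *ᵥ fun i => ((w i : ℚ) : ℝ)))) < 0 := by
      have := mul_neg_of_pos_of_neg hD0 hneg
      exact mul_neg_of_pos_of_neg hD0 this
    linarith
  have hpsd : M.PosSemidef := by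
    rw [posSemidef_iff_dotProduct_mulVec]
    refine ⟨?_, fun v => ?_⟩
    · ext i j
      simp [hM, hBs (g j) (g i)]
    · simpa using hpos v
  obtain ⟨m, v, hv⟩ := posSemidef_iff_eq_sum_vecMulVec.1 hpsd
  have hsq : ∀ w : Fin n → ℝ, w ⬝ᵥ (M *ᵥ w) = ∑ k, (v k ⬝ᵥ w) ^ 2 := by
    intro w
    rw [hv]
    rw [sum_mulVec, dotProduct_sum]
    refine Finset.sum_congr rfl fun k _ => ?_
    rw [star_trivial, vecMulVec_mulVec]
    simp only [op_smul_eq_smul, dotProduct_smul, smul_eq_mul]
    rw [dotProduct_comm w (v k)]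
    ring
  let ψ : (Fin n → ℝ) → EuclideanSpace ℝ (Fin m) := fun w => WithLp.toLp 2 fun k => v k ⬝ᵥ w
  have hψ : ∀ w, ‖ψ w‖ ^ 2 = w ⬝ᵥ (M *ᵥ w) := by
    intro w
    rw [hsq, EuclideanSpace.norm_sq_eq]
    simp [ψ]
  have hψadd : ∀ w w', ψ w + ψ w' = ψ (w + w') := by
    intro w w'
    ext k
    simp [ψ, dotProduct_add]
  refine ⟨C', m, fun x => ψ fun i => (co x i : ℝ), ?_, ?_⟩
  · intro x
    rw [hψ, hMq, hco]
    exact hq x
  · intro x y
    have h1 : ((fun i => (co x i : ℝ)) + fun i => (co y i : ℝ)) =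
        fun i => (((co x i + co y i : ℤ)) : ℝ) := by
      ext i
      simp
    simp only
    rw [hψadd, h1, hψ, hMq (fun i => co x i + co y i)]
    have h2 : ∑ i, (co x i + co y i) • g i = x + y := by
      simp only [add_smul, Finset.sum_add_distrib]
      rw [hco, hco]
    rw [h2]
    exact hq (x + y)

end abs

section curve

open Pool.Agent.Work.MP_684405_nt WeierstrassCurve WeierstrassCurve.Affine
  WeierstrassCurve.Affine.Point Height

/-- **Mordell-Weil** for curves with full rational two-torsion. -/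
theorem crv_fg (a b c : ℤ) (hab : a ≠ b) (hbc : b ≠ c) (hca : c ≠ a) :
    AddGroup.FG (crv (a : ℚ) b c).Point := by
  have habq : (a : ℚ) ≠ b := by exact_mod_cast hab
  have hbcq : (b : ℚ) ≠ c := by exact_mod_cast hbc
  have hcaq : (c : ℚ) ≠ a := by exact_mod_cast hca
  have hell := crv_elliptic habq hbcq hcaq
  obtain ⟨C, hC⟩ := hgt_parallelogram (W := crv (a : ℚ) b c) rfl rfl hell
  obtain ⟨S, hS, hcov⟩ := crv_cover a b c hab hbc hca
  have hn : Northcott (fun P : (crv (a : ℚ) b c).Point => hgt P) := ⟨fun B => hgt_finite _ B⟩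
  refine AddCommGroup.fg_of_descent' (h := fun P : (crv (a : ℚ) b c).Point => hgt P) (C := C)
    ?_ hgt_nonneg hC
  -- finite index
  have hfin : Finite ((crv (a : ℚ) b c).Point ⧸
      (nsmulAddMonoidHom (α := (crv (a : ℚ) b c).Point) 2).range) := by
    have hsurj : Function.Surjective (fun s : S => (QuotientAddGroup.mk (s : (crv (a : ℚ) b c).Point) :
        (crv (a : ℚ) b c).Point ⧸ (nsmulAddMonoidHom (α := (crv (a : ℚ) b c).Point) 2).range)) := by
      intro x
      obtain ⟨P, rfl⟩ := QuotientAddGroup.mk_surjective x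
      obtain ⟨s, hs, y, hy⟩ := hcov P
      refine ⟨⟨s, hs⟩, ?_⟩
      rw [QuotientAddGroup.eq]
      refine ⟨y, ?_⟩
      rw [hy]
      simp only [nsmulAddMonoidHom_apply]
      abel
    have : Finite S := hS
    exact Finite.of_surjective _ hsurj
  exact AddSubgroup.finiteIndex_of_finite_quotient

lemma ht_eq (x : ℚ) : ht x = logHeight₁ x := by
  rw [ht, Rat.logHeight₁_eq_log_max]

/-- BLOCK A (Mordell-Weil and heights on `y² = (x-e1)(x-e2)(x-e3)`): a map to a Euclidean space
that represents the height. -/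
theorem blockA (e1 e2 e3 : ℤ) (h12 : e1 ≠ e2) (h13 : e1 ≠ e3) (h23 : e2 ≠ e3) :
    ∃ (C : ℝ) (r : ℕ) (φ : ℚ → ℚ → EuclideanSpace ℝ (Fin r)),
      (∀ x y : ℚ, y ^ 2 = (x - e1) * (x - e2) * (x - e3) → |‖φ x y‖ ^ 2 - ht x| ≤ C) ∧
      (∀ x y x' y' : ℚ, y ^ 2 = (x - e1) * (x - e2) * (x - e3) →
        y' ^ 2 = (x' - e1) * (x' - e2) * (x' - e3) → x ≠ x' →
        |‖φ x y + φ x' y'‖ ^ 2
          - ht (((y' - y) / (x' - x)) ^ 2 + e1 + e2 + e3 - x - x')| ≤ C) := by
  classical
  have h12q : (e1 : ℚ) ≠ e2 := by exact_mod_cast h12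
  have h23q : (e2 : ℚ) ≠ e3 := by exact_mod_cast h23
  have h31q : (e3 : ℚ) ≠ e1 := by exact_mod_cast h13.symm
  have hell := crv_elliptic h12q h23q h31q
  have hfg := crv_fg e1 e2 e3 h12 h23 h13.symm
  obtain ⟨C, hC⟩ := hgt_parallelogram (W := crv (e1 : ℚ) e2 e3) rfl rfl hell
  obtain ⟨C', r, φ, hφ1, hφ2⟩ := exists_euclid (A := (crv (e1 : ℚ) e2 e3).Point)
    (fun P => hgt P) C hgt_nonneg hC
  have hns : ∀ x y : ℚ, y ^ 2 = (x - e1) * (x - e2) * (x - e3) →
      (crv (e1 : ℚ) e2 e3).Nonsingular x y := fun x y h => crv_nonsingular h12q h23q h31q h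
  refine ⟨C', r, fun x y => if h : y ^ 2 = (x - e1) * (x - e2) * (x - e3) then
    φ (some x y (hns x y h)) else 0, ?_, ?_⟩
  · intro x y h
    simp only [dif_pos h]
    have := hφ1 (some x y (hns x y h))
    rwa [hgt_some, ← ht_eq] at this
  · intro x y x' y' h h' hx
    simp only [dif_pos h, dif_pos h']
    have := hφ2 (some x y (hns x y h)) (some x' y' (hns x' y' h'))
    rw [add_of_X_ne hx, hgt_some, ← ht_eq, slope_of_X_ne hx] at this
    have hX : (crv (e1 : ℚ) e2 e3).addX x x' ((y - y') / (x - x')) =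
        ((y' - y) / (x' - x)) ^ 2 + e1 + e2 + e3 - x - x' := by
      have h1 : (y - y') / (x - x') = (y' - y) / (x' - x) := by
        rw [← neg_sub y' y, ← neg_sub x' x, neg_div_neg_eq]
      rw [h1]
      simp only [addX, crv]
      ring
    rwa [hX] at this

end curve

end Pool.Agent.Work.MP_36d6be_co_V
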