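import Pool.Agent.Work.MP_36d6be_co_V.Defs

/-!
# Block B: Roth's lemma in two variables, with very different degrees
-/

set_option autoImplicit false

namespace Pool.Agent.Work.MP_36d6be_co_V

open Polynomial

namespace RothB

/-! ### Hasse-Wronskians -/

/-- The Hasse-Wronskian matrix. -/
noncomputable def hw {k : ℕ} (φ : Fin k → ℚ[X]) : Matrix (Fin k) (Fin k) ℚ[X] :=
  Matrix.of fun μ ν => hasseDeriv (μ : ℕ) (φ ν)

lemma choose_det_ne_zero {k : ℕ} (d : Fin k → ℕ) (hd : Function.Injective d) :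
    (Matrix.of (fun μ ν : Fin k => ((d ν).choose μ : ℚ))).det ≠ 0 := by
  have h := Matrix.det_eval_matrixOfPolynomials_eq_det_vandermonde (fun i ↦ ((d i : ℕ) : ℤ))
      (fun i => descPochhammer ℤ i)
      (fun i => descPochhammer_natDegree ℤ i)
      (fun i => monic_descPochhammer ℤ i)
  have h1 : (Matrix.vandermonde (fun i ↦ ((d i : ℕ) : ℤ))).det ≠ 0 := by
    rw [Matrix.det_vandermonde_ne_zero_iff]
    intro a b hab
    exact hd (by simpa using hab)
  have h2 : (Matrix.of fun i j : Fin k => (descPochhammer ℤ j).eval (d i : ℤ)).det =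
    (∏ i : Fin k, Nat.factorial i) *
      (Matrix.of fun i j : Fin k => (Nat.choose (d i) j : ℤ)).det := by
    convert! Matrix.det_mul_row (fun (i : Fin k) => ((Nat.factorial (i : ℕ)) : ℤ)) _
    · rw [Matrix.of_apply, descPochhammer_eval_eq_descFactorial ℤ _ _]
      congr
      exact Nat.descFactorial_eq_factorial_mul_choose _ _
    · rw [Nat.cast_prod]
  have h3 : (Matrix.of fun i j : Fin k => (Nat.choose (d i) j : ℤ)).det ≠ 0 := by
    intro h0
    apply h1
    rw [h, h2, h0, mul_zero]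
  have h4 : (Matrix.of (fun μ ν : Fin k => ((d ν).choose μ : ℚ))).det =
      (((Matrix.of fun i j : Fin k => (Nat.choose (d i) j : ℤ)).det : ℤ) : ℚ) := by
    rw [← Matrix.det_transpose]
    have := RingHom.map_det (Int.castRingHom ℚ)
      (Matrix.of fun i j : Fin k => (Nat.choose (d i) j : ℤ))
    simp only [eq_intCast] at this
    rw [this]
    congr 1
  rw [h4]
  exact_mod_cast h3

lemma coeff_det_of_natDegree_le {k : ℕ} (P : Matrix (Fin k) (Fin k) ℚ[X]) (N : ℕ)
    (h : ∀ μ ν, (P μ ν).natDegree ≤ N) :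
    P.det.coeff (k * N) = (Matrix.of fun μ ν => (P μ ν).coeff N).det := by
  rw [Matrix.det_apply, Matrix.det_apply, finsetSum_coeff]
  refine Finset.sum_congr rfl fun σ _ => ?_
  have h1 : (∏ i, P (σ i) i).coeff (k * N) = ∏ i, (P (σ i) i).coeff N := by
    have := coeff_prod_of_natDegree_le (s := (Finset.univ : Finset (Fin k)))
      (fun i => P (σ i) i) N (fun i _ => h _ _)
    simpa using this
  rcases Int.units_eq_one_or (Equiv.Perm.sign σ) with hs | hs
  · rw [hs]; simp [h1]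
  · rw [hs]; simp [h1]

lemma hw_det_ne_zero_of_injective {k : ℕ} (φ : Fin k → ℚ[X]) (h0 : ∀ ν, φ ν ≠ 0)
    (hinj : Function.Injective fun ν => (φ ν).natDegree) : (hw φ).det ≠ 0 := by
  set N := ∑ ν, (φ ν).natDegree with hN
  have hle : ∀ ν, (φ ν).natDegree ≤ N := fun ν =>
    Finset.single_le_sum (f := fun ν => (φ ν).natDegree) (fun _ _ => Nat.zero_le _)
      (Finset.mem_univ ν)
  set P : Matrix (Fin k) (Fin k) ℚ[X] :=
    Matrix.of fun μ ν => X ^ (N - (φ ν).natDegree) * (X ^ (μ : ℕ) * hw φ μ ν) with hP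
  have h1 : P.det = (∏ ν, X ^ (N - (φ ν).natDegree)) * ((∏ μ : Fin k, X ^ (μ : ℕ)) *
      (hw φ).det) := by
    have e1 := Matrix.det_mul_row (fun ν : Fin k => (X : ℚ[X]) ^ (N - (φ ν).natDegree))
      (Matrix.of fun μ ν => X ^ (μ : ℕ) * hw φ μ ν)
    have e2 := Matrix.det_mul_column (fun μ : Fin k => (X : ℚ[X]) ^ (μ : ℕ)) (hw φ)
    rw [e2] at e1
    rw [← e1, hP]
    rfl
  have hcoeff : ∀ (μ ν : Fin k) (n : ℕ), ((X : ℚ[X]) ^ (μ : ℕ) * hw φ μ ν).coeff n =
      (n.choose μ : ℚ) * (φ ν).coeff n := by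
    intro μ ν n
    rw [coeff_X_pow_mul']
    split_ifs with hn
    · simp only [hw, Matrix.of_apply, hasseDeriv_coeff]
      rw [Nat.sub_add_cancel hn]
    · rw [Nat.choose_eq_zero_of_lt (not_le.1 hn)]; simp
  have hdeg : ∀ μ ν, (P μ ν).natDegree ≤ N := by
    intro μ ν
    rw [natDegree_le_iff_coeff_eq_zero]
    intro n hn
    simp only [hP, Matrix.of_apply]
    rw [coeff_X_pow_mul']
    split_ifs with hn'
    · rw [hcoeff, coeff_eq_zero_of_natDegree_lt (p := φ ν), mul_zero]
      have := hle ν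
      omega
    · rfl
  have h2 := coeff_det_of_natDegree_le P N hdeg
  have h3 : (Matrix.of fun μ ν => (P μ ν).coeff N).det ≠ 0 := by
    have e : (Matrix.of fun μ ν => (P μ ν).coeff N) = Matrix.of fun μ ν =>
        (φ ν).leadingCoeff * (Matrix.of (fun μ ν : Fin k =>
          (((φ ν).natDegree).choose μ : ℚ))) μ ν := by
      ext μ ν
      simp only [hP, Matrix.of_apply]
      rw [coeff_X_pow_mul', if_pos (Nat.sub_le _ _), hcoeff, Nat.sub_sub_self (hle ν)]
      rw [mul_comm]; rfl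
    rw [e, Matrix.det_mul_row]
    refine mul_ne_zero (Finset.prod_ne_zero_iff.2 fun ν _ => ?_) (choose_det_ne_zero _ hinj)
    exact leadingCoeff_ne_zero.2 (h0 ν)
  intro h4
  apply h3
  rw [← h2, h1, h4]
  simp

lemma linInd_update {k : ℕ} (φ : Fin k → ℚ[X]) (h : LinearIndependent ℚ φ) (a b : Fin k)
    (hab : a ≠ b) (c : ℚ) : LinearIndependent ℚ (Function.update φ a (φ a + c • φ b)) := by
  rw [Fintype.linearIndependent_iff] at h ⊢
  intro g hg
  have h1 : ∑ i, (Function.update g b (g b + c * g a)) i • φ i = 0 := by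
    rw [← hg]
    rw [← Finset.add_sum_erase _ _ (Finset.mem_univ a),
      ← Finset.add_sum_erase _ _ (Finset.mem_univ a)]
    rw [← Finset.add_sum_erase _ _ (Finset.mem_erase.2 ⟨hab.symm, Finset.mem_univ b⟩),
      ← Finset.add_sum_erase _ _ (Finset.mem_erase.2 ⟨hab.symm, Finset.mem_univ b⟩)]
    have e : ∑ i ∈ (Finset.univ.erase a).erase b,
        (Function.update g b (g b + c * g a)) i • φ i =
        ∑ i ∈ (Finset.univ.erase a).erase b,
        g i • (Function.update φ a (φ a + c • φ b)) i := by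
      refine Finset.sum_congr rfl fun i hi => ?_
      rw [Finset.mem_erase, Finset.mem_erase] at hi
      rw [Function.update_of_ne hi.1, Function.update_of_ne hi.2.1]
    rw [e]
    simp only [Function.update_self, Function.update_of_ne hab, Function.update_of_ne hab.symm]
    rw [smul_add, add_smul, smul_smul, mul_comm c (g a)]
    abel
  have h2 := h _ h1
  have ha : g a = 0 := by
    have := h2 a
    rwa [Function.update_of_ne hab] at this
  intro i
  by_cases hi : i = b
  · have := h2 b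
    rw [Function.update_self, ha, mul_zero, add_zero] at this
    rw [hi, this]
  · have := h2 i
    rwa [Function.update_of_ne hi] at this

theorem hw_det_ne_zero {k : ℕ} (φ : Fin k → ℚ[X]) (h : LinearIndependent ℚ φ) :
    (hw φ).det ≠ 0 := by
  induction' hn : ∑ ν, (φ ν).natDegree using Nat.strong_induction_on with n ih generalizing φ
  by_cases hinj : Function.Injective fun ν => (φ ν).natDegree
  · exact hw_det_ne_zero_of_injective φ (fun ν => h.ne_zero ν) hinj
  · obtain ⟨a, b, hab, hne⟩ : ∃ a b, (φ a).natDegree = (φ b).natDegree ∧ a ≠ b := by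
      unfold Function.Injective at hinj
      push Not at hinj
      obtain ⟨a, b, h1, h2⟩ := hinj
      exact ⟨a, b, h1, h2⟩
    obtain ⟨c, hc⟩ : ∃ c : ℚ, c = -((φ a).leadingCoeff / (φ b).leadingCoeff) := ⟨_, rfl⟩
    have hb0 := h.ne_zero b
    have ha0 := h.ne_zero a
    have hlb : (φ b).leadingCoeff ≠ 0 := leadingCoeff_ne_zero.2 hb0
    have hla : (φ a).leadingCoeff ≠ 0 := leadingCoeff_ne_zero.2 ha0
    have hc0 : c ≠ 0 := by rw [hc]; exact neg_ne_zero.2 (div_ne_zero hla hlb)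
    set φ' := Function.update φ a (φ a + c • φ b) with hφ'
    have hli : LinearIndependent ℚ φ' := linInd_update φ h a b hne c
    have hdet : (hw φ').det = (hw φ).det := by
      rw [← Matrix.det_updateCol_add_smul_self (hw φ) hne (C c)]
      congr 1
      ext1 μ ν
      by_cases hν : ν = a
      · rw [hν, Matrix.updateCol_self]
        simp only [hw, Matrix.of_apply, hφ', Function.update_self, map_add, map_smul]
        rw [smul_eq_C_mul, smul_eq_mul]
      · rw [Matrix.updateCol_ne hν]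
        simp only [hw, Matrix.of_apply, hφ', Function.update_of_ne hν]
    have hφa : (φ' a).natDegree < (φ a).natDegree := by
      have e1 : φ' a = φ a - C (-c) * φ b := by
        rw [hφ', Function.update_self, smul_eq_C_mul, C_neg]; ring
      have hd : (φ a).degree = (C (-c) * φ b).degree := by
        rw [degree_C_mul (neg_ne_zero.2 hc0), degree_eq_natDegree ha0, degree_eq_natDegree hb0,
          hab]
      have hlc : (φ a).leadingCoeff = (C (-c) * φ b).leadingCoeff := by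
        rw [leadingCoeff_mul, leadingCoeff_C, hc]
        field_simp
        try ring
      have h5 := degree_sub_lt_left hd ha0 hlc
      rw [← e1] at h5
      exact natDegree_lt_natDegree (hli.ne_zero a) h5
    have hsum : ∑ ν, (φ' ν).natDegree < n := by
      rw [← hn]
      apply Finset.sum_lt_sum
      · intro ν _
        by_cases hν : ν = a
        · rw [hν]; exact hφa.le
        · rw [hφ', Function.update_of_ne hν]
      · exact ⟨a, Finset.mem_univ a, hφa⟩
    rw [← hdet]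
    exact ih _ hsum φ' hli rfl

/-! ### Order of vanishing and height -/

lemma linear_isPrimitive (x : ℚ) : (C (x.den : ℤ) * X - C x.num : ℤ[X]).IsPrimitive := by
  intro r hr
  rw [C_dvd_iff_dvd_coeff] at hr
  have h0 := hr 0
  have h1 := hr 1
  simp only [coeff_sub, coeff_C_mul, coeff_X_zero, mul_zero, coeff_C_zero, zero_sub, dvd_neg]
    at h0
  simp only [coeff_sub, coeff_C_mul, coeff_X_one, mul_one, coeff_C_succ, sub_zero] at h1
  have hcop : IsCoprime x.num (x.den : ℤ) := by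
    rw [Int.isCoprime_iff_gcd_eq_one]
    exact x.reduced
  exact hcop.isUnit_of_dvd' h0 h1

lemma ord_mul_ht_le (P : ℤ[X]) (hP : P ≠ 0) (T : ℝ)
    (hT : ∀ i, |((P.coeff i : ℤ) : ℝ)| ≤ Real.exp T)
    (x : ℚ) (e : ℕ) (h : (X - C x) ^ e ∣ P.map (Int.castRingHom ℚ)) : e * ht x ≤ T := by
  set L : ℤ[X] := C (x.den : ℤ) * X - C x.num with hL
  have hprim : (L ^ e).IsPrimitive := by
    have h1 := linear_isPrimitive x
    rw [← hL] at h1
    clear h
    induction e with
    | zero => rw [pow_zero]; exact isPrimitive_one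
    | succ e ih => rw [pow_succ]; exact ih.mul h1
  have hden : (x.den : ℚ) ≠ 0 := by exact_mod_cast x.den_nz
  have hmap : (L ^ e).map (Int.castRingHom ℚ) = C ((x.den : ℚ) ^ e) * (X - C x) ^ e := by
    rw [Polynomial.map_pow, C_pow, ← mul_pow]
    congr 1
    rw [hL, Polynomial.map_sub, Polynomial.map_mul, map_C, map_X, map_C, mul_sub, ← C_mul]
    simp only [eq_intCast, Int.cast_natCast]
    rw [Rat.den_mul_eq_num]
  have hdvd : L ^ e ∣ P := by
    apply hprim.dvd_of_fraction_map_dvd_fraction_map (K := ℚ)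
    have h1 : (L ^ e).map (algebraMap ℤ ℚ) = C ((x.den : ℚ) ^ e) * (X - C x) ^ e := hmap
    rw [h1]
    have h2 : IsUnit (C ((x.den : ℚ) ^ e) : ℚ[X]) := by
      rw [isUnit_C]
      exact (pow_ne_zero _ hden).isUnit
    rw [h2.mul_left_dvd]
    exact h
  obtain ⟨Q, hQ⟩ := hdvd
  have hQ0 : Q ≠ 0 := by
    rintro rfl
    exact hP (by rw [hQ, mul_zero])
  have hLlead : L.leadingCoeff = (x.den : ℤ) := by
    have hd0 : (x.den : ℤ) ≠ 0 := by exact_mod_cast x.den_nz
    have : L = C (x.den : ℤ) * X + C (-x.num) := by rw [hL, C_neg]; ring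
    rw [this, leadingCoeff_linear hd0]
  have hden' : ((x.den : ℕ) : ℝ) ^ e ≤ Real.exp T := by
    have h1 := hT P.natDegree
    have h2 : P.coeff P.natDegree = (x.den : ℤ) ^ e * Q.leadingCoeff := by
      rw [coeff_natDegree]
      conv_lhs => rw [hQ]
      rw [leadingCoeff_mul, leadingCoeff_pow, hLlead]
    rw [h2] at h1
    push_cast at h1
    rw [abs_mul, abs_pow] at h1
    have h3 : (1 : ℝ) ≤ |((Q.leadingCoeff : ℤ) : ℝ)| := by
      have : (1 : ℤ) ≤ |Q.leadingCoeff| := Int.one_le_abs (leadingCoeff_ne_zero.2 hQ0)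
      exact_mod_cast this
    have h4 : (0 : ℝ) ≤ ((x.den : ℕ) : ℝ) ^ e := by positivity
    have h5 : |((x.den : ℕ) : ℝ)| = ((x.den : ℕ) : ℝ) := abs_of_nonneg (by positivity)
    rw [h5] at h1
    nlinarith
  have hnum' : ((x.num.natAbs : ℕ) : ℝ) ^ e ≤ Real.exp T := by
    by_cases hn : x.num = 0
    · rw [hn]
      simp only [Int.natAbs_zero, Nat.cast_zero]
      rcases Nat.eq_zero_or_pos e with he | he
      · rw [he, pow_zero]
        rw [he, pow_zero] at hden'
        exact hden'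
      · rw [zero_pow he.ne']
        exact (Real.exp_pos _).le
    · have hLt : L.trailingCoeff = -x.num := by
        have h0 : L.coeff 0 = -x.num := by
          rw [hL]; simp
        have : L.natTrailingDegree = 0 := by
          rw [natTrailingDegree_eq_zero]
          right
          rw [h0]
          exact neg_ne_zero.2 hn
        rw [trailingCoeff, this, h0]
      have h1 := hT P.natTrailingDegree
      have h2 : P.coeff P.natTrailingDegree = (-x.num) ^ e * Q.trailingCoeff := by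
        change P.trailingCoeff = _
        conv_lhs => rw [hQ]
        rw [trailingCoeff_mul]
        congr 1
        clear h hprim hmap hQ hden'
        induction e with
        | zero => rw [pow_zero, pow_zero]; simp [trailingCoeff]
        | succ e ih => rw [pow_succ, pow_succ, trailingCoeff_mul, ih, hLt]
      rw [h2] at h1
      push_cast at h1
      rw [abs_mul, abs_pow, abs_neg] at h1
      have h3 : (1 : ℝ) ≤ |((Q.trailingCoeff : ℤ) : ℝ)| := by
        have : (1 : ℤ) ≤ |Q.trailingCoeff| :=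
          Int.one_le_abs (by rwa [Ne, trailingCoeff_eq_zero])
        exact_mod_cast this
      have h5 : ((x.num.natAbs : ℕ) : ℝ) = |((x.num : ℤ) : ℝ)| := by
        rw [Nat.cast_natAbs]; push_cast; rfl
      rw [h5]
      have h4 : (0 : ℝ) ≤ |((x.num : ℤ) : ℝ)| ^ e := by positivity
      nlinarith
  have hmax : (((max x.num.natAbs x.den : ℕ)) : ℝ) ^ e ≤ Real.exp T := by
    rcases max_choice x.num.natAbs x.den with hm | hm
    · rw [hm]; exact hnum'
    · rw [hm]; exact hden'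
  have hpos : (0 : ℝ) < ((max x.num.natAbs x.den : ℕ) : ℝ) := by
    have : 0 < max x.num.natAbs x.den := lt_of_lt_of_le x.den_pos (le_max_right _ _)
    exact_mod_cast this
  rw [ht, ← Real.log_pow]
  exact (Real.log_le_iff_le_exp (by positivity)).2 hmax

/-! ### Majorants -/

/-- Coefficientwise majorant. -/
def Maj (P : ℤ[X][X]) (F : ℝ[X][X]) : Prop :=
  ∀ j i, |(((P.coeff j).coeff i : ℤ) : ℝ)| ≤ (F.coeff j).coeff i

lemma Maj.add {P Q : ℤ[X][X]} {F G : ℝ[X][X]} (h1 : Maj P F) (h2 : Maj Q G) :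
    Maj (P + Q) (F + G) := by
  intro j i
  simp only [coeff_add]
  push_cast
  exact (abs_add_le _ _).trans (add_le_add (h1 j i) (h2 j i))

lemma Maj.neg {P : ℤ[X][X]} {F : ℝ[X][X]} (h1 : Maj P F) : Maj (-P) F := by
  intro j i
  simp only [coeff_neg]
  push_cast
  rw [abs_neg]
  exact h1 j i

lemma Maj.nonneg {P : ℤ[X][X]} {F : ℝ[X][X]} (h1 : Maj P F) (j i : ℕ) :
    0 ≤ (F.coeff j).coeff i := (abs_nonneg _).trans (h1 j i)

lemma Maj.mul {P Q : ℤ[X][X]} {F G : ℝ[X][X]} (h1 : Maj P F) (h2 : Maj Q G) :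
    Maj (P * Q) (F * G) := by
  intro j i
  rw [coeff_mul, coeff_mul, finsetSum_coeff, finsetSum_coeff]
  push_cast
  refine (Finset.abs_sum_le_sum_abs _ _).trans (Finset.sum_le_sum ?_)
  rintro ⟨j1, j2⟩ _
  rw [coeff_mul, coeff_mul]
  push_cast
  refine (Finset.abs_sum_le_sum_abs _ _).trans (Finset.sum_le_sum ?_)
  rintro ⟨i1, i2⟩ _
  rw [abs_mul]
  exact mul_le_mul (h1 _ _) (h2 _ _) (abs_nonneg _) (h1.nonneg _ _)

lemma Maj.zero : Maj 0 0 := by
  intro j i
  simp

lemma Maj.one : Maj 1 1 := by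
  intro j i
  rw [coeff_one, coeff_one]
  split_ifs
  · rw [coeff_one, coeff_one]
    split_ifs <;> simp
  · simp

lemma Maj.sum {ι : Type*} (s : Finset ι) (P : ι → ℤ[X][X]) (F : ι → ℝ[X][X])
    (h : ∀ i ∈ s, Maj (P i) (F i)) : Maj (∑ i ∈ s, P i) (∑ i ∈ s, F i) := by
  classical
  induction s using Finset.induction_on with
  | empty => simpa using Maj.zero
  | insert a s ha ih =>
    rw [Finset.sum_insert ha, Finset.sum_insert ha]
    exact (h a (Finset.mem_insert_self _ _)).add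
      (ih fun i hi => h i (Finset.mem_insert_of_mem hi))

lemma Maj.prod {ι : Type*} (s : Finset ι) (P : ι → ℤ[X][X]) (F : ι → ℝ[X][X])
    (h : ∀ i ∈ s, Maj (P i) (F i)) : Maj (∏ i ∈ s, P i) (∏ i ∈ s, F i) := by
  classical
  induction s using Finset.induction_on with
  | empty => simpa using Maj.one
  | insert a s ha ih =>
    rw [Finset.prod_insert ha, Finset.prod_insert ha]
    exact (h a (Finset.mem_insert_self _ _)).mul
      (ih fun i hi => h i (Finset.mem_insert_of_mem hi))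

lemma Maj.det {k : ℕ} (E : Matrix (Fin k) (Fin k) ℤ[X][X]) (F : Matrix (Fin k) (Fin k) ℝ[X][X])
    (h : ∀ i j, Maj (E i j) (F i j)) :
    Maj E.det (∑ σ : Equiv.Perm (Fin k), ∏ i, F (σ i) i) := by
  rw [Matrix.det_apply]
  refine Maj.sum _ _ _ fun σ _ => ?_
  have h1 := Maj.prod (Finset.univ : Finset (Fin k)) (fun i => E (σ i) i) (fun i => F (σ i) i)
    (fun i _ => h _ _)
  rcases Int.units_eq_one_or (Equiv.Perm.sign σ) with hs | hs
  · rw [hs, one_smul]; exact h1
  · rw [hs, Units.neg_smul, one_smul]; exact h1.neg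

/-- Evaluation at `(1, 1)`. -/
noncomputable def ev11 : ℝ[X][X] →+* ℝ := (evalRingHom (1 : ℝ)).comp (evalRingHom (1 : ℝ[X]))

lemma Maj.le_ev11 {P : ℤ[X][X]} {F : ℝ[X][X]} (h : Maj P F) (j i : ℕ) :
    |(((P.coeff j).coeff i : ℤ) : ℝ)| ≤ ev11 F := by
  refine (h j i).trans ?_
  have h0 := h.nonneg
  have h1 : F.eval (1 : ℝ[X]) = ∑ j ∈ Finset.range (F.natDegree + 1), F.coeff j := by
    rw [eval_eq_sum_range]; simp
  have h2 : ∀ i, (F.coeff j).coeff i ≤ (F.eval (1 : ℝ[X])).coeff i := by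
    intro i
    by_cases hj : j ≤ F.natDegree
    · rw [h1, finsetSum_coeff]
      exact Finset.single_le_sum (f := fun j => (F.coeff j).coeff i) (fun _ _ => h0 _ _)
        (Finset.mem_range.2 (Nat.lt_succ_of_le hj))
    · rw [coeff_eq_zero_of_natDegree_lt (not_le.1 hj), coeff_zero, h1, finsetSum_coeff]
      exact Finset.sum_nonneg fun _ _ => h0 _ _
  refine (h2 i).trans ?_
  have h3 : ∀ i, 0 ≤ (F.eval (1 : ℝ[X])).coeff i := fun i => (h0 j i).trans (h2 i)
  change _ ≤ (F.eval (1 : ℝ[X])).eval 1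
  generalize F.eval (1 : ℝ[X]) = G at h3 ⊢
  by_cases hi : i ≤ G.natDegree
  · rw [eval_eq_sum_range]
    simp only [one_pow, mul_one]
    exact Finset.single_le_sum (f := fun i => G.coeff i) (fun _ _ => h3 _)
      (Finset.mem_range.2 (Nat.lt_succ_of_le hi))
  · rw [coeff_eq_zero_of_natDegree_lt (not_le.1 hi), eval_eq_sum_range]
    simp only [one_pow, mul_one]
    exact Finset.sum_nonneg fun _ _ => h3 _

lemma ev11_nonneg {P : ℤ[X][X]} {F : ℝ[X][X]} (h : Maj P F) : 0 ≤ ev11 F :=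
  (abs_nonneg _).trans (h.le_ev11 0 0)

lemma det_coeff_le {k : ℕ} (E : Matrix (Fin k) (Fin k) ℤ[X][X])
    (F : Matrix (Fin k) (Fin k) ℝ[X][X])
    (h : ∀ i j, Maj (E i j) (F i j)) (K : ℝ) (hK : ∀ i j, ev11 (F i j) ≤ K) (j i : ℕ) :
    |(((E.det.coeff j).coeff i : ℤ) : ℝ)| ≤ (k.factorial : ℝ) * K ^ k := by
  refine ((Maj.det E F h).le_ev11 j i).trans ?_
  rw [map_sum]
  have h1 : ∀ σ : Equiv.Perm (Fin k), ev11 (∏ i, F (σ i) i) ≤ K ^ k := by
    intro σ
    rw [map_prod]
    refine (Finset.prod_le_prod (fun i _ => ev11_nonneg (h _ _)) (fun i _ => hK _ _)).trans ?_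
    simp
  refine (Finset.sum_le_sum fun σ _ => h1 σ).trans ?_
  rw [Finset.sum_const, nsmul_eq_mul, Finset.card_univ, Fintype.card_perm, Fintype.card_fin]

/-! ### The matrix of mixed Hasse derivatives -/

/-- The mixed Hasse derivative of order `(μ, ν)` of `∑ m i s X^i Y^s`. -/
noncomputable def ent {R : Type*} [CommRing R] (d1 d2 : ℕ) (m : ℕ → ℕ → R) (μ ν : ℕ) : R[X][X] :=
  ∑ s ∈ Finset.range (d2 + 1), ∑ i ∈ Finset.range (d1 + 1),
    monomial (s - ν) (monomial (i - μ) (m i s * ((i.choose μ : ℕ) : R) * ((s.choose ν : ℕ) : R)))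

lemma ent_maj (d1 d2 : ℕ) (m : ℕ → ℕ → ℤ) (μ ν : ℕ) :
    Maj (ent d1 d2 m μ ν) (ent d1 d2 (fun i s => |((m i s : ℤ) : ℝ)|) μ ν) := by
  refine Maj.sum _ _ _ fun s _ => Maj.sum _ _ _ fun i _ => ?_
  intro j' i'
  rw [coeff_monomial, coeff_monomial]
  split_ifs
  · rw [coeff_monomial, coeff_monomial]
    split_ifs
    · push_cast
      rw [abs_mul, abs_mul]
      rw [abs_of_nonneg (by positivity : (0 : ℝ) ≤ ((i.choose μ : ℕ) : ℝ)),
        abs_of_nonneg (by positivity : (0 : ℝ) ≤ ((s.choose ν : ℕ) : ℝ))]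
    · simp
  · simp

lemma ev11_ent_le (d1 d2 : ℕ) (m : ℕ → ℕ → ℝ) (μ ν : ℕ) (A : ℝ)
    (hm0 : ∀ i s, 0 ≤ m i s) (hm : ∀ i s, m i s ≤ A) :
    ev11 (ent d1 d2 m μ ν) ≤ (d1 + 1) * (d2 + 1) * A * 2 ^ (d1 + d2) := by
  unfold ent
  rw [map_sum]
  have hA : 0 ≤ A := (hm0 0 0).trans (hm 0 0)
  have h1 : ∀ s ∈ Finset.range (d2 + 1), ev11 (∑ i ∈ Finset.range (d1 + 1),
      monomial (s - ν) (monomial (i - μ)
        (m i s * ((i.choose μ : ℕ) : ℝ) * ((s.choose ν : ℕ) : ℝ)))) ≤
      (d1 + 1) * (A * 2 ^ (d1 + d2)) := by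
    intro s hs
    rw [map_sum]
    have h2 : ∀ i ∈ Finset.range (d1 + 1), ev11 (monomial (s - ν) (monomial (i - μ)
        (m i s * ((i.choose μ : ℕ) : ℝ) * ((s.choose ν : ℕ) : ℝ)))) ≤ A * 2 ^ (d1 + d2) := by
      intro i hi
      have e : ev11 (monomial (s - ν) (monomial (i - μ)
        (m i s * ((i.choose μ : ℕ) : ℝ) * ((s.choose ν : ℕ) : ℝ)))) =
        m i s * ((i.choose μ : ℕ) : ℝ) * ((s.choose ν : ℕ) : ℝ) := by
        unfold ev11
        simp
      rw [e]
      have hi' : i ≤ d1 := Nat.lt_succ_iff.1 (Finset.mem_range.1 hi)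
      have hs' : s ≤ d2 := Nat.lt_succ_iff.1 (Finset.mem_range.1 hs)
      have h3 : ((i.choose μ : ℕ) : ℝ) ≤ 2 ^ d1 := by
        have : i.choose μ ≤ 2 ^ d1 := (Nat.choose_le_two_pow i μ).trans
          (Nat.pow_le_pow_right (by norm_num) hi')
        exact_mod_cast this
      have h4 : ((s.choose ν : ℕ) : ℝ) ≤ 2 ^ d2 := by
        have : s.choose ν ≤ 2 ^ d2 := (Nat.choose_le_two_pow s ν).trans
          (Nat.pow_le_pow_right (by norm_num) hs')
        exact_mod_cast this
      rw [pow_add, ← mul_assoc]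
      have h5 : m i s * ((i.choose μ : ℕ) : ℝ) ≤ A * 2 ^ d1 :=
        mul_le_mul (hm i s) h3 (by positivity) hA
      exact mul_le_mul h5 h4 (by positivity) (by positivity)
    refine (Finset.sum_le_sum h2).trans ?_
    rw [Finset.sum_const, Finset.card_range, nsmul_eq_mul]
    push_cast
    exact le_rfl
  refine (Finset.sum_le_sum h1).trans ?_
  rw [Finset.sum_const, Finset.card_range, nsmul_eq_mul]
  push_cast
  apply le_of_eq
  ring

lemma ent_map {R S : Type*} [CommRing R] [CommRing S] (f : R →+* S) (d1 d2 : ℕ)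
    (m : ℕ → ℕ → R) (μ ν : ℕ) :
    (ent d1 d2 m μ ν).map (mapRingHom f) = ent d1 d2 (fun i s => f (m i s)) μ ν := by
  unfold ent
  simp only [Polynomial.map_sum, map_monomial, coe_mapRingHom, map_mul, map_natCast]

/-! ### Factorisation over `ℚ` -/

lemma ent_factor {k : ℕ} (d1 d2 : ℕ) (φ ψ : Fin k → ℚ[X]) (hφ : ∀ l, (φ l).natDegree ≤ d1)
    (hψ : ∀ l, (ψ l).natDegree ≤ d2) (μ ν : ℕ) :
    ent d1 d2 (fun i s => ∑ l, (φ l).coeff i * (ψ l).coeff s) μ ν =
      ∑ l, C (hasseDeriv μ (φ l)) * (hasseDeriv ν (ψ l)).map C := by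
  have h1 : ∀ (p : ℚ[X]) (d n : ℕ), p.natDegree ≤ d → hasseDeriv n p =
      ∑ i ∈ Finset.range (d + 1), monomial (i - n) (((i.choose n : ℕ) : ℚ) * p.coeff i) := by
    intro p d n hp
    conv_lhs => rw [as_sum_range' p (d + 1) (Nat.lt_succ_of_le hp)]
    rw [map_sum]
    refine Finset.sum_congr rfl fun i _ => ?_
    rw [hasseDeriv_monomial]
  have h2 : ∀ l, C (hasseDeriv μ (φ l)) * (hasseDeriv ν (ψ l)).map C =
      ∑ s ∈ Finset.range (d2 + 1), ∑ i ∈ Finset.range (d1 + 1),
        monomial (s - ν) (monomial (i - μ) (((φ l).coeff i * (ψ l).coeff s) *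
          ((i.choose μ : ℕ) : ℚ) * ((s.choose ν : ℕ) : ℚ))) := by
    intro l
    rw [h1 (φ l) d1 μ (hφ l), h1 (ψ l) d2 ν (hψ l), Polynomial.map_sum, Finset.mul_sum]
    refine Finset.sum_congr rfl fun s _ => ?_
    rw [map_sum, Finset.sum_mul]
    refine Finset.sum_congr rfl fun i _ => ?_
    rw [map_monomial, C_mul_monomial, monomial_mul_C]
    congr 2
    ring
  simp only [h2]
  rw [Finset.sum_comm]
  unfold ent
  refine Finset.sum_congr rfl fun s _ => ?_
  rw [Finset.sum_comm]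
  refine Finset.sum_congr rfl fun i _ => ?_
  rw [← map_sum, ← map_sum]
  congr 2
  rw [Finset.sum_mul, Finset.sum_mul]

lemma det_factor {k : ℕ} (φ ψ : Fin k → ℚ[X]) :
    (Matrix.of fun μ ν : Fin k => ∑ l, C (hasseDeriv (μ : ℕ) (φ l)) *
      (hasseDeriv (ν : ℕ) (ψ l)).map C).det = C (hw φ).det * ((hw ψ).det).map C := by
  have h1 : (Matrix.of fun μ ν : Fin k => ∑ l, C (hasseDeriv (μ : ℕ) (φ l)) *
      (hasseDeriv (ν : ℕ) (ψ l)).map C) = ((C : ℚ[X] →+* ℚ[X][X]).mapMatrix (hw φ)) *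
        ((mapRingHom (C : ℚ →+* ℚ[X])).mapMatrix (hw ψ)).transpose := by
    ext1 μ ν
    rw [Matrix.mul_apply]
    simp [hw]
  rw [h1, Matrix.det_mul, Matrix.det_transpose, ← RingHom.map_det, ← RingHom.map_det]
  rfl

lemma coeff_tens (p q : ℚ[X]) (j i : ℕ) :
    ((C p * q.map C).coeff j).coeff i = p.coeff i * q.coeff j := by
  rw [coeff_C_mul, coeff_map, coeff_mul_C]

/-! ### Index argument -/

/-- weighted order at least `s` -/
def WO (c r s : ℕ) (P : ℚ[X][X]) : Prop := ∀ i j, c * i + r * j < s → (P.coeff j).coeff i = 0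

lemma WO.mul {c r s t : ℕ} {P Q : ℚ[X][X]} (hP : WO c r s P) (hQ : WO c r t Q) :
    WO c r (s + t) (P * Q) := by
  intro i j hij
  rw [coeff_mul, finsetSum_coeff]
  apply Finset.sum_eq_zero
  rintro ⟨j1, j2⟩ hj
  rw [coeff_mul]
  apply Finset.sum_eq_zero
  rintro ⟨i1, i2⟩ hi
  rw [Finset.HasAntidiagonal.mem_antidiagonal] at hi hj
  simp only at hi hj ⊢
  have h1 : c * i1 + r * j1 < s ∨ c * i2 + r * j2 < t := by
    by_contra hcon
    push Not at hcon
    subst hi hj
    have : c * (i1 + i2) + r * (j1 + j2) = (c * i1 + r * j1) + (c * i2 + r * j2) := by ring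
    omega
  rcases h1 with h1 | h1
  · rw [hP _ _ h1, zero_mul]
  · rw [hQ _ _ h1, mul_zero]

lemma WO.zero (c r : ℕ) (P : ℚ[X][X]) : WO c r 0 P := by
  intro i j h
  exact absurd h (Nat.not_lt_zero _)

lemma WO.prod {c r : ℕ} {ι : Type*} (S : Finset ι) (s : ι → ℕ) (P : ι → ℚ[X][X])
    (h : ∀ i ∈ S, WO c r (s i) (P i)) : WO c r (∑ i ∈ S, s i) (∏ i ∈ S, P i) := by
  classical
  induction S using Finset.induction_on with
  | empty => rw [Finset.sum_empty]; exact WO.zero _ _ _
  | insert a S ha ih =>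
    rw [Finset.sum_insert ha, Finset.prod_insert ha]
    exact (h a (Finset.mem_insert_self _ _)).mul
      (ih fun i hi => h i (Finset.mem_insert_of_mem hi))

lemma WO.det {c r k : ℕ} (E : Matrix (Fin k) (Fin k) ℚ[X][X]) (s : Fin k → ℕ)
    (h : ∀ μ ν, WO c r (s ν) (E μ ν)) : WO c r (∑ ν, s ν) E.det := by
  intro i j hij
  rw [Matrix.det_apply, finsetSum_coeff, finsetSum_coeff]
  apply Finset.sum_eq_zero
  intro σ _
  have h1 := WO.prod (Finset.univ : Finset (Fin k)) s (fun ν => E (σ ν) ν)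
    (fun ν _ => h _ _) i j hij
  rcases Int.units_eq_one_or (Equiv.Perm.sign σ) with hs | hs
  · rw [hs, one_smul]; exact h1
  · rw [hs, Units.neg_smul, one_smul, coeff_neg, coeff_neg, h1, neg_zero]

/-- Main index inequality. -/
lemma index_ineq {k m1 m2 c : ℕ} (φ ψ : Fin k → ℚ[X]) (hk : k ≤ m1)
    (hv : ∀ i < m1, ∀ j < m2, ∑ l, (φ l).coeff i * (ψ l).coeff j = 0)
    (i j : ℕ) (hi : (hw φ).det.coeff i ≠ 0) (hj : (hw ψ).det.coeff j ≠ 0) :
    c * (m1 + 1 - k) * (Finset.univ.filter fun ν : Fin k => (ν : ℕ) + c ≤ m2).card ≤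
      c * i + (m1 + 1 - k) * j := by
  set r := m1 + 1 - k with hr
  set E : Matrix (Fin k) (Fin k) ℚ[X][X] := Matrix.of fun μ ν : Fin k =>
    ∑ l, C (hasseDeriv (μ : ℕ) (φ l)) * (hasseDeriv (ν : ℕ) (ψ l)).map C with hE
  have hdet : E.det = C (hw φ).det * ((hw ψ).det).map C := det_factor φ ψ
  have hcoeff : ∀ (μ ν : Fin k) (i j : ℕ), ((E μ ν).coeff j).coeff i =
      ((((i + μ).choose μ : ℕ) : ℚ) * (((j + ν).choose ν : ℕ) : ℚ)) *
        ∑ l, (φ l).coeff (i + μ) * (ψ l).coeff (j + ν) := by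
    intro μ ν i j
    simp only [hE, Matrix.of_apply]
    rw [finsetSum_coeff, finsetSum_coeff, Finset.mul_sum]
    refine Finset.sum_congr rfl fun l _ => ?_
    rw [coeff_tens, hasseDeriv_coeff, hasseDeriv_coeff]
    ring
  have hWO := WO.det (c := c) (r := r) E (fun ν => if (ν : ℕ) + c ≤ m2 then c * r else 0) (by
    intro μ ν
    by_cases hν : (ν : ℕ) + c ≤ m2
    · simp only [if_pos hν]
      intro i' j' h'
      rw [hcoeff, hv, mul_zero]
      · by_contra hcon
        push Not at hcon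
        have hμ := μ.2
        have : r ≤ i' := by omega
        have : c * r ≤ c * i' := Nat.mul_le_mul_left _ this
        omega
      · by_contra hcon
        push Not at hcon
        have : c ≤ j' := by omega
        have : c * r ≤ r * j' := by rw [mul_comm c r]; exact Nat.mul_le_mul_left _ this
        omega
    · simp only [if_neg hν]
      exact WO.zero _ _ _)
  have hsum : ∑ ν : Fin k, (if (ν : ℕ) + c ≤ m2 then c * r else 0) =
      c * r * (Finset.univ.filter fun ν : Fin k => (ν : ℕ) + c ≤ m2).card := by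
    rw [← Finset.sum_filter, Finset.sum_const, smul_eq_mul, mul_comm]
  rw [hsum] at hWO
  by_contra hcon
  push Not at hcon
  have := hWO i j hcon
  rw [hdet, coeff_tens] at this
  exact mul_ne_zero hi hj this

/-! ### Taylor shift -/

lemma hasseDeriv_taylor (x : ℚ) (n : ℕ) (p : ℚ[X]) :
    hasseDeriv n (taylor x p) = taylor x (hasseDeriv n p) := by
  ext m
  rw [hasseDeriv_coeff, taylor_coeff, taylor_coeff]
  have h := congrArg (fun f => f p) (hasseDeriv_comp (R := ℚ) m n)
  simp only [LinearMap.comp_apply, LinearMap.smul_apply] at h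
  rw [h, eval_smul, nsmul_eq_mul]
  congr 2
  rw [Nat.choose_symm_add]

lemma hw_taylor {k : ℕ} (x : ℚ) (φ : Fin k → ℚ[X]) :
    (hw fun l => taylor x (φ l)).det = taylor x (hw φ).det := by
  have h1 : (hw fun l => taylor x (φ l)) =
      ((taylorAlgHom x : ℚ[X] →ₐ[ℚ] ℚ[X]) : ℚ[X] →+* ℚ[X]).mapMatrix (hw φ) := by
    ext1 μ ν
    simp only [hw, Matrix.of_apply, RingHom.mapMatrix_apply, Matrix.map_apply,
      hasseDeriv_taylor]
    rfl
  rw [h1, ← RingHom.map_det]
  rfl

lemma taylorCoeff_eq {k : ℕ} (M : ℤ[X][X]) (φ ψ : Fin k → ℚ[X])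
    (h : M.map (mapRingHom (Int.castRingHom ℚ)) = ∑ l, C (φ l) * (ψ l).map C) (x y : ℚ)
    (i j : ℕ) :
    taylorCoeff M x y i j = ∑ l, (taylor x (φ l)).coeff i * (taylor y (ψ l)).coeff j := by
  unfold taylorCoeff
  rw [h, map_sum, finsetSum_coeff, map_sum, finsetSum_coeff]
  refine Finset.sum_congr rfl fun l _ => ?_
  rw [taylor_mul, taylor_C, ← map_taylor, coeff_C_mul, coeff_map, taylor_mul, taylor_C,
    coeff_mul_C]

/-! ### Decomposition -/

lemma exists_decomp (Mq : ℚ[X][X]) (d1 d2 : ℕ) (hM : Mq ≠ 0)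
    (hd2 : Mq.natDegree ≤ d2) (hd1 : ∀ j, (Mq.coeff j).natDegree ≤ d1) :
    ∃ (k : ℕ) (φ ψ : Fin k → ℚ[X]), 0 < k ∧ k ≤ d2 + 1 ∧ LinearIndependent ℚ φ ∧
      LinearIndependent ℚ ψ ∧ (∀ l, (φ l).natDegree ≤ d1) ∧ (∀ l, (ψ l).natDegree ≤ d2) ∧
      Mq = ∑ l, C (φ l) * (ψ l).map C := by
  classical
  set v : Fin (d2 + 1) → ℚ[X] := fun j => Mq.coeff j with hv
  set S : Submodule ℚ ℚ[X] := Submodule.span ℚ (Set.range v) with hS
  have : FiniteDimensional ℚ S := FiniteDimensional.span_of_finite ℚ (Set.finite_range v)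
  set k := Module.finrank ℚ S with hk
  set b : Module.Basis (Fin k) ℚ S := Module.finBasis ℚ S with hb
  have hmem : ∀ j : Fin (d2 + 1), v j ∈ S := fun j => Submodule.subset_span ⟨j, rfl⟩
  have hk1 : k ≤ d2 + 1 := by
    have := finrank_range_le_card (R := ℚ) v
    rw [Fintype.card_fin] at this
    exact this
  set φ : Fin k → ℚ[X] := fun l => (b l : ℚ[X]) with hφ
  set ψ : Fin k → ℚ[X] := fun l => ∑ j : Fin (d2 + 1),
    monomial (j : ℕ) (b.repr ⟨v j, hmem j⟩ l) with hψ
  have hφli : LinearIndependent ℚ φ := by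
    have := b.linearIndependent.map' S.subtype (Submodule.ker_subtype S)
    exact this
  have hψcoeff : ∀ l (j : Fin (d2 + 1)), (ψ l).coeff j = b.repr ⟨v j, hmem j⟩ l := by
    intro l j
    rw [hψ]
    simp only [finsetSum_coeff, coeff_monomial]
    rw [Finset.sum_eq_single j]
    · simp
    · intro j' _ hj'
      rw [if_neg]
      intro h
      exact hj' (Fin.ext h)
    · intro h; exact absurd (Finset.mem_univ _) h
  have hψli : LinearIndependent ℚ ψ := by
    rw [Fintype.linearIndependent_iff]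
    intro g hg
    set Λ : S →ₗ[ℚ] ℚ := b.constr ℚ g with hΛ
    have h1 : ∀ j : Fin (d2 + 1), Λ ⟨v j, hmem j⟩ = 0 := by
      intro j
      have h2 := congrArg (fun p : ℚ[X] => p.coeff (j : ℕ)) hg
      simp only [finsetSum_coeff, coeff_smul, coeff_zero, hψcoeff, smul_eq_mul] at h2
      rw [hΛ, Module.Basis.constr_apply_fintype]
      rw [← h2]
      refine Finset.sum_congr rfl fun l _ => ?_
      simp [mul_comm, Module.Basis.equivFun_apply]
    have h3 : ∀ s (hs : s ∈ S), Λ ⟨s, hs⟩ = 0 := by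
      intro s hs
      induction hs using Submodule.span_induction with
      | mem x hx =>
        obtain ⟨j, rfl⟩ := hx
        exact h1 j
      | zero => exact map_zero Λ
      | add x y hx hy h4 h5 =>
        have : (⟨x + y, S.add_mem hx hy⟩ : S) = ⟨x, hx⟩ + ⟨y, hy⟩ := rfl
        rw [this, map_add, h4, h5, add_zero]
      | smul a x hx h4 =>
        have : (⟨a • x, S.smul_mem a hx⟩ : S) = a • ⟨x, hx⟩ := rfl
        rw [this, map_smul, h4, smul_zero]
    intro l
    have h6 := h3 (b l : ℚ[X]) (b l).2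
    have h7 : Λ (b l) = g l := by rw [hΛ, Module.Basis.constr_basis]
    rw [← h7]
    exact h6
  have hdec : ∀ j : Fin (d2 + 1), v j = ∑ l, (b.repr ⟨v j, hmem j⟩ l) • φ l := by
    intro j
    have h1 := b.sum_repr ⟨v j, hmem j⟩
    have h2 := congrArg (fun s : S => (s : ℚ[X])) h1
    simp only [Submodule.coe_sum, Submodule.coe_smul] at h2
    exact h2.symm
  have hψdeg : ∀ l, (ψ l).natDegree ≤ d2 := by
    intro l
    refine natDegree_sum_le_of_forall_le _ _ fun j _ => ?_
    exact (natDegree_monomial_le _).trans (Nat.lt_succ_iff.1 j.2)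
  have hφdeg : ∀ l, (φ l).natDegree ≤ d1 := by
    intro l
    have h1 : S ≤ degreeLT ℚ (d1 + 1) := by
      rw [hS, Submodule.span_le]
      rintro _ ⟨j, rfl⟩
      rw [SetLike.mem_coe, mem_degreeLT]
      exact lt_of_le_of_lt degree_le_natDegree (by exact_mod_cast Nat.lt_succ_of_le (hd1 j))
    have h2 := h1 (b l).2
    rw [mem_degreeLT] at h2
    exact Nat.lt_succ_iff.1 ((natDegree_lt_iff_degree_lt (hφli.ne_zero l)).2 h2)
  have hMdec : Mq = ∑ l, C (φ l) * (ψ l).map C := by
    ext1 j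
    rw [finsetSum_coeff]
    simp only [coeff_C_mul, coeff_map]
    by_cases hj : j < d2 + 1
    · have h1 : Mq.coeff j = _ := hdec ⟨j, hj⟩
      refine h1.trans ?_
      refine Finset.sum_congr rfl fun l _ => ?_
      have h3 := hψcoeff l ⟨j, hj⟩
      simp only at h3
      rw [h3, smul_eq_C_mul, mul_comm]
    · rw [coeff_eq_zero_of_natDegree_lt (by omega)]
      symm
      apply Finset.sum_eq_zero
      intro l _
      rw [coeff_eq_zero_of_natDegree_lt (p := ψ l) (by have := hψdeg l; omega), C_0, mul_zero]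
  have hkpos : 0 < k := by
    rcases Nat.eq_zero_or_pos k with h0 | h0
    · exfalso
      apply hM
      rw [hMdec]
      apply Finset.sum_eq_zero
      intro l _
      exact absurd l.2 (by omega)
    · exact h0
  exact ⟨k, φ, ψ, hkpos, hk1, hφli, hψli, hφdeg, hψdeg, hMdec⟩

lemma X_sub_C_pow_dvd (x : ℚ) (U : ℚ[X]) :
    (X - C x) ^ (taylor x U).natTrailingDegree ∣ U := by
  have h1 : (X : ℚ[X]) ^ (taylor x U).natTrailingDegree ∣ taylor x U := by
    rw [X_pow_dvd_iff]
    intro d hd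
    exact coeff_eq_zero_of_lt_natTrailingDegree hd
  obtain ⟨Q, hQ⟩ := h1
  refine ⟨taylor (-x) Q, ?_⟩
  have h2 : taylor (-x) (taylor x U) = U := by
    rw [taylor_taylor, neg_add_cancel, taylor_zero]
  conv_lhs => rw [← h2, hQ]
  rw [taylor_mul, taylor_pow, taylor_X, C_neg, ← sub_eq_add_neg]

lemma card_good (k c m2 : ℕ) : min k (m2 + 1 - c) ≤
    (Finset.univ.filter fun ν : Fin k => (ν : ℕ) + c ≤ m2).card := by
  have h1 : Finset.range (min k (m2 + 1 - c)) ⊆
      (Finset.univ.filter fun ν : Fin k => (ν : ℕ) + c ≤ m2).image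
        (fun ν : Fin k => (ν : ℕ)) := by
    intro t ht
    rw [Finset.mem_range] at ht
    rw [Finset.mem_image]
    have htk : t < k := by omega
    refine ⟨⟨t, htk⟩, ?_, rfl⟩
    rw [Finset.mem_filter]
    refine ⟨Finset.mem_univ _, ?_⟩
    simp only
    omega
  have h2 := Finset.card_le_card h1
  rw [Finset.card_range] at h2
  exact h2.trans Finset.card_image_le

lemma numeric_nat (k c r q e e' D m1 m2 : ℕ) (hc : 0 < c) (hc2 : m2 ≤ 2 * c)
    (hq : k * m2 ≤ 2 * D * q) (hr : m1 ≤ 2 * r) (he' : 8 * D * e' ≤ k * m2 ^ 2)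
    (hidx : c * r * q ≤ c * e + r * e') : k * m1 * m2 ≤ 8 * D * e := by
  have h1 : 8 * D * (c * r * q) ≤ 8 * D * (c * e + r * e') := Nat.mul_le_mul_left _ hidx
  have h2 : 4 * (c * r) * (k * m2) ≤ 4 * (c * r) * (2 * D * q) := Nat.mul_le_mul_left _ hq
  have h3 : r * (8 * D * e') ≤ r * (k * m2 ^ 2) := Nat.mul_le_mul_left _ he'
  have h4 : r * k * m2 * m2 ≤ r * k * m2 * (2 * c) := Nat.mul_le_mul_left _ hc2
  have h5 : c * k * m2 * m1 ≤ c * k * m2 * (2 * r) := Nat.mul_le_mul_left _ hr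
  have h6 : c * (k * m1 * m2) ≤ c * (8 * D * e) := by nlinarith
  exact Nat.le_of_mul_le_mul_left h6 hc

end RothB

open RothB in
/-- BLOCK B (Roth's lemma in two variables, with very different degrees). -/
theorem blockB (M : ℤ[X][X]) (hM : M ≠ 0) (d1 d2 m1 m2 : ℕ) (B : ℝ) (hB0 : 0 ≤ B)
    (hd2 : M.natDegree ≤ d2) (hd1 : ∀ j, (M.coeff j).natDegree ≤ d1)
    (hB : ∀ i j, |(((M.coeff j).coeff i : ℤ) : ℝ)| ≤ Real.exp B) (x y : ℚ)
    (hy : 0 < ht y) (h1 : 2 * (d2 + 1) ≤ m1) (h2 : m2 ≤ 2 * (d2 + 1))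
    (h3 : 8 * (d2 + 1) * (B + Real.log ((d1 + 1) * (d2 + 1) ^ 2) + (d1 + d2) * Real.log 2)
      ≤ m2 ^ 2 * ht y)
    (h4 : 8 * (d2 + 1) * (B + Real.log ((d1 + 1) * (d2 + 1) ^ 2) + (d1 + d2) * Real.log 2)
      < m1 * m2 * ht x) :
    ∃ i < m1, ∃ j < m2, taylorCoeff M x y i j ≠ 0 := by
  by_contra hcon
  push Not at hcon
  set S : ℝ := B + Real.log ((d1 + 1) * (d2 + 1) ^ 2) + (d1 + d2) * Real.log 2 with hS
  have hS0 : 0 ≤ S := by
    have e1 : 0 ≤ Real.log ((d1 + 1) * (d2 + 1) ^ 2 : ℝ) := by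
      apply Real.log_nonneg
      have a1 : (1 : ℝ) ≤ d1 + 1 := by
        have := Nat.cast_nonneg (α := ℝ) d1
        linarith
      have a2 : (1 : ℝ) ≤ (d2 + 1) ^ 2 := by
        have := Nat.cast_nonneg (α := ℝ) d2
        nlinarith
      nlinarith
    have e2 : 0 ≤ ((d1 : ℝ) + d2) * Real.log 2 := by positivity
    rw [hS]; linarith
  -- the decomposition
  set Mq : ℚ[X][X] := M.map (mapRingHom (Int.castRingHom ℚ)) with hMq
  have hinj : Function.Injective (mapRingHom (Int.castRingHom ℚ)) := by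
    intro p q hpq
    exact map_injective (Int.castRingHom ℚ) Int.cast_injective hpq
  have hMq0 : Mq ≠ 0 := by
    rw [hMq, Ne, Polynomial.map_eq_zero_iff hinj]
    exact hM
  have hMqd2 : Mq.natDegree ≤ d2 := natDegree_map_le.trans hd2
  have hMqd1 : ∀ j, (Mq.coeff j).natDegree ≤ d1 := by
    intro j
    rw [hMq, coeff_map]
    exact natDegree_map_le.trans (hd1 j)
  obtain ⟨k, φ, ψ, hk0, hkd, hφli, hψli, hφd, hψd, hdec⟩ :=
    exists_decomp Mq d1 d2 hMq0 hMqd2 hMqd1
  set U := (hw φ).det with hU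
  set V := (hw ψ).det with hV
  have hU0 : U ≠ 0 := hw_det_ne_zero φ hφli
  have hV0 : V ≠ 0 := hw_det_ne_zero ψ hψli
  -- the integral determinant
  set m : ℕ → ℕ → ℤ := fun i s => (M.coeff s).coeff i with hm
  set E : Matrix (Fin k) (Fin k) ℤ[X][X] := Matrix.of fun μ ν => ent d1 d2 m μ ν with hE
  set W := E.det with hW
  have hWmap : W.map (mapRingHom (Int.castRingHom ℚ)) = C U * V.map C := by
    have e1 := RingHom.map_det (mapRingHom (mapRingHom (Int.castRingHom ℚ))) E
    rw [coe_mapRingHom] at e1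
    rw [hW, e1, hU, hV, ← det_factor]
    congr 1
    ext1 μ ν
    rw [RingHom.mapMatrix_apply, Matrix.map_apply, hE, Matrix.of_apply, Matrix.of_apply,
      coe_mapRingHom, ent_map, ← ent_factor d1 d2 φ ψ hφd hψd]
    congr 1
    funext i s
    have e2 := congrArg (fun P : ℚ[X][X] => (P.coeff s).coeff i) hdec
    simp only [finsetSum_coeff, coeff_tens] at e2
    rw [← e2, hMq, coeff_map, coe_mapRingHom, coeff_map]
  have hWc : ∀ i j, (((W.coeff j).coeff i : ℤ) : ℚ) = U.coeff i * V.coeff j := by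
    intro i j
    rw [← coeff_tens, ← hWmap, coeff_map, coe_mapRingHom, coeff_map]
    rfl
  have hWb : ∀ i j, |(((W.coeff j).coeff i : ℤ) : ℝ)| ≤ Real.exp (k * S) := by
    intro i j
    have e1 := det_coeff_le E
      (Matrix.of fun μ ν => ent d1 d2 (fun i s => |((m i s : ℤ) : ℝ)|) μ ν)
      (fun μ ν => ent_maj d1 d2 m μ ν) ((d1 + 1) * (d2 + 1) * Real.exp B * 2 ^ (d1 + d2))
      (fun μ ν => ev11_ent_le d1 d2 _ μ ν _ (fun _ _ => abs_nonneg _)
        (fun i s => hB i s)) j i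
    refine e1.trans ?_
    have e2 : Real.exp (k * S) =
        (Real.exp B * ((d1 + 1) * (d2 + 1) ^ 2) * 2 ^ (d1 + d2)) ^ k := by
      rw [Real.exp_nat_mul, hS, Real.exp_add, Real.exp_add, Real.exp_log (by positivity)]
      congr 2
      have : ((d1 : ℝ) + d2) * Real.log 2 = Real.log 2 * ((d1 + d2 : ℕ) : ℝ) := by
        push_cast; ring
      rw [this, Real.exp_mul, Real.exp_log (by norm_num), Real.rpow_natCast]
    rw [e2]
    have e3 : (k.factorial : ℝ) ≤ ((d2 : ℝ) + 1) ^ k := by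
      have a1 : (k.factorial : ℝ) ≤ (k : ℝ) ^ k := by exact_mod_cast Nat.factorial_le_pow k
      have a2 : (k : ℝ) ≤ (d2 : ℝ) + 1 := by exact_mod_cast hkd
      exact a1.trans (pow_le_pow_left₀ (Nat.cast_nonneg _) a2 _)
    calc (k.factorial : ℝ) * (((d1 : ℝ) + 1) * (d2 + 1) * Real.exp B * 2 ^ (d1 + d2)) ^ k
        ≤ ((d2 : ℝ) + 1) ^ k * (((d1 : ℝ) + 1) * (d2 + 1) * Real.exp B * 2 ^ (d1 + d2)) ^ k :=
          mul_le_mul_of_nonneg_right e3 (by positivity)
      _ = (Real.exp B * ((d1 + 1) * (d2 + 1) ^ 2) * 2 ^ (d1 + d2)) ^ k := by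
          rw [← mul_pow]; congr 1; ring
  -- order in X
  set e := (taylor x U).natTrailingDegree with he
  set e' := (taylor y V).natTrailingDegree with he'
  have hex : e * ht x ≤ k * S := by
    have hV1 : V.coeff V.natDegree ≠ 0 := leadingCoeff_ne_zero.2 hV0
    have e1 : (W.coeff V.natDegree).map (Int.castRingHom ℚ) = C (V.coeff V.natDegree) * U := by
      ext i
      rw [coeff_map, coeff_C_mul, mul_comm]
      exact hWc i _
    refine ord_mul_ht_le (W.coeff V.natDegree) ?_ _ (fun i => hWb i _) x e ?_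
    · intro h0
      rw [h0, Polynomial.map_zero] at e1
      exact mul_ne_zero (C_ne_zero.2 hV1) hU0 e1.symm
    · rw [e1]
      exact (X_sub_C_pow_dvd x U).mul_left _
  have hey : e' * ht y ≤ k * S := by
    have hU1 : U.coeff U.natDegree ≠ 0 := leadingCoeff_ne_zero.2 hU0
    set P2 : ℤ[X] := ∑ j ∈ Finset.range (W.natDegree + 1),
      monomial j ((W.coeff j).coeff U.natDegree) with hP2
    have hP2c : ∀ j, P2.coeff j = (W.coeff j).coeff U.natDegree := by
      intro j
      rw [hP2, finsetSum_coeff]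
      simp only [coeff_monomial]
      by_cases hj : j < W.natDegree + 1
      · rw [Finset.sum_eq_single j]
        · simp
        · intro j' _ hj'; rw [if_neg hj']
        · intro h; exact absurd (Finset.mem_range.2 hj) h
      · rw [coeff_eq_zero_of_natDegree_lt (p := W) (by omega), coeff_zero]
        apply Finset.sum_eq_zero
        intro j' hj'
        rw [if_neg]
        rintro rfl
        exact hj (Finset.mem_range.1 hj')
    have e1 : P2.map (Int.castRingHom ℚ) = C (U.coeff U.natDegree) * V := by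
      ext j
      rw [coeff_map, coeff_C_mul, hP2c]
      exact hWc _ j
    refine ord_mul_ht_le P2 ?_ _ (fun j => ?_) y e' ?_
    · intro h0
      rw [h0, Polynomial.map_zero] at e1
      exact mul_ne_zero (C_ne_zero.2 hU1) hV0 e1.symm
    · rw [hP2c]; exact hWb _ j
    · rw [e1]
      exact (X_sub_C_pow_dvd y V).mul_left _
  -- index inequality
  set c := (m2 + 1) / 2 with hc
  set r := m1 + 1 - k with hr
  set q := (Finset.univ.filter fun ν : Fin k => (ν : ℕ) + c ≤ m2).card with hq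
  have hidx : c * r * q ≤ c * e + r * e' := by
    have hv : ∀ i < m1, ∀ j < m2,
        ∑ l, (taylor x (φ l)).coeff i * (taylor y (ψ l)).coeff j = 0 := by
      intro i hi j hj
      rw [← taylorCoeff_eq M φ ψ hdec x y i j]
      exact hcon i hi j hj
    refine index_ineq (fun l => taylor x (φ l)) (fun l => taylor y (ψ l)) (by omega) hv e e' ?_ ?_
    · rw [hw_taylor, ← hU, he]
      have : taylor x U ≠ 0 := by rwa [Ne, taylor_eq_zero]
      exact trailingCoeff_nonzero_iff_nonzero.2 this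
    · rw [hw_taylor, ← hV, he']
      have : taylor y V ≠ 0 := by rwa [Ne, taylor_eq_zero]
      exact trailingCoeff_nonzero_iff_nonzero.2 this
  -- numerics
  have hm2 : 0 < m2 := by
    rcases Nat.eq_zero_or_pos m2 with h0 | h0
    · exfalso
      rw [h0] at h4
      simp only [Nat.cast_zero, mul_zero, zero_mul] at h4
      have : 0 ≤ 8 * ((d2 : ℝ) + 1) * S := by positivity
      linarith
    · exact h0
  have hk' : (0 : ℝ) < k := by exact_mod_cast hk0
  have he'2 : 8 * (d2 + 1) * e' ≤ k * m2 ^ 2 := by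
    have e1 : ((8 * (d2 + 1) * e' : ℕ) : ℝ) * ht y ≤ ((k * m2 ^ 2 : ℕ) : ℝ) * ht y := by
      push_cast
      have a1 : 8 * ((d2 : ℝ) + 1) * (e' * ht y) ≤ 8 * ((d2 : ℝ) + 1) * (k * S) :=
        mul_le_mul_of_nonneg_left hey (by positivity)
      have a2 : (k : ℝ) * (8 * ((d2 : ℝ) + 1) * S) ≤ k * (m2 ^ 2 * ht y) :=
        mul_le_mul_of_nonneg_left h3 hk'.le
      nlinarith
    have e2 := le_of_mul_le_mul_right e1 hy
    exact_mod_cast e2
  have hqk : k * m2 ≤ 2 * (d2 + 1) * q := by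
    have e1 := card_good k c m2
    rw [← hq] at e1
    rcases le_total k (m2 + 1 - c) with h5 | h5
    · rw [min_eq_left h5] at e1
      calc k * m2 ≤ q * (2 * (d2 + 1)) := Nat.mul_le_mul e1 h2
        _ = 2 * (d2 + 1) * q := by ring
    · rw [min_eq_right h5] at e1
      have e2 : m2 ≤ 2 * q := by omega
      calc k * m2 ≤ (d2 + 1) * (2 * q) := Nat.mul_le_mul hkd e2
        _ = 2 * (d2 + 1) * q := by ring
  have hfin := numeric_nat k c r q e e' (d2 + 1) m1 m2 (by omega) (by omega) hqk (by omega)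
    he'2 hidx
  have hfin' : (k : ℝ) * m1 * m2 ≤ 8 * (d2 + 1) * e := by exact_mod_cast hfin
  have hx0 : 0 ≤ ht x := by
    unfold ht
    apply Real.log_nonneg
    have : 1 ≤ max x.num.natAbs x.den := x.den_pos.trans_le (le_max_right _ _)
    exact_mod_cast this
  have e5 : (k : ℝ) * (m1 * m2 * ht x) ≤ k * (8 * (d2 + 1) * S) := by
    have a1 : ((k : ℝ) * m1 * m2) * ht x ≤ (8 * (d2 + 1) * e) * ht x :=
      mul_le_mul_of_nonneg_right hfin' hx0
    have a2 : 8 * ((d2 : ℝ) + 1) * (e * ht x) ≤ 8 * (d2 + 1) * (k * S) :=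
      mul_le_mul_of_nonneg_left hex (by positivity)
    nlinarith
  have e6 := le_of_mul_le_mul_left e5 hk'
  linarith

end Pool.Agent.Work.MP_36d6be_co_V
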