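import Pool.Agent.Work.MP_36d6be_co_V.LocalG
import Pool.Agent.Work.MP_36d6be_co_V.BlockA

/-!
Block G1: choice of a good pair of points (compactness of spheres).
-/

set_option autoImplicit false

namespace Pool.Agent.Work.MP_36d6be_co_V

open Filter Topology

namespace G1

/-! ### Directions converge along a subsequence -/

theorem subseq_inner {ι : Type*} [Fintype ι] (E : ι → Type*) [∀ t, NormedAddCommGroup (E t)]
    [∀ t, InnerProductSpace ℝ (E t)] [∀ t, FiniteDimensional ℝ (E t)] (ψ : ∀ t, ℕ → E t)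
    (s : ℝ) (hs : s < 1) :
    ∃ σ : ℕ → ℕ, StrictMono σ ∧ ∃ A, ∀ a b, A ≤ a → A ≤ b → ∀ t,
      s * (‖ψ t (σ a)‖ * ‖ψ t (σ b)‖) ≤ inner ℝ (ψ t (σ a)) (ψ t (σ b)) := by
  classical
  have hprop : ∀ t, ProperSpace (E t) := fun t => FiniteDimensional.proper ℝ (E t)
  set u : ℕ → (∀ t, E t) := fun n t => (‖ψ t n‖)⁻¹ • ψ t n with hu
  have hun : ∀ n t, ‖u n t‖ ≤ 1 := by
    intro n t
    rw [hu]
    simp only [norm_smul, norm_inv, norm_norm]
    rcases eq_or_ne (‖ψ t n‖) 0 with h | h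
    · rw [h]; simp
    · rw [inv_mul_cancel₀ h]
  have hK : IsCompact (Set.pi Set.univ fun t : ι => Metric.closedBall (0 : E t) 1) :=
    isCompact_univ_pi fun t => isCompact_closedBall _ _
  obtain ⟨L, _, σ, hσ, hL⟩ := hK.tendsto_subseq (x := u) (fun n => by
    rw [Set.mem_univ_pi]
    intro t
    rw [mem_closedBall_zero_iff]
    exact hun n t)
  refine ⟨σ, hσ, ?_⟩
  obtain ⟨η, hη0, hη⟩ : ∃ η > 0, 2 * η ^ 2 ≤ 1 - s := by
    refine ⟨min 1 ((1 - s) / 2), lt_min one_pos (by linarith), ?_⟩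
    have h1 : min 1 ((1 - s) / 2) ≤ 1 := min_le_left _ _
    have h2 : min 1 ((1 - s) / 2) ≤ (1 - s) / 2 := min_le_right _ _
    have h3 : 0 < min 1 ((1 - s) / 2) := lt_min one_pos (by linarith)
    nlinarith
  have hev := Metric.tendsto_atTop.mp hL η hη0
  obtain ⟨A, hA⟩ := hev
  refine ⟨A, fun a b ha hb t => ?_⟩
  have h1 : ‖u (σ a) t - u (σ b) t‖ ≤ 2 * η := by
    have e1 := hA a ha
    have e2 := hA b hb
    have e3 := (dist_le_pi_dist (u (σ a)) L t).trans e1.le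
    have e4 := (dist_le_pi_dist (u (σ b)) L t).trans e2.le
    rw [← dist_eq_norm]
    have := dist_triangle_right (u (σ a) t) (u (σ b) t) (L t)
    linarith
  rcases eq_or_ne (ψ t (σ a)) 0 with h0 | h0
  · rw [h0]; simp
  rcases eq_or_ne (ψ t (σ b)) 0 with h0' | h0'
  · rw [h0']; simp
  have na : 0 < ‖ψ t (σ a)‖ := norm_pos_iff.mpr h0
  have nb : 0 < ‖ψ t (σ b)‖ := norm_pos_iff.mpr h0'
  have ea : ψ t (σ a) = ‖ψ t (σ a)‖ • u (σ a) t := by
    rw [hu]; simp only []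
    rw [smul_smul, mul_inv_cancel₀ na.ne', one_smul]
  have eb : ψ t (σ b) = ‖ψ t (σ b)‖ • u (σ b) t := by
    rw [hu]; simp only []
    rw [smul_smul, mul_inv_cancel₀ nb.ne', one_smul]
  have ua : ‖u (σ a) t‖ = 1 := by
    rw [hu]; simp only [norm_smul, norm_inv, norm_norm]
    exact inv_mul_cancel₀ na.ne'
  have ub : ‖u (σ b) t‖ = 1 := by
    rw [hu]; simp only [norm_smul, norm_inv, norm_norm]
    exact inv_mul_cancel₀ nb.ne'
  have h2 : s ≤ inner ℝ (u (σ a) t) (u (σ b) t) := by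
    have h3 := norm_sub_sq_real (u (σ a) t) (u (σ b) t)
    rw [ua, ub] at h3
    have h4 : ‖u (σ a) t - u (σ b) t‖ ^ 2 ≤ (2 * η) ^ 2 := pow_le_pow_left₀ (norm_nonneg _) h1 2
    nlinarith
  have h5 : inner ℝ (ψ t (σ a)) (ψ t (σ b)) =
      ‖ψ t (σ a)‖ * ‖ψ t (σ b)‖ * inner ℝ (u (σ a) t) (u (σ b) t) := by
    conv_lhs => rw [ea, eb]
    rw [real_inner_smul_left, real_inner_smul_right]
    ring
  rw [h5, mul_comm s]
  exact mul_le_mul_of_nonneg_left h2 (by positivity)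

/-- Lower bound for the norm of the sum. -/
theorem norm_add_lower {E : Type*} [NormedAddCommGroup E] [InnerProductSpace ℝ E] (v w : E)
    (a b C s δ : ℝ) (ha : 0 ≤ a) (hb : 0 ≤ b) (hs0 : 0 ≤ s) (hsδ : 1 - δ ≤ s ^ 3)
    (hCa : C ≤ (1 - s ^ 2) * a) (hCb : C ≤ (1 - s ^ 2) * b)
    (hv : a - C ≤ ‖v‖ ^ 2) (hw : b - C ≤ ‖w‖ ^ 2)
    (hin : s * (‖v‖ * ‖w‖) ≤ inner ℝ v w) :
    b + 2 * (1 - δ) * Real.sqrt (a * b) - 2 * C ≤ ‖v + w‖ ^ 2 := by
  have h1 := norm_add_sq_real v w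
  have hsa : s * Real.sqrt a ≤ ‖v‖ := by
    apply abs_le_of_sq_le_sq' _ (norm_nonneg _) |>.2
    rw [mul_pow, Real.sq_sqrt ha]
    linarith
  have hsb : s * Real.sqrt b ≤ ‖w‖ := by
    apply abs_le_of_sq_le_sq' _ (norm_nonneg _) |>.2
    rw [mul_pow, Real.sq_sqrt hb]
    linarith
  have h2 : (s * Real.sqrt a) * (s * Real.sqrt b) ≤ ‖v‖ * ‖w‖ :=
    mul_le_mul hsa hsb (by positivity) (norm_nonneg _)
  have h3 : s * ((s * Real.sqrt a) * (s * Real.sqrt b)) ≤ s * (‖v‖ * ‖w‖) :=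
    mul_le_mul_of_nonneg_left h2 hs0
  have h4 : Real.sqrt (a * b) = Real.sqrt a * Real.sqrt b := Real.sqrt_mul ha b
  have h5 : s * ((s * Real.sqrt a) * (s * Real.sqrt b)) = s ^ 3 * (Real.sqrt a * Real.sqrt b) := by
    ring
  have h6 : (1 - δ) * (Real.sqrt a * Real.sqrt b) ≤ s ^ 3 * (Real.sqrt a * Real.sqrt b) :=
    mul_le_mul_of_nonneg_right hsδ (by positivity)
  rw [h4, h1]
  nlinarith

/-! ### Heights -/

theorem ht_le_of_eq (q : ℚ) (a d B : ℤ) (hd : d ≠ 0) (h : q = a / d) (ha : |a| ≤ B)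
    (hd' : |d| ≤ B) : ht q ≤ Real.log B := by
  have hB : 0 < B := lt_of_lt_of_le (abs_pos.mpr hd) hd'
  unfold ht
  have h1 : (q.den : ℤ) ∣ d := by
    rw [h, ← Rat.divInt_eq_div]; exact Rat.den_dvd a d
  have h2 : q.num ∣ a := by
    rw [h, ← Rat.divInt_eq_div]; exact Rat.num_dvd a hd
  have h3 : (q.den : ℤ) ≤ B := by
    have := Int.le_of_dvd (abs_pos.mpr hd) ((dvd_abs _ _).mpr h1)
    linarith
  have h4 : |q.num| ≤ B := by
    rcases eq_or_ne a 0 with h0 | h0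
    · rw [h0] at h
      simp only [Int.cast_zero, zero_div] at h
      rw [h]
      simpa using hB.le
    · have := Int.le_of_dvd (abs_pos.mpr h0) ((abs_dvd_abs _ _).mpr h2)
      linarith
  apply Real.log_le_log
  · have : 0 < max q.num.natAbs q.den := lt_max_of_lt_right q.den_pos
    exact_mod_cast this
  · have h5 : ((max q.num.natAbs q.den : ℕ) : ℤ) ≤ B := by
      rw [Nat.cast_max, Int.natCast_natAbs]
      exact max_le h4 h3
    rw [← Int.cast_natCast]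
    exact Int.cast_le.mpr h5

variable {γ b : Fin 4 → ℤ}

theorem ht_xE (P : IPt γ b) (i j k : Fin 4) (hG : 0 < Ga γ i j k) :
    |ht (xE P i j k) - hh P| ≤ Real.log (Ga γ i j k) := by
  have hD := P.hD
  have hH : 0 < HH P := lt_of_lt_of_le one_pos (HH_ge_one P)
  have hAH : |P.A| ≤ HH P := le_max_left _ _
  have hDH : |P.D| ≤ HH P := by rw [abs_of_pos hD]; exact le_max_right _ _
  have hG1 : 1 ≤ Ga γ i j k := hG
  have hDq : (P.D : ℚ) ≠ 0 := by exact_mod_cast hD.ne'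
  have hGq : (Ga γ i j k : ℚ) ≠ 0 := by exact_mod_cast hG.ne'
  have hGr : (0 : ℝ) < Ga γ i j k := by exact_mod_cast hG
  have hHr : (0 : ℝ) < HH P := by exact_mod_cast hH
  rw [abs_le]
  constructor
  · -- hh P ≤ ht xE + log Ga
    set q := xE P i j k with hq
    have hqn : q = q.num / ((q.den : ℤ) : ℚ) := by
      push_cast
      exact (Rat.num_div_den q).symm
    have h1 : ((P.A : ℚ) / P.D) = (q.num : ℤ) / ((Ga γ i j k * q.den : ℤ) : ℚ) := by
      have e1 : ((P.A : ℚ) / P.D) = q / Ga γ i j k := by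
        rw [hq]; unfold xE; field_simp
      rw [e1]
      conv_lhs => rw [hqn]
      push_cast
      rw [div_div]
      congr 1
      ring
    have hmax : (0 : ℤ) < max (q.num.natAbs : ℤ) q.den := lt_max_of_lt_right (by
      exact_mod_cast q.den_pos)
    have h2 := ht_le_of_eq ((P.A : ℚ) / P.D) q.num (Ga γ i j k * q.den)
      (Ga γ i j k * max (q.num.natAbs : ℤ) q.den)
      (mul_ne_zero hG.ne' (by exact_mod_cast q.den_pos.ne')) h1 (by
        rw [← Int.natCast_natAbs]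
        calc (q.num.natAbs : ℤ) ≤ max (q.num.natAbs : ℤ) q.den := le_max_left _ _
          _ ≤ _ := by nlinarith) (by
        rw [abs_mul, abs_of_pos hG]
        apply mul_le_mul_of_nonneg_left _ hG.le
        rw [abs_of_pos (by exact_mod_cast q.den_pos)]
        exact le_max_right _ _)
    rw [← hh_eq] at h2
    push_cast at h2
    rw [Real.log_mul hGr.ne' (by
      have : (0 : ℝ) < q.den := by exact_mod_cast q.den_pos
      exact (lt_max_of_lt_right this).ne')] at h2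
    have h3 : ht q = Real.log (max |(q.num : ℝ)| (q.den : ℝ)) := by
      unfold ht
      rw [Nat.cast_max, Nat.cast_natAbs]
      push_cast
      rfl
    rw [h3]
    linarith
  · -- ht xE ≤ hh P + log Ga
    have h1 : xE P i j k = ((Ga γ i j k * P.A : ℤ) : ℚ) / ((P.D : ℤ) : ℚ) := by
      unfold xE; push_cast; ring
    have h2 := ht_le_of_eq (xE P i j k) (Ga γ i j k * P.A) P.D (Ga γ i j k * HH P) hD.ne' h1 (by
        rw [abs_mul, abs_of_pos hG]
        exact mul_le_mul_of_nonneg_left hAH hG.le) (by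
        calc |P.D| ≤ HH P := hDH
          _ ≤ _ := by nlinarith)
    push_cast at h2
    rw [Real.log_mul hGr.ne' hHr.ne'] at h2
    unfold hh
    linarith

theorem hh_tendsto (P : ℕ → IPt γ b)
    (hP : Tendsto (fun n => ((P n).A : ℝ) / (P n).D) atTop atTop) :
    Tendsto (fun n => hh (P n)) atTop atTop := by
  have h1 : Tendsto (fun n => Real.log (((P n).A : ℝ) / (P n).D)) atTop atTop :=
    Real.tendsto_log_atTop.comp hP
  refine tendsto_atTop_mono' _ ?_ h1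
  filter_upwards [hP.eventually_gt_atTop 0] with n hn
  unfold hh
  apply Real.log_le_log hn
  have hD : (1 : ℝ) ≤ (P n).D := by exact_mod_cast (P n).hD
  rw [div_le_iff₀ (by linarith)]
  have h2 : ((P n).A : ℝ) ≤ HH (P n) := by
    exact_mod_cast (le_abs_self _).trans (le_max_left _ _)
  have h3 : (1 : ℝ) ≤ HH (P n) := by exact_mod_cast HH_ge_one (P n)
  nlinarith

/-- The four triples. -/
def tr (t : Fin 4) : Fin 4 × Fin 4 × Fin 4 :=
  if t = 0 then (0, 1, 2) else if t = 1 then (0, 1, 3) else if t = 2 then (0, 2, 3) else (1, 2, 3)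

theorem tr_ne (t : Fin 4) : (tr t).1 ≠ (tr t).2.1 ∧ (tr t).1 ≠ (tr t).2.2 ∧
    (tr t).2.1 ≠ (tr t).2.2 := by
  revert t; decide

end G1

open G1 in
/-- BLOCK G1 (choice of a good pair of points; uses `blockA` and compactness of spheres). -/
theorem blockG1 (γ b : Fin 4 → ℤ) (hγ : ∀ i, 0 < γ i) (hb : Function.Injective b)
    (P : ℕ → IPt γ b) (hP : Tendsto (fun n => ((P n).A : ℝ) / (P n).D) atTop atTop)
    (ε : ℝ) (hε : 0 < ε) : ∃ C : ℝ, ∀ H0 Λ : ℝ, ∃ m n, m < n ∧ H0 ≤ hh (P m) ∧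
      Λ * hh (P m) ≤ hh (P n) ∧ Rel (P m) (P n) ∧
      4 * hh (P n) + 8 * (1 - ε) * Real.sqrt (hh (P m) * hh (P n)) - C ≤
        ht (SE (P m) (P n) 0 1 2) + ht (SE (P m) (P n) 0 1 3) + ht (SE (P m) (P n) 0 2 3) +
        ht (SE (P m) (P n) 1 2 3) := by
  classical
  have hGa : ∀ i j k, 0 < Ga γ i j k := fun i j k => mul_pos (mul_pos (hγ i) (hγ j)) (hγ k)
  -- the four elliptic curves
  have hA : ∀ t : Fin 4, ∃ (C : ℝ) (r : ℕ) (φ : ℚ → ℚ → EuclideanSpace ℝ (Fin r)),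
      (∀ Q : IPt γ b, |‖φ (xE Q (tr t).1 (tr t).2.1 (tr t).2.2)
        (yE Q (tr t).1 (tr t).2.1 (tr t).2.2)‖ ^ 2 - hh Q| ≤ C) ∧
      (∀ Q Q' : IPt γ b, N0 Q Q' ≠ 0 →
        |‖φ (xE Q (tr t).1 (tr t).2.1 (tr t).2.2) (yE Q (tr t).1 (tr t).2.1 (tr t).2.2) +
          φ (xE Q' (tr t).1 (tr t).2.1 (tr t).2.2) (yE Q' (tr t).1 (tr t).2.1 (tr t).2.2)‖ ^ 2 -
          ht (SE Q Q' (tr t).1 (tr t).2.1 (tr t).2.2)| ≤ C) := by
    intro t
    obtain ⟨h1, h2, h3⟩ := tr_ne t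
    generalize (tr t).1 = i at *
    generalize (tr t).2.1 = j at *
    generalize (tr t).2.2 = k at *
    have hG := hGa i j k
    have hne : ∀ p q : Fin 4, p ≠ q → Ga γ i j k * b p ≠ Ga γ i j k * b q := fun p q hpq h =>
      hpq (hb (mul_left_cancel₀ hG.ne' h))
    obtain ⟨C, r, φ, hφ1, hφ2⟩ := blockA (Ga γ i j k * b i) (Ga γ i j k * b j) (Ga γ i j k * b k)
      (hne i j h1) (hne i k h2) (hne j k h3)
    have hlog : 0 ≤ Real.log (Ga γ i j k) := Real.log_nonneg (by exact_mod_cast hG)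
    refine ⟨C + Real.log (Ga γ i j k), r, φ, fun Q => ?_, fun Q Q' hN => ?_⟩
    · have e1 := hφ1 (xE Q i j k) (yE Q i j k) (curve_eq Q i j k)
      have e2 := ht_xE Q i j k hG
      have e3 := abs_sub_le (‖φ (xE Q i j k) (yE Q i j k)‖ ^ 2) (ht (xE Q i j k)) (hh Q)
      linarith
    · have hx : xE Q i j k ≠ xE Q' i j k := by
        intro h
        have e1 := xE_sub Q Q' i j k
        rw [h, sub_self] at e1
        have hD : (Q.D : ℚ) ≠ 0 := by exact_mod_cast Q.D_ne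
        have hD' : (Q'.D : ℚ) ≠ 0 := by exact_mod_cast Q'.D_ne
        have hN' : (N0 Q Q' : ℚ) ≠ 0 := by exact_mod_cast hN
        have hG' : (Ga γ i j k : ℚ) ≠ 0 := by exact_mod_cast hG.ne'
        exact (div_ne_zero (mul_ne_zero hG' hN') (mul_ne_zero hD hD')) e1.symm
      have e1 := hφ2 (xE Q i j k) (yE Q i j k) (xE Q' i j k) (yE Q' i j k) (curve_eq Q i j k)
        (curve_eq Q' i j k) hx
      have e2 : ((yE Q' i j k - yE Q i j k) / (xE Q' i j k - xE Q i j k)) ^ 2 +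
          ((Ga γ i j k * b i : ℤ) : ℚ) + ((Ga γ i j k * b j : ℤ) : ℚ) +
          ((Ga γ i j k * b k : ℤ) : ℚ) - xE Q i j k - xE Q' i j k = SE Q Q' i j k := rfl
      rw [e2] at e1
      linarith
  choose C r φ hφ1 hφ2 using hA
  -- parameters
  set δ : ℝ := min ε 1 with hδ
  have hδ0 : 0 < δ := lt_min hε one_pos
  have hδ1 : δ ≤ 1 := min_le_right _ _
  have hδε : δ ≤ ε := min_le_left _ _
  set s : ℝ := 1 - δ / 3 with hs
  have hs0 : 0 ≤ s := by rw [hs]; linarith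
  have hs1 : s < 1 := by rw [hs]; linarith
  have hsδ : 1 - δ ≤ s ^ 3 := by rw [hs]; nlinarith [mul_pos hδ0 hδ0, mul_pos (mul_pos hδ0 hδ0) hδ0]
  have hs2 : 0 < 1 - s ^ 2 := by nlinarith
  set ψ : ∀ t : Fin 4, ℕ → EuclideanSpace ℝ (Fin (r t)) := fun t n =>
    φ t (xE (P n) (tr t).1 (tr t).2.1 (tr t).2.2) (yE (P n) (tr t).1 (tr t).2.1 (tr t).2.2) with hψ
  obtain ⟨σ, hσ, A, hAin⟩ := subseq_inner (fun t => EuclideanSpace ℝ (Fin (r t))) ψ s hs1
  have hC0 : ∀ t, 0 ≤ C t := fun t => (abs_nonneg _).trans (hφ1 t (P 0))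
  set CC : ℝ := ∑ t, C t with hCC
  have hCt : ∀ t, C t ≤ CC := fun t => Finset.single_le_sum (f := C) (fun t _ => hC0 t)
    (Finset.mem_univ t)
  have hh_top : Tendsto (fun n => hh (P (σ n))) atTop atTop :=
    (hh_tendsto P hP).comp hσ.tendsto_atTop
  have hX_top : Tendsto (fun n => ((P (σ n)).A : ℝ) / (P (σ n)).D) atTop atTop :=
    hP.comp hσ.tendsto_atTop
  refine ⟨12 * CC, fun H0 Λ => ?_⟩
  -- choice of the first point
  obtain ⟨p, hpA, hp1, hp2, hp3, hp4⟩ := ((eventually_ge_atTop A).and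
    ((hh_top.eventually_ge_atTop H0).and ((hh_top.eventually_ge_atTop (CC / (1 - s ^ 2))).and
      ((hX_top.eventually_ge_atTop 1).and (hh_top.eventually_ge_atTop 0))))).exists
  obtain ⟨q, hqp, hq1, hq2, hq3, hq4⟩ := ((eventually_gt_atTop p).and
    ((hh_top.eventually_ge_atTop (Λ * hh (P (σ p)))).and
      ((hh_top.eventually_ge_atTop (CC / (1 - s ^ 2))).and
      ((hX_top.eventually_ge_atTop (2 * (((P (σ p)).A : ℝ) / (P (σ p)).D))).and
      (hh_top.eventually_ge_atTop 0))))).exists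
  have hDp : (0 : ℝ) < (P (σ p)).D := by exact_mod_cast (P (σ p)).hD
  have hDq : (0 : ℝ) < (P (σ q)).D := by exact_mod_cast (P (σ q)).hD
  have hrel : Rel (P (σ p)) (P (σ q)) := by
    refine ⟨hγ, ?_, ?_⟩
    · rw [le_div_iff₀ hDp, one_mul] at hp3
      exact_mod_cast hp3
    · rw [← mul_div_assoc, div_le_div_iff₀ hDp hDq] at hq3
      have : (2 * ((P (σ p)).A * (P (σ q)).D) : ℝ) ≤ (P (σ q)).A * (P (σ p)).D := by linarith
      exact_mod_cast this
  refine ⟨σ p, σ q, hσ hqp, hp1, hq1, hrel, ?_⟩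
  have key : ∀ t, hh (P (σ q)) + 2 * (1 - ε) * Real.sqrt (hh (P (σ p)) * hh (P (σ q))) - 3 * CC ≤
      ht (SE (P (σ p)) (P (σ q)) (tr t).1 (tr t).2.1 (tr t).2.2) := by
    intro t
    have k1 := hφ1 t (P (σ p))
    have k2 := hφ1 t (P (σ q))
    have k3 := hφ2 t (P (σ p)) (P (σ q)) hrel.N0_ne
    have k4 := hAin p q hpA (hpA.trans hqp.le) t
    have k5 : CC ≤ (1 - s ^ 2) * hh (P (σ p)) := by
      rw [div_le_iff₀ hs2] at hp2
      linarith
    have k6 : CC ≤ (1 - s ^ 2) * hh (P (σ q)) := by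
      rw [div_le_iff₀ hs2] at hq2
      linarith
    have k7 := norm_add_lower (ψ t (σ p)) (ψ t (σ q)) (hh (P (σ p))) (hh (P (σ q))) CC s δ
      hp4 hq4 hs0 hsδ k5 k6 (by linarith [(abs_le.mp k1).1, hCt t])
      (by linarith [(abs_le.mp k2).1, hCt t]) k4
    have k8 := (abs_le.mp k3).2
    have k9 : (1 - ε) * Real.sqrt (hh (P (σ p)) * hh (P (σ q))) ≤
        (1 - δ) * Real.sqrt (hh (P (σ p)) * hh (P (σ q))) :=
      mul_le_mul_of_nonneg_right (by linarith) (Real.sqrt_nonneg _)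
    have k10 := hCt t
    have k11 : ‖ψ t (σ p) + ψ t (σ q)‖ ^ 2 -
      ht (SE (P (σ p)) (P (σ q)) (tr t).1 (tr t).2.1 (tr t).2.2) ≤ C t := k8
    linarith
  have e0 := key 0
  have e1 := key 1
  have e2 := key 2
  have e3 := key 3
  have t0 : tr 0 = (0, 1, 2) := rfl
  have t1 : tr 1 = (0, 1, 3) := rfl
  have t2 : tr 2 = (0, 2, 3) := rfl
  have t3 : tr 3 = (1, 2, 3) := rfl
  rw [t0] at e0
  rw [t1] at e1
  rw [t2] at e2
  rw [t3] at e3
  dsimp only at e0 e1 e2 e3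
  linarith

end Pool.Agent.Work.MP_36d6be_co_V
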