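import Mathlib

/-!
Block E, part 2: linear independence of products of square roots.
-/

set_option autoImplicit false

namespace Pool.Agent.Work.MP_36d6be_co_V.BlockE

section

variable {Ω : Type*} [Field Ω]

/-- The elements `p + q w` with `p, q ∈ E`, as a subfield, if `w² ∈ E`. -/
def qext (E : Subfield Ω) (w : Ω) (hw : w ^ 2 ∈ E) : Subfield Ω where
  carrier := {z | ∃ p ∈ E, ∃ q ∈ E, z = p + q * w}
  mul_mem' := by
    rintro a b ⟨p, hp, q, hq, rfl⟩ ⟨p', hp', q', hq', rfl⟩
    refine ⟨p * p' + q * q' * w ^ 2, E.add_mem (E.mul_mem hp hp') (E.mul_mem (E.mul_mem hq hq') hw),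
      p * q' + q * p', E.add_mem (E.mul_mem hp hq') (E.mul_mem hq hp'), by ring⟩
  one_mem' := ⟨1, E.one_mem, 0, E.zero_mem, by ring⟩
  add_mem' := by
    rintro a b ⟨p, hp, q, hq, rfl⟩ ⟨p', hp', q', hq', rfl⟩
    exact ⟨p + p', E.add_mem hp hp', q + q', E.add_mem hq hq', by ring⟩
  zero_mem' := ⟨0, E.zero_mem, 0, E.zero_mem, by ring⟩
  neg_mem' := by
    rintro a ⟨p, hp, q, hq, rfl⟩
    exact ⟨-p, E.neg_mem hp, -q, E.neg_mem hq, by ring⟩
  inv_mem' := by
    rintro a ⟨p, hp, q, hq, rfl⟩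
    by_cases h0 : p + q * w = 0
    · rw [h0, inv_zero]
      exact ⟨0, E.zero_mem, 0, E.zero_mem, by ring⟩
    by_cases h1 : p - q * w = 0
    · -- then `w ∈ E` or `q = 0 = p`
      by_cases hq0 : q = 0
      · subst hq0
        exact ⟨p⁻¹, E.inv_mem hp, 0, E.zero_mem, by simp⟩
      · have hwE : w ∈ E := by
          have : w = p * q⁻¹ := by
            field_simp
            linear_combination -h1
          rw [this]
          exact E.mul_mem hp (E.inv_mem hq)
        exact ⟨(p + q * w)⁻¹, E.inv_mem (E.add_mem hp (E.mul_mem hq hwE)), 0, E.zero_mem, by simp⟩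
    · have hN : p ^ 2 - q ^ 2 * w ^ 2 ∈ E :=
        E.sub_mem (E.pow_mem hp 2) (E.mul_mem (E.pow_mem hq 2) hw)
      have hN0 : p ^ 2 - q ^ 2 * w ^ 2 ≠ 0 := by
        have : p ^ 2 - q ^ 2 * w ^ 2 = (p + q * w) * (p - q * w) := by ring
        rw [this]
        exact mul_ne_zero h0 h1
      refine ⟨p * (p ^ 2 - q ^ 2 * w ^ 2)⁻¹, E.mul_mem hp (E.inv_mem hN),
        -q * (p ^ 2 - q ^ 2 * w ^ 2)⁻¹, E.mul_mem (E.neg_mem hq) (E.inv_mem hN), ?_⟩
      field_simp
      ring

theorem mem_qext (E : Subfield Ω) (w : Ω) (hw : w ^ 2 ∈ E) (z : Ω) :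
    z ∈ qext E w hw ↔ ∃ p ∈ E, ∃ q ∈ E, z = p + q * w := Iff.rfl

theorem le_qext (E : Subfield Ω) (w : Ω) (hw : w ^ 2 ∈ E) : E ≤ qext E w hw := by
  intro z hz
  exact ⟨z, hz, 0, E.zero_mem, by ring⟩

theorem w_mem_qext (E : Subfield Ω) (w : Ω) (hw : w ^ 2 ∈ E) : w ∈ qext E w hw :=
  ⟨0, E.zero_mem, 1, E.one_mem, by ring⟩

theorem sq_descend [CharZero Ω] (E : Subfield Ω) (w : Ω) (hw : w ^ 2 ∈ E) (z : Ω)
    (hz : z ∈ qext E w hw) (hz2 : z ^ 2 ∈ E) : z ∈ E ∨ z * w ∈ E := by
  obtain ⟨p, hp, q, hq, rfl⟩ := hz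
  by_cases hwE : w ∈ E
  · left
    exact E.add_mem hp (E.mul_mem hq hwE)
  have h1 : 2 * (p * q) * w ∈ E := by
    have : 2 * (p * q) * w = (p + q * w) ^ 2 - (p ^ 2 + q ^ 2 * w ^ 2) := by ring
    rw [this]
    exact E.sub_mem hz2 (E.add_mem (E.pow_mem hp 2) (E.mul_mem (E.pow_mem hq 2) hw))
  have h2 : p * q = 0 := by
    by_contra h
    apply hwE
    have h3 : (2 * (p * q)) ≠ 0 := mul_ne_zero two_ne_zero h
    have h4 : w = (2 * (p * q))⁻¹ * (2 * (p * q) * w) := by
      rw [← mul_assoc, inv_mul_cancel₀ h3, one_mul]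
    rw [h4]
    refine E.mul_mem (E.inv_mem (E.mul_mem ?_ (E.mul_mem hp hq))) h1
    exact ofNat_mem E 2
  rcases mul_eq_zero.mp h2 with h | h
  · right
    rw [h, zero_add]
    have : q * w * w = q * w ^ 2 := by ring
    rw [this]
    exact E.mul_mem hq hw
  · left
    rw [h, zero_mul, add_zero]
    exact hp

/-- Over a subfield `E` with `w i ^ 2 ∈ E`: there is a subfield `F ⊇ E` containing `w i` for `i ∈ J`
such that every `z ∈ F` with `z² ∈ E` satisfies `z * w_I ∈ E` for some `I ⊆ J`. -/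
theorem exists_tower [CharZero Ω] {ι : Type*} [DecidableEq ι] (E : Subfield Ω) (w : ι → Ω)
    (hw : ∀ i, w i ^ 2 ∈ E) (J : Finset ι) :
    ∃ F : Subfield Ω, E ≤ F ∧ (∀ i ∈ J, w i ∈ F) ∧
      ∀ z ∈ F, z ^ 2 ∈ E → ∃ I ⊆ J, z * ∏ i ∈ I, w i ∈ E := by
  induction J using Finset.induction_on with
  | empty =>
    exact ⟨E, le_refl _, by simp, fun z hz _ => ⟨∅, by simp, by simpa using hz⟩⟩
  | insert j J hj ih =>
    obtain ⟨F, hEF, hwF, hF⟩ := ih
    have hwj : w j ^ 2 ∈ F := hEF (hw j)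
    refine ⟨qext F (w j) hwj, hEF.trans (le_qext _ _ _), ?_, ?_⟩
    · intro i hi
      rcases Finset.mem_insert.mp hi with rfl | hi
      · exact w_mem_qext _ _ _
      · exact le_qext _ _ _ (hwF i hi)
    · intro z hz hz2
      rcases sq_descend F (w j) hwj z hz (hEF hz2) with h | h
      · obtain ⟨I, hI, hI2⟩ := hF z h hz2
        exact ⟨I, hI.trans (Finset.subset_insert _ _), hI2⟩
      · have h2 : (z * w j) ^ 2 ∈ E := by
          rw [mul_pow]
          exact E.mul_mem hz2 (hw j)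
        obtain ⟨I, hI, hI2⟩ := hF _ h h2
        refine ⟨insert j I, Finset.insert_subset_insert _ hI, ?_⟩
        rw [Finset.prod_insert (fun hjI => hj (hI hjI))]
        rw [← mul_assoc]
        exact hI2

/-- Linear independence of the products of square roots. -/
theorem kummer_indep [CharZero Ω] {ι : Type*} [DecidableEq ι] (E : Subfield Ω) (w : ι → Ω)
    (hw : ∀ i, w i ^ 2 ∈ E) (hns : ∀ I : Finset ι, I.Nonempty → ∏ i ∈ I, w i ∉ E)
    (J : Finset ι) (c : Finset ι → Ω) (hc : ∀ I, c I ∈ E)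
    (h : ∑ I ∈ J.powerset, c I * ∏ i ∈ I, w i = 0) : ∀ I ∈ J.powerset, c I = 0 := by
  induction J using Finset.induction_on generalizing c with
  | empty =>
    intro I hI
    simp only [Finset.powerset_empty, Finset.mem_singleton] at hI
    subst hI
    simpa using h
  | insert j J hj ih =>
    rw [Finset.sum_powerset_insert hj] at h
    have e1 : ∑ I ∈ J.powerset, c (insert j I) * ∏ i ∈ insert j I, w i =
        (∑ I ∈ J.powerset, c (insert j I) * ∏ i ∈ I, w i) * w j := by
      rw [Finset.sum_mul]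
      apply Finset.sum_congr rfl
      intro I hI
      rw [Finset.prod_insert (fun hjI => hj (Finset.mem_powerset.mp hI hjI))]
      ring
    rw [e1] at h
    obtain ⟨F, hEF, hwF, hF⟩ := exists_tower E w hw J
    have hmem : ∀ d : Finset ι → Ω, (∀ I, d I ∈ E) →
        ∑ I ∈ J.powerset, d I * ∏ i ∈ I, w i ∈ F := by
      intro d hd
      apply F.sum_mem
      intro I hI
      exact F.mul_mem (hEF (hd I)) (F.prod_mem fun i hi => hwF i (Finset.mem_powerset.mp hI hi))
    have hB : ∑ I ∈ J.powerset, c (insert j I) * ∏ i ∈ I, w i = 0 := by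
      by_contra hB
      have hwj : w j ∈ F := by
        have : w j = -(∑ I ∈ J.powerset, c I * ∏ i ∈ I, w i) *
            (∑ I ∈ J.powerset, c (insert j I) * ∏ i ∈ I, w i)⁻¹ := by
          field_simp
          linear_combination h
        rw [this]
        exact F.mul_mem (F.neg_mem (hmem _ hc)) (F.inv_mem (hmem _ fun I => hc _))
      obtain ⟨I, hI, hI2⟩ := hF _ hwj (hw j)
      apply hns (insert j I) (Finset.insert_nonempty _ _)
      rw [Finset.prod_insert (fun hjI => hj (hI hjI))]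
      exact hI2
    rw [hB, zero_mul, add_zero] at h
    have h1 := ih c hc h
    have h2 := ih (fun I => c (insert j I)) (fun I => hc _) hB
    intro I hI
    by_cases hjI : j ∈ I
    · have := h2 (I.erase j) (by
        rw [Finset.mem_powerset] at hI ⊢
        intro i hi
        have := hI (Finset.mem_of_mem_erase hi)
        rcases Finset.mem_insert.mp this with rfl | h
        · exact absurd rfl (Finset.ne_of_mem_erase hi)
        · exact h)
      simpa [Finset.insert_erase hjI] using this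
    · apply h1
      rw [Finset.mem_powerset] at hI ⊢
      intro i hi
      rcases Finset.mem_insert.mp (hI hi) with rfl | h
      · exact absurd hi hjI
      · exact h

end

end Pool.Agent.Work.MP_36d6be_co_V.BlockE
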