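import Mathlib

/-!
Block E, part 1: the `ℓ¹` seminorm of polynomials and degrees of bivariate polynomials.
-/

set_option autoImplicit false

namespace Pool.Agent.Work.MP_36d6be_co_V.BlockE

open Polynomial

/-- A submultiplicative seminorm with `f 1 ≤ 1`. -/
structure SN {A : Type*} [CommRing A] (f : A → ℝ) : Prop where
  zero : f 0 = 0
  nonneg : ∀ a, 0 ≤ f a
  add : ∀ a b, f (a + b) ≤ f a + f b
  neg : ∀ a, f (-a) = f a
  mul : ∀ a b, f (a * b) ≤ f a * f b
  one : f 1 ≤ 1

/-- The `ℓ¹` norm of a polynomial. -/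
noncomputable def l1 {A : Type*} [CommRing A] (f : A → ℝ) (p : A[X]) : ℝ :=
  ∑ i ∈ p.support, f (p.coeff i)

section

variable {A : Type*} [CommRing A] {f : A → ℝ}

theorem l1_eq_sum (hf : SN f) (p : A[X]) (s : Finset ℕ) (h : p.support ⊆ s) :
    l1 f p = ∑ i ∈ s, f (p.coeff i) := by
  unfold l1
  apply Finset.sum_subset h
  intro i _ hi
  rw [notMem_support_iff.mp hi, hf.zero]

theorem l1_zero : l1 f (0 : A[X]) = 0 := by simp [l1]

theorem l1_nonneg (hf : SN f) (p : A[X]) : 0 ≤ l1 f p :=
  Finset.sum_nonneg fun _ _ => hf.nonneg _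

theorem l1_monomial (hf : SN f) (n : ℕ) (a : A) : l1 f (monomial n a) = f a := by
  rw [l1_eq_sum hf _ {n} (support_monomial_subset n a)]
  simp

theorem l1_C (hf : SN f) (a : A) : l1 f (C a) = f a := by
  rw [← monomial_zero_left, l1_monomial hf]

theorem l1_add (hf : SN f) (p q : A[X]) : l1 f (p + q) ≤ l1 f p + l1 f q := by
  rw [l1_eq_sum hf (p + q) (p.support ∪ q.support) support_add,
    l1_eq_sum hf p (p.support ∪ q.support) Finset.subset_union_left,
    l1_eq_sum hf q (p.support ∪ q.support) Finset.subset_union_right, ← Finset.sum_add_distrib]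
  apply Finset.sum_le_sum
  intro i _
  rw [coeff_add]
  exact hf.add _ _

theorem l1_neg (hf : SN f) (p : A[X]) : l1 f (-p) = l1 f p := by
  unfold l1
  rw [support_neg]
  apply Finset.sum_congr rfl
  intro i _
  rw [coeff_neg, hf.neg]

theorem l1_sum (hf : SN f) {ι : Type*} (s : Finset ι) (p : ι → A[X]) :
    l1 f (∑ i ∈ s, p i) ≤ ∑ i ∈ s, l1 f (p i) := by
  classical
  induction s using Finset.induction_on with
  | empty => simp [l1_zero]
  | insert a s ha ih =>
    rw [Finset.sum_insert ha, Finset.sum_insert ha]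
    exact (l1_add hf _ _).trans (by linarith)

theorem l1_mul (hf : SN f) (p q : A[X]) : l1 f (p * q) ≤ l1 f p * l1 f q := by
  rw [mul_eq_sum_sum]
  refine (l1_sum hf _ _).trans ?_
  unfold l1
  rw [Finset.sum_mul]
  apply Finset.sum_le_sum
  intro i _
  rw [sum_def]
  refine (l1_sum hf _ _).trans ?_
  rw [Finset.mul_sum]
  apply Finset.sum_le_sum
  intro j _
  rw [l1_monomial hf]
  exact hf.mul _ _

theorem SN.l1 (hf : SN f) : SN (l1 f) where
  zero := l1_zero
  nonneg := l1_nonneg hf
  add := l1_add hf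
  neg := l1_neg hf
  mul := l1_mul hf
  one := by
    rw [← C_1, l1_C hf]
    exact hf.one

theorem SN.pow (hf : SN f) (a : A) (n : ℕ) : f (a ^ n) ≤ f a ^ n := by
  induction n with
  | zero => simpa using hf.one
  | succ n ih =>
    rw [pow_succ, pow_succ]
    exact (hf.mul _ _).trans (mul_le_mul_of_nonneg_right ih (hf.nonneg _))

theorem SN.prod (hf : SN f) {ι : Type*} (s : Finset ι) (p : ι → A) :
    f (∏ i ∈ s, p i) ≤ ∏ i ∈ s, f (p i) := by
  classical
  induction s using Finset.induction_on with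
  | empty => simpa using hf.one
  | insert a s ha ih =>
    rw [Finset.prod_insert ha, Finset.prod_insert ha]
    exact (hf.mul _ _).trans (mul_le_mul_of_nonneg_left ih (hf.nonneg _))

theorem SN.sum (hf : SN f) {ι : Type*} (s : Finset ι) (p : ι → A) :
    f (∑ i ∈ s, p i) ≤ ∑ i ∈ s, f (p i) := by
  classical
  induction s using Finset.induction_on with
  | empty => simp [hf.zero]
  | insert a s ha ih =>
    rw [Finset.sum_insert ha, Finset.sum_insert ha]
    exact (hf.add _ _).trans (by linarith)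

theorem coeff_le_l1 (hf : SN f) (p : A[X]) (i : ℕ) : f (p.coeff i) ≤ l1 f p := by
  by_cases h : i ∈ p.support
  · exact Finset.single_le_sum (f := fun i => f (p.coeff i)) (fun _ _ => hf.nonneg _) h
  · rw [notMem_support_iff.mp h, hf.zero]
    exact l1_nonneg hf p

theorem l1_X_pow_mul (p : A[X]) (k : ℕ) : l1 f (X ^ k * p) = l1 f p := by
  unfold l1
  have : (X ^ k * p).support = p.support.map (addRightEmbedding k) := by
    ext i
    simp only [mem_support_iff, Finset.mem_map, addRightEmbedding_apply, coeff_X_pow_mul']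
    constructor
    · intro h
      split_ifs at h with h1
      · exact ⟨i - k, h, by omega⟩
      · exact absurd rfl h
    · rintro ⟨a, ha, rfl⟩
      simpa using ha
  rw [this, Finset.sum_map]
  apply Finset.sum_congr rfl
  intro i _
  rw [addRightEmbedding_apply, coeff_X_pow_mul']
  simp

theorem l1_comp (hf : SN f) (p q : A[X]) (h : 1 ≤ l1 f q) (n : ℕ) (hn : p.natDegree ≤ n) :
    l1 f (p.comp q) ≤ l1 f p * l1 f q ^ n := by
  rw [comp_eq_sum_left, sum_def]
  refine (l1_sum hf _ _).trans ?_
  have h0 : l1 f p = ∑ i ∈ p.support, f (p.coeff i) := rfl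
  rw [h0, Finset.sum_mul]
  apply Finset.sum_le_sum
  intro i hi
  refine (l1_mul hf _ _).trans ?_
  rw [l1_C hf]
  apply mul_le_mul_of_nonneg_left _ (hf.nonneg _)
  refine (hf.l1.pow _ _).trans ?_
  exact pow_le_pow_right₀ h ((le_natDegree_of_mem_supp _ hi).trans hn)

theorem l1_X (hf : SN f) : l1 f (X : A[X]) ≤ 1 := by
  rw [← monomial_one_one_eq_X, l1_monomial hf]
  exact hf.one

end

/-- absolute value of an integer as a real number -/
noncomputable def nz (a : ℤ) : ℝ := |(a : ℝ)|

theorem nz_sn : SN nz where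
  zero := by simp [nz]
  nonneg a := abs_nonneg _
  add a b := by simpa [nz] using abs_add_le (a : ℝ) b
  neg a := by simp [nz]
  mul a b := by simp [nz, abs_mul]
  one := by simp [nz]

/-- `ℓ¹` norm of an integer polynomial -/
noncomputable def n1 : ℤ[X] → ℝ := l1 nz

/-- `ℓ¹` norm of a bivariate integer polynomial -/
noncomputable def n2 : ℤ[X][X] → ℝ := l1 n1

theorem n1_sn : SN n1 := nz_sn.l1

theorem n2_sn : SN n2 := n1_sn.l1

theorem coeff_le_n2 (P : ℤ[X][X]) (j i : ℕ) : |(((P.coeff j).coeff i : ℤ) : ℝ)| ≤ n2 P :=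
  (coeff_le_l1 nz_sn (P.coeff j) i).trans (coeff_le_l1 n1_sn P j)

theorem n2_le_of_coeff (P : ℤ[X][X]) (L1 L2 : ℕ) (E : ℝ) (h2 : P.natDegree < L2)
    (h1 : ∀ j, (P.coeff j).natDegree < L1)
    (h : ∀ j i, |(((P.coeff j).coeff i : ℤ) : ℝ)| ≤ E) : n2 P ≤ L1 * L2 * E := by
  have hs : P.support ⊆ Finset.range L2 := by
    intro i hi
    exact Finset.mem_range.mpr ((le_natDegree_of_mem_supp _ hi).trans_lt h2)
  have h1' : ∀ j, n1 (P.coeff j) ≤ L1 * E := by
    intro j
    have hs : (P.coeff j).support ⊆ Finset.range L1 := by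
      intro i hi
      exact Finset.mem_range.mpr ((le_natDegree_of_mem_supp _ hi).trans_lt (h1 j))
    unfold n1
    rw [l1_eq_sum nz_sn _ _ hs]
    calc ∑ i ∈ Finset.range L1, nz ((P.coeff j).coeff i) ≤ ∑ i ∈ Finset.range L1, E :=
          Finset.sum_le_sum fun i _ => h j i
      _ = L1 * E := by simp
  unfold n2
  rw [l1_eq_sum n1_sn _ _ hs]
  calc ∑ i ∈ Finset.range L2, n1 (P.coeff i) ≤ ∑ i ∈ Finset.range L2, (L1 * E) :=
        Finset.sum_le_sum fun i _ => h1' i
    _ = L1 * L2 * E := by simp; ring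

/-! Degrees in the inner variable. -/

theorem coeff_coeff_swap (P : ℤ[X][X]) (i j : ℕ) :
    ((Bivariate.swap P).coeff i).coeff j = (P.coeff j).coeff i := by
  induction P using Polynomial.induction_on' with
  | add p q hp hq => simp only [map_add, coeff_add, hp, hq]
  | monomial n a =>
    induction a using Polynomial.induction_on' with
    | add p q hp hq => simp only [map_add, coeff_add, hp, hq]
    | monomial m a =>
      rw [Bivariate.swap_monomial_monomial]
      simp only [coeff_monomial]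
      split_ifs <;> simp_all [coeff_monomial]

theorem inner_iff (P : ℤ[X][X]) (n : ℕ) :
    (∀ j, (P.coeff j).natDegree ≤ n) ↔ (Bivariate.swap P).natDegree ≤ n := by
  simp only [natDegree_le_iff_coeff_eq_zero]
  constructor
  · intro h N hN
    ext j
    rw [coeff_coeff_swap, coeff_zero]
    exact h j N hN
  · intro h j N hN
    rw [← coeff_coeff_swap, h N hN, coeff_zero]

end Pool.Agent.Work.MP_36d6be_co_V.BlockE
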