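import Pool.Agent.Work.MP_36d6be_co_V.Defs
import Pool.Agent.Work.MP_36d6be_co_V.EKummer

/-!
Block E, part 3: nonvanishing of the auxiliary function on the generic point.
-/

set_option autoImplicit false

namespace Pool.Agent.Work.MP_36d6be_co_V.BlockE

open Polynomial

variable (γ b : Fin 4 → ℤ)

/-- `d_i = g_i(X) g_i(Y)` -/
noncomputable def dd (i : Fin 4) : ℤ[X][X] := C (g γ b i) * (g γ b i).map C

theorem ev2_C {R : Type*} [CommRing R] (x y : R) (p : ℤ[X]) :
    ev2 x y (C p) = p.eval₂ (Int.castRingHom R) x := by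
  simp [ev2]

theorem ev2_map_C {R : Type*} [CommRing R] (x y : R) (p : ℤ[X]) :
    ev2 x y (p.map C) = p.eval₂ (Int.castRingHom R) y := by
  simp only [ev2, coe_eval₂RingHom, eval₂_map]
  congr 1
  exact RingHom.ext_int _ _

theorem ev2_dd {R : Type*} [CommRing R] (x y : R) (i : Fin 4) :
    ev2 x y (dd γ b i) = (g γ b i).eval₂ (Int.castRingHom R) x *
      (g γ b i).eval₂ (Int.castRingHom R) y := by
  rw [dd, map_mul, ev2_C, ev2_map_C]

theorem g_ne_zero (hγ : ∀ i, γ i ≠ 0) (i : Fin 4) : g γ b i ≠ 0 := by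
  unfold g
  exact mul_ne_zero (by simpa using hγ i) (X_sub_C_ne_zero _)

theorem dd_eq (i : Fin 4) :
    dd γ b i = C (g γ b i * C (γ i)) * (X - C (C (b i))) := by
  unfold dd
  conv_lhs => rw [g]
  simp only [g, Polynomial.map_mul, Polynomial.map_sub, map_C, map_X, C_mul, C_sub]
  ring

theorem dd_ne_zero (hγ : ∀ i, γ i ≠ 0) (i : Fin 4) : dd γ b i ≠ 0 := by
  rw [dd_eq]
  refine mul_ne_zero ?_ (X_sub_C_ne_zero _)
  rw [Ne, C_eq_zero]
  exact mul_ne_zero (g_ne_zero γ b hγ i) (by simpa using hγ i)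

theorem rootMultiplicity_dd (hγ : ∀ i, γ i ≠ 0) (hb : Function.Injective b) (i j : Fin 4) :
    (dd γ b i).rootMultiplicity (C (b j)) = if i = j then 1 else 0 := by
  have h0 := dd_ne_zero γ b hγ i
  rw [dd_eq] at h0 ⊢
  rw [rootMultiplicity_mul h0, rootMultiplicity_C, zero_add, rootMultiplicity_X_sub_C]
  simp only [C_inj]
  by_cases h : i = j
  · simp [h]
  · have : b j ≠ b i := fun e => h (hb e).symm
    simp [h, this]

theorem rootMultiplicity_prod_dd (hγ : ∀ i, γ i ≠ 0) (hb : Function.Injective b)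
    (I : Finset (Fin 4)) (j : Fin 4) :
    (∏ i ∈ I, dd γ b i).rootMultiplicity (C (b j)) = if j ∈ I then 1 else 0 := by
  induction I using Finset.induction_on with
  | empty =>
    simp only [Finset.prod_empty, Finset.notMem_empty, if_false]
    rw [← C_1, rootMultiplicity_C]
  | insert a I ha ih =>
    rw [Finset.prod_insert ha, rootMultiplicity_mul, ih, rootMultiplicity_dd γ b hγ hb]
    · by_cases h : a = j
      · subst h
        simp [ha]
      · have h' : j ≠ a := fun e => h e.symm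
        simp [h, h', Finset.mem_insert]
    · exact mul_ne_zero (dd_ne_zero γ b hγ a) (Finset.prod_ne_zero_iff.mpr
        fun i _ => dd_ne_zero γ b hγ i)

theorem prod_dd_not_sq (hγ : ∀ i, γ i ≠ 0) (hb : Function.Injective b)
    (I : Finset (Fin 4)) (hI : I.Nonempty) (p q : ℤ[X][X]) (hq : q ≠ 0)
    (h : (∏ i ∈ I, dd γ b i) * q ^ 2 = p ^ 2) : False := by
  obtain ⟨j, hj⟩ := hI
  have hd : (∏ i ∈ I, dd γ b i) ≠ 0 := Finset.prod_ne_zero_iff.mpr
        fun i _ => dd_ne_zero γ b hγ i
  have hp : p ^ 2 ≠ 0 := by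
    rw [← h]
    exact mul_ne_zero hd (pow_ne_zero 2 hq)
  have h1 := congrArg (rootMultiplicity (C (b j))) h
  rw [rootMultiplicity_mul (mul_ne_zero hd (pow_ne_zero 2 hq)),
    rootMultiplicity_prod_dd γ b hγ hb, if_pos hj, pow_two, pow_two,
    rootMultiplicity_mul (by rw [← pow_two]; exact pow_ne_zero 2 hq),
    rootMultiplicity_mul (by rw [← pow_two]; exact hp)] at h1
  omega

/-- The function field. -/
abbrev KK := FractionRing (ℤ[X][X])

/-- A big field. -/
abbrev OO := AlgebraicClosure KK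

instance : CharZero KK := by
  have : Function.Injective (algebraMap (ℤ[X][X]) KK) := IsFractionRing.injective _ _
  exact charZero_of_injective_algebraMap this

/-- embedding of the bivariate polynomials in the big field -/
noncomputable def emb : ℤ[X][X] →+* OO := (algebraMap KK OO).comp (algebraMap (ℤ[X][X]) KK)

theorem emb_injective : Function.Injective emb :=
  (algebraMap KK OO).injective.comp (IsFractionRing.injective _ _)

/-- the image of the function field in the big field -/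
noncomputable def EE : Subfield OO := (algebraMap KK OO).fieldRange

theorem emb_mem (p : ℤ[X][X]) : emb p ∈ EE := ⟨algebraMap _ _ p, rfl⟩

theorem emb_eq_ev2 (p : ℤ[X][X]) : emb p = ev2 (emb (C X)) (emb X) p := by
  have : emb = ev2 (emb (C X)) (emb X) := by
    apply Polynomial.ringHom_ext'
    · apply Polynomial.ringHom_ext'
      · exact RingHom.ext_int _ _
      · simp [ev2]
    · simp [ev2]
  exact congrArg (fun f => f p) this

theorem prod_w_notMem (hγ : ∀ i, γ i ≠ 0) (hb : Function.Injective b) (w : Fin 4 → OO)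
    (hw : ∀ i, w i ^ 2 = emb (dd γ b i)) (I : Finset (Fin 4)) (hI : I.Nonempty) :
    ∏ i ∈ I, w i ∉ EE := by
  rintro ⟨z, hz⟩
  obtain ⟨p, q, hq, rfl⟩ := IsFractionRing.div_surjective (A := ℤ[X][X]) z
  have hq0 : q ≠ 0 := nonZeroDivisors.ne_zero hq
  have hq1 : algebraMap (ℤ[X][X]) KK q ≠ 0 := by
    simpa using hq0
  apply prod_dd_not_sq γ b hγ hb I hI p q hq0
  apply emb_injective
  rw [map_mul, map_prod, map_pow, map_pow]
  have h1 : ∏ i ∈ I, emb (dd γ b i) = (∏ i ∈ I, w i) ^ 2 := by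
    rw [← Finset.prod_pow]
    exact Finset.prod_congr rfl fun i _ => (hw i).symm
  rw [h1, ← hz]
  have h2 : emb q = algebraMap KK OO (algebraMap _ _ q) := rfl
  have h3 : emb p = algebraMap KK OO (algebraMap _ _ p) := rfl
  rw [← mul_pow, h2, h3]
  change ((algebraMap KK OO) _ * _) ^ 2 = _
  rw [← map_mul, div_mul_cancel₀ _ hq1]

theorem Fev_ne_zero (hγ : ∀ i, γ i ≠ 0) (hb : Function.Injective b) (w : Fin 4 → OO)
    (hw : ∀ i, w i ^ 2 = emb (dd γ b i)) (c : Finset (Fin 4) → ℤ[X][X]) (hc : c ≠ 0) :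
    Fev c (emb (C X)) (emb X) w ≠ 0 := by
  intro h
  apply hc
  have h' : ∑ I ∈ (Finset.univ : Finset (Fin 4)).powerset, emb (c I) * ∏ i ∈ I, w i = 0 := by
    rw [Finset.powerset_univ]
    rw [← h, Fev]
    exact Finset.sum_congr rfl fun I _ => by rw [emb_eq_ev2]
  have := kummer_indep EE w (fun i => by rw [hw]; exact emb_mem _)
    (prod_w_notMem γ b hγ hb w hw) Finset.univ (fun I => emb (c I)) (fun I => emb_mem _) h'
  funext I
  have h2 := this I (by simp)
  exact (map_eq_zero_iff _ emb_injective).mp h2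

end Pool.Agent.Work.MP_36d6be_co_V.BlockE
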