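import Pool.Agent.Work.MP_36d6be_co_V.Defs
import Pool.Agent.Work.MP_36d6be_co_V.EL1
import Pool.Agent.Work.MP_36d6be_co_V.ENonsq

/-!
Block E, part 4: twisted multiplication and the norm.
-/

set_option autoImplicit false

namespace Pool.Agent.Work.MP_36d6be_co_V.BlockE

open Polynomial
open scoped symmDiff

variable (γ b : Fin 4 → ℤ)

/-- twisted multiplication -/
noncomputable def tmul (c e : Finset (Fin 4) → ℤ[X][X]) (K : Finset (Fin 4)) : ℤ[X][X] :=
  ∑ I, c I * e (I ∆ K) * ∏ i ∈ I ∩ (I ∆ K), dd γ b i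

theorem prod_symmDiff {R : Type*} [CommRing R] (w d : Fin 4 → R) (hw : ∀ i, w i ^ 2 = d i)
    (I J : Finset (Fin 4)) :
    (∏ i ∈ I, w i) * ∏ i ∈ J, w i = (∏ i ∈ I ∩ J, d i) * ∏ i ∈ I ∆ J, w i := by
  have h1 : I = (I ∩ J) ∪ (I \ J) := by ext; simp; tauto
  have h2 : J = (I ∩ J) ∪ (J \ I) := by ext; simp; tauto
  have h3 : I ∆ J = (I \ J) ∪ (J \ I) := rfl
  have e1 : ∏ i ∈ I, w i = (∏ i ∈ I ∩ J, w i) * ∏ i ∈ I \ J, w i := by
    conv_lhs => rw [h1]
    rw [Finset.prod_union]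
    exact Finset.disjoint_left.mpr fun a ha hb => by simp at ha hb; exact hb.2 ha.2
  have e2 : ∏ i ∈ J, w i = (∏ i ∈ I ∩ J, w i) * ∏ i ∈ J \ I, w i := by
    conv_lhs => rw [h2]
    rw [Finset.prod_union]
    exact Finset.disjoint_left.mpr fun a ha hb => by simp at ha hb; exact hb.2 ha.1
  have e3 : ∏ i ∈ I ∆ J, w i = (∏ i ∈ I \ J, w i) * ∏ i ∈ J \ I, w i := by
    rw [h3, Finset.prod_union]
    exact Finset.disjoint_left.mpr fun a ha hb => by simp at ha hb; exact hb.2 ha.1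
  have e4 : ∏ i ∈ I ∩ J, d i = (∏ i ∈ I ∩ J, w i) * ∏ i ∈ I ∩ J, w i := by
    rw [← Finset.prod_mul_distrib]
    exact Finset.prod_congr rfl fun i _ => by rw [← hw, pow_two]
  rw [e1, e2, e3, e4]
  ring

theorem Fev_tmul {R : Type*} [CommRing R] (x y : R) (w : Fin 4 → R)
    (hw : ∀ i, w i ^ 2 = ev2 x y (dd γ b i)) (c e : Finset (Fin 4) → ℤ[X][X]) :
    Fev (tmul γ b c e) x y w = Fev c x y w * Fev e x y w := by
  unfold Fev tmul
  rw [Finset.sum_mul_sum]
  simp only [map_sum, map_mul, Finset.sum_mul]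
  rw [Finset.sum_comm]
  apply Finset.sum_congr rfl
  intro I _
  have hbij : Function.Bijective (fun K : Finset (Fin 4) => I ∆ K) := by
    apply Function.Involutive.bijective
    intro K
    exact symmDiff_symmDiff_cancel_left I K
  rw [← hbij.sum_comp (fun J => (ev2 x y (c I) * ∏ i ∈ I, w i) * (ev2 x y (e J) * ∏ i ∈ J, w i))]
  apply Finset.sum_congr rfl
  intro K _
  have h := prod_symmDiff w (fun i => ev2 x y (dd γ b i)) hw I (I ∆ K)
  rw [symmDiff_symmDiff_cancel_left] at h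
  rw [map_prod]
  linear_combination -(ev2 x y (c I)) * (ev2 x y (e (I ∆ K))) * h

/-- flip the sign of `w_k` in the coefficients -/
noncomputable def cj (k : Fin 4) (c : Finset (Fin 4) → ℤ[X][X]) (I : Finset (Fin 4)) : ℤ[X][X] :=
  if k ∈ I then -c I else c I

/-- the sign vector that is `-1` at `k` -/
def fl {R : Type*} [CommRing R] (k : Fin 4) (w : Fin 4 → R) (i : Fin 4) : R :=
  if i = k then - w i else w i

theorem fl_sq {R : Type*} [CommRing R] (k : Fin 4) (w : Fin 4 → R) (i : Fin 4) :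
    fl k w i ^ 2 = w i ^ 2 := by
  unfold fl
  split_ifs <;> ring

theorem prod_fl {R : Type*} [CommRing R] (k : Fin 4) (w : Fin 4 → R) (I : Finset (Fin 4)) :
    ∏ i ∈ I, fl k w i = if k ∈ I then -∏ i ∈ I, w i else ∏ i ∈ I, w i := by
  split_ifs with h
  · rw [← Finset.mul_prod_erase _ _ h, ← Finset.mul_prod_erase I w h]
    have : ∏ i ∈ I.erase k, fl k w i = ∏ i ∈ I.erase k, w i := by
      apply Finset.prod_congr rfl
      intro i hi
      simp [fl, Finset.ne_of_mem_erase hi]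
    rw [this]
    simp [fl]
  · apply Finset.prod_congr rfl
    intro i hi
    have : i ≠ k := fun e => h (e ▸ hi)
    simp [fl, this]

theorem Fev_cj {R : Type*} [CommRing R] (x y : R) (w : Fin 4 → R) (k : Fin 4)
    (c : Finset (Fin 4) → ℤ[X][X]) : Fev (cj k c) x y w = Fev c x y (fl k w) := by
  unfold Fev
  apply Finset.sum_congr rfl
  intro I _
  rw [prod_fl, cj]
  split_ifs <;> simp

/-- one step of the norm -/
noncomputable def stp (k : Fin 4) (c : Finset (Fin 4) → ℤ[X][X]) : Finset (Fin 4) → ℤ[X][X] :=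
  tmul γ b c (cj k c)

theorem Fev_stp {R : Type*} [CommRing R] (x y : R) (w : Fin 4 → R)
    (hw : ∀ i, w i ^ 2 = ev2 x y (dd γ b i)) (k : Fin 4) (c : Finset (Fin 4) → ℤ[X][X]) :
    Fev (stp γ b k c) x y w = Fev c x y w * Fev c x y (fl k w) := by
  rw [stp, Fev_tmul γ b x y w hw, Fev_cj]

theorem stp_zero (k : Fin 4) (c : Finset (Fin 4) → ℤ[X][X]) (K : Finset (Fin 4)) (hk : k ∈ K) :
    stp γ b k c K = 0 := by
  unfold stp tmul
  apply Finset.sum_involution (fun I _ => I ∆ K)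
  · intro I _
    rw [symmDiff_symmDiff_cancel_right, Finset.inter_comm (I ∆ K) I]
    have h1 : k ∈ I ∆ K ↔ k ∉ I := by
      rw [Finset.mem_symmDiff]
      tauto
    unfold cj
    by_cases h : k ∈ I
    · rw [if_neg (by rw [h1]; simpa using h), if_pos h]
      ring
    · rw [if_pos (h1.mpr h), if_neg h]
      ring
  · intro I _ _ h
    have : K = ∅ := by simpa using h
    rw [this] at hk
    simp at hk
  · intro I _
    simp
  · intro I _
    exact symmDiff_symmDiff_cancel_right K I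

theorem stp_pres (k j : Fin 4) (c : Finset (Fin 4) → ℤ[X][X]) (hc : ∀ K, j ∈ K → c K = 0)
    (K : Finset (Fin 4)) (hk : j ∈ K) : stp γ b k c K = 0 := by
  unfold stp tmul
  apply Finset.sum_eq_zero
  intro I _
  by_cases h : j ∈ I
  · rw [hc I h]
    simp
  · have : j ∈ I ∆ K := by
      rw [Finset.mem_symmDiff]
      exact Or.inr ⟨hk, h⟩
    have h2 : cj k c (I ∆ K) = 0 := by
      unfold cj
      rw [hc _ this]
      simp
    rw [h2]
    simp

/-- the full norm family -/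
noncomputable def nn (c : Finset (Fin 4) → ℤ[X][X]) : Finset (Fin 4) → ℤ[X][X] :=
  stp γ b 3 (stp γ b 2 (stp γ b 1 (stp γ b 0 c)))

theorem nn_zero (c : Finset (Fin 4) → ℤ[X][X]) (K : Finset (Fin 4)) (hK : K ≠ ∅) :
    nn γ b c K = 0 := by
  obtain ⟨j, hj⟩ := Finset.nonempty_iff_ne_empty.mpr hK
  unfold nn
  have h0 := stp_zero γ b 0 c
  have h1 := stp_zero γ b 1 (stp γ b 0 c)
  have h2 := stp_zero γ b 2 (stp γ b 1 (stp γ b 0 c))
  have h3 := stp_zero γ b 3 (stp γ b 2 (stp γ b 1 (stp γ b 0 c)))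
  fin_cases j
  · exact stp_pres γ b 3 0 _ (stp_pres γ b 2 0 _ (stp_pres γ b 1 0 _ h0)) K hj
  · exact stp_pres γ b 3 1 _ (stp_pres γ b 2 1 _ h1) K hj
  · exact stp_pres γ b 3 2 _ h2 K hj
  · exact h3 K hj

theorem Fev_nn {R : Type*} [CommRing R] (x y : R) (w : Fin 4 → R)
    (c : Finset (Fin 4) → ℤ[X][X]) : Fev (nn γ b c) x y w = ev2 x y (nn γ b c ∅) := by
  unfold Fev
  rw [Finset.sum_eq_single ∅]
  · simp
  · intro K _ hK
    rw [nn_zero γ b c K hK]
    simp
  · simp

/-- flip the signs in `I` -/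
def flp {R : Type*} [CommRing R] (I : Finset (Fin 4)) (w : Fin 4 → R) (i : Fin 4) : R :=
  if i ∈ I then - w i else w i

theorem flp_sq {R : Type*} [CommRing R] (I : Finset (Fin 4)) (w : Fin 4 → R) (i : Fin 4) :
    flp I w i ^ 2 = w i ^ 2 := by
  unfold flp
  split_ifs <;> ring

theorem prod_step {R : Type*} [CommRing R] (x y : R) (w : Fin 4 → R)
    (hw : ∀ i, w i ^ 2 = ev2 x y (dd γ b i)) (k : Fin 4) (J : Finset (Fin 4)) (hk : k ∉ J)
    (c : Finset (Fin 4) → ℤ[X][X]) :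
    ∏ I ∈ J.powerset, Fev (stp γ b k c) x y (flp I w) =
      ∏ I ∈ (insert k J).powerset, Fev c x y (flp I w) := by
  rw [Finset.prod_powerset_insert hk, ← Finset.prod_mul_distrib]
  apply Finset.prod_congr rfl
  intro I hI
  rw [Fev_stp γ b x y _ (fun i => by rw [flp_sq, hw])]
  congr 2
  funext i
  have hkI : k ∉ I := fun h => hk (Finset.mem_powerset.mp hI h)
  unfold fl flp
  by_cases h : i = k
  · subst h
    simp [hkI]
  · simp [h]

/-- the product over all 16 sign changes -/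
theorem ev2_nn {R : Type*} [CommRing R] (x y : R) (w : Fin 4 → R)
    (hw : ∀ i, w i ^ 2 = ev2 x y (dd γ b i)) (c : Finset (Fin 4) → ℤ[X][X]) :
    ev2 x y (nn γ b c ∅) = ∏ I : Finset (Fin 4), Fev c x y (flp I w) := by
  rw [← Fev_nn γ b x y w]
  have h0 : Fev (nn γ b c) x y w =
      ∏ I ∈ (∅ : Finset (Fin 4)).powerset, Fev (nn γ b c) x y (flp I w) := by
    simp only [Finset.powerset_empty, Finset.prod_singleton]
    congr 1
  rw [h0]
  unfold nn
  rw [prod_step γ b x y w hw 3 ∅ (by decide), prod_step γ b x y w hw 2 _ (by decide),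
    prod_step γ b x y w hw 1 _ (by decide), prod_step γ b x y w hw 0 _ (by decide)]
  have : (insert 0 (insert 1 (insert 2 (insert 3 ∅))) : Finset (Fin 4)) = Finset.univ := by
    decide
  rw [this, Finset.powerset_univ]

theorem nn_ne_zero (hγ : ∀ i, γ i ≠ 0) (hb : Function.Injective b)
    (c : Finset (Fin 4) → ℤ[X][X]) (hc : c ≠ 0) : nn γ b c ∅ ≠ 0 := by
  intro h
  have hex : ∀ i, ∃ v : OO, v ^ 2 = emb (dd γ b i) := fun i => by
    obtain ⟨v, hv⟩ := IsAlgClosed.exists_pow_nat_eq (emb (dd γ b i)) (n := 2) (by norm_num)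
    exact ⟨v, hv⟩
  choose w hw using hex
  have h1 := ev2_nn γ b (emb (C X)) (emb X) w (fun i => by rw [hw, emb_eq_ev2]) c
  rw [h, map_zero] at h1
  obtain ⟨I, _, hI⟩ := Finset.prod_eq_zero_iff.mp h1.symm
  exact Fev_ne_zero γ b hγ hb (flp I w) (fun i => by rw [flp_sq, hw]) c hc hI

theorem Fev_dvd {R : Type*} [CommRing R] (x y : R) (w : Fin 4 → R)
    (hw : ∀ i, w i ^ 2 = ev2 x y (dd γ b i)) (c : Finset (Fin 4) → ℤ[X][X]) :
    Fev c x y w ∣ ev2 x y (nn γ b c ∅) := by
  rw [ev2_nn γ b x y w hw]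
  have h : Fev c x y w = Fev c x y (flp ∅ w) := by
    congr 1
  rw [h]
  exact Finset.dvd_prod_of_mem (fun I => Fev c x y (flp I w)) (Finset.mem_univ ∅)

/-! Sizes. -/

/-- the total norm of a family -/
noncomputable def nf (c : Finset (Fin 4) → ℤ[X][X]) : ℝ := ∑ I, n2 (c I)

/-- the constant of the twisted multiplication -/
noncomputable def cst : ℝ := ∏ i, max 1 (n2 (dd γ b i))

theorem one_le_cst : 1 ≤ cst γ b := by
  unfold cst
  calc (1 : ℝ) = ∏ i : Fin 4, (1 : ℝ) := by simp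
    _ ≤ _ := Finset.prod_le_prod (fun _ _ => zero_le_one) fun i _ => le_max_left _ _

theorem n2_prod_dd (I : Finset (Fin 4)) : n2 (∏ i ∈ I, dd γ b i) ≤ cst γ b := by
  refine (n2_sn.prod _ _).trans ?_
  calc ∏ i ∈ I, n2 (dd γ b i) ≤ ∏ i ∈ I, max 1 (n2 (dd γ b i)) :=
        Finset.prod_le_prod (fun i _ => n2_sn.nonneg _) fun i _ => le_max_right _ _
    _ = ∏ i, (if i ∈ I then max 1 (n2 (dd γ b i)) else 1) := by
        rw [Finset.prod_ite_mem, Finset.univ_inter]
    _ ≤ ∏ i, max 1 (n2 (dd γ b i)) := by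
        apply Finset.prod_le_prod
        · intro i _
          split_ifs
          · exact le_trans zero_le_one (le_max_left _ _)
          · exact zero_le_one
        · intro i _
          split_ifs
          · exact le_refl _
          · exact le_max_left _ _

theorem nf_nonneg (c : Finset (Fin 4) → ℤ[X][X]) : 0 ≤ nf c :=
  Finset.sum_nonneg fun _ _ => n2_sn.nonneg _

theorem nf_tmul (c e : Finset (Fin 4) → ℤ[X][X]) :
    nf (tmul γ b c e) ≤ nf c * nf e * cst γ b := by
  have h1 : ∀ K, n2 (tmul γ b c e K) ≤ ∑ I, n2 (c I) * n2 (e (I ∆ K)) * cst γ b := by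
    intro K
    unfold tmul
    refine (n2_sn.sum _ _).trans (Finset.sum_le_sum fun I _ => ?_)
    refine (n2_sn.mul _ _).trans ?_
    exact mul_le_mul (n2_sn.mul _ _) (n2_prod_dd γ b _) (n2_sn.nonneg _)
      (mul_nonneg (n2_sn.nonneg _) (n2_sn.nonneg _))
  calc nf (tmul γ b c e) ≤ ∑ K, ∑ I, n2 (c I) * n2 (e (I ∆ K)) * cst γ b :=
        Finset.sum_le_sum fun K _ => h1 K
    _ = ∑ I, ∑ K, n2 (c I) * n2 (e (I ∆ K)) * cst γ b := Finset.sum_comm
    _ = ∑ I, n2 (c I) * nf e * cst γ b := by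
        apply Finset.sum_congr rfl
        intro I _
        have hbij : Function.Bijective (fun K : Finset (Fin 4) => I ∆ K) := by
          apply Function.Involutive.bijective
          intro K
          exact symmDiff_symmDiff_cancel_left I K
        rw [nf, ← hbij.sum_comp (fun J => n2 (e J)), Finset.mul_sum, Finset.sum_mul]
    _ = nf c * nf e * cst γ b := by
        rw [← Finset.sum_mul, ← Finset.sum_mul]
        rfl

theorem nf_cj (k : Fin 4) (c : Finset (Fin 4) → ℤ[X][X]) : nf (cj k c) = nf c := by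
  unfold nf
  apply Finset.sum_congr rfl
  intro I _
  unfold cj
  split_ifs
  · exact n2_sn.neg _
  · rfl

theorem nf_stp (k : Fin 4) (c : Finset (Fin 4) → ℤ[X][X]) (E : ℝ) (h : nf c ≤ E) :
    nf (stp γ b k c) ≤ E ^ 2 * cst γ b := by
  refine (nf_tmul γ b _ _).trans ?_
  rw [nf_cj]
  have h0 := nf_nonneg c
  have h1 := one_le_cst γ b
  have : nf c * nf c ≤ E ^ 2 := by nlinarith
  exact mul_le_mul_of_nonneg_right this (by linarith)

theorem n2_nn (c : Finset (Fin 4) → ℤ[X][X]) (E : ℝ) (h : nf c ≤ E) :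
    n2 (nn γ b c ∅) ≤ E ^ 16 * cst γ b ^ 15 := by
  have h0 := nf_stp γ b 0 c E h
  have h1 := nf_stp γ b 1 _ _ h0
  have h2 := nf_stp γ b 2 _ _ h1
  have h3 := nf_stp γ b 3 _ _ h2
  calc n2 (nn γ b c ∅) ≤ nf (nn γ b c) :=
        Finset.single_le_sum (f := fun I => n2 (nn γ b c I)) (fun _ _ => n2_sn.nonneg _)
          (Finset.mem_univ ∅)
    _ ≤ _ := h3
    _ = E ^ 16 * cst γ b ^ 15 := by ring

/-! Degrees. -/

/-- both degrees of a bivariate polynomial are bounded -/
def DB (n m : ℕ) (P : ℤ[X][X]) : Prop :=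
  P.natDegree ≤ n ∧ (Bivariate.swap P).natDegree ≤ m

theorem DB.mul {n m n' m' : ℕ} {P Q : ℤ[X][X]} (h : DB n m P) (h' : DB n' m' Q) :
    DB (n + n') (m + m') (P * Q) := by
  constructor
  · exact natDegree_mul_le.trans (add_le_add h.1 h'.1)
  · rw [map_mul]
    exact natDegree_mul_le.trans (add_le_add h.2 h'.2)

theorem DB.sum {ι : Type*} {n m : ℕ} (s : Finset ι) (P : ι → ℤ[X][X])
    (h : ∀ i ∈ s, DB n m (P i)) : DB n m (∑ i ∈ s, P i) := by
  constructor
  · exact natDegree_sum_le_of_forall_le _ _ fun i hi => (h i hi).1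
  · rw [map_sum]
    exact natDegree_sum_le_of_forall_le _ _ fun i hi => (h i hi).2

theorem DB.neg {n m : ℕ} {P : ℤ[X][X]} (h : DB n m P) : DB n m (-P) := by
  constructor
  · rw [natDegree_neg]; exact h.1
  · rw [map_neg, natDegree_neg]; exact h.2

theorem DB.mono {n m n' m' : ℕ} {P : ℤ[X][X]} (h : DB n m P) (hn : n ≤ n') (hm : m ≤ m') :
    DB n' m' P := ⟨h.1.trans hn, h.2.trans hm⟩

theorem natDegree_g (i : Fin 4) : (g γ b i).natDegree ≤ 1 := by
  unfold g
  refine natDegree_mul_le.trans ?_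
  rw [natDegree_C, zero_add]
  exact natDegree_X_sub_C_le _

theorem DB_dd (i : Fin 4) : DB 1 1 (dd γ b i) := by
  constructor
  · unfold dd
    refine natDegree_mul_le.trans ?_
    rw [natDegree_C, zero_add]
    exact (natDegree_map_le).trans (natDegree_g γ b i)
  · unfold dd
    rw [map_mul, Bivariate.swap_C, Bivariate.swap_map_C]
    refine natDegree_mul_le.trans ?_
    rw [natDegree_C, add_zero]
    exact (natDegree_map_le).trans (natDegree_g γ b i)

theorem DB_prod_dd (I : Finset (Fin 4)) : DB 4 4 (∏ i ∈ I, dd γ b i) := by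
  have : DB I.card I.card (∏ i ∈ I, dd γ b i) := by
    induction I using Finset.induction_on with
    | empty => simp [DB]
    | insert a I ha ih =>
      rw [Finset.prod_insert ha, Finset.card_insert_of_notMem ha]
      exact ((DB_dd γ b a).mul ih).mono (by omega) (by omega)
  have hc : I.card ≤ 4 := by simpa using Finset.card_le_univ I
  exact this.mono hc hc

theorem DB_stp (k : Fin 4) (c : Finset (Fin 4) → ℤ[X][X]) {n m : ℕ} (h : ∀ I, DB n m (c I))
    (K : Finset (Fin 4)) : DB (2 * n + 4) (2 * m + 4) (stp γ b k c K) := by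
  unfold stp tmul
  apply DB.sum
  intro I _
  have h1 : DB n m (cj k c (I ∆ K)) := by
    unfold cj
    split_ifs
    · exact (h _).neg
    · exact h _
  exact (((h I).mul h1).mul (DB_prod_dd γ b _)).mono (by omega) (by omega)

theorem DB_nn (c : Finset (Fin 4) → ℤ[X][X]) {n m : ℕ} (h : ∀ I, DB n m (c I)) :
    DB (16 * n + 60) (16 * m + 60) (nn γ b c ∅) := by
  have h0 := DB_stp γ b 0 c h
  have h1 := DB_stp γ b 1 _ h0
  have h2 := DB_stp γ b 2 _ h1
  have h3 := DB_stp γ b 3 _ h2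
  exact (h3 ∅).mono (by omega) (by omega)

end Pool.Agent.Work.MP_36d6be_co_V.BlockE
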