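import Pool.Agent.Work.MP_36d6be_co_V.Defs

/-!
Block F, part A: the power series `sqrt (1 + 4 T)`, its truncations, and functoriality of `Fev`.
-/

set_option autoImplicit false

namespace Pool.Agent.Work.MP_36d6be_co_V

open Polynomial Finset

/-- The series `∑ (-1)^n catalan n T^n`. -/
noncomputable def catS : PowerSeries ℤ :=
  PowerSeries.rescale (-1) (PowerSeries.map (Nat.castRingHom ℤ) PowerSeries.catalanSeries)

lemma catS_eq : catS + PowerSeries.X * catS ^ 2 = 1 := by
  have h := PowerSeries.catalanSeries_sq_mul_X_add_one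
  have h1 := congrArg (fun f => PowerSeries.rescale (-1 : ℤ)
    (PowerSeries.map (Nat.castRingHom ℤ) f)) h
  simp only [map_add, map_mul, map_pow, PowerSeries.map_X, map_one,
    PowerSeries.rescale_neg_one_X] at h1
  change catS ^ 2 * -PowerSeries.X + 1 = catS at h1
  linear_combination -h1

lemma sq_eq : sq = 1 + 2 * PowerSeries.X * catS := by
  ext n
  cases n with
  | zero =>
    simp [sq, sqc]
  | succ n =>
    have e : (2 : PowerSeries ℤ) * PowerSeries.X * catS =
        PowerSeries.X * (PowerSeries.C (2 : ℤ) * catS) := by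
      have : (PowerSeries.C (2 : ℤ) : PowerSeries ℤ) = 2 := by simp
      rw [this]; ring
    rw [e, map_add, PowerSeries.coeff_succ_X_mul, PowerSeries.coeff_C_mul]
    simp [sq, sqc, catS, PowerSeries.coeff_one]
    ring

lemma sq_mul_sq : sq * sq = 1 + 4 * PowerSeries.X := by
  rw [sq_eq]
  linear_combination (4 * PowerSeries.X) * catS_eq

lemma sqc_abs_le (n : ℕ) : |sqc n| ≤ 4 ^ n := by
  cases n with
  | zero => simp [sqc]
  | succ n =>
    simp only [sqc, abs_mul, abs_pow, abs_neg, abs_one, one_pow, one_mul]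
    have h1 : catalan n ≤ 4 ^ n := by
      rw [catalan_eq_centralBinom_div]
      refine (Nat.div_le_self _ _).trans ?_
      unfold Nat.centralBinom
      calc (2 * n).choose n ≤ 2 ^ (2 * n) := Nat.choose_le_two_pow _ _
        _ = 4 ^ n := by rw [pow_mul]; norm_num
    have h2 : (catalan n : ℤ) ≤ 4 ^ n := by exact_mod_cast h1
    have h3 : |(catalan n : ℤ)| = catalan n := abs_of_nonneg (by positivity)
    rw [h3, pow_succ]
    norm_num
    nlinarith [pow_pos (by norm_num : (0 : ℤ) < 4) n]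

/-- truncation of `sqrt (1 + 4 T)` -/
noncomputable def St (k : ℕ) : ℤ[X] := PowerSeries.trunc k sq

lemma St_sub (k : ℕ) : (PowerSeries.X : PowerSeries ℤ) ^ k ∣ sq - (St k : PowerSeries ℤ) := by
  rw [PowerSeries.X_pow_dvd_iff]
  intro m hm
  rw [map_sub, Polynomial.coeff_coe, St, PowerSeries.coeff_trunc, if_pos hm, sub_self]

lemma St_natDegree_le (k : ℕ) : (St k).natDegree ≤ k - 1 := by
  rcases Nat.eq_zero_or_pos k with h | h
  · subst h; simp [St]
  · have := PowerSeries.natDegree_trunc_lt sq (k - 1)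
    rw [Nat.sub_add_cancel h] at this
    exact Nat.le_sub_one_of_lt this

lemma St_coeff (k n : ℕ) : (St k).coeff n = if n < k then sqc n else 0 := by
  rw [St, PowerSeries.coeff_trunc]
  simp [sq]

/-- The square of the truncation. -/
lemma St_sq (k : ℕ) (hk : 0 < k) : ∃ Q : ℤ[X], Q.natDegree ≤ k ∧ 1 + 4 * X - St k ^ 2 = X ^ k * Q := by
  have h1 : (PowerSeries.X : PowerSeries ℤ) ^ k ∣
      ((1 + 4 * X - St k ^ 2 : ℤ[X]) : PowerSeries ℤ) := by
    have e : ((1 + 4 * X - St k ^ 2 : ℤ[X]) : PowerSeries ℤ) =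
        (sq - (St k : PowerSeries ℤ)) * (sq + (St k : PowerSeries ℤ)) := by
      push_cast
      have h4 : ((4 : ℤ[X]) : PowerSeries ℤ) = 4 := by
        have := map_ofNat (Polynomial.coeToPowerSeries.ringHom (R := ℤ)) 4
        simpa using this
      rw [h4]
      linear_combination -sq_mul_sq
    rw [e]
    exact (St_sub k).mul_right _
  have h2 : (X : ℤ[X]) ^ k ∣ 1 + 4 * X - St k ^ 2 := by
    rw [Polynomial.X_pow_dvd_iff]
    intro d hd
    rw [PowerSeries.X_pow_dvd_iff] at h1
    have := h1 d hd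
    rwa [Polynomial.coeff_coe] at this
  obtain ⟨Q, hQ⟩ := h2
  refine ⟨Q, ?_, hQ⟩
  by_cases hQ0 : Q = 0
  · rw [hQ0]; simp
  have hd : (X ^ k * Q).natDegree = k + Q.natDegree := by
    rw [natDegree_mul (pow_ne_zero _ X_ne_zero) hQ0, natDegree_X_pow]
  have hd2 : (1 + 4 * X - St k ^ 2 : ℤ[X]).natDegree ≤ 2 * k := by
    refine (natDegree_sub_le _ _).trans (max_le ?_ ?_)
    · have : (1 + 4 * X : ℤ[X]).natDegree ≤ 1 := by compute_degree
      omega
    · refine natDegree_pow_le.trans ?_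
      have := St_natDegree_le k
      omega
  rw [hQ, hd] at hd2
  omega

section Fev

variable {R S : Type*} [CommRing R] [CommRing S]

lemma ev2_map (f : R →+* S) (x y : R) (p : ℤ[X][X]) : f (ev2 x y p) = ev2 (f x) (f y) p := by
  have : f.comp (ev2 x y) = ev2 (f x) (f y) := by
    apply Polynomial.ringHom_ext
    · intro a
      have h2 : (f.comp (ev2 x y)).comp (C : ℤ[X] →+* ℤ[X][X]) =
          (ev2 (f x) (f y)).comp (C : ℤ[X] →+* ℤ[X][X]) := by
        apply Polynomial.ringHom_ext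
        · intro n
          simp [ev2]
        · simp [ev2]
      exact DFunLike.congr_fun h2 a
    · simp [ev2]
  exact DFunLike.congr_fun this p

lemma Fev_map (f : R →+* S) (c : Finset (Fin 4) → ℤ[X][X]) (x y : R) (w : Fin 4 → R) :
    f (Fev c x y w) = Fev c (f x) (f y) (fun i => f (w i)) := by
  unfold Fev
  simp only [map_sum, map_mul, map_prod, ev2_map]

lemma Fev_congr (a : R) (c : Finset (Fin 4) → ℤ[X][X]) (x y : R) (w w' : Fin 4 → R)
    (h : ∀ i, a ∣ w i - w' i) : a ∣ Fev c x y w - Fev c x y w' := by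
  rw [← Ideal.mem_span_singleton, ← Ideal.Quotient.eq_zero_iff_mem, map_sub, sub_eq_zero,
    Fev_map, Fev_map]
  congr 1
  funext i
  rw [← sub_eq_zero, ← map_sub, Ideal.Quotient.eq_zero_iff_mem, Ideal.mem_span_singleton]
  exact h i

end Fev

section Qp

variable (γ b : Fin 4 → ℤ)

/-- `S_k(u_i T)` as a polynomial in `T` over `ℤ[X]`. -/
noncomputable def Sp (k : ℕ) (i : Fin 4) : ℤ[X][X] :=
  aeval (C (u γ b i) * (X : ℤ[X][X])) (St k)

/-- The polynomial `Fev` along the truncated branch. -/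
noncomputable def Qp (c : Finset (Fin 4) → ℤ[X][X]) (s : Fin 4 → ℤ) (k : ℕ) : ℤ[X][X] :=
  Fev c (C X) (C X + C (4 * G γ b) * X) (fun i => (s i : ℤ[X][X]) * (C (g γ b i) * Sp γ b k i))

lemma Sp_coe (p : ℤ[X]) (v : ℤ[X]) :
    PowerSeries.rescale v (PowerSeries.map (C : ℤ →+* ℤ[X]) (p : PowerSeries ℤ)) =
      ((aeval (C v * (X : ℤ[X][X])) p : ℤ[X][X]) : PowerSeries ℤ[X]) := by
  have h : ((PowerSeries.rescale v).comp (PowerSeries.map (C : ℤ →+* ℤ[X]))).comp
      (Polynomial.coeToPowerSeries.ringHom (R := ℤ)) =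
      (Polynomial.coeToPowerSeries.ringHom (R := ℤ[X])).comp
        (aeval (C v * (X : ℤ[X][X])) : ℤ[X] →ₐ[ℤ] ℤ[X][X]).toRingHom := by
    apply Polynomial.ringHom_ext
    · intro n
      simp
    · simp [PowerSeries.rescale_X]
  exact DFunLike.congr_fun h p

lemma Sp_dvd (k : ℕ) (i : Fin 4) : (PowerSeries.X : PowerSeries ℤ[X]) ^ k ∣
    PowerSeries.rescale (u γ b i) (PowerSeries.map (C : ℤ →+* ℤ[X]) sq) -
      (Sp γ b k i : PowerSeries ℤ[X]) := by
  rw [Sp, ← Sp_coe, ← map_sub, ← map_sub]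
  obtain ⟨R, hR⟩ := St_sub k
  rw [hR, map_mul, map_mul, map_pow, map_pow, PowerSeries.map_X, PowerSeries.rescale_X, mul_pow]
  exact ⟨PowerSeries.C (u γ b i) ^ k *
    PowerSeries.rescale (u γ b i) (PowerSeries.map (C : ℤ →+* ℤ[X]) R), by ring⟩

/-- The low coefficients of `Qp` vanish. -/
lemma Qp_dvd (c : Finset (Fin 4) → ℤ[X][X]) (s : Fin 4 → ℤ) (k : ℕ)
    (hv : Vanishes γ b c s k) : (X : ℤ[X][X]) ^ k ∣ Qp γ b c s k := by
  rw [Polynomial.X_pow_dvd_iff]
  intro d hd
  have h1 : (PowerSeries.X : PowerSeries ℤ[X]) ^ k ∣ (Qp γ b c s k : PowerSeries ℤ[X]) := by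
    have h2 := Fev_congr ((PowerSeries.X : PowerSeries ℤ[X]) ^ k) c xg (yg γ b)
      (fun i => (s i : PowerSeries ℤ[X]) * wg γ b i)
      (fun i => (s i : PowerSeries ℤ[X]) * (PowerSeries.C (g γ b i) *
        (Sp γ b k i : PowerSeries ℤ[X]))) (by
      intro i
      have e : (s i : PowerSeries ℤ[X]) * wg γ b i - (s i : PowerSeries ℤ[X]) *
          (PowerSeries.C (g γ b i) * (Sp γ b k i : PowerSeries ℤ[X])) =
          ((s i : PowerSeries ℤ[X]) * PowerSeries.C (g γ b i)) *
          (PowerSeries.rescale (u γ b i) (PowerSeries.map (C : ℤ →+* ℤ[X]) sq) -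
            (Sp γ b k i : PowerSeries ℤ[X])) := by
        unfold wg; ring
      rw [e]
      exact (Sp_dvd γ b k i).mul_left _)
    have h3 : (Qp γ b c s k : PowerSeries ℤ[X]) = Fev c xg (yg γ b)
        (fun i => (s i : PowerSeries ℤ[X]) * (PowerSeries.C (g γ b i) *
        (Sp γ b k i : PowerSeries ℤ[X]))) := by
      have := Fev_map (Polynomial.coeToPowerSeries.ringHom (R := ℤ[X])) c (C X)
        (C X + C (4 * G γ b) * X)
        (fun i => (s i : ℤ[X][X]) * (C (g γ b i) * Sp γ b k i))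
      rw [Qp]
      rw [← Polynomial.coeToPowerSeries.ringHom_apply, this]
      unfold xg yg
      congr 1
      · simp
      · simp
      · funext i
        rw [map_mul, map_intCast, map_mul]
        simp
    rw [h3]
    have := dvd_sub hv h2
    rwa [sub_sub_cancel] at this
  rw [PowerSeries.X_pow_dvd_iff] at h1
  have := h1 d hd
  rwa [Polynomial.coeff_coe] at this

end Qp

end Pool.Agent.Work.MP_36d6be_co_V
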