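import Pool.Agent.Work.MP_36d6be_co_V.FA

/-!
Block F, part B: weights of bivariate polynomials and integrality of their values.
-/

set_option autoImplicit false

namespace Pool.Agent.Work.MP_36d6be_co_V

open Polynomial Finset

/-- Weight bound: degree in `T` at most `d`, the coefficient of `T^m` has degree at most
`n + 3 m`. -/
def WB (n d : ℕ) (Q : ℤ[X][X]) : Prop := Q.natDegree ≤ d ∧ ∀ m, (Q.coeff m).natDegree ≤ n + 3 * m

lemma WB.mono {n d n' d' : ℕ} {Q : ℤ[X][X]} (h : WB n d Q) (hn : n ≤ n') (hd : d ≤ d') :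
    WB n' d' Q := ⟨h.1.trans hd, fun m => (h.2 m).trans (by omega)⟩

lemma WB.add {n d : ℕ} {Q Q' : ℤ[X][X]} (h : WB n d Q) (h' : WB n d Q') : WB n d (Q + Q') := by
  refine ⟨(natDegree_add_le _ _).trans (max_le h.1 h'.1), fun m => ?_⟩
  rw [coeff_add]
  exact (natDegree_add_le _ _).trans (max_le (h.2 m) (h'.2 m))

lemma WB.zero (n d : ℕ) : WB n d 0 := ⟨by simp, fun m => by simp⟩

lemma WB.sum {ι : Type*} (s : Finset ι) {n d : ℕ} (Q : ι → ℤ[X][X])
    (h : ∀ i ∈ s, WB n d (Q i)) : WB n d (∑ i ∈ s, Q i) := by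
  classical
  induction s using Finset.induction_on with
  | empty => simpa using WB.zero n d
  | insert a s ha ih =>
    rw [sum_insert ha]
    exact (h a (mem_insert_self a s)).add (ih fun i hi => h i (mem_insert_of_mem hi))

lemma WB.mul {n d n' d' : ℕ} {Q Q' : ℤ[X][X]} (h : WB n d Q) (h' : WB n' d' Q') :
    WB (n + n') (d + d') (Q * Q') := by
  refine ⟨natDegree_mul_le.trans (add_le_add h.1 h'.1), fun m => ?_⟩
  rw [coeff_mul]
  apply natDegree_sum_le_of_forall_le
  intro x hx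
  rw [HasAntidiagonal.mem_antidiagonal] at hx
  refine natDegree_mul_le.trans ?_
  have h1 := h.2 x.1
  have h2 := h'.2 x.2
  omega

lemma WB.C (a : ℤ[X]) (n : ℕ) (h : a.natDegree ≤ n) : WB n 0 (C a) := by
  refine ⟨by simp, fun m => ?_⟩
  rw [coeff_C]
  split_ifs
  · omega
  · simp

lemma WB.one : WB 0 0 1 := by
  have := WB.C 1 0 (by simp)
  simpa using this

lemma WB.pow {n d : ℕ} {Q : ℤ[X][X]} (h : WB n d Q) (k : ℕ) : WB (k * n) (k * d) (Q ^ k) := by
  induction k with
  | zero => simpa using WB.one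
  | succ k ih =>
    rw [pow_succ]
    exact (ih.mul h).mono (by rw [Nat.succ_mul]) (by rw [Nat.succ_mul])

lemma WB.prod {ι : Type*} (s : Finset ι) {n d : ℕ} (Q : ι → ℤ[X][X])
    (h : ∀ i ∈ s, WB n d (Q i)) : WB (s.card * n) (s.card * d) (∏ i ∈ s, Q i) := by
  classical
  induction s using Finset.induction_on with
  | empty => simpa using WB.one
  | insert a s ha ih =>
    rw [prod_insert ha, card_insert_of_notMem ha]
    refine ((h a (mem_insert_self a s)).mul (ih fun i hi => h i (mem_insert_of_mem hi))).mono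
      ?_ ?_
    · rw [Nat.succ_mul]; omega
    · rw [Nat.succ_mul]; omega

lemma WB.X : WB 0 1 (X : ℤ[X][X]) := by
  refine ⟨natDegree_X_le, fun m => ?_⟩
  rw [coeff_X]
  split_ifs <;> simp

lemma WB.intCast (n : ℤ) : WB 0 0 (n : ℤ[X][X]) := by
  have := WB.C (n : ℤ[X]) 0 (by simp)
  simpa using this

/-- the variable `T` with a coefficient of degree `3`. -/
lemma WB.CX (a : ℤ[X]) (h : a.natDegree ≤ 3) : WB 0 1 (Polynomial.C a * (Polynomial.X : ℤ[X][X])) := by
  refine ⟨(natDegree_C_mul_le _ _).trans natDegree_X_le, fun m => ?_⟩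
  rw [coeff_C_mul_X]
  split_ifs with h1
  · omega
  · simp

section evals

variable {S : Type*} [CommRing S]

lemma homEval (O : Subring S) (D : ℤ) (ξ : S) (h : (D : S) * ξ ∈ O) (Q : ℤ[X]) (n : ℕ)
    (hn : Q.natDegree ≤ n) : (D : S) ^ n * Q.eval₂ (Int.castRingHom S) ξ ∈ O := by
  rw [eval₂_eq_sum_range' (Int.castRingHom S) (Nat.lt_succ_of_le hn), mul_sum]
  apply Subring.sum_mem
  intro i hi
  rw [mem_range] at hi
  have e : (D : S) ^ n * ((Int.castRingHom S) (Q.coeff i) * ξ ^ i) =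
      (Q.coeff i : S) * (D : S) ^ (n - i) * ((D : S) * ξ) ^ i := by
    have : (D : S) ^ n = (D : S) ^ (n - i) * (D : S) ^ i := by
      rw [← pow_add]; congr 1; omega
    rw [this, mul_pow]
    simp only [eq_intCast]
    ring
  rw [e]
  exact O.mul_mem (O.mul_mem (intCast_mem O _) (O.pow_mem (intCast_mem O _) _))
    (O.pow_mem h _)

lemma ev2_eq_sum (x y : S) (Q : ℤ[X][X]) (d : ℕ) (hd : Q.natDegree ≤ d) :
    ev2 x y Q = ∑ m ∈ range (d + 1), (Q.coeff m).eval₂ (Int.castRingHom S) x * y ^ m := by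
  unfold ev2
  rw [coe_eval₂RingHom, eval₂_eq_sum_range' _ (Nat.lt_succ_of_le hd)]
  rfl

lemma ev2_C (x y : S) (a : ℤ[X]) : ev2 x y (C a) = a.eval₂ (Int.castRingHom S) x := by
  unfold ev2
  simp

lemma ev2_X (x y : S) : ev2 x y (X : ℤ[X][X]) = y := by
  unfold ev2
  simp

lemma homEval2 (O : Subring S) (D q : ℤ) (ξ ζ θ : S) (h1 : (D : S) * ξ ∈ O)
    (h2 : (q : S) * ζ = (D : S) ^ 3 * θ) (hθ : θ ∈ O) (Q : ℤ[X][X]) (n d k : ℕ)
    (hQ : WB n d Q) (hk : X ^ k ∣ Q) :
    ∃ H ∈ O, (D : S) ^ n * (q : S) ^ d * ev2 ξ ζ Q = θ ^ k * H := by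
  refine ⟨∑ m ∈ range (d + 1), if m < k then 0 else
    ((D : S) ^ (n + 3 * m) * (Q.coeff m).eval₂ (Int.castRingHom S) ξ) * (q : S) ^ (d - m) *
      θ ^ (m - k), ?_, ?_⟩
  · apply Subring.sum_mem
    intro m _
    split_ifs
    · exact O.zero_mem
    · exact O.mul_mem (O.mul_mem (homEval O D ξ h1 _ _ (hQ.2 m))
        (O.pow_mem (intCast_mem O _) _)) (O.pow_mem hθ _)
  · rw [ev2_eq_sum ξ ζ Q d hQ.1, mul_sum, mul_sum]
    apply sum_congr rfl
    intro m hm
    rw [mem_range] at hm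
    split_ifs with hmk
    · rw [X_pow_dvd_iff] at hk
      rw [hk m hmk]
      simp
    · have e1 : (q : S) ^ d = (q : S) ^ (d - m) * (q : S) ^ m := by
        rw [← pow_add]; congr 1; omega
      have e2 : θ ^ m = θ ^ k * θ ^ (m - k) := by
        rw [← pow_add]; congr 1; omega
      have e3 : (q : S) ^ m * ζ ^ m = (D : S) ^ (3 * m) * θ ^ m := by
        rw [← mul_pow, h2, mul_pow, ← pow_mul]
      calc (D : S) ^ n * (q : S) ^ d * ((Q.coeff m).eval₂ (Int.castRingHom S) ξ * ζ ^ m)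
          = (D : S) ^ n * (q : S) ^ (d - m) * (Q.coeff m).eval₂ (Int.castRingHom S) ξ *
            ((q : S) ^ m * ζ ^ m) := by rw [e1]; ring
        _ = _ := by rw [e3, e2, pow_add]; ring

end evals

section Qp

variable (γ b : Fin 4 → ℤ)

lemma g_natDegree (i : Fin 4) : (g γ b i).natDegree ≤ 1 := by
  unfold g
  refine natDegree_mul_le.trans ?_
  rw [natDegree_C, zero_add]
  exact natDegree_X_sub_C_le _

lemma prod_g_natDegree (s : Finset (Fin 4)) : (∏ l ∈ s, g γ b l).natDegree ≤ s.card := by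
  refine (natDegree_prod_le _ _).trans ?_
  calc ∑ i ∈ s, (g γ b i).natDegree ≤ ∑ _i ∈ s, 1 := sum_le_sum fun i _ => g_natDegree γ b i
    _ = s.card := by simp

lemma u_natDegree (i : Fin 4) : (u γ b i).natDegree ≤ 3 := by
  unfold u
  refine natDegree_mul_le.trans ?_
  rw [natDegree_C, zero_add]
  refine (prod_g_natDegree γ b _).trans ?_
  rw [card_erase_of_mem (mem_univ i)]
  simp

lemma G_natDegree : (4 * G γ b).natDegree ≤ 4 := by
  refine natDegree_mul_le.trans ?_
  have h1 : (4 : ℤ[X]).natDegree = 0 := natDegree_ofNat 4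
  rw [h1, zero_add]
  unfold G
  refine (prod_g_natDegree γ b _).trans ?_
  simp

lemma Sp_WB (k : ℕ) (i : Fin 4) : WB 0 k (Sp γ b k i) := by
  unfold Sp
  rw [aeval_def, eval₂_eq_sum_range' (n := k + 1) _ (by
    have := St_natDegree_le k; omega)]
  apply WB.sum
  intro n hn
  rw [mem_range] at hn
  have h1 := (WB.CX (u γ b i) (u_natDegree γ b i)).pow n
  have h2 := (WB.intCast ((St k).coeff n)).mul h1
  have e : (algebraMap ℤ ℤ[X][X]) ((St k).coeff n) = (((St k).coeff n : ℤ) : ℤ[X][X]) := by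
    simp
  rw [e]
  exact h2.mono (by omega) (by omega)

lemma Qp_WB (c : Finset (Fin 4) → ℤ[X][X]) (s : Fin 4 → ℤ) (k L1 L2 : ℕ)
    (hL1 : 0 < L1) (hL2 : 0 < L2)
    (h2 : ∀ I, (c I).natDegree < L2) (h1 : ∀ I j, ((c I).coeff j).natDegree < L1) :
    WB (L1 + L2 + 2) (L2 + 4 * k) (Qp γ b c s k) := by
  unfold Qp Fev
  apply WB.sum
  intro I _
  have hw : ∀ i ∈ I, WB 1 k ((s i : ℤ[X][X]) * (C (g γ b i) * Sp γ b k i)) := by
    intro i _
    have h3 := (WB.intCast (s i)).mul ((WB.C (g γ b i) 1 (g_natDegree γ b i)).mul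
      (Sp_WB γ b k i))
    exact h3.mono (by omega) (by omega)
  have hI : WB 4 (4 * k) (∏ i ∈ I, (s i : ℤ[X][X]) * (C (g γ b i) * Sp γ b k i)) := by
    refine (WB.prod I _ hw).mono ?_ ?_
    · have : I.card ≤ 4 := (card_le_univ I).trans (by simp)
      omega
    · have : I.card ≤ 4 := (card_le_univ I).trans (by simp)
      exact Nat.mul_le_mul_right k this
  have hY : WB 1 1 (C X + C (4 * G γ b) * X : ℤ[X][X]) := by
    constructor
    · refine (natDegree_add_le _ _).trans (max_le (by simp) ?_)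
      exact (natDegree_C_mul_le _ _).trans natDegree_X_le
    · intro m
      rw [coeff_add, coeff_C, coeff_C_mul_X]
      refine (natDegree_add_le _ _).trans (max_le ?_ ?_)
      · split_ifs
        · exact natDegree_X_le.trans (by omega)
        · simp
      · split_ifs with hm
        · exact (G_natDegree γ b).trans (by omega)
        · simp
  have hc : WB (L1 - 1 + (L2 - 1)) (L2 - 1)
      (ev2 (C X) (C X + C (4 * G γ b) * X : ℤ[X][X]) (c I)) := by
    rw [ev2_eq_sum _ _ (c I) (L2 - 1) (by have := h2 I; omega)]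
    apply WB.sum
    intro m hm
    rw [mem_range] at hm
    have e : (((c I).coeff m).eval₂ (Int.castRingHom ℤ[X][X]) (C X : ℤ[X][X])) =
        C ((c I).coeff m) := by
      have h4 : (eval₂RingHom (Int.castRingHom ℤ[X][X]) (C X : ℤ[X][X])) =
          (C : ℤ[X] →+* ℤ[X][X]) := by
        apply Polynomial.ringHom_ext
        · intro n; simp
        · simp
      exact DFunLike.congr_fun h4 _
    rw [e]
    have h5 := (WB.C ((c I).coeff m) (L1 - 1) (by have := h1 I m; omega)).mul (hY.pow m)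
    exact h5.mono (by omega) (by omega)
  exact (hc.mul hI).mono (by omega) (by omega)

end Qp

end Pool.Agent.Work.MP_36d6be_co_V
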