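import Pool.Agent.Work.MP_36d6be_co_V.FA
import Pool.Agent.Work.MP_36d6be_co_V.LocalG

/-!
Block F: definitions of the formal branch through a pair of points.
-/

set_option autoImplicit false

namespace Pool.Agent.Work.MP_36d6be_co_V

open Finset

variable {γ b : Fin 4 → ℤ}

/-- `A - b_i D` -/
def aI (P : IPt γ b) (i : Fin 4) : ℤ := P.A - b i * P.D

/-- scaling of the local parameter -/
def rho (P : IPt γ b) : ℤ := 4 * ∏ i, aI P i

/-- `D ∏_{l ≠ i} (A - b_l D)` -/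
def mI (P : IPt γ b) (i : Fin 4) : ℤ := P.D * ∏ l ∈ univ.erase i, aI P l

/-- `x + ρ t^p` -/
noncomputable def Xh (P : IPt γ b) (p : ℕ) : PowerSeries ℚ :=
  PowerSeries.C ((P.A : ℚ) / P.D) + PowerSeries.C (rho P : ℚ) * PowerSeries.X ^ p

/-- `sqrt (1 + 4 m_i t^p)`, an integral power series -/
noncomputable def fZ (P : IPt γ b) (p : ℕ) (hp : p ≠ 0) (i : Fin 4) : PowerSeries ℤ :=
  PowerSeries.expand p hp (PowerSeries.rescale (mI P i) sq)

/-- `sqrt (1 + 4 m_i t^p)` as a rational power series -/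
noncomputable def fS (P : IPt γ b) (p : ℕ) (hp : p ≠ 0) (i : Fin 4) : PowerSeries ℚ :=
  PowerSeries.map (Int.castRingHom ℚ) (fZ P p hp i)

/-- the branch of `w_i = sqrt (g_i(x) g_i(y))` -/
noncomputable def wh (P P' : IPt γ b) (p q : ℕ) (hp : p ≠ 0) (hq : q ≠ 0) (i : Fin 4) :
    PowerSeries ℚ :=
  PowerSeries.C ((P.Z i : ℚ) * P'.Z i / (P.D * P'.D)) * (fS P p hp i * fS P' q hq i)

/-- the auxiliary function on the branch -/
noncomputable def Fh (P P' : IPt γ b) (p q : ℕ) (hp : p ≠ 0) (hq : q ≠ 0)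
    (c : Finset (Fin 4) → Polynomial (Polynomial ℤ)) : PowerSeries ℚ :=
  Fev c (Xh P p) (Xh P' q) (wh P P' p q hp hq)

end Pool.Agent.Work.MP_36d6be_co_V
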