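import Pool.Agent.Work.MP_36d6be_co_V.FB
import Pool.Agent.Work.MP_36d6be_co_V.FDefs

/-!
Block F, part C: the branch, its local parameter and integrality.
-/

set_option autoImplicit false

namespace Pool.Agent.Work.MP_36d6be_co_V

open Finset

variable {γ b : Fin 4 → ℤ}

/-- Integral power series inside rational power series. -/
noncomputable def Oo : Subring (PowerSeries ℚ) := (PowerSeries.map (Int.castRingHom ℚ)).range

lemma map_mem_Oo (f : PowerSeries ℤ) : PowerSeries.map (Int.castRingHom ℚ) f ∈ Oo := ⟨f, rfl⟩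

lemma X_mem_Oo : (PowerSeries.X : PowerSeries ℚ) ∈ Oo :=
  ⟨PowerSeries.X, by simp⟩

lemma C_int (n : ℤ) : (PowerSeries.C ((n : ℤ) : ℚ) : PowerSeries ℚ) = (n : PowerSeries ℚ) := by
  simp

lemma int_ne {n : ℤ} (h : n ≠ 0) : (n : PowerSeries ℚ) ≠ 0 := by
  intro h0
  rw [← C_int, map_eq_zero_iff _ PowerSeries.C_injective] at h0
  exact h (by exact_mod_cast h0)

lemma fZ_sq (P : IPt γ b) (p : ℕ) (hp : p ≠ 0) (i : Fin 4) :
    fZ P p hp i ^ 2 = 1 + 4 * (mI P i : PowerSeries ℤ) * PowerSeries.X ^ p := by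
  unfold fZ
  rw [← map_pow, ← map_pow, pow_two, sq_mul_sq]
  simp only [map_add, map_one, map_mul, PowerSeries.rescale_X, PowerSeries.expand_X,
    PowerSeries.expand_C, map_ofNat]
  have : (PowerSeries.C (mI P i) : PowerSeries ℤ) = (mI P i : PowerSeries ℤ) := by simp
  rw [this]
  ring

/-- `1 + 4 m_i t^p` -/
noncomputable def Uo (P : IPt γ b) (p : ℕ) (i : Fin 4) : PowerSeries ℚ :=
  1 + 4 * (mI P i : PowerSeries ℚ) * PowerSeries.X ^ p

lemma fS_sq (P : IPt γ b) (p : ℕ) (hp : p ≠ 0) (i : Fin 4) : fS P p hp i ^ 2 = Uo P p i := by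
  unfold fS Uo
  rw [← map_pow, fZ_sq]
  simp [map_ofNat]

lemma Uo_mem (P : IPt γ b) (p : ℕ) (i : Fin 4) : Uo P p i ∈ Oo := by
  unfold Uo
  refine Oo.add_mem Oo.one_mem (Oo.mul_mem (Oo.mul_mem ?_ (intCast_mem _ _))
    (Oo.pow_mem X_mem_Oo _))
  exact ofNat_mem Oo 4

lemma Uo_inv (P : IPt γ b) (p : ℕ) (hp : p ≠ 0) (i : Fin 4) :
    ∃ V ∈ Oo, Uo P p i * V = 1 := by
  have h : IsUnit (1 + 4 * (mI P i : PowerSeries ℤ) * PowerSeries.X ^ p) := by
    rw [PowerSeries.isUnit_iff_constantCoeff]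
    simp [hp]
  obtain ⟨v, hv⟩ := h.exists_right_inv
  refine ⟨PowerSeries.map (Int.castRingHom ℚ) v, map_mem_Oo v, ?_⟩
  have := congrArg (PowerSeries.map (Int.castRingHom ℚ)) hv
  rw [map_mul, map_one] at this
  rw [← this]
  unfold Uo
  simp [map_ofNat]

lemma rho_eq (P : IPt γ b) (i : Fin 4) : rho P = 4 * (aI P i * ∏ l ∈ univ.erase i, aI P l) := by
  unfold rho
  rw [mul_prod_erase univ (aI P) (mem_univ i)]

lemma D_Xh (P : IPt γ b) (p : ℕ) : (P.D : PowerSeries ℚ) * Xh P p =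
    (P.A : PowerSeries ℚ) + (P.D : PowerSeries ℚ) * (rho P : PowerSeries ℚ) *
      PowerSeries.X ^ p := by
  unfold Xh
  have hD : (P.D : ℚ) ≠ 0 := by exact_mod_cast P.D_ne
  have h1 : (P.D : PowerSeries ℚ) * PowerSeries.C ((P.A : ℚ) / P.D) = (P.A : PowerSeries ℚ) := by
    rw [← C_int, ← C_int, ← map_mul]
    congr 1
    field_simp
  rw [mul_add, h1, C_int, mul_assoc]

lemma D_Xh_mem (P : IPt γ b) (p : ℕ) : (P.D : PowerSeries ℚ) * Xh P p ∈ Oo := by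
  rw [D_Xh]
  exact Oo.add_mem (intCast_mem _ _) (Oo.mul_mem (Oo.mul_mem (intCast_mem _ _) (intCast_mem _ _))
    (Oo.pow_mem X_mem_Oo _))

/-- `D (x - b_i) = a_i U_i` -/
lemma D_Xh_sub (P : IPt γ b) (p : ℕ) (i : Fin 4) :
    (P.D : PowerSeries ℚ) * (Xh P p - (b i : PowerSeries ℚ)) =
      (aI P i : PowerSeries ℚ) * Uo P p i := by
  rw [mul_sub, D_Xh, rho_eq P i]
  unfold Uo mI aI
  push_cast
  ring

/-- the value of `g_i` on the branch -/
noncomputable def gv (P : IPt γ b) (p : ℕ) (i : Fin 4) : PowerSeries ℚ :=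
  (g γ b i).eval₂ (Int.castRingHom (PowerSeries ℚ)) (Xh P p)

lemma gv_eq (P : IPt γ b) (p : ℕ) (i : Fin 4) :
    gv P p i = (γ i : PowerSeries ℚ) * (Xh P p - (b i : PowerSeries ℚ)) := by
  unfold gv g
  simp only [Polynomial.eval₂_mul, Polynomial.eval₂_sub, Polynomial.eval₂_C, Polynomial.eval₂_X]
  simp only [eq_intCast]

lemma D_gv (P : IPt γ b) (p : ℕ) (i : Fin 4) :
    (P.D : PowerSeries ℚ) * gv P p i =
      ((γ i * aI P i : ℤ) : PowerSeries ℚ) * Uo P p i := by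
  rw [gv_eq]
  have := D_Xh_sub P p i
  push_cast
  linear_combination (γ i : PowerSeries ℚ) * this

lemma aI_ne (P : IPt γ b) (i : Fin 4) : aI P i ≠ 0 := right_ne_zero_of_mul (P.g_ne i)

lemma Uo_ne (P : IPt γ b) (p : ℕ) (hp : p ≠ 0) (i : Fin 4) : Uo P p i ≠ 0 := by
  obtain ⟨V, -, hV⟩ := Uo_inv P p hp i
  intro h
  rw [h, zero_mul] at hV
  exact zero_ne_one hV

lemma gv_ne (P : IPt γ b) (p : ℕ) (hp : p ≠ 0) (i : Fin 4) : gv P p i ≠ 0 := by
  intro h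
  have := D_gv P p i
  rw [h, mul_zero] at this
  exact mul_ne_zero (int_ne (mul_ne_zero (P.γ_ne i) (aI_ne P i))) (Uo_ne P p hp i) this.symm

/-- `D D' ŵ_i = Z_i Z_i' f_i f_i'` -/
lemma DD_wh (P P' : IPt γ b) (p q : ℕ) (hp : p ≠ 0) (hq : q ≠ 0) (i : Fin 4) :
    (P.D : PowerSeries ℚ) * P'.D * wh P P' p q hp hq i =
      (P.Z i : PowerSeries ℚ) * P'.Z i * (fS P p hp i * fS P' q hq i) := by
  unfold wh
  have hD : (P.D : ℚ) ≠ 0 := by exact_mod_cast P.D_ne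
  have hD' : (P'.D : ℚ) ≠ 0 := by exact_mod_cast P'.D_ne
  have h1 : (P.D : PowerSeries ℚ) * P'.D * PowerSeries.C ((P.Z i : ℚ) * P'.Z i / (P.D * P'.D)) =
      (P.Z i : PowerSeries ℚ) * P'.Z i := by
    rw [← C_int, ← C_int, ← C_int, ← C_int, ← map_mul, ← map_mul, ← map_mul]
    congr 1
    field_simp
  rw [← mul_assoc, h1]

lemma wh_sq (P P' : IPt γ b) (p q : ℕ) (hp : p ≠ 0) (hq : q ≠ 0) (i : Fin 4) :
    wh P P' p q hp hq i ^ 2 = gv P p i * gv P' q i := by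
  have hDD : ((P.D : PowerSeries ℚ) * P'.D) ^ 2 ≠ 0 :=
    pow_ne_zero _ (mul_ne_zero (int_ne P.D_ne) (int_ne P'.D_ne))
  apply mul_left_cancel₀ hDD
  rw [← mul_pow, DD_wh, mul_pow, mul_pow, mul_pow, fS_sq, fS_sq]
  have h1 := D_gv P p i
  have h2 := D_gv P' q i
  have h3 : (P.Z i : PowerSeries ℚ) ^ 2 = (γ i : PowerSeries ℚ) * P.D * aI P i := by
    have := congrArg (Int.cast : ℤ → PowerSeries ℚ) (P.hZ i)
    unfold aI
    push_cast at this ⊢
    exact this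
  have h4 : (P'.Z i : PowerSeries ℚ) ^ 2 = (γ i : PowerSeries ℚ) * P'.D * aI P' i := by
    have := congrArg (Int.cast : ℤ → PowerSeries ℚ) (P'.hZ i)
    unfold aI
    push_cast at this ⊢
    exact this
  rw [h3, h4]
  have e : ((P.D : PowerSeries ℚ) * P'.D) ^ 2 * (gv P p i * gv P' q i) =
      (P.D : PowerSeries ℚ) * P'.D * ((P.D : PowerSeries ℚ) * gv P p i) *
        ((P'.D : PowerSeries ℚ) * gv P' q i) := by ring
  rw [e, h1, h2]
  push_cast
  ring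

section branch

variable (P P' : IPt γ b) (p q : ℕ)

/-- `D D' (Ŷ - X̂)` -/
noncomputable def om : PowerSeries ℚ := (P.D : PowerSeries ℚ) * P'.D * (Xh P' q - Xh P p)

lemma om_mem : om P P' p q ∈ Oo := by
  have e : om P P' p q = (P.D : PowerSeries ℚ) * ((P'.D : PowerSeries ℚ) * Xh P' q) -
      (P'.D : PowerSeries ℚ) * ((P.D : PowerSeries ℚ) * Xh P p) := by unfold om; ring
  rw [e]
  exact Oo.sub_mem (Oo.mul_mem (intCast_mem _ _) (D_Xh_mem P' q))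
    (Oo.mul_mem (intCast_mem _ _) (D_Xh_mem P p))

lemma om_const (hp : p ≠ 0) (hq : q ≠ 0) :
    PowerSeries.constantCoeff (om P P' p q) = (N0 P P' : ℚ) := by
  have hD : (P.D : ℚ) ≠ 0 := by exact_mod_cast P.D_ne
  have hD' : (P'.D : ℚ) ≠ 0 := by exact_mod_cast P'.D_ne
  unfold om Xh N0
  simp [hp, hq]
  field_simp

/-- `4 D' a_i` -/
def qI (P P' : IPt γ b) (i : Fin 4) : ℤ := 4 * P'.D * aI P i

/-- `4 D' ∏ γ_i a_i` -/
def q0 (P P' : IPt γ b) : ℤ := 4 * P'.D * ∏ i, (γ i * aI P i)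

lemma qI_ne (i : Fin 4) : qI P P' i ≠ 0 :=
  mul_ne_zero (mul_ne_zero (by norm_num) P'.D_ne) (aI_ne P i)

lemma q0_ne : q0 P P' ≠ 0 :=
  mul_ne_zero (mul_ne_zero (by norm_num) P'.D_ne) (prod_ne_zero_iff.2 fun i _ =>
    mul_ne_zero (P.γ_ne i) (aI_ne P i))

/-- Existence of the local parameters. -/
lemma exists_local (hp : p ≠ 0) : ∃ (V : Fin 4 → PowerSeries ℚ) (τ : Fin 4 → PowerSeries ℚ)
    (ζ θ : PowerSeries ℚ), (∀ i, V i ∈ Oo) ∧ (∀ i, Uo P p i * V i = 1) ∧ θ ∈ Oo ∧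
      (∀ i, (qI P P' i : PowerSeries ℚ) * τ i = om P P' p q * V i) ∧
      θ = om P P' p q * ∏ i, V i ∧
      (q0 P P' : PowerSeries ℚ) * ζ = (P.D : PowerSeries ℚ) ^ 3 * θ ∧
      (∀ i, 4 * (gv P p i * τ i) = (γ i : PowerSeries ℚ) * (Xh P' q - Xh P p)) ∧
      4 * (∏ i, gv P p i) * ζ = Xh P' q - Xh P p := by
  choose V hV hUV using Uo_inv P p hp
  have hdiv : ∀ (n : ℤ), n ≠ 0 → ∀ f : PowerSeries ℚ,
      ∃ g : PowerSeries ℚ, (n : PowerSeries ℚ) * g = f := by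
    intro n hn f
    refine ⟨PowerSeries.C ((n : ℚ)⁻¹) * f, ?_⟩
    rw [← mul_assoc, ← C_int, ← map_mul, mul_inv_cancel₀ (by exact_mod_cast hn), map_one, one_mul]
  choose τ hτ using fun i => hdiv (qI P P' i) (qI_ne P P' i) (om P P' p q * V i)
  obtain ⟨ζ, hζ⟩ := hdiv (q0 P P') (q0_ne P P')
    ((P.D : PowerSeries ℚ) ^ 3 * (om P P' p q * ∏ i, V i))
  refine ⟨V, τ, ζ, om P P' p q * ∏ i, V i, hV, hUV,
    Oo.mul_mem (om_mem P P' p q) (Oo.prod_mem fun i _ => hV i), hτ, rfl, hζ, ?_, ?_⟩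
  · intro i
    have h1 := D_gv P p i
    have h2 := hτ i
    have hDD : (P.D : PowerSeries ℚ) * P'.D ≠ 0 := mul_ne_zero (int_ne P.D_ne) (int_ne P'.D_ne)
    apply mul_left_cancel₀ hDD
    unfold qI at h2
    push_cast at h1 h2
    calc (P.D : PowerSeries ℚ) * P'.D * (4 * (gv P p i * τ i))
        = 4 * P'.D * ((P.D : PowerSeries ℚ) * gv P p i) * τ i := by ring
      _ = (γ i : PowerSeries ℚ) * Uo P p i * (4 * P'.D * aI P i * τ i) := by rw [h1]; ring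
      _ = (γ i : PowerSeries ℚ) * (Uo P p i * V i) * om P P' p q := by rw [h2]; ring
      _ = _ := by rw [hUV i]; unfold om; ring
  · have hDD : (P.D : PowerSeries ℚ) ^ 4 * P'.D ≠ 0 :=
      mul_ne_zero (pow_ne_zero _ (int_ne P.D_ne)) (int_ne P'.D_ne)
    apply mul_left_cancel₀ hDD
    have hprod : (P.D : PowerSeries ℚ) ^ 4 * ∏ i, gv P p i =
        (∏ i, ((γ i * aI P i : ℤ) : PowerSeries ℚ)) * ∏ i, Uo P p i := by
      rw [← prod_mul_distrib]
      have : (P.D : PowerSeries ℚ) ^ 4 = ∏ _i : Fin 4, (P.D : PowerSeries ℚ) := by simp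
      rw [this, ← prod_mul_distrib]
      exact prod_congr rfl fun i _ => D_gv P p i
    have hUVp : (∏ i, Uo P p i) * ∏ i, V i = 1 := by
      rw [← prod_mul_distrib]
      exact prod_eq_one fun i _ => hUV i
    have hζ' := hζ
    unfold q0 at hζ'
    push_cast at hζ' hprod
    calc (P.D : PowerSeries ℚ) ^ 4 * P'.D * (4 * (∏ i, gv P p i) * ζ)
        = 4 * P'.D * ((P.D : PowerSeries ℚ) ^ 4 * ∏ i, gv P p i) * ζ := by ring
      _ = (∏ i, Uo P p i) * (4 * P'.D * (∏ i, ((γ i : PowerSeries ℚ) * aI P i)) * ζ) := by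
          rw [hprod]; ring
      _ = ((∏ i, Uo P p i) * ∏ i, V i) * ((P.D : PowerSeries ℚ) ^ 3 * om P P' p q) := by
          rw [hζ']; ring
      _ = _ := by rw [hUVp]; unfold om; ring

end branch

end Pool.Agent.Work.MP_36d6be_co_V
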