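import Pool.Agent.Work.MP_36d6be_co_V.FC

/-!
Block F, part D: the main divisibility in the ring of integral power series.
-/

set_option autoImplicit false

namespace Pool.Agent.Work.MP_36d6be_co_V

open Finset

/-- Product differences. -/
lemma prod_diff {R : Type*} [CommRing R] (m : R) (α β : Fin 4 → R)
    (h : ∀ i, m ∣ α i ^ 2 - β i ^ 2) (I : Finset (Fin 4)) :
    m ∣ (∏ i ∈ I, α i - ∏ i ∈ I, β i) * ∏ i, (α i + β i) := by
  rw [← Ideal.mem_span_singleton, ← Ideal.Quotient.eq_zero_iff_mem]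
  have h' : ∀ i, Ideal.Quotient.mk (Ideal.span {m}) (α i) ^ 2 =
      Ideal.Quotient.mk (Ideal.span {m}) (β i) ^ 2 := by
    intro i
    rw [← sub_eq_zero, ← map_pow, ← map_pow, ← map_sub, Ideal.Quotient.eq_zero_iff_mem,
      Ideal.mem_span_singleton]
    exact h i
  rw [map_mul, map_sub, map_prod, map_prod, map_prod, sub_mul, sub_eq_zero]
  have e : ∀ f : Fin 4 → R, (∏ i ∈ I, Ideal.Quotient.mk (Ideal.span {m}) (f i)) *
      ∏ i, Ideal.Quotient.mk (Ideal.span {m}) (α i + β i) =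
      (∏ i ∈ I, (Ideal.Quotient.mk (Ideal.span {m}) (f i) *
        Ideal.Quotient.mk (Ideal.span {m}) (α i + β i))) *
      ∏ i ∈ univ \ I, Ideal.Quotient.mk (Ideal.span {m}) (α i + β i) := by
    intro f
    rw [prod_mul_distrib, mul_assoc, mul_comm (∏ i ∈ I, Ideal.Quotient.mk (Ideal.span {m})
      (α i + β i)), prod_sdiff (subset_univ I)]
  rw [e α, e β]
  congr 1
  apply prod_congr rfl
  intro i _
  rw [map_add]
  linear_combination h' i

variable {γ b : Fin 4 → ℤ}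

/-- scaled branch of `w_i` -/
noncomputable def al (P P' : IPt γ b) (p q : ℕ) (hp : p ≠ 0) (hq : q ≠ 0) (k : ℕ) (i : Fin 4) :
    PowerSeries ℚ :=
  (qI P P' i : PowerSeries ℚ) ^ k * ((P.D : PowerSeries ℚ) * P'.D * wh P P' p q hp hq i)

/-- scaled truncated branch -/
noncomputable def be (P P' : IPt γ b) (p : ℕ) (k : ℕ) (τ : Fin 4 → PowerSeries ℚ)
    (s : Fin 4 → ℤ) (i : Fin 4) : PowerSeries ℚ :=
  (qI P P' i : PowerSeries ℚ) ^ k * ((P.D : PowerSeries ℚ) * P'.D *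
    ((s i : PowerSeries ℚ) * (gv P p i *
      (St k).eval₂ (Int.castRingHom (PowerSeries ℚ)) (τ i))))

section

variable (P P' : IPt γ b) (p q : ℕ) (hp : p ≠ 0) (hq : q ≠ 0) (k : ℕ)
  (V τ : Fin 4 → PowerSeries ℚ)

lemma al_mem (i : Fin 4) : al P P' p q hp hq k i ∈ Oo := by
  unfold al
  rw [DD_wh]
  exact Oo.mul_mem (Oo.pow_mem (intCast_mem _ _) _) (Oo.mul_mem (Oo.mul_mem (intCast_mem _ _)
    (intCast_mem _ _)) (Oo.mul_mem (map_mem_Oo _) (map_mem_Oo _)))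

lemma be_mem (s : Fin 4 → ℤ) (i : Fin 4) (hV : V i ∈ Oo)
    (h1 : (qI P P' i : PowerSeries ℚ) * τ i = om P P' p q * V i) :
    be P P' p k τ s i ∈ Oo := by
  have e : be P P' p k τ s i = (P'.D : PowerSeries ℚ) * (s i : PowerSeries ℚ) *
      ((P.D : PowerSeries ℚ) * gv P p i) * ((qI P P' i : PowerSeries ℚ) ^ k *
        (St k).eval₂ (Int.castRingHom (PowerSeries ℚ)) (τ i)) := by
    unfold be; ring
  rw [e, D_gv]
  refine Oo.mul_mem (Oo.mul_mem (Oo.mul_mem (intCast_mem _ _) (intCast_mem _ _))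
    (Oo.mul_mem (intCast_mem _ _) (Uo_mem P p i))) ?_
  apply homEval Oo (qI P P' i) (τ i) _ (St k) k
  · have := St_natDegree_le k; omega
  · rw [h1]; exact Oo.mul_mem (om_mem P P' p q) hV

/-- the squares agree modulo `ω^k` -/
lemma al_sq_sub (hk : 0 < k) (s : Fin 4 → ℤ) (i : Fin 4) (hs : s i = 1 ∨ s i = -1)
    (hV : V i ∈ Oo)
    (h1 : (qI P P' i : PowerSeries ℚ) * τ i = om P P' p q * V i)
    (h2 : 4 * (gv P p i * τ i) = (γ i : PowerSeries ℚ) * (Xh P' q - Xh P p)) :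
    ∃ H ∈ Oo, al P P' p q hp hq k i ^ 2 - be P P' p k τ s i ^ 2 = om P P' p q ^ k * H := by
  obtain ⟨Q, hQ, hSt⟩ := St_sq k hk
  set E := Int.castRingHom (PowerSeries ℚ) with hE
  have h3 : (1 : PowerSeries ℚ) + 4 * τ i - (St k).eval₂ E (τ i) ^ 2 =
      τ i ^ k * Q.eval₂ E (τ i) := by
    have := congrArg (fun f => Polynomial.eval₂ E (τ i) f) hSt
    simpa [Polynomial.eval₂_sub, Polynomial.eval₂_add, Polynomial.eval₂_mul,
      Polynomial.eval₂_pow] using this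
  have hg' : gv P' q i = gv P p i * (1 + 4 * τ i) := by
    rw [gv_eq P' q i]
    have h5 := gv_eq P p i
    linear_combination -h5 - h2
  have hs2 : (s i : PowerSeries ℚ) ^ 2 = 1 := by
    rcases hs with h | h <;> rw [h] <;> simp
  have hQmem : (qI P P' i : PowerSeries ℚ) ^ k * Q.eval₂ E (τ i) ∈ Oo := by
    apply homEval Oo (qI P P' i) (τ i) _ Q k hQ
    rw [h1]; exact Oo.mul_mem (om_mem P P' p q) hV
  refine ⟨((P'.D : PowerSeries ℚ) * ((P.D : PowerSeries ℚ) * gv P p i)) ^ 2 * V i ^ k *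
    ((qI P P' i : PowerSeries ℚ) ^ k * Q.eval₂ E (τ i)), ?_, ?_⟩
  · rw [D_gv]
    exact Oo.mul_mem (Oo.mul_mem (Oo.pow_mem (Oo.mul_mem (intCast_mem _ _)
      (Oo.mul_mem (intCast_mem _ _) (Uo_mem P p i))) _) (Oo.pow_mem hV _)) hQmem
  · have h6 : (qI P P' i : PowerSeries ℚ) ^ k * τ i ^ k = om P P' p q ^ k * V i ^ k := by
      rw [← mul_pow, h1, mul_pow]
    unfold al be
    have h7 := wh_sq P P' p q hp hq i
    rw [hg'] at h7
    calc ((qI P P' i : PowerSeries ℚ) ^ k * ((P.D : PowerSeries ℚ) * P'.D *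
          wh P P' p q hp hq i)) ^ 2 - ((qI P P' i : PowerSeries ℚ) ^ k *
          ((P.D : PowerSeries ℚ) * P'.D * ((s i : PowerSeries ℚ) *
          (gv P p i * (St k).eval₂ E (τ i))))) ^ 2
        = ((qI P P' i : PowerSeries ℚ) ^ k * ((P.D : PowerSeries ℚ) * P'.D)) ^ 2 *
          (wh P P' p q hp hq i ^ 2 - (s i : PowerSeries ℚ) ^ 2 * gv P p i ^ 2 *
            (St k).eval₂ E (τ i) ^ 2) := by ring
      _ = ((qI P P' i : PowerSeries ℚ) ^ k * ((P.D : PowerSeries ℚ) * P'.D)) ^ 2 *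
          gv P p i ^ 2 * (1 + 4 * τ i - (St k).eval₂ E (τ i) ^ 2) := by
          rw [h7, hs2]; ring
      _ = ((qI P P' i : PowerSeries ℚ) ^ k * ((P.D : PowerSeries ℚ) * P'.D)) ^ 2 *
          gv P p i ^ 2 * (τ i ^ k * Q.eval₂ E (τ i)) := by rw [h3]
      _ = ((qI P P' i : PowerSeries ℚ) ^ k * τ i ^ k) * (qI P P' i : PowerSeries ℚ) ^ k *
          ((P.D : PowerSeries ℚ) * P'.D) ^ 2 * gv P p i ^ 2 * Q.eval₂ E (τ i) := by ring
      _ = _ := by rw [h6]; ring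

end

/-- Product differences in the subring. -/
lemma prod_diff_O (m : PowerSeries ℚ) (hm : m ∈ Oo) (α β : Fin 4 → PowerSeries ℚ)
    (hα : ∀ i, α i ∈ Oo) (hβ : ∀ i, β i ∈ Oo)
    (h : ∀ i, ∃ H ∈ Oo, α i ^ 2 - β i ^ 2 = m * H) (I : Finset (Fin 4)) :
    ∃ H ∈ Oo, (∏ i ∈ I, α i - ∏ i ∈ I, β i) * ∏ i, (α i + β i) = m * H := by
  have h1 := prod_diff (R := Oo) ⟨m, hm⟩ (fun i => ⟨α i, hα i⟩) (fun i => ⟨β i, hβ i⟩) (by
    intro i
    obtain ⟨H, hH, hHe⟩ := h i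
    exact ⟨⟨H, hH⟩, Subtype.ext (by push_cast; exact hHe)⟩) I
  obtain ⟨H, hH⟩ := h1
  refine ⟨H, H.2, ?_⟩
  have := congrArg (Subtype.val) hH
  push_cast at this
  exact this

open Polynomial

lemma homEval3 {S : Type*} [CommRing S] (O : Subring S) (D D' : ℤ) (ξ η : S)
    (h1 : (D : S) * ξ ∈ O) (h2 : (D' : S) * η ∈ O) (Q : ℤ[X][X]) (d1 d2 : ℕ)
    (hd2 : Q.natDegree ≤ d2) (hd1 : ∀ m, (Q.coeff m).natDegree ≤ d1) :
    (D : S) ^ d1 * (D' : S) ^ d2 * ev2 ξ η Q ∈ O := by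
  rw [ev2_eq_sum ξ η Q d2 hd2, mul_sum]
  apply Subring.sum_mem
  intro m hm
  rw [mem_range] at hm
  have e : (D : S) ^ d1 * (D' : S) ^ d2 * ((Q.coeff m).eval₂ (Int.castRingHom S) ξ * η ^ m) =
      ((D : S) ^ d1 * (Q.coeff m).eval₂ (Int.castRingHom S) ξ) *
      ((D' : S) ^ (d2 - m) * ((D' : S) * η) ^ m) := by
    have : (D' : S) ^ d2 = (D' : S) ^ (d2 - m) * (D' : S) ^ m := by
      rw [← pow_add]; congr 1; omega
    rw [this, mul_pow]; ring
  rw [e]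
  exact O.mul_mem (homEval O D ξ h1 _ _ (hd1 m)) (O.mul_mem (O.pow_mem (intCast_mem O _) _)
    (O.pow_mem h2 _))

/-- Specialisation of `Qp`. -/
lemma ev2_Qp (P P' : IPt γ b) (p q : ℕ) (hp : p ≠ 0) (k : ℕ) (c : Finset (Fin 4) → ℤ[X][X])
    (s : Fin 4 → ℤ) (τ : Fin 4 → PowerSeries ℚ) (ζ : PowerSeries ℚ)
    (h1 : ∀ i, 4 * (gv P p i * τ i) = (γ i : PowerSeries ℚ) * (Xh P' q - Xh P p))
    (h2 : 4 * (∏ i, gv P p i) * ζ = Xh P' q - Xh P p) :
    ev2 (Xh P p) ζ (Qp γ b c s k) = Fev c (Xh P p) (Xh P' q) (fun i =>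
      (s i : PowerSeries ℚ) * (gv P p i *
        (St k).eval₂ (Int.castRingHom (PowerSeries ℚ)) (τ i))) := by
  have h4 : (4 : PowerSeries ℚ) ≠ 0 := by
    have := int_ne (by norm_num : (4 : ℤ) ≠ 0)
    exact_mod_cast this
  unfold Qp
  rw [Fev_map]
  congr 1
  · rw [ev2_C, eval₂_X]
  · rw [map_add, map_mul, ev2_C, ev2_C, ev2_X, eval₂_X, eval₂_mul, G, eval₂_finsetProd]
    have e : (4 : ℤ[X]).eval₂ (Int.castRingHom (PowerSeries ℚ)) (Xh P p) = 4 := by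
      have := map_ofNat (eval₂RingHom (Int.castRingHom (PowerSeries ℚ)) (Xh P p)) 4
      simpa using this
    rw [e]
    change Xh P p + 4 * (∏ i, gv P p i) * ζ = Xh P' q
    rw [h2]; ring
  · funext i
    rw [map_mul, map_mul, map_intCast, ev2_C]
    congr 2
    unfold Sp
    have hu : (u γ b i).eval₂ (Int.castRingHom (PowerSeries ℚ)) (Xh P p) * ζ = τ i := by
      have h5 : 4 * gv P p i ≠ 0 := mul_ne_zero h4 (gv_ne P p hp i)
      apply mul_left_cancel₀ h5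
      have e1 : (u γ b i).eval₂ (Int.castRingHom (PowerSeries ℚ)) (Xh P p) =
          (γ i : PowerSeries ℚ) * ∏ l ∈ univ.erase i, gv P p l := by
        unfold u
        rw [eval₂_mul, eval₂_C, eval₂_finsetProd]
        rfl
      have e2 : gv P p i * ∏ l ∈ univ.erase i, gv P p l = ∏ l, gv P p l :=
        mul_prod_erase univ (fun l => gv P p l) (mem_univ i)
      rw [e1]
      have h6 := h1 i
      linear_combination (4 * (γ i : PowerSeries ℚ) * ζ) * e2 + (γ i : PowerSeries ℚ) * h2 - h6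
    have e3 : ev2 (Xh P p) ζ (C (u γ b i) * (X : ℤ[X][X])) = τ i := by
      rw [map_mul, ev2_C, ev2_X, hu]
    have e4 := Polynomial.hom_eval₂ (St k) (algebraMap ℤ ℤ[X][X]) (ev2 (Xh P p) ζ)
      (C (u γ b i) * (X : ℤ[X][X]))
    rw [aeval_def, e4, e3]
    congr 1
    exact RingHom.ext_int _ _

/-- The main divisibility: the auxiliary function on the branch, multiplied by explicit factors,
is divisible by `ω^k`. -/
theorem main_dvd (P P' : IPt γ b) (p q : ℕ) (hp : p ≠ 0) (hq : q ≠ 0) (k L1 L2 : ℕ)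
    (hk : 0 < k) (hL1 : 0 < L1) (hL2 : 0 < L2) (c : Finset (Fin 4) → ℤ[X][X])
    (h2 : ∀ I, (c I).natDegree < L2) (h1 : ∀ I j, ((c I).coeff j).natDegree < L1)
    (s : Fin 4 → ℤ) (hs : ∀ i, s i = 1 ∨ s i = -1) (hv : Vanishes γ b c s k) :
    ∃ (τ : Fin 4 → PowerSeries ℚ) (V : Fin 4 → PowerSeries ℚ), (∀ i, V i ∈ Oo) ∧
      (∀ i, (qI P P' i : PowerSeries ℚ) * τ i = om P P' p q * V i) ∧
      (∀ i, Uo P p i * V i = 1) ∧
      ∃ H ∈ Oo, (P.D : PowerSeries ℚ) ^ (L1 + L2 + 2) * (P'.D : PowerSeries ℚ) ^ (L2 + 3) *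
        (q0 P P' : PowerSeries ℚ) ^ (L2 + 4 * k) * (∏ i, (qI P P' i : PowerSeries ℚ) ^ k) *
        Fh P P' p q hp hq c * ∏ i, (al P P' p q hp hq k i + be P P' p k τ s i) =
        om P P' p q ^ k * H := by
  obtain ⟨V, τ, ζ, θ, hV, hUV, hθ, hτ, hθe, hζ, hg, hG⟩ := exists_local P P' p q hp
  refine ⟨τ, V, hV, hτ, hUV, ?_⟩
  set D : PowerSeries ℚ := (P.D : PowerSeries ℚ) with hD
  set D' : PowerSeries ℚ := (P'.D : PowerSeries ℚ) with hD'
  set Q0 : PowerSeries ℚ := (q0 P P' : PowerSeries ℚ) with hQ0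
  set Pi : PowerSeries ℚ := ∏ i, (al P P' p q hp hq k i + be P P' p k τ s i) with hPi
  set Qk : PowerSeries ℚ := ∏ i, (qI P P' i : PowerSeries ℚ) ^ k with hQk
  have hal := fun i => al_mem P P' p q hp hq k i
  have hbe := fun i => be_mem P P' p q k V τ s i (hV i) (hτ i)
  have hPiO : Pi ∈ Oo := Oo.prod_mem fun i _ => Oo.add_mem (hal i) (hbe i)
  -- the truncated branch
  obtain ⟨H1, hH1, hH1e⟩ := homEval2 Oo P.D (q0 P P') (Xh P p) ζ θ (D_Xh_mem P p) hζ hθ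
    (Qp γ b c s k) (L1 + L2 + 2) (L2 + 4 * k) k (Qp_WB γ b c s k L1 L2 hL1 hL2 h2 h1)
    (Qp_dvd γ b c s k hv)
  rw [ev2_Qp P P' p q hp k c s τ ζ hg hG] at hH1e
  set wb : Fin 4 → PowerSeries ℚ := fun i => (s i : PowerSeries ℚ) * (gv P p i *
        (St k).eval₂ (Int.castRingHom (PowerSeries ℚ)) (τ i)) with hwb
  -- coefficients
  have hcoef : ∀ I : Finset (Fin 4), ∃ c' ∈ Oo, ∀ w : Fin 4 → PowerSeries ℚ,
      D ^ (L1 + L2 + 2) * D' ^ (L2 + 3) * Q0 ^ (L2 + 4 * k) * Qk *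
        (ev2 (Xh P p) (Xh P' q) (c I) * ∏ i ∈ I, w i) =
      c' * ∏ i ∈ I, ((qI P P' i : PowerSeries ℚ) ^ k * (D * D' * w i)) := by
    intro I
    have hI : I.card ≤ 4 := (card_le_univ I).trans (by simp)
    refine ⟨(D ^ (L2 + 3 - I.card) * D' ^ (4 - I.card) * Q0 ^ (L2 + 4 * k) *
      (∏ i ∈ univ \ I, (qI P P' i : PowerSeries ℚ) ^ k)) *
      (D ^ (L1 - 1) * D' ^ (L2 - 1) * ev2 (Xh P p) (Xh P' q) (c I)), ?_, ?_⟩
    · refine Oo.mul_mem (Oo.mul_mem (Oo.mul_mem (Oo.mul_mem (Oo.pow_mem (intCast_mem _ _) _)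
        (Oo.pow_mem (intCast_mem _ _) _)) (Oo.pow_mem (intCast_mem _ _) _))
        (Oo.prod_mem fun i _ => Oo.pow_mem (intCast_mem _ _) _)) ?_
      apply homEval3 Oo P.D P'.D _ _ (D_Xh_mem P p) (D_Xh_mem P' q)
      · have := h2 I; omega
      · intro m; have := h1 I m; omega
    · intro w
      rw [prod_mul_distrib, prod_mul_distrib, prod_const]
      have e1 : Qk = (∏ i ∈ univ \ I, (qI P P' i : PowerSeries ℚ) ^ k) *
          ∏ i ∈ I, (qI P P' i : PowerSeries ℚ) ^ k := by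
        rw [hQk, prod_sdiff (subset_univ I)]
      have e2 : D ^ (L1 + L2 + 2) = D ^ (L2 + 3 - I.card) * D ^ (L1 - 1) * D ^ I.card := by
        rw [← pow_add, ← pow_add]; congr 1; omega
      have e3 : D' ^ (L2 + 3) = D' ^ (4 - I.card) * D' ^ (L2 - 1) * D' ^ I.card := by
        rw [← pow_add, ← pow_add]; congr 1; omega
      rw [e1, e2, e3, mul_pow]
      ring
  choose c' hc' hc'e using hcoef
  -- differences
  have hdiff := fun I => prod_diff_O (om P P' p q ^ k) (Oo.pow_mem (om_mem P P' p q) _)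
    (al P P' p q hp hq k) (be P P' p k τ s) hal hbe
    (fun i => al_sq_sub P P' p q hp hq k V τ hk s i (hs i) (hV i) (hτ i) (hg i)) I
  choose H2 hH2 hH2e using hdiff
  refine ⟨D' ^ (L2 + 3) * Qk * ((∏ i, V i) ^ k * H1) * Pi + ∑ I, c' I * H2 I, ?_, ?_⟩
  · refine Oo.add_mem (Oo.mul_mem (Oo.mul_mem (Oo.mul_mem (Oo.pow_mem (intCast_mem _ _) _) ?_)
      (Oo.mul_mem (Oo.pow_mem (Oo.prod_mem fun i _ => hV i) _) hH1)) hPiO)
      (Oo.sum_mem fun I _ => Oo.mul_mem (hc' I) (hH2 I))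
    exact Oo.prod_mem fun i _ => Oo.pow_mem (intCast_mem _ _) _
  · -- expansion of both values
    have hF : ∀ w : Fin 4 → PowerSeries ℚ,
        D ^ (L1 + L2 + 2) * D' ^ (L2 + 3) * Q0 ^ (L2 + 4 * k) * Qk *
          Fev c (Xh P p) (Xh P' q) w =
        ∑ I, c' I * ∏ i ∈ I, ((qI P P' i : PowerSeries ℚ) ^ k * (D * D' * w i)) := by
      intro w
      unfold Fev
      rw [mul_sum]
      exact sum_congr rfl fun I _ => hc'e I w
    have hF1 := hF (wh P P' p q hp hq)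
    have hF2 := hF wb
    have e1 : D ^ (L1 + L2 + 2) * D' ^ (L2 + 3) * Q0 ^ (L2 + 4 * k) * Qk *
        Fh P P' p q hp hq c * Pi =
        D ^ (L1 + L2 + 2) * D' ^ (L2 + 3) * Q0 ^ (L2 + 4 * k) * Qk *
          Fev c (Xh P p) (Xh P' q) wb * Pi +
        ∑ I, c' I * ((∏ i ∈ I, al P P' p q hp hq k i - ∏ i ∈ I, be P P' p k τ s i) * Pi) := by
      unfold Fh
      rw [hF1, hF2, sum_mul, sum_mul, ← sum_add_distrib]
      apply sum_congr rfl
      intro I _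
      unfold al be
      ring
    rw [e1]
    have e2 : D ^ (L1 + L2 + 2) * D' ^ (L2 + 3) * Q0 ^ (L2 + 4 * k) * Qk *
          Fev c (Xh P p) (Xh P' q) wb * Pi =
        om P P' p q ^ k * (D' ^ (L2 + 3) * Qk * ((∏ i, V i) ^ k * H1) * Pi) := by
      calc _ = D' ^ (L2 + 3) * Qk * (D ^ (L1 + L2 + 2) * Q0 ^ (L2 + 4 * k) *
          Fev c (Xh P p) (Xh P' q) wb) * Pi := by ring
        _ = _ := by rw [hH1e, hθe]; ring
    rw [e2, mul_add, mul_sum]
    congr 1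
    apply sum_congr rfl
    intro I _
    rw [hH2e I]
    ring

end Pool.Agent.Work.MP_36d6be_co_V
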