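import Pool.Agent.Work.MP_36d6be_co_V.FD

/-!
Block F, part E: leading coefficients and valuations.
-/

set_option autoImplicit false

namespace Pool.Agent.Work.MP_36d6be_co_V

open Finset

/-- Leading (lowest) coefficient of a power series. -/
noncomputable def lcQ (f : PowerSeries ℚ) : ℚ :=
  PowerSeries.constantCoeff (PowerSeries.divXPowOrder f)

lemma lcQ_mul (f g : PowerSeries ℚ) : lcQ (f * g) = lcQ f * lcQ g := by
  unfold lcQ; rw [PowerSeries.divXPowOrder_mul, map_mul]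

lemma lcQ_pow (f : PowerSeries ℚ) (n : ℕ) : lcQ (f ^ n) = lcQ f ^ n := by
  unfold lcQ; rw [PowerSeries.divXPowOrder_pow, map_pow]

lemma lcQ_prod {ι : Type*} (s : Finset ι) (f : ι → PowerSeries ℚ) :
    lcQ (∏ i ∈ s, f i) = ∏ i ∈ s, lcQ (f i) := by
  unfold lcQ; rw [PowerSeries.divXPowOrder_prod, map_prod]

lemma lcQ_eq_coeff (f : PowerSeries ℚ) : lcQ f = PowerSeries.coeff f.order.toNat f := by
  unfold lcQ; exact PowerSeries.constantCoeff_divXPowOrder

lemma lcQ_ne {f : PowerSeries ℚ} (hf : f ≠ 0) : lcQ f ≠ 0 := by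
  rw [lcQ_eq_coeff]; exact PowerSeries.coeff_order hf

lemma lcQ_of_const {f : PowerSeries ℚ} (h : PowerSeries.constantCoeff f ≠ 0) :
    lcQ f = PowerSeries.constantCoeff f := by
  have h0 : f.order = 0 := by
    have : f.order ≤ ((0 : ℕ) : ℕ∞) :=
      PowerSeries.order_le 0 (by rwa [PowerSeries.coeff_zero_eq_constantCoeff])
    exact le_antisymm this zero_le
  rw [lcQ_eq_coeff, h0]
  simp

lemma lcQ_int (n : ℤ) : lcQ (n : PowerSeries ℚ) = n := by
  by_cases h : n = 0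
  · subst h; simp [lcQ]
  · rw [lcQ_of_const] <;> simp [h]

lemma lcQ_mem {f : PowerSeries ℚ} (hf : f ∈ Oo) : ∃ n : ℤ, lcQ f = n := by
  obtain ⟨g, rfl⟩ := hf
  rw [lcQ_eq_coeff, PowerSeries.coeff_map]
  exact ⟨_, rfl⟩

variable {γ b : Fin 4 → ℤ}

open Polynomial in
lemma Fh_mem (P P' : IPt γ b) (p q : ℕ) (hp : p ≠ 0) (hq : q ≠ 0) (L1 L2 : ℕ)
    (hL1 : 0 < L1) (hL2 : 0 < L2) (c : Finset (Fin 4) → ℤ[X][X])
    (h2 : ∀ I, (c I).natDegree < L2) (h1 : ∀ I j, ((c I).coeff j).natDegree < L1) :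
    (P.D : PowerSeries ℚ) ^ (L1 + 3) * (P'.D : PowerSeries ℚ) ^ (L2 + 3) *
      Fh P P' p q hp hq c ∈ Oo := by
  unfold Fh Fev
  rw [mul_sum]
  apply Oo.sum_mem
  intro I _
  have hI : I.card ≤ 4 := (card_le_univ I).trans (by simp)
  have e : (P.D : PowerSeries ℚ) ^ (L1 + 3) * (P'.D : PowerSeries ℚ) ^ (L2 + 3) *
      (ev2 (Xh P p) (Xh P' q) (c I) * ∏ i ∈ I, wh P P' p q hp hq i) =
      ((P.D : PowerSeries ℚ) ^ (4 - I.card) * (P'.D : PowerSeries ℚ) ^ (4 - I.card)) *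
      ((P.D : PowerSeries ℚ) ^ (L1 - 1) * (P'.D : PowerSeries ℚ) ^ (L2 - 1) *
        ev2 (Xh P p) (Xh P' q) (c I)) *
      ∏ i ∈ I, ((P.D : PowerSeries ℚ) * P'.D * wh P P' p q hp hq i) := by
    rw [prod_mul_distrib, prod_const, mul_pow]
    have e2 : (P.D : PowerSeries ℚ) ^ (L1 + 3) = (P.D : PowerSeries ℚ) ^ (4 - I.card) *
        (P.D : PowerSeries ℚ) ^ (L1 - 1) * (P.D : PowerSeries ℚ) ^ I.card := by
      rw [← pow_add, ← pow_add]; congr 1; omega
    have e3 : (P'.D : PowerSeries ℚ) ^ (L2 + 3) = (P'.D : PowerSeries ℚ) ^ (4 - I.card) *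
        (P'.D : PowerSeries ℚ) ^ (L2 - 1) * (P'.D : PowerSeries ℚ) ^ I.card := by
      rw [← pow_add, ← pow_add]; congr 1; omega
    rw [e2, e3]
    ring
  rw [e]
  refine Oo.mul_mem (Oo.mul_mem (Oo.mul_mem (Oo.pow_mem (intCast_mem _ _) _)
    (Oo.pow_mem (intCast_mem _ _) _)) ?_) (Oo.prod_mem fun i _ => ?_)
  · apply homEval3 Oo P.D P'.D _ _ (D_Xh_mem P p) (D_Xh_mem P' q)
    · have := h2 I; omega
    · intro m; have := h1 I m; omega
  · rw [DD_wh]
    exact Oo.mul_mem (Oo.mul_mem (intCast_mem _ _)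
      (intCast_mem _ _)) (Oo.mul_mem (map_mem_Oo _) (map_mem_Oo _))

lemma fS_const (P : IPt γ b) (p : ℕ) (hp : p ≠ 0) (i : Fin 4) :
    PowerSeries.constantCoeff (fS P p hp i) = 1 := by
  unfold fS fZ
  rw [← PowerSeries.coeff_zero_eq_constantCoeff_apply, PowerSeries.coeff_map,
    PowerSeries.coeff_zero_eq_constantCoeff_apply, PowerSeries.constantCoeff_expand,
    ← PowerSeries.coeff_zero_eq_constantCoeff_apply, PowerSeries.coeff_rescale]
  simp [sq, sqc]

lemma Uo_const (P : IPt γ b) (p : ℕ) (hp : p ≠ 0) (i : Fin 4) :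
    PowerSeries.constantCoeff (Uo P p i) = 1 := by
  unfold Uo
  simp [hp]

/-- The integer `q^k S_k(N/q)`. -/
def sig (k : ℕ) (N q : ℤ) : ℤ := ∑ n ∈ range k, sqc n * N ^ n * q ^ (k - n)

lemma sig_eval (k : ℕ) (N q : ℤ) (τ : ℚ) (h : (q : ℚ) * τ = N) :
    (q : ℚ) ^ k * (St k).eval₂ (Int.castRingHom ℚ) τ = sig k N q := by
  rw [Polynomial.eval₂_eq_sum_range' (n := k + 1) _ (by
    have := St_natDegree_le k; omega), sum_range_succ, St_coeff, if_neg (lt_irrefl k)]
  unfold sig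
  push_cast
  rw [map_zero, zero_mul, add_zero, mul_sum]
  apply sum_congr rfl
  intro n hn
  rw [mem_range] at hn
  rw [St_coeff, if_pos hn]
  have : (q : ℚ) ^ k = (q : ℚ) ^ (k - n) * (q : ℚ) ^ n := by
    rw [← pow_add]; congr 1; omega
  rw [this, ← h]
  simp only [eq_intCast]
  ring

/-- `constantCoeff` of the truncated branch and of the branch -/
lemma const_add (P P' : IPt γ b) (p q : ℕ) (hp : p ≠ 0) (hq : q ≠ 0) (k : ℕ)
    (V τ : Fin 4 → PowerSeries ℚ) (s : Fin 4 → ℤ) (i : Fin 4)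
    (h1 : (qI P P' i : PowerSeries ℚ) * τ i = om P P' p q * V i)
    (h2 : Uo P p i * V i = 1) :
    PowerSeries.constantCoeff (al P P' p q hp hq k i + be P P' p k τ s i) =
      ((qI P P' i ^ k * (P.Z i * P'.Z i) + s i * (γ i * P'.D * aI P i) *
        sig k (N0 P P') (qI P P' i) : ℤ) : ℚ) := by
  have hV : PowerSeries.constantCoeff (V i) = 1 := by
    have := congrArg PowerSeries.constantCoeff h2
    rwa [map_mul, Uo_const P p hp i, one_mul, map_one] at this
  have hτ : (qI P P' i : ℚ) * PowerSeries.constantCoeff (τ i) = (N0 P P' : ℤ) := by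
    have := congrArg PowerSeries.constantCoeff h1
    rw [map_mul, map_mul, om_const P P' p q hp hq, hV, mul_one, map_intCast] at this
    exact this
  have hg : (P.D : ℚ) * PowerSeries.constantCoeff (gv P p i) = γ i * aI P i := by
    have := congrArg PowerSeries.constantCoeff (D_gv P p i)
    rw [map_mul, map_mul, Uo_const P p hp i, mul_one, map_intCast, map_intCast] at this
    rw [this]; push_cast; rfl
  have hSt : PowerSeries.constantCoeff ((St k).eval₂ (Int.castRingHom (PowerSeries ℚ)) (τ i)) =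
      (St k).eval₂ (Int.castRingHom ℚ) (PowerSeries.constantCoeff (τ i)) := by
    rw [Polynomial.hom_eval₂]
    congr 1
    exact RingHom.ext_int _ _
  rw [map_add]
  unfold al be
  rw [DD_wh]
  simp only [map_mul, map_pow, map_intCast, fS_const P p hp i, fS_const P' q hq i, hSt]
  have hs := sig_eval k (N0 P P') (qI P P' i) _ hτ
  push_cast
  rw [← hs]
  linear_combination ((qI P P' i : ℚ) ^ k * P'.D * s i *
    (St k).eval₂ (Int.castRingHom ℚ) (PowerSeries.constantCoeff (τ i))) * hg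

end Pool.Agent.Work.MP_36d6be_co_V
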