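import Pool.Agent.Work.MP_36d6be_co_V.FE

/-!
Block F, part F: the valuation estimate at good primes.
-/

set_option autoImplicit false

namespace Pool.Agent.Work.MP_36d6be_co_V

open Finset

lemma sig_sub (p : ℤ) (v w k : ℕ) (N q : ℤ) (hN : p ^ v ∣ N) (hq : p ^ w ∣ q) (hvw : w ≤ v)
    (hk : 0 < k) : p ^ ((k - 1) * w + v) ∣ sig k N q - q ^ k := by
  obtain ⟨k', rfl⟩ : ∃ k', k = k' + 1 := ⟨k - 1, by omega⟩
  unfold sig
  rw [sum_range_succ']
  have e0 : sqc 0 * N ^ 0 * q ^ (k' + 1 - 0) = q ^ (k' + 1) := by simp [sqc]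
  rw [e0, add_sub_cancel_right]
  apply dvd_sum
  intro n hn
  rw [mem_range] at hn
  obtain ⟨m, rfl⟩ : ∃ m, k' = n + m := ⟨k' - n, by omega⟩
  have e1 : n + m + 1 - (n + 1) = m := by omega
  have e2 : n + m + 1 - 1 = n + m := by omega
  rw [e1, e2]
  have h1 : p ^ ((n + m) * w + v) ∣ p ^ (v * (n + 1)) * p ^ (w * m) := by
    rw [← pow_add]
    apply pow_dvd_pow
    have : n * w ≤ n * v := Nat.mul_le_mul_left n hvw
    nlinarith
  refine h1.trans (mul_dvd_mul ?_ ?_)
  · rw [pow_mul]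
    exact (pow_dvd_pow_of_dvd hN _).mul_left _
  · rw [pow_mul]
    exact pow_dvd_pow_of_dvd hq _

variable {γ b : Fin 4 → ℤ} {P P' : IPt γ b} {p : ℕ}

/-- the constant term of the sum of the branches, scaled -/
def ka (P P' : IPt γ b) (k : ℕ) (s : Fin 4 → ℤ) (i : Fin 4) : ℤ :=
  qI P P' i ^ k * (P.Z i * P'.Z i) + s i * (γ i * P'.D * aI P i) *
        sig k (N0 P P') (qI P P' i)

lemma v_qI (P P' : IPt γ b) (p : ℕ) [Fact p.Prime] (i : Fin 4) :
    padicValInt p (qI P P' i) = padicValInt p 4 + padicValInt p P'.D +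
      padicValInt p (aI P i) := by
  unfold qI
  rw [padicValInt.mul (mul_ne_zero (by norm_num) P'.D_ne) (aI_ne P i),
    padicValInt.mul (by norm_num) P'.D_ne]

lemma v_four (p : ℕ) [Fact p.Prime] : padicValInt p 4 = 2 * padicValInt p 2 := by
  have : (4 : ℤ) = 2 ^ 2 := by norm_num
  rw [this, v_pow p (by norm_num)]

lemma v_ga_le (P : IPt γ b) (p : ℕ) [Fact p.Prime] (i : Fin 4) :
    padicValInt p (γ i * aI P i) ≤ ∑ l, padicValInt p (γ l * (P.A - b l * P.D)) := by
  exact single_le_sum (f := fun l => padicValInt p (γ l * (P.A - b l * P.D)))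
    (fun _ _ => Nat.zero_le _) (mem_univ i)

lemma Good.ka_val (hg : Good P P' p) (k : ℕ) (hk : 0 < k) (s : Fin 4 → ℤ) (i : Fin 4)
    (hs : eps P P' p i = s i) :
    ka P P' k s i ≠ 0 ∧ padicValInt p (ka P P' k s i) ≤
      k * padicValInt p (qI P P' i) + padicValInt p (2 * (γ i * P'.D * aI P i)) := by
  have : Fact p.Prime := ⟨hg.1⟩
  have hlt := hg.lt
  rw [v_KK] at hlt
  have hsgn := hg.sign i
  rw [hs] at hsgn
  have hN : (p : ℤ) ^ vN P P' p ∣ N0 P P' := padicValInt_dvd _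
  have hvD := hg.vD
  have hga := v_ga_le P p i
  have hγ := P.γ_ne i
  have ha := aI_ne P i
  have hD := P.D_ne
  have hD' := P'.D_ne
  have hq := qI_ne P P' i
  have hvq := v_qI P P' p i
  have hv4 := v_four p
  rw [padicValInt.mul hγ ha] at hga
  set v := vN P P' p with hv
  set w := padicValInt p (qI P P' i) with hw
  -- first piece
  have h1 : (p : ℤ) ^ v ∣ 2 * P.D * (P.Z i * P'.Z i - s i * (γ i * P'.D * aI P i)) := by
    have h := hsgn
    have e : 2 * P.D * (P.Z i * P'.Z i - s i * (γ i * P'.D * aI P i)) =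
        2 * P.Z i * (P'.Z i * P.D - s i * (P.Z i * P'.D)) := by
      have h2 := P.hZ i
      unfold aI
      linear_combination (2 * s i * P'.D) * h2
    rw [e]; exact h
  have hwv : w ≤ v := by omega
  have h2 := sig_sub (p : ℤ) v w k (N0 P P') (qI P P' i) hN (padicValInt_dvd _) hwv hk
  have hqk : (p : ℤ) ^ (k * w) ∣ qI P P' i ^ k := by
    rw [mul_comm, pow_mul]; exact pow_dvd_pow_of_dvd (padicValInt_dvd _) _
  have hs0 : s i ≠ 0 := by
    rw [← hs]; rcases eps_sq P P' p i with h | h <;> rw [h] <;> norm_num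
  have hvs : padicValInt p (s i) = 0 := by
    rw [← hs]; rcases eps_sq P P' p i with h | h <;> rw [h] <;> simp [padicValInt]
  -- the main term
  set T : ℤ := 2 * P.D * (s i * (2 * (γ i * P'.D * aI P i)) * qI P P' i ^ k) with hT
  have hG0 : γ i * P'.D * aI P i ≠ 0 := mul_ne_zero (mul_ne_zero hγ hD') ha
  have h2G : (2 : ℤ) * (γ i * P'.D * aI P i) ≠ 0 := mul_ne_zero two_ne_zero hG0
  have hsG : s i * (2 * (γ i * P'.D * aI P i)) ≠ 0 := mul_ne_zero hs0 h2G
  have h2D : (2 : ℤ) * P.D ≠ 0 := mul_ne_zero two_ne_zero hD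
  have hT0 : T ≠ 0 := mul_ne_zero h2D (mul_ne_zero hsG (pow_ne_zero k hq))
  have hvG : padicValInt p (γ i * P'.D * aI P i) = padicValInt p (γ i) + padicValInt p P'.D +
      padicValInt p (aI P i) := by
    rw [padicValInt.mul (mul_ne_zero hγ hD') ha, padicValInt.mul hγ hD']
  have hvT : padicValInt p T = padicValInt p 2 + padicValInt p P.D +
      (padicValInt p 2 + padicValInt p (γ i * P'.D * aI P i)) + k * w := by
    rw [hT, padicValInt.mul h2D (mul_ne_zero hsG (pow_ne_zero k hq)),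
      padicValInt.mul two_ne_zero hD, padicValInt.mul hsG (pow_ne_zero k hq),
      padicValInt.mul hs0 h2G, padicValInt.mul two_ne_zero hG0, hvs, v_pow p hq]
    ring
  have hdecomp : 2 * P.D * ka P P' k s i =
      qI P P' i ^ k * (2 * P.D * (P.Z i * P'.Z i - s i * (γ i * P'.D * aI P i))) +
      s i * (2 * P.D * (γ i * P'.D * aI P i)) * (sig k (N0 P P') (qI P P' i) - qI P P' i ^ k) +
      T := by
    rw [hT]; unfold ka; ring
  have hA : (p : ℤ) ^ (padicValInt p T + 1) ∣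
      qI P P' i ^ k * (2 * P.D * (P.Z i * P'.Z i - s i * (γ i * P'.D * aI P i))) := by
    refine dvd_trans ?_ (mul_dvd_mul hqk h1)
    rw [← pow_add]
    apply pow_dvd_pow
    omega
  have hB : (p : ℤ) ^ (padicValInt p T + 1) ∣
      s i * (2 * P.D * (γ i * P'.D * aI P i)) *
        (sig k (N0 P P') (qI P P' i) - qI P P' i ^ k) := by
    have hB1 : (p : ℤ) ^ (padicValInt p (2 * P.D * (γ i * P'.D * aI P i))) ∣
        s i * (2 * P.D * (γ i * P'.D * aI P i)) := (padicValInt_dvd _).mul_left _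
    refine dvd_trans ?_ (mul_dvd_mul hB1 h2)
    rw [← pow_add]
    apply pow_dvd_pow
    rw [padicValInt.mul h2D hG0, padicValInt.mul two_ne_zero hD]
    obtain ⟨k', rfl⟩ : ∃ k', k = k' + 1 := ⟨k - 1, by omega⟩
    have e2 : k' + 1 - 1 = k' := by omega
    have e3 : (k' + 1) * w = k' * w + w := by ring
    rw [e2]
    rw [e3] at hvT
    omega
  have hnot : ¬ (p : ℤ) ^ (padicValInt p T + 1) ∣ 2 * P.D * ka P P' k s i := by
    intro h
    rw [hdecomp] at h
    have h5 : (p : ℤ) ^ (padicValInt p T + 1) ∣ T := (dvd_add_right (dvd_add hA hB)).1 h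
    have := v_le_of_pow_dvd p hT0 h5
    omega
  have hne : ka P P' k s i ≠ 0 := by
    intro h0
    apply hnot
    rw [h0, mul_zero]
    exact dvd_zero _
  refine ⟨hne, ?_⟩
  have h6 : padicValInt p (2 * P.D * ka P P' k s i) ≤ padicValInt p T := by
    by_contra hcon
    push Not at hcon
    exact hnot (dvd_of_v_le p hcon)
  rw [padicValInt.mul h2D hne, padicValInt.mul two_ne_zero hD, hvT] at h6
  rw [padicValInt.mul two_ne_zero hG0]
  omega

end Pool.Agent.Work.MP_36d6be_co_V
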