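import Pool.Agent.Work.MP_36d6be_co_V.FF

/-!
Block F, part G: the divisibility of the leading coefficient at good primes.
-/

set_option autoImplicit false

namespace Pool.Agent.Work.MP_36d6be_co_V

open Finset

lemma sgn_pm (j : Fin 5) (i : Fin 4) : sgn j i = 1 ∨ sgn j i = -1 := by
  unfold sgn; split_ifs <;> simp

lemma kap_pos (j : Fin 5) : 0 < kap j := by unfold kap; split_ifs <;> norm_num

lemma kap_le (j : Fin 5) : kap j ≤ 4 := by unfold kap; split_ifs <;> norm_num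

lemma pat_sgn (j : Fin 5) : pat (sgn j) = kap j := by
  fin_cases j <;> decide

lemma pat_of_none (e : Fin 4 → ℤ) (h : ¬ ∃ j, ∀ i, e i = sgn j i) : pat e = 0 := by
  unfold pat
  apply sum_eq_zero
  intro j _
  rw [if_neg]
  intro h'
  exact h ⟨j, h'⟩

variable {γ b : Fin 4 → ℤ}

lemma v_q0 (P P' : IPt γ b) (p : ℕ) [Fact p.Prime] :
    padicValInt p (q0 P P') = padicValInt p 4 + padicValInt p P'.D +
      ∑ i, padicValInt p (γ i * aI P i) := by
  have hg : ∀ i, γ i * aI P i ≠ 0 := fun i => mul_ne_zero (P.γ_ne i) (aI_ne P i)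
  unfold q0
  rw [padicValInt.mul (mul_ne_zero (by norm_num) P'.D_ne) (prod_ne_zero_iff.2 fun i _ => hg i),
    padicValInt.mul (by norm_num) P'.D_ne]
  congr 1
  rw [Fin.prod_univ_four, Fin.sum_univ_four,
    padicValInt.mul (mul_ne_zero (mul_ne_zero (hg 0) (hg 1)) (hg 2)) (hg 3),
    padicValInt.mul (mul_ne_zero (hg 0) (hg 1)) (hg 2),
    padicValInt.mul (hg 0) (hg 1)]

open Polynomial in
/-- BLOCK F3. -/
theorem blockF3 (P P' : IPt γ b) (hN : N0 P P' ≠ 0) (p q : ℕ) (hp : p ≠ 0) (hq : q ≠ 0)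
    (L1 L2 K : ℕ) (hK : 0 < K) (hL1 : 0 < L1) (hL2 : 0 < L2) (c : Finset (Fin 4) → ℤ[X][X])
    (h2 : ∀ I, (c I).natDegree < L2) (h1 : ∀ I j, ((c I).coeff j).natDegree < L1)
    (hv : ∀ j : Fin 5, Vanishes γ b c (sgn j) (kap j * K))
    (hF : Fh P P' p q hp hq c ≠ 0) :
    ∃ Z : ℤ, Z ≠ 0 ∧ (Z : ℚ) =
      lcQ (Fh P P' p q hp hq c) * ((P.D : ℚ) ^ (L1 + 3) * (P'.D : ℚ) ^ (L2 + 3)) ∧
      ∀ pr, Good P P' pr → pat (eps P P' pr) * K * vN P P' pr ≤
        padicValInt pr Z + 60 * (L2 + K) * padicValInt pr (KK P) := by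
  have hD : (P.D : ℚ) ≠ 0 := by exact_mod_cast P.D_ne
  have hD' : (P'.D : ℚ) ≠ 0 := by exact_mod_cast P'.D_ne
  obtain ⟨Z, hZ⟩ := lcQ_mem (Fh_mem P P' p q hp hq L1 L2 hL1 hL2 c h2 h1)
  have hZ' : (Z : ℚ) =
      lcQ (Fh P P' p q hp hq c) * ((P.D : ℚ) ^ (L1 + 3) * (P'.D : ℚ) ^ (L2 + 3)) := by
    rw [← hZ, lcQ_mul, lcQ_mul, lcQ_pow, lcQ_pow, lcQ_int, lcQ_int]
    ring
  have hZ0 : Z ≠ 0 := by
    intro h0
    rw [h0, Int.cast_zero] at hZ'
    exact mul_ne_zero (lcQ_ne hF) (mul_ne_zero (pow_ne_zero _ hD) (pow_ne_zero _ hD')) hZ'.symm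
  refine ⟨Z, hZ0, hZ', ?_⟩
  intro pr hg
  by_cases hex : ∃ j, ∀ i, eps P P' pr i = sgn j i
  swap
  · rw [pat_of_none _ hex]; simp
  obtain ⟨j, hj⟩ := hex
  have hpat : pat (eps P P' pr) = kap j := by
    rw [← pat_sgn j]; congr 1; funext i; exact hj i
  rw [hpat]
  have : Fact pr.Prime := ⟨hg.1⟩
  set k := kap j * K with hk
  have hkpos : 0 < k := Nat.mul_pos (kap_pos j) hK
  have hk4 : k ≤ 4 * K := Nat.mul_le_mul_right K (kap_le j)
  obtain ⟨τ, V, hV, hτ, hUV, H, hH, hHe⟩ := main_dvd P P' p q hp hq k L1 L2 hkpos hL1 hL2 c h2 h1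
    (sgn j) (sgn_pm j) (hv j)
  obtain ⟨h, hh⟩ := lcQ_mem hH
  have hka := fun i => hg.ka_val k hkpos (sgn j) i (hj i)
  have hlc : ∀ i, lcQ (al P P' p q hp hq k i + be P P' p k τ (sgn j) i) =
      (ka P P' k (sgn j) i : ℚ) := by
    intro i
    have hc := const_add P P' p q hp hq k V τ (sgn j) i (hτ i) (hUV i)
    rw [lcQ_of_const]
    · exact hc
    · rw [hc]
      exact_mod_cast (hka i).1
  have hom : lcQ (om P P' p q) = N0 P P' := by
    rw [lcQ_of_const, om_const P P' p q hp hq]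
    rw [om_const P P' p q hp hq]
    exact_mod_cast hN
  have heq := congrArg lcQ hHe
  simp only [lcQ_mul, lcQ_pow, lcQ_prod, lcQ_int, hlc, hom, hh] at heq
  -- integer identity
  have hint : P.D ^ (L2 - 1) * q0 P P' ^ (L2 + 4 * k) * (∏ i, qI P P' i ^ k) * Z *
      ∏ i, ka P P' k (sgn j) i = N0 P P' ^ k * h := by
    have e : (P.D : ℚ) ^ (L1 + L2 + 2) = (P.D : ℚ) ^ (L2 - 1) * (P.D : ℚ) ^ (L1 + 3) := by
      rw [← pow_add]; congr 1; omega
    have h3 : ((P.D : ℚ) ^ (L2 - 1) * (q0 P P' : ℚ) ^ (L2 + 4 * k) *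
        (∏ i, (qI P P' i : ℚ) ^ k) * Z * ∏ i, (ka P P' k (sgn j) i : ℚ)) =
        (N0 P P' : ℚ) ^ k * h := by
      rw [← heq, e, hZ']
      ring
    exact_mod_cast h3
  -- valuations
  have hq0 := q0_ne P P'
  have hqk : ∀ i, qI P P' i ^ k ≠ 0 := fun i => pow_ne_zero _ (qI_ne P P' i)
  have n1 : P.D ^ (L2 - 1) * q0 P P' ^ (L2 + 4 * k) ≠ 0 :=
    mul_ne_zero (pow_ne_zero _ P.D_ne) (pow_ne_zero _ hq0)
  have n2 : (∏ i, qI P P' i ^ k) ≠ 0 := prod_ne_zero_iff.2 fun i _ => hqk i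
  have n3 : (∏ i, ka P P' k (sgn j) i) ≠ 0 := prod_ne_zero_iff.2 fun i _ => (hka i).1
  have hval := congrArg (padicValInt pr) hint
  have hne : P.D ^ (L2 - 1) * q0 P P' ^ (L2 + 4 * k) * (∏ i, qI P P' i ^ k) * Z *
      ∏ i, ka P P' k (sgn j) i ≠ 0 := mul_ne_zero (mul_ne_zero (mul_ne_zero n1 n2) hZ0) n3
  have hh0 : h ≠ 0 := by
    rintro rfl
    rw [mul_zero] at hint
    exact hne hint
  rw [padicValInt.mul (mul_ne_zero (mul_ne_zero n1 n2) hZ0) n3,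
    padicValInt.mul (mul_ne_zero n1 n2) hZ0, padicValInt.mul n1 n2,
    padicValInt.mul (pow_ne_zero _ P.D_ne) (pow_ne_zero _ hq0), v_pow pr P.D_ne,
    v_pow pr hq0, padicValInt.mul (pow_ne_zero _ hN) hh0, v_pow pr hN] at hval
  have vprod : padicValInt pr (∏ i, qI P P' i ^ k) = ∑ i, k * padicValInt pr (qI P P' i) := by
    rw [Fin.prod_univ_four, Fin.sum_univ_four,
      padicValInt.mul (mul_ne_zero (mul_ne_zero (hqk 0) (hqk 1)) (hqk 2)) (hqk 3),
      padicValInt.mul (mul_ne_zero (hqk 0) (hqk 1)) (hqk 2),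
      padicValInt.mul (hqk 0) (hqk 1), v_pow pr (qI_ne P P' 0), v_pow pr (qI_ne P P' 1),
      v_pow pr (qI_ne P P' 2), v_pow pr (qI_ne P P' 3)]
  have vprod2 : padicValInt pr (∏ i, ka P P' k (sgn j) i) =
      ∑ i, padicValInt pr (ka P P' k (sgn j) i) := by
    rw [Fin.prod_univ_four, Fin.sum_univ_four,
      padicValInt.mul (mul_ne_zero (mul_ne_zero (hka 0).1 (hka 1).1) (hka 2).1) (hka 3).1,
      padicValInt.mul (mul_ne_zero (hka 0).1 (hka 1).1) (hka 2).1,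
      padicValInt.mul (hka 0).1 (hka 1).1]
  rw [vprod, vprod2] at hval
  -- bounds by the valuation of `KK`
  set VK := padicValInt pr (KK P) with hVK
  have hvKK := v_KK pr P
  rw [← hVK] at hvKK
  have hvD := hg.vD
  have hv4 := v_four pr
  have b1 : padicValInt pr P.D ≤ VK := by omega
  have hsum : ∑ i, padicValInt pr (γ i * aI P i) =
      ∑ i, padicValInt pr (γ i * (P.A - b i * P.D)) := rfl
  have b2 : padicValInt pr (q0 P P') ≤ VK := by
    rw [v_q0, hsum]; omega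
  have b3 : ∀ i, padicValInt pr (qI P P' i) ≤ VK := by
    intro i
    have h4 := v_qI P P' pr i
    have h5 := v_ga_le P pr i
    rw [padicValInt.mul (P.γ_ne i) (aI_ne P i)] at h5
    omega
  have b4 : ∀ i, padicValInt pr (2 * (γ i * P'.D * aI P i)) ≤ VK := by
    intro i
    have h5 := v_ga_le P pr i
    rw [padicValInt.mul (P.γ_ne i) (aI_ne P i)] at h5
    rw [padicValInt.mul two_ne_zero (mul_ne_zero (mul_ne_zero (P.γ_ne i) P'.D_ne) (aI_ne P i)),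
      padicValInt.mul (mul_ne_zero (P.γ_ne i) P'.D_ne) (aI_ne P i),
      padicValInt.mul (P.γ_ne i) P'.D_ne]
    omega
  have c1 : (L2 - 1) * padicValInt pr P.D ≤ L2 * VK := Nat.mul_le_mul (by omega) b1
  have c2 : (L2 + 4 * k) * padicValInt pr (q0 P P') ≤ (L2 + 4 * k) * VK :=
    Nat.mul_le_mul_left _ b2
  have c3 : ∑ i, k * padicValInt pr (qI P P' i) ≤ 4 * (k * VK) := by
    calc ∑ i, k * padicValInt pr (qI P P' i) ≤ ∑ _i : Fin 4, k * VK :=
          sum_le_sum fun i _ => Nat.mul_le_mul_left _ (b3 i)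
      _ = 4 * (k * VK) := by simp
  have c4 : ∑ i, padicValInt pr (ka P P' k (sgn j) i) ≤ 4 * (k * VK + VK) := by
    calc ∑ i, padicValInt pr (ka P P' k (sgn j) i) ≤ ∑ _i : Fin 4, (k * VK + VK) :=
          sum_le_sum fun i _ => (hka i).2.trans
            (add_le_add (Nat.mul_le_mul_left _ (b3 i)) (b4 i))
      _ = 4 * (k * VK + VK) := by simp
  have c5 : L2 * VK + (L2 + 4 * k) * VK + 4 * (k * VK) + 4 * (k * VK + VK) ≤
      60 * (L2 + K) * VK := by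
    have : L2 + (L2 + 4 * k) + 4 * k + 4 * k + 4 ≤ 60 * (L2 + K) := by omega
    calc L2 * VK + (L2 + 4 * k) * VK + 4 * (k * VK) + 4 * (k * VK + VK)
        = (L2 + (L2 + 4 * k) + 4 * k + 4 * k + 4) * VK := by ring
      _ ≤ _ := Nat.mul_le_mul_right _ this
  have c6 : k * vN P P' pr ≤ k * padicValInt pr (N0 P P') + padicValInt pr h := by
    unfold vN; omega
  omega

end Pool.Agent.Work.MP_36d6be_co_V
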