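import Pool.Agent.Work.MP_36d6be_co_V.Defs

/-!
Block C: local analysis at primes for two rational points on the curve `z_i ^ 2 = γ_i (X - b_i)`.
-/

set_option autoImplicit false

namespace Pool.Agent.Work.MP_36d6be_co_V

open Finset

/-- Integral data of a rational point `(A / D, Z i / D)` with positive coordinates. -/
structure IPt (γ b : Fin 4 → ℤ) where
  A : ℤ
  D : ℤ
  Z : Fin 4 → ℤ
  hD : 0 < D
  hco : IsCoprime A D
  hZ : ∀ i, Z i ^ 2 = γ i * D * (A - b i * D)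
  hpos : ∀ i, 0 < Z i

variable {γ b : Fin 4 → ℤ}

/-- The resultant of two points. -/
def N0 (P P' : IPt γ b) : ℤ := P'.A * P.D - P.A * P'.D

/-- The modulus collecting all small bad contributions. -/
def KK (P : IPt γ b) : ℤ := 16 * P.D ^ 4 * ∏ i, (γ i * (P.A - b i * P.D))

/-- The valuation of the resultant. -/
def vN (P P' : IPt γ b) (p : ℕ) : ℕ := padicValInt p (N0 P P')

/-- The sign at the prime `p`. -/
def eps (P P' : IPt γ b) (p : ℕ) (i : Fin 4) : ℤ :=
  if (p : ℤ) ^ vN P P' p ∣ 2 * P.Z i * (P'.Z i * P.D - P.Z i * P'.D) then 1 else -1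

/-- Good primes. -/
def Good (P P' : IPt γ b) (p : ℕ) : Prop :=
  p.Prime ∧ ¬ ((p : ℤ) ^ vN P P' p ∣ KK P)

section basic

variable (P : IPt γ b)

lemma IPt.D_ne : P.D ≠ 0 := P.hD.ne'

lemma IPt.Z_ne (i : Fin 4) : P.Z i ≠ 0 := (P.hpos i).ne'

lemma IPt.g_ne (i : Fin 4) : γ i * (P.A - b i * P.D) ≠ 0 := by
  intro h
  have h1 := P.hZ i
  have h2 : γ i * P.D * (P.A - b i * P.D) = 0 := by
    calc γ i * P.D * (P.A - b i * P.D) = P.D * (γ i * (P.A - b i * P.D)) := by ring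
      _ = 0 := by rw [h, mul_zero]
  rw [h2] at h1
  exact P.Z_ne i (pow_eq_zero_iff (two_ne_zero) |>.1 h1)

lemma KK_ne : KK P ≠ 0 := by
  unfold KK
  refine mul_ne_zero (mul_ne_zero (by norm_num) (pow_ne_zero _ P.D_ne)) ?_
  exact prod_ne_zero_iff.2 fun i _ => P.g_ne i

lemma eps_sq (P P' : IPt γ b) (p : ℕ) (i : Fin 4) : eps P P' p i = 1 ∨ eps P P' p i = -1 := by
  unfold eps; split_ifs <;> simp

end basic

section vals

variable (p : ℕ) [hp : Fact p.Prime] (P : IPt γ b)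

lemma v_pow {a : ℤ} (ha : a ≠ 0) (n : ℕ) : padicValInt p (a ^ n) = n * padicValInt p a := by
  induction n with
  | zero => simp
  | succ n ih => rw [pow_succ, padicValInt.mul (pow_ne_zero _ ha) ha, ih]; ring

lemma v_Z (i : Fin 4) : 2 * padicValInt p (P.Z i) =
    padicValInt p P.D + padicValInt p (γ i * (P.A - b i * P.D)) := by
  have h1 := P.hZ i
  have h2 : P.Z i ^ 2 = P.D * (γ i * (P.A - b i * P.D)) := by rw [h1]; ring
  have h3 := congrArg (padicValInt p) h2
  rw [v_pow p (P.Z_ne i), padicValInt.mul P.D_ne (P.g_ne i)] at h3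
  exact h3

lemma v_KK : padicValInt p (KK P) = 4 * padicValInt p 2 + 4 * padicValInt p P.D +
    ∑ i, padicValInt p (γ i * (P.A - b i * P.D)) := by
  unfold KK
  rw [padicValInt.mul (mul_ne_zero (by norm_num) (pow_ne_zero _ P.D_ne))
    (prod_ne_zero_iff.2 fun i _ => P.g_ne i),
    padicValInt.mul (by norm_num) (pow_ne_zero _ P.D_ne), v_pow p P.D_ne,
    show (16 : ℤ) = 2 ^ 4 by norm_num, v_pow p (by norm_num : (2 : ℤ) ≠ 0)]
  congr 1
  rw [Fin.prod_univ_four, Fin.sum_univ_four,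
    padicValInt.mul (mul_ne_zero (mul_ne_zero (P.g_ne 0) (P.g_ne 1)) (P.g_ne 2)) (P.g_ne 3),
    padicValInt.mul (mul_ne_zero (P.g_ne 0) (P.g_ne 1)) (P.g_ne 2),
    padicValInt.mul (P.g_ne 0) (P.g_ne 1)]

lemma v_le_of_dvd {a b : ℤ} (hb : b ≠ 0) (h : a ∣ b) : padicValInt p a ≤ padicValInt p b := by
  obtain ⟨c, rfl⟩ := h
  rw [padicValInt.mul (left_ne_zero_of_mul hb) (right_ne_zero_of_mul hb)]
  exact Nat.le_add_right _ _

lemma dvd_of_v_le {n : ℕ} {a : ℤ} (h : n ≤ padicValInt p a) : (p : ℤ) ^ n ∣ a :=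
  (padicValInt_dvd_iff n a).2 (Or.inr h)

lemma v_le_of_pow_dvd {n : ℕ} {a : ℤ} (ha : a ≠ 0) (h : (p : ℤ) ^ n ∣ a) :
    n ≤ padicValInt p a := ((padicValInt_dvd_iff n a).1 h).resolve_left ha

end vals

section good

variable {P P' : IPt γ b} {p : ℕ}

lemma Good.lt (hg : Good P P' p) : padicValInt p (KK P) < vN P P' p := by
  have : Fact p.Prime := ⟨hg.1⟩
  by_contra h
  exact hg.2 (dvd_of_v_le p (not_lt.1 h))

lemma Good.ne (hg : Good P P' p) : N0 P P' ≠ 0 := by
  intro h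
  have := hg.lt
  unfold vN at this
  rw [h] at this
  simp at this

/-- At good primes the denominators have the same valuation. -/
lemma Good.vD (hg : Good P P' p) : padicValInt p P'.D = padicValInt p P.D := by
  have : Fact p.Prime := ⟨hg.1⟩
  have hlt := hg.lt
  rw [v_KK] at hlt
  have hpp : Prime (p : ℤ) := Nat.prime_iff_prime_int.1 hg.1
  have hN : (p : ℤ) ^ vN P P' p ∣ N0 P P' := padicValInt_dvd _
  have hD : (p : ℤ) ^ padicValInt p P.D ∣ P.D := padicValInt_dvd _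
  have hD' : (p : ℤ) ^ padicValInt p P'.D ∣ P'.D := padicValInt_dvd _
  unfold N0 at hN
  apply le_antisymm
  · by_contra hcon
    push Not at hcon
    -- `p ^ (a+1) ∣ D'`
    have h1 : (p : ℤ) ^ (padicValInt p P.D + 1) ∣ P'.D := (pow_dvd_pow _ hcon).trans hD'
    have h2 : (p : ℤ) ^ (padicValInt p P.D + 1) ∣ P'.A * P.D - P.A * P'.D :=
      (pow_dvd_pow _ (by omega)).trans hN
    have h3 : (p : ℤ) ^ (padicValInt p P.D + 1) ∣ P'.A * P.D := by
      have := dvd_add h2 (h1.mul_left P.A)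
      rwa [sub_add_cancel] at this
    have hp1 : ¬ (p : ℤ) ∣ P'.A := by
      intro h
      have h4 : (p : ℤ) ∣ P'.D := (dvd_pow_self _ (by omega)).trans h1
      exact hpp.not_isUnit (P'.hco.isUnit_of_dvd' h h4)
    have h5 : (p : ℤ) ^ (padicValInt p P.D + 1) ∣ P.D := by
      have hc : IsCoprime ((p : ℤ) ^ (padicValInt p P.D + 1)) P'.A :=
        (hpp.coprime_iff_not_dvd.2 hp1).pow_left
      exact hc.dvd_of_dvd_mul_left h3
    have := v_le_of_pow_dvd p P.D_ne h5
    omega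
  · by_cases ha : padicValInt p P.D = 0
    · omega
    have hp1 : ¬ (p : ℤ) ∣ P.A := by
      intro h
      have h4 : (p : ℤ) ∣ P.D := (dvd_pow_self _ ha).trans hD
      exact hpp.not_isUnit (P.hco.isUnit_of_dvd' h h4)
    have h2 : (p : ℤ) ^ (padicValInt p P.D) ∣ P'.A * P.D - P.A * P'.D :=
      (pow_dvd_pow _ (by omega)).trans hN
    have h3 : (p : ℤ) ^ (padicValInt p P.D) ∣ P.A * P'.D := by
      have := dvd_sub (hD.mul_left P'.A) h2
      rwa [sub_sub_cancel] at this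
    have hc : IsCoprime ((p : ℤ) ^ (padicValInt p P.D)) P.A :=
      (hpp.coprime_iff_not_dvd.2 hp1).pow_left
    exact v_le_of_pow_dvd p P'.D_ne (hc.dvd_of_dvd_mul_left h3)

lemma key_mul (P P' : IPt γ b) (i : Fin 4) :
    (P'.Z i * P.D - P.Z i * P'.D) * (P'.Z i * P.D + P.Z i * P'.D) =
      γ i * P.D * P'.D * N0 P P' := by
  have h1 := P.hZ i
  have h2 := P'.hZ i
  unfold N0
  linear_combination P.D ^ 2 * h2 - P'.D ^ 2 * h1

/-- The defining property of the sign. -/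
lemma Good.sign (hg : Good P P' p) (i : Fin 4) :
    (p : ℤ) ^ vN P P' p ∣ 2 * P.Z i * (P'.Z i * P.D - eps P P' p i * (P.Z i * P'.D)) := by
  have : Fact p.Prime := ⟨hg.1⟩
  unfold eps
  split_ifs with h
  · rwa [one_mul]
  · have hN0 := hg.ne
    have hγ : γ i ≠ 0 := left_ne_zero_of_mul (P.g_ne i)
    have hprod := key_mul P P' i
    have hR : γ i * P.D * P'.D * N0 P P' ≠ 0 :=
      mul_ne_zero (mul_ne_zero (mul_ne_zero hγ P.D_ne) P'.D_ne) hN0
    have ha : P'.Z i * P.D - P.Z i * P'.D ≠ 0 := fun h0 => hR (by rw [← hprod, h0, zero_mul])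
    have hb : P'.Z i * P.D + P.Z i * P'.D ≠ 0 := fun h0 => hR (by rw [← hprod, h0, mul_zero])
    have hv := congrArg (padicValInt p) hprod
    rw [padicValInt.mul ha hb,
      padicValInt.mul (mul_ne_zero (mul_ne_zero hγ P.D_ne) P'.D_ne) hN0,
      padicValInt.mul (mul_ne_zero hγ P.D_ne) P'.D_ne, padicValInt.mul hγ P.D_ne] at hv
    have h2Z : (2 : ℤ) * P.Z i ≠ 0 := mul_ne_zero two_ne_zero (P.Z_ne i)
    -- the minimum of the two valuations
    have hmin : min (padicValInt p (P'.Z i * P.D - P.Z i * P'.D))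
        (padicValInt p (P'.Z i * P.D + P.Z i * P'.D)) ≤
        padicValInt p (2 * P.Z i) + padicValInt p P'.D := by
      rw [← padicValInt.mul h2Z P'.D_ne]
      apply v_le_of_pow_dvd p (mul_ne_zero h2Z P'.D_ne)
      have e : 2 * P.Z i * P'.D = (P'.Z i * P.D + P.Z i * P'.D) -
        (P'.Z i * P.D - P.Z i * P'.D) := by ring
      rw [e]
      exact dvd_sub (dvd_of_v_le p (min_le_right _ _)) (dvd_of_v_le p (min_le_left _ _))
    have hlt : padicValInt p (2 * P.Z i) +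
        padicValInt p (P'.Z i * P.D - P.Z i * P'.D) < vN P P' p := by
      by_contra hcon
      apply h
      apply dvd_of_v_le
      rw [padicValInt.mul h2Z ha]
      omega
    have e : P'.Z i * P.D - -1 * (P.Z i * P'.D) = P'.Z i * P.D + P.Z i * P'.D := by ring
    rw [e]
    apply dvd_of_v_le
    rw [padicValInt.mul h2Z hb]
    unfold vN at *
    omega

end good

end Pool.Agent.Work.MP_36d6be_co_V
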