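import Pool.Agent.Work.MP_36d6be_co_V.LocalA

/-!
Block C, second part: divisibility consequences for one, two and three coordinates.
-/

set_option autoImplicit false

namespace Pool.Agent.Work.MP_36d6be_co_V

open Finset

variable {γ b : Fin 4 → ℤ}

/-- The denominator is a square up to a divisor of all `γ i`. -/
lemma split_den (P : IPt γ b) : ∃ (d δ : ℤ) (t : Fin 4 → ℤ), 0 < d ∧ 0 < δ ∧ P.D = d ^ 2 * δ ∧
    (∀ l, P.Z l = d * t l) ∧ (∀ l, δ ∣ γ l) ∧ (∀ l, 0 < t l) ∧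
    ∀ l, t l ^ 2 = γ l * δ * (P.A - b l * P.D) := by
  obtain ⟨D, hD⟩ := Int.eq_ofNat_of_zero_le P.hD.le
  have hDpos : 0 < D := by have := P.hD; omega
  obtain ⟨a0, A, hA, hsf⟩ := Nat.sq_mul_squarefree D
  have ha0 : 0 < a0 := Nat.pos_of_ne_zero hsf.ne_zero
  have hApos : 0 < A := by
    rcases Nat.eq_zero_or_pos A with h | h
    · subst h; simp at hA; omega
    · exact h
  have hAZ : (0 : ℤ) < A := by exact_mod_cast hApos
  have ha0Z : (0 : ℤ) < a0 := by exact_mod_cast ha0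
  have hDeq : P.D = (A : ℤ) ^ 2 * a0 := by rw [hD]; exact_mod_cast hA.symm
  have hz : ∀ l, ∃ t : ℤ, P.Z l = A * t := by
    intro l
    have h1 : (A : ℤ) ^ 2 ∣ (P.Z l) ^ 2 := by
      rw [P.hZ l]
      refine ⟨γ l * a0 * (P.A - b l * P.D), ?_⟩
      rw [hDeq]; ring
    obtain ⟨z, hz⟩ := (Int.pow_dvd_pow_iff two_ne_zero).1 h1
    exact ⟨z, hz⟩
  choose t ht using hz
  have ht2 : ∀ l, t l ^ 2 = γ l * a0 * (P.A - b l * P.D) := by
    intro l
    have h1 := P.hZ l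
    rw [ht l] at h1
    have h2 : (A : ℤ) ^ 2 * (t l) ^ 2 = (A : ℤ) ^ 2 * (γ l * a0 * (P.A - b l * P.D)) := by
      have e : (A : ℤ) ^ 2 * (t l) ^ 2 = γ l * P.D * (P.A - b l * P.D) := by rw [← h1]; ring
      rw [e]
      linear_combination γ l * (P.A - b l * P.D) * hDeq
    exact mul_left_cancel₀ (pow_ne_zero 2 hAZ.ne') h2
  refine ⟨A, a0, t, hAZ, ha0Z, hDeq, ht, ?_, ?_, ht2⟩
  · intro l
    have hsfZ : Squarefree (a0 : ℤ) := Int.squarefree_natCast.2 hsf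
    have h1 : (a0 : ℤ) ∣ t l := by
      rw [← hsfZ.dvd_pow_iff_dvd two_ne_zero, ht2 l]
      exact ⟨γ l * (P.A - b l * P.D), by ring⟩
    have h2 : (a0 : ℤ) * a0 ∣ a0 * (γ l * (P.A - b l * P.D)) := by
      have h3 : (a0 : ℤ) * a0 ∣ (t l) ^ 2 := by rw [pow_two]; exact mul_dvd_mul h1 h1
      rw [ht2 l] at h3
      convert h3 using 1; ring
    have h3 : (a0 : ℤ) ∣ γ l * (P.A - b l * P.D) := (mul_dvd_mul_iff_left ha0Z.ne').1 h2
    have hc : IsCoprime (a0 : ℤ) (P.A - b l * P.D) := by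
      have h4 : IsCoprime (P.A - b l * P.D) P.D := by
        have h5 := (IsCoprime.add_mul_right_left_iff (z := -b l)).2 P.hco
        have e : P.A - b l * P.D = P.A + -b l * P.D := by ring
        rw [e]; exact h5
      exact (h4.symm).of_isCoprime_of_dvd_left ⟨(A : ℤ) ^ 2, by rw [hDeq]; ring⟩
    exact hc.dvd_of_dvd_mul_right h3
  · intro l
    have h1 := P.hpos l
    rw [ht l] at h1
    exact (mul_pos_iff_of_pos_left hAZ).1 h1

section dvds

variable {P P' : IPt γ b} {p : ℕ}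

lemma Good.dvd_replace (hg : Good P P' p) {d δ m : ℤ} (hd : P'.D = d ^ 2 * δ)
    (hm : m ≠ 0) (h : (p : ℤ) ^ vN P P' p ∣ d * m) : (p : ℤ) ^ vN P P' p ∣ P.D * m := by
  have : Fact p.Prime := ⟨hg.1⟩
  have hd0 : d ≠ 0 := by rintro rfl; have := P'.D_ne; rw [hd] at this; simp at this
  have h1 := v_le_of_pow_dvd p (mul_ne_zero hd0 hm) h
  rw [padicValInt.mul hd0 hm] at h1
  have h2 : padicValInt p d ≤ padicValInt p P'.D :=
    v_le_of_dvd p P'.D_ne ⟨d * δ, by rw [hd]; ring⟩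
  rw [hg.vD] at h2
  apply dvd_of_v_le
  rw [padicValInt.mul P.D_ne hm]
  omega

/-- One coordinate. -/
lemma Good.single (hg : Good P P' p) {d δ : ℤ} {t : Fin 4 → ℤ} (hd : P'.D = d ^ 2 * δ)
    (ht : ∀ l, P'.Z l = d * t l) (i : Fin 4) (hi : eps P P' p i = 1)
    (hne : t i * P.D - P.Z i * (d * δ) ≠ 0) :
    (p : ℤ) ^ vN P P' p ∣ P.D * (2 * P.Z i * (t i * P.D - P.Z i * (d * δ))) := by
  apply hg.dvd_replace hd (mul_ne_zero (mul_ne_zero two_ne_zero (P.Z_ne i)) hne)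
  have h := hg.sign i
  rw [hi, one_mul, ht i, hd] at h
  convert h using 1; ring

/-- Two coordinates. -/
lemma Good.pair (hg : Good P P' p) {d δ : ℤ} {t : Fin 4 → ℤ} (hd : P'.D = d ^ 2 * δ)
    (ht : ∀ l, P'.Z l = d * t l) (i j : Fin 4) (hij : eps P P' p i * eps P P' p j = -1)
    (hne : P.Z i * t j + P.Z j * t i ≠ 0) :
    (p : ℤ) ^ vN P P' p ∣ P.D * (P.D * (2 * P.Z i * P.Z j) * (P.Z i * t j + P.Z j * t i)) := by
  apply hg.dvd_replace hd (mul_ne_zero (mul_ne_zero P.D_ne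
    (mul_ne_zero (mul_ne_zero two_ne_zero (P.Z_ne i)) (P.Z_ne j))) hne)
  have h1 := hg.sign i
  have h2 := hg.sign j
  have hsum : eps P P' p i + eps P P' p j = 0 := by
    rcases eps_sq P P' p i with h | h <;> rcases eps_sq P P' p j with h' | h' <;>
      rw [h, h'] at hij ⊢ <;> first | (exfalso; norm_num at hij; done) | norm_num
  have e : d * (P.D * (2 * P.Z i * P.Z j) * (P.Z i * t j + P.Z j * t i)) =
      (2 * P.Z i * (P'.Z i * P.D - eps P P' p i * (P.Z i * P'.D))) * (P.Z j * P.Z j) +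
      (2 * P.Z j * (P'.Z j * P.D - eps P P' p j * (P.Z j * P'.D))) * (P.Z i * P.Z i) := by
    rw [ht i, ht j]
    linear_combination (2 * P.Z i ^ 2 * P.Z j ^ 2 * P'.D) * hsum
  rw [e]
  exact dvd_add (h1.mul_right _) (h2.mul_right _)

/-- Three coordinates. -/
lemma Good.triple (hg : Good P P' p) (i j k : Fin 4)
    (hijk : eps P P' p i * eps P P' p j * eps P P' p k = 1) :
    (p : ℤ) ^ vN P P' p ∣ 2 * (P.Z i * P.Z j * P.Z k) *
      (P'.Z i * P'.Z j * P'.Z k * P.D ^ 3 - P.Z i * P.Z j * P.Z k * P'.D ^ 3) := by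
  have h1 := hg.sign i
  have h2 := hg.sign j
  have h3 := hg.sign k
  have e : 2 * (P.Z i * P.Z j * P.Z k) *
      (P'.Z i * P'.Z j * P'.Z k * P.D ^ 3 - P.Z i * P.Z j * P.Z k * P'.D ^ 3) =
      (2 * P.Z i * (P'.Z i * P.D - eps P P' p i * (P.Z i * P'.D))) *
        (P.Z j * P.Z k * (P'.Z j * P.D) * (P'.Z k * P.D)) +
      (2 * P.Z j * (P'.Z j * P.D - eps P P' p j * (P.Z j * P'.D))) *
        (P.Z i * P.Z k * (eps P P' p i * (P.Z i * P'.D)) * (P'.Z k * P.D)) +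
      (2 * P.Z k * (P'.Z k * P.D - eps P P' p k * (P.Z k * P'.D))) *
        (P.Z i * P.Z j * (eps P P' p i * (P.Z i * P'.D)) *
          (eps P P' p j * (P.Z j * P'.D))) := by
    linear_combination (2 * P.Z i ^ 2 * P.Z j ^ 2 * P.Z k ^ 2 * P'.D ^ 3) * hijk
  rw [e]
  exact dvd_add (dvd_add (h1.mul_right _) (h2.mul_right _)) (h3.mul_right _)

end dvds

end Pool.Agent.Work.MP_36d6be_co_V
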