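import Pool.Agent.Work.MP_36d6be_co_V.LocalB

/-!
Block C, third part: the denominator of the `x`-coordinate of the sum on the elliptic quotients.
-/

set_option autoImplicit false

namespace Pool.Agent.Work.MP_36d6be_co_V

open Finset

variable {γ b : Fin 4 → ℤ}

/-- twisting constant -/
def Ga (γ : Fin 4 → ℤ) (i j k : Fin 4) : ℤ := γ i * γ j * γ k

/-- `x`-coordinate on the elliptic quotient -/
def xE (P : IPt γ b) (i j k : Fin 4) : ℚ := Ga γ i j k * P.A / P.D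

/-- `y`-coordinate on the elliptic quotient -/
def yE (P : IPt γ b) (i j k : Fin 4) : ℚ := Ga γ i j k * (P.Z i * P.Z j * P.Z k) / P.D ^ 3

/-- `x`-coordinate of the sum -/
def SE (P P' : IPt γ b) (i j k : Fin 4) : ℚ :=
  ((yE P' i j k - yE P i j k) / (xE P' i j k - xE P i j k)) ^ 2
    + (Ga γ i j k * b i : ℤ) + (Ga γ i j k * b j : ℤ) + (Ga γ i j k * b k : ℤ)
    - xE P i j k - xE P' i j k

lemma IPt.γ_ne (P : IPt γ b) (i : Fin 4) : γ i ≠ 0 := left_ne_zero_of_mul (P.g_ne i)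

lemma Ga_ne (P : IPt γ b) (i j k : Fin 4) : Ga γ i j k ≠ 0 :=
  mul_ne_zero (mul_ne_zero (P.γ_ne i) (P.γ_ne j)) (P.γ_ne k)

lemma curve_eq (P : IPt γ b) (i j k : Fin 4) :
    yE P i j k ^ 2 = (xE P i j k - (Ga γ i j k * b i : ℤ)) *
      (xE P i j k - (Ga γ i j k * b j : ℤ)) * (xE P i j k - (Ga γ i j k * b k : ℤ)) := by
  have hD : (P.D : ℚ) ≠ 0 := by exact_mod_cast P.D_ne
  have h1 : (P.Z i : ℚ) ^ 2 = γ i * P.D * (P.A - b i * P.D) := by exact_mod_cast P.hZ i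
  have h2 : (P.Z j : ℚ) ^ 2 = γ j * P.D * (P.A - b j * P.D) := by exact_mod_cast P.hZ j
  have h3 : (P.Z k : ℚ) ^ 2 = γ k * P.D * (P.A - b k * P.D) := by exact_mod_cast P.hZ k
  unfold xE yE Ga
  push_cast
  have e : ((γ i : ℚ) * γ j * γ k * (P.Z i * P.Z j * P.Z k) / P.D ^ 3) ^ 2 =
      ((γ i : ℚ) * γ j * γ k) ^ 2 * ((P.Z i : ℚ) ^ 2 * (P.Z j : ℚ) ^ 2 * (P.Z k : ℚ) ^ 2)
        / P.D ^ 6 := by
    field_simp
  rw [e, h1, h2, h3]
  field_simp

/-- `P.D` divides the product of two coordinates. -/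
lemma D_dvd (P : IPt γ b) (i j k : Fin 4) : ∃ π : ℤ, P.Z i * P.Z j * P.Z k = P.D * π := by
  have h : P.D ^ 2 ∣ (P.Z i * P.Z j * P.Z k) ^ 2 := by
    have e : (P.Z i * P.Z j * P.Z k) ^ 2 = P.D ^ 2 * (P.D * (γ i * (P.A - b i * P.D)) *
        (γ j * (P.A - b j * P.D)) * (γ k * (P.A - b k * P.D))) := by
      rw [mul_pow, mul_pow, P.hZ i, P.hZ j, P.hZ k]; ring
    rw [e]; exact dvd_mul_right _ _
  obtain ⟨π, hπ⟩ := (Int.pow_dvd_pow_iff two_ne_zero).1 h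
  exact ⟨π, hπ⟩

lemma xE_sub (P P' : IPt γ b) (i j k : Fin 4) :
    xE P' i j k - xE P i j k = Ga γ i j k * N0 P P' / (P.D * P'.D) := by
  have hD : (P.D : ℚ) ≠ 0 := by exact_mod_cast P.D_ne
  have hD' : (P'.D : ℚ) ≠ 0 := by exact_mod_cast P'.D_ne
  unfold xE N0
  push_cast
  field_simp

lemma SE_int (P P' : IPt γ b) (i j k : Fin 4) (hN : N0 P P' ≠ 0) :
    ∃ n : ℤ, SE P P' i j k = n / ((Ga γ i j k ^ 2 * N0 P P' ^ 2 : ℤ) : ℚ) := by
  obtain ⟨π, hπ⟩ := D_dvd P i j k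
  obtain ⟨π', hπ'⟩ := D_dvd P' i j k
  have hD : (P.D : ℚ) ≠ 0 := by exact_mod_cast P.D_ne
  have hD' : (P'.D : ℚ) ≠ 0 := by exact_mod_cast P'.D_ne
  have hN' : (N0 P P' : ℚ) ≠ 0 := by exact_mod_cast hN
  have hG : (Ga γ i j k : ℚ) ≠ 0 := by exact_mod_cast Ga_ne P i j k
  have hx := xE_sub P P' i j k
  have hxne : xE P' i j k - xE P i j k ≠ 0 := by
    rw [hx]; exact div_ne_zero (mul_ne_zero hG hN') (mul_ne_zero hD hD')
  have c1 := curve_eq P i j k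
  have c2 := curve_eq P' i j k
  set x := xE P i j k with hxd
  set x' := xE P' i j k with hxd'
  set y := yE P i j k with hyd
  set y' := yE P' i j k with hyd'
  set Γ := Ga γ i j k with hΓ
  have hy : y = Γ * π / P.D ^ 2 := by
    rw [hyd]; unfold yE
    have : ((P.Z i : ℚ) * P.Z j * P.Z k) = P.D * π := by exact_mod_cast hπ
    rw [this, ← hΓ]; field_simp
  have hy' : y' = Γ * π' / P'.D ^ 2 := by
    rw [hyd']; unfold yE
    have : ((P'.Z i : ℚ) * P'.Z j * P'.Z k) = P'.D * π' := by exact_mod_cast hπ'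
    rw [this, ← hΓ]; field_simp
  have hxx : x = Γ * P.A / P.D := rfl
  have hxx' : x' = Γ * P'.A / P'.D := rfl
  -- closed formula
  have hS : SE P P' i j k = (x * x' * (x + x') - 2 * (Γ * b i + Γ * b j + Γ * b k) * (x * x') +
      (Γ * b i * (Γ * b j) + Γ * b i * (Γ * b k) + Γ * b j * (Γ * b k)) * (x + x') -
      2 * (Γ * b i * (Γ * b j) * (Γ * b k)) - 2 * y * y') / (x' - x) ^ 2 := by
    unfold SE
    rw [← hxd, ← hxd', ← hyd, ← hyd', ← hΓ]
    push_cast at c1 c2 ⊢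
    field_simp
    linear_combination c1 + c2
  refine ⟨Γ ^ 3 * P.A * P'.A * (P.A * P'.D + P'.A * P.D) -
      2 * (Γ * b i + Γ * b j + Γ * b k) * Γ ^ 2 * (P.A * P'.A * P.D * P'.D) +
      (Γ * b i * (Γ * b j) + Γ * b i * (Γ * b k) + Γ * b j * (Γ * b k)) * Γ *
        (P.A * P'.D + P'.A * P.D) * P.D * P'.D -
      2 * (Γ * b i * (Γ * b j) * (Γ * b k)) * P.D ^ 2 * P'.D ^ 2 -
      2 * Γ ^ 2 * π * π', ?_⟩
  rw [hS, hx, hy, hy', hxx, hxx']
  push_cast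
  field_simp

lemma SE_int2 (P P' : IPt γ b) (i j k : Fin 4) {m n w : ℤ} (hN : N0 P P' = m * n) (hn : n ≠ 0)
    (hm : m ≠ 0)
    (hw : 2 * (P.Z i * P.Z j * P.Z k) *
      (P'.Z i * P'.Z j * P'.Z k * P.D ^ 3 - P.Z i * P.Z j * P.Z k * P'.D ^ 3) = m * w) :
    ∃ l : ℤ, SE P P' i j k =
      l / (((2 * (P.Z i * P.Z j * P.Z k) * P.D ^ 2 * P'.D ^ 2 * n) ^ 2 : ℤ) : ℚ) := by
  have hD : (P.D : ℚ) ≠ 0 := by exact_mod_cast P.D_ne
  have hD' : (P'.D : ℚ) ≠ 0 := by exact_mod_cast P'.D_ne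
  have hNn : N0 P P' ≠ 0 := by rw [hN]; exact mul_ne_zero hm hn
  have hN' : (N0 P P' : ℚ) ≠ 0 := by exact_mod_cast hNn
  have hG : (Ga γ i j k : ℚ) ≠ 0 := by exact_mod_cast Ga_ne P i j k
  have hn' : (n : ℚ) ≠ 0 := by exact_mod_cast hn
  have hm' : (m : ℚ) ≠ 0 := by exact_mod_cast hm
  have hZ1 : (P.Z i : ℚ) ≠ 0 := by exact_mod_cast P.Z_ne i
  have hZ2 : (P.Z j : ℚ) ≠ 0 := by exact_mod_cast P.Z_ne j
  have hZ3 : (P.Z k : ℚ) ≠ 0 := by exact_mod_cast P.Z_ne k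
  have hx := xE_sub P P' i j k
  have hslope : (yE P' i j k - yE P i j k) / (xE P' i j k - xE P i j k) =
      w / (2 * (P.Z i * P.Z j * P.Z k) * P.D ^ 2 * P'.D ^ 2 * n) := by
    rw [hx]
    have hw' : (2 : ℚ) * (P.Z i * P.Z j * P.Z k) *
      (P'.Z i * P'.Z j * P'.Z k * P.D ^ 3 - P.Z i * P.Z j * P.Z k * P'.D ^ 3) = m * w := by
      exact_mod_cast hw
    have hNq : (N0 P P' : ℚ) = m * n := by exact_mod_cast hN
    rw [hNq]
    unfold yE
    field_simp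
    linear_combination hw'
  refine ⟨w ^ 2 + (2 * (P.Z i * P.Z j * P.Z k) * P.D ^ 2 * P'.D ^ 2 * n) ^ 2 *
      (Ga γ i j k * b i + Ga γ i j k * b j + Ga γ i j k * b k) -
      (2 * (P.Z i * P.Z j * P.Z k) * n) ^ 2 * Ga γ i j k * P.A * P.D ^ 3 * P'.D ^ 4 -
      (2 * (P.Z i * P.Z j * P.Z k) * n) ^ 2 * Ga γ i j k * P'.A * P.D ^ 4 * P'.D ^ 3, ?_⟩
  unfold SE
  rw [hslope]
  unfold xE
  push_cast
  field_simp
  ring

/-- The modulus for the denominators on the elliptic quotients. -/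
def EE (P : IPt γ b) (i j k : Fin 4) : ℤ :=
  Ga γ i j k * KK P * (2 * (P.Z i * P.Z j * P.Z k)) * P.D ^ 4

lemma ZZ_ne (P : IPt γ b) (i j k : Fin 4) : 2 * (P.Z i * P.Z j * P.Z k) ≠ 0 :=
  mul_ne_zero two_ne_zero (mul_ne_zero (mul_ne_zero (P.Z_ne i) (P.Z_ne j)) (P.Z_ne k))

lemma EE_ne (P : IPt γ b) (i j k : Fin 4) : EE P i j k ≠ 0 :=
  mul_ne_zero (mul_ne_zero (mul_ne_zero (Ga_ne P i j k) (KK_ne P)) (ZZ_ne P i j k))
    (pow_ne_zero _ P.D_ne)

lemma v_EE (P : IPt γ b) (i j k : Fin 4) (p : ℕ) [Fact p.Prime] :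
    padicValInt p (EE P i j k) = padicValInt p (Ga γ i j k) + padicValInt p (KK P) +
      padicValInt p (2 * (P.Z i * P.Z j * P.Z k)) + 4 * padicValInt p P.D := by
  unfold EE
  rw [padicValInt.mul (mul_ne_zero (mul_ne_zero (Ga_ne P i j k) (KK_ne P)) (ZZ_ne P i j k))
    (pow_ne_zero _ P.D_ne), padicValInt.mul (mul_ne_zero (Ga_ne P i j k) (KK_ne P))
    (ZZ_ne P i j k), padicValInt.mul (Ga_ne P i j k) (KK_ne P), v_pow p P.D_ne]

open Classical in
/-- Valuation of the denominator of the sum. -/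
lemma v_den (P P' : IPt γ b) (i j k : Fin 4) (hN : N0 P P' ≠ 0) (p : ℕ) [hp : Fact p.Prime] :
    padicValNat p (SE P P' i j k).den ≤ 2 * padicValInt p (EE P i j k) +
      2 * (if Good P P' p ∧ eps P P' p i * eps P P' p j * eps P P' p k = -1
        then vN P P' p else 0) := by
  have key : ∀ (n M : ℤ), M ≠ 0 → SE P P' i j k = n / (M : ℚ) →
      padicValNat p (SE P P' i j k).den ≤ padicValInt p M := by
    intro n M hM h
    have h1 : (((SE P P' i j k).den : ℕ) : ℤ) ∣ M := by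
      rw [h, ← Rat.divInt_eq_div]; exact Rat.den_dvd n M
    have h2 := v_le_of_dvd p hM h1
    rwa [padicValInt.of_nat] at h2
  rw [v_EE]
  -- first representation
  have case1 : padicValNat p (SE P P' i j k).den ≤
      2 * padicValInt p (Ga γ i j k) + 2 * vN P P' p := by
    obtain ⟨n, hn⟩ := SE_int P P' i j k hN
    have h1 := key n _ (mul_ne_zero (pow_ne_zero 2 (Ga_ne P i j k)) (pow_ne_zero 2 hN)) hn
    rwa [padicValInt.mul (pow_ne_zero 2 (Ga_ne P i j k)) (pow_ne_zero 2 hN),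
      v_pow p (Ga_ne P i j k), v_pow p hN] at h1
  by_cases hg : Good P P' p
  · by_cases he : eps P P' p i * eps P P' p j * eps P P' p k = -1
    · rw [if_pos ⟨hg, he⟩]; omega
    · have he1 : eps P P' p i * eps P P' p j * eps P P' p k = 1 := by
        rcases eps_sq P P' p i with h | h <;> rcases eps_sq P P' p j with h' | h' <;>
          rcases eps_sq P P' p k with h'' | h'' <;> rw [h, h', h''] at he ⊢ <;>
          first | (exfalso; norm_num at he; done) | norm_num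
      obtain ⟨w, hw⟩ := hg.triple i j k he1
      obtain ⟨n, hn⟩ : (p : ℤ) ^ vN P P' p ∣ N0 P P' := padicValInt_dvd _
      have hp0 : (p : ℤ) ^ vN P P' p ≠ 0 :=
        pow_ne_zero _ (by exact_mod_cast hp.1.ne_zero)
      have hn0 : n ≠ 0 := by rintro rfl; exact hN (by rw [hn, mul_zero])
      have hvn : padicValInt p n = 0 := by
        have h1 := congrArg (padicValInt p) hn
        rw [padicValInt.mul hp0 hn0, v_pow p (by exact_mod_cast hp.1.ne_zero),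
          padicValInt.self hp.1.one_lt] at h1
        unfold vN at h1
        omega
      obtain ⟨l, hl⟩ := SE_int2 P P' i j k hn hn0 hp0 hw
      have hB : 2 * (P.Z i * P.Z j * P.Z k) * P.D ^ 2 ≠ 0 :=
        mul_ne_zero (ZZ_ne P i j k) (pow_ne_zero 2 P.D_ne)
      have hB' : 2 * (P.Z i * P.Z j * P.Z k) * P.D ^ 2 * P'.D ^ 2 ≠ 0 :=
        mul_ne_zero hB (pow_ne_zero 2 P'.D_ne)
      have h1 := key l _ (pow_ne_zero 2 (mul_ne_zero hB' hn0)) hl
      rw [v_pow p (mul_ne_zero hB' hn0), padicValInt.mul hB' hn0,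
        padicValInt.mul hB (pow_ne_zero 2 P'.D_ne),
        padicValInt.mul (ZZ_ne P i j k) (pow_ne_zero 2 P.D_ne), v_pow p P.D_ne,
        v_pow p P'.D_ne, hvn, hg.vD] at h1
      omega
  · have h1 : vN P P' p ≤ padicValInt p (KK P) := by
      have h2 : (p : ℤ) ^ vN P P' p ∣ KK P := by
        by_contra h; exact hg ⟨hp.1, h⟩
      exact v_le_of_pow_dvd p (KK_ne P) h2
    omega

end Pool.Agent.Work.MP_36d6be_co_V
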