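import Pool.Agent.Work.MP_36d6be_co_V.LocalC

/-!
Block C, fourth part: weights of the good primes.
-/

set_option autoImplicit false

namespace Pool.Agent.Work.MP_36d6be_co_V

open Finset

variable {γ b : Fin 4 → ℤ}

lemma sum_log_le (S : Finset ℕ) (hS : ∀ p ∈ S, p.Prime) (e : ℕ → ℕ) (M : ℤ) (hM : M ≠ 0)
    (h : ∀ p ∈ S, (p : ℤ) ^ e p ∣ M) : ∑ p ∈ S, (e p : ℝ) * Real.log p ≤ Real.log |(M : ℝ)| := by
  have hdvd : ∏ p ∈ S, (p : ℤ) ^ e p ∣ M := by
    apply Finset.prod_dvd_of_coprime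
    · intro p hp q hq hpq
      have h1 : IsCoprime (p : ℤ) (q : ℤ) :=
        Nat.isCoprime_iff_coprime.2 ((Nat.coprime_primes (hS p hp) (hS q hq)).2 hpq)
      exact h1.pow
    · exact h
  have hpos : (0 : ℝ) < ∏ p ∈ S, (p : ℝ) ^ e p :=
    prod_pos fun p hp => pow_pos (by exact_mod_cast (hS p hp).pos) _
  have h1 : ∏ p ∈ S, (p : ℝ) ^ e p ≤ |(M : ℝ)| := by
    obtain ⟨c, hc⟩ := hdvd
    have hc0 : c ≠ 0 := by rintro rfl; exact hM (by rw [hc, mul_zero])
    have h2 : (M : ℝ) = (∏ p ∈ S, (p : ℝ) ^ e p) * c := by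
      rw [hc]; push_cast; rfl
    rw [h2, abs_mul, abs_of_pos hpos]
    have h3 : (1 : ℝ) ≤ |(c : ℝ)| := by exact_mod_cast Int.one_le_abs hc0
    nlinarith
  calc ∑ p ∈ S, (e p : ℝ) * Real.log p = Real.log (∏ p ∈ S, (p : ℝ) ^ e p) := by
        rw [Real.log_prod]
        · exact sum_congr rfl fun p _ => by rw [Real.log_pow]
        · intro p hp
          exact pow_ne_zero _ (by exact_mod_cast (hS p hp).ne_zero)
    _ ≤ _ := Real.log_le_log hpos h1

lemma log_nat_eq_sum (n : ℕ) : Real.log (n : ℝ) =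
    ∑ p ∈ n.primeFactors, (padicValNat p n : ℝ) * Real.log p := by
  rw [Real.log_nat_eq_sum_factorization]
  unfold Finsupp.sum
  rw [Nat.support_factorization]
  apply sum_congr rfl
  intro p hp
  rw [Nat.factorization_def n (Nat.prime_of_mem_primeFactors hp)]

lemma log_eq_sum (M : ℤ) : Real.log |(M : ℝ)| =
    ∑ p ∈ M.natAbs.primeFactors, (padicValInt p M : ℝ) * Real.log p := by
  have h1 : (|(M : ℝ)|) = ((M.natAbs : ℕ) : ℝ) := by rw [Nat.cast_natAbs]; push_cast; rfl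
  rw [h1, log_nat_eq_sum]
  rfl

open Classical in
/-- The set of good primes. -/
noncomputable def gs (P P' : IPt γ b) : Finset ℕ :=
  (N0 P P').natAbs.primeFactors.filter (Good P P')

/-- The weight of a prime. -/
noncomputable def Lw (P P' : IPt γ b) (p : ℕ) : ℝ := (vN P P' p : ℝ) * Real.log p

lemma Lw_nonneg (P P' : IPt γ b) (p : ℕ) : 0 ≤ Lw P P' p :=
  mul_nonneg (Nat.cast_nonneg _) (Real.log_natCast_nonneg p)

lemma mem_gs {P P' : IPt γ b} {p : ℕ} : p ∈ gs P P' ↔ Good P P' p := by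
  classical
  unfold gs
  rw [mem_filter]
  refine ⟨fun h => h.2, fun h => ⟨?_, h⟩⟩
  have : Fact p.Prime := ⟨h.1⟩
  rw [Nat.mem_primeFactors]
  refine ⟨h.1, ?_, Int.natAbs_ne_zero.2 h.ne⟩
  have h1 := h.lt
  have h2 : (p : ℤ) ^ 1 ∣ N0 P P' := dvd_of_v_le p (by unfold vN at h1; omega)
  rw [pow_one] at h2
  exact Int.natCast_dvd.1 h2

/-- The total weight of the good primes. -/
lemma total_ge (P P' : IPt γ b) :
    Real.log |(N0 P P' : ℝ)| - Real.log |(KK P : ℝ)| ≤ ∑ p ∈ gs P P', Lw P P' p := by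
  classical
  rw [log_eq_sum (N0 P P')]
  have h1 := sum_filter_add_sum_filter_not (N0 P P').natAbs.primeFactors (Good P P')
    (fun p => (padicValInt p (N0 P P') : ℝ) * Real.log p)
  have h2 : ∑ p ∈ (N0 P P').natAbs.primeFactors.filter (fun p => ¬ Good P P' p),
      (vN P P' p : ℝ) * Real.log p ≤ Real.log |(KK P : ℝ)| := by
    apply sum_log_le _ _ _ _ (KK_ne P)
    · intro p hp
      rw [mem_filter] at hp
      by_contra h
      exact hp.2 ⟨Nat.prime_of_mem_primeFactors hp.1, h⟩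
    · intro p hp
      exact Nat.prime_of_mem_primeFactors (mem_filter.1 hp).1
  unfold Lw gs vN at *
  linarith

/-- Weight of the primes satisfying a condition. -/
noncomputable def mu (P P' : IPt γ b) (c : ℕ → Prop) [DecidablePred c] : ℝ :=
  ∑ p ∈ gs P P', if c p then Lw P P' p else 0

lemma mu_le (P P' : IPt γ b) (c : ℕ → Prop) [DecidablePred c] (M : ℤ) (hM : M ≠ 0)
    (h : ∀ p, Good P P' p → c p → (p : ℤ) ^ vN P P' p ∣ M) :
    mu P P' c ≤ Real.log |(M : ℝ)| := by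
  unfold mu
  rw [← sum_filter]
  apply sum_log_le _ _ _ _ hM
  · intro p hp
    rw [mem_filter] at hp
    exact h p (mem_gs.1 hp.1) hp.2
  · intro p hp
    exact (mem_gs.1 (mem_filter.1 hp).1).1

/-- Pattern weight of a sign vector. -/
def pat (e : Fin 4 → ℤ) : ℕ := ∑ j : Fin 5, if (∀ i, e i = sgn j i) then kap j else 0

lemma pat_eq (e : Fin 4 → ℤ) (he : ∀ i, e i = 1 ∨ e i = -1) :
    (pat e : ℝ) = 1 / 4 * ((if e 0 = -1 then 1 else 0) + (if e 1 = -1 then 1 else 0) +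
        (if e 2 = -1 then 1 else 0) + (if e 3 = -1 then 1 else 0)) -
      1 / 2 * ((if e 0 * e 1 = -1 then 1 else 0) + (if e 0 * e 2 = -1 then 1 else 0) +
        (if e 0 * e 3 = -1 then 1 else 0) + (if e 1 * e 2 = -1 then 1 else 0) +
        (if e 1 * e 3 = -1 then 1 else 0) + (if e 2 * e 3 = -1 then 1 else 0)) +
      3 / 4 * ((if e 0 * e 1 * e 2 = -1 then 1 else 0) + (if e 0 * e 1 * e 3 = -1 then 1 else 0) +
        (if e 0 * e 2 * e 3 = -1 then 1 else 0) + (if e 1 * e 2 * e 3 = -1 then 1 else 0)) := by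
  unfold pat
  simp only [Fin.sum_univ_five, Fin.forall_fin_succ, sgn, kap]
  rcases he 0 with h0 | h0 <;> rcases he 1 with h1 | h1 <;> rcases he 2 with h2 | h2 <;>
    rcases he 3 with h3 | h3 <;> simp [h0, h1, h2, h3] <;> norm_num

end Pool.Agent.Work.MP_36d6be_co_V
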