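import Pool.Agent.Work.MP_36d6be_co_V.LocalD

/-!
Block C, fifth part: sizes.
-/

set_option autoImplicit false

namespace Pool.Agent.Work.MP_36d6be_co_V

open Finset

variable {γ b : Fin 4 → ℤ}

/-- exponential height of a point -/
def HH (P : IPt γ b) : ℤ := max |P.A| P.D

/-- logarithmic height of a point -/
noncomputable def hh (P : IPt γ b) : ℝ := Real.log (HH P : ℝ)

lemma hh_eq (P : IPt γ b) : hh P = ht ((P.A : ℚ) / P.D) := by
  obtain ⟨D, hD⟩ := Int.eq_ofNat_of_zero_le P.hD.le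
  have hDpos : 0 < D := by have := P.hD; omega
  have hco := P.hco
  rw [hD] at hco
  have hc : Nat.Coprime P.A.natAbs D := by
    have := Int.isCoprime_iff_gcd_eq_one.1 hco
    simpa [Int.gcd] using this
  unfold hh ht HH
  rw [hD]
  have h1 : ((P.A : ℚ) / ((D : ℕ) : ℤ)).num = P.A := by
    have := Rat.num_div_eq_of_coprime (a := P.A) (b := (D : ℤ)) (by exact_mod_cast hDpos)
      (by simpa using hc)
    exact_mod_cast this
  have h2 : ((P.A : ℚ) / ((D : ℕ) : ℤ)).den = D := by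
    have := Rat.den_div_eq_of_coprime (a := P.A) (b := (D : ℤ)) (by exact_mod_cast hDpos)
      (by simpa using hc)
    exact_mod_cast this
  rw [h1, h2]
  congr 1
  push_cast
  rw [Nat.cast_natAbs]
  push_cast
  rfl

/-- a constant bounding everything -/
def cc (γ b : Fin 4 → ℤ) : ℤ := 1 + ∑ i, |γ i| + ∑ i, |b i|

lemma cc_ge_one (γ b : Fin 4 → ℤ) : 1 ≤ cc γ b := by
  unfold cc
  have h1 : 0 ≤ ∑ i, |γ i| := sum_nonneg fun i _ => abs_nonneg _
  have h2 : 0 ≤ ∑ i, |b i| := sum_nonneg fun i _ => abs_nonneg _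
  linarith

lemma γ_le (γ b : Fin 4 → ℤ) (i : Fin 4) : |γ i| ≤ cc γ b := by
  unfold cc
  have h1 : |γ i| ≤ ∑ i, |γ i| := single_le_sum (f := fun i => |γ i|)
    (fun i _ => abs_nonneg _) (mem_univ i)
  have h2 : 0 ≤ ∑ i, |b i| := sum_nonneg fun i _ => abs_nonneg _
  linarith

lemma b_le (γ b : Fin 4 → ℤ) (i : Fin 4) : |b i| ≤ cc γ b := by
  unfold cc
  have h1 : |b i| ≤ ∑ i, |b i| := single_le_sum (f := fun i => |b i|)
    (fun i _ => abs_nonneg _) (mem_univ i)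
  have h2 : 0 ≤ ∑ i, |γ i| := sum_nonneg fun i _ => abs_nonneg _
  linarith

/-- a second constant -/
def c2 (γ b : Fin 4 → ℤ) : ℤ := 2 * cc γ b ^ 2

lemma c2_ge_one (γ b : Fin 4 → ℤ) : 1 ≤ c2 γ b := by
  have := cc_ge_one γ b; unfold c2; nlinarith

lemma cc_le_c2 (γ b : Fin 4 → ℤ) : cc γ b ≤ c2 γ b := by
  have := cc_ge_one γ b; unfold c2; nlinarith

section sizes

variable (P : IPt γ b)

lemma D_le : P.D ≤ HH P := le_max_right _ _

lemma A_le : |P.A| ≤ HH P := le_max_left _ _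

lemma HH_ge_one : 1 ≤ HH P := le_trans P.hD (D_le P)

lemma g_le (i : Fin 4) : |γ i * (P.A - b i * P.D)| ≤ c2 γ b * HH P := by
  rw [abs_mul]
  have h1 := γ_le γ b i
  have h2 := b_le γ b i
  have h3 := cc_ge_one γ b
  have h4 : |P.A - b i * P.D| ≤ 2 * cc γ b * HH P := by
    calc |P.A - b i * P.D| ≤ |P.A| + |b i * P.D| := abs_sub _ _
      _ = |P.A| + |b i| * P.D := by rw [abs_mul, abs_of_pos P.hD]
      _ ≤ HH P + cc γ b * HH P :=
          add_le_add (A_le P) (mul_le_mul h2 (D_le P) P.hD.le (by linarith))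
      _ ≤ _ := by nlinarith [HH_ge_one P]
  calc |γ i| * |P.A - b i * P.D| ≤ cc γ b * (2 * cc γ b * HH P) :=
        mul_le_mul h1 h4 (abs_nonneg _) (by linarith)
    _ = c2 γ b * HH P := by unfold c2; ring

lemma Z_le (i : Fin 4) : P.Z i ≤ c2 γ b * HH P := by
  have h1 := P.hZ i
  have h2 := g_le P i
  have h3 := c2_ge_one γ b
  have h4 := HH_ge_one P
  have h5 : P.Z i ^ 2 ≤ (c2 γ b * HH P) ^ 2 := by
    calc P.Z i ^ 2 = P.D * (γ i * (P.A - b i * P.D)) := by rw [h1]; ring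
      _ ≤ HH P * (c2 γ b * HH P) := by
          apply mul_le_mul (D_le P) ((le_abs_self _).trans h2) _ (by linarith)
          have h6 : 0 ≤ P.D * (γ i * (P.A - b i * P.D)) := by
            have : P.D * (γ i * (P.A - b i * P.D)) = P.Z i ^ 2 := by rw [h1]; ring
            rw [this]; positivity
          exact nonneg_of_mul_nonneg_right h6 P.hD
      _ ≤ (c2 γ b * HH P) * (c2 γ b * HH P) := by
          apply mul_le_mul_of_nonneg_right _ (by positivity)
          nlinarith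
      _ = _ := by ring
  exact le_of_sq_le_sq h5 (by positivity)

lemma KK_le : |KK P| ≤ 16 * c2 γ b ^ 4 * HH P ^ 8 := by
  unfold KK
  have h3 := c2_ge_one γ b
  have h4 := HH_ge_one P
  rw [abs_mul, abs_mul, abs_prod, abs_pow, abs_of_pos P.hD, abs_of_pos (by norm_num : (0 : ℤ) < 16)]
  have h1 : ∏ i, |γ i * (P.A - b i * P.D)| ≤ ∏ _i : Fin 4, (c2 γ b * HH P) :=
    prod_le_prod (fun i _ => abs_nonneg _) fun i _ => g_le P i
  rw [prod_const, card_univ, Fintype.card_fin] at h1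
  have h2 : P.D ^ 4 ≤ HH P ^ 4 := pow_le_pow_left₀ P.hD.le (D_le P) 4
  calc 16 * P.D ^ 4 * ∏ i, |γ i * (P.A - b i * P.D)|
      ≤ 16 * HH P ^ 4 * (c2 γ b * HH P) ^ 4 := by
        apply mul_le_mul _ h1 (prod_nonneg fun i _ => abs_nonneg _) (by positivity)
        linarith
    _ = _ := by ring

lemma EE_le (i j k : Fin 4) : |EE P i j k| ≤ 32 * c2 γ b ^ 10 * HH P ^ 15 := by
  have h3 := c2_ge_one γ b
  have h4 := HH_ge_one P
  have hG : |Ga γ i j k| ≤ c2 γ b ^ 3 := by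
    unfold Ga
    rw [abs_mul, abs_mul]
    calc |γ i| * |γ j| * |γ k| ≤ c2 γ b * c2 γ b * c2 γ b := by
          have h := cc_le_c2 γ b
          have h1 := (γ_le γ b i).trans h
          have h2 := (γ_le γ b j).trans h
          have h3 := (γ_le γ b k).trans h
          apply mul_le_mul (mul_le_mul h1 h2 (abs_nonneg _) (by linarith)) h3 (abs_nonneg _)
          positivity
      _ = _ := by ring
  have hZ : |2 * (P.Z i * P.Z j * P.Z k)| ≤ 2 * (c2 γ b ^ 3 * HH P ^ 3) := by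
    have p1 := P.hpos i
    have p2 := P.hpos j
    have p3 := P.hpos k
    rw [abs_of_pos (by positivity)]
    have : P.Z i * P.Z j * P.Z k ≤ (c2 γ b * HH P) * (c2 γ b * HH P) * (c2 γ b * HH P) := by
      apply mul_le_mul (mul_le_mul (Z_le P i) (Z_le P j) p2.le (by positivity)) (Z_le P k)
        p3.le (by positivity)
    nlinarith
  have hD : |P.D ^ 4| ≤ HH P ^ 4 := by
    rw [abs_of_pos (pow_pos P.hD 4)]
    exact pow_le_pow_left₀ P.hD.le (D_le P) 4
  unfold EE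
  rw [abs_mul, abs_mul, abs_mul]
  calc |Ga γ i j k| * |KK P| * |2 * (P.Z i * P.Z j * P.Z k)| * |P.D ^ 4|
      ≤ c2 γ b ^ 3 * (16 * c2 γ b ^ 4 * HH P ^ 8) * (2 * (c2 γ b ^ 3 * HH P ^ 3)) *
        HH P ^ 4 := by
        apply mul_le_mul _ hD (abs_nonneg _) (by positivity)
        apply mul_le_mul _ hZ (abs_nonneg _) (by positivity)
        exact mul_le_mul hG (KK_le P) (abs_nonneg _) (by positivity)
    _ = _ := by ring

variable {d δ : ℤ} {t : Fin 4 → ℤ}

lemma dδ_le (hδ : 0 < δ) (hD : P.D = d ^ 2 * δ) (hδγ : ∀ l, δ ∣ γ l) :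
    (d * δ) ^ 2 ≤ c2 γ b ^ 2 * HH P := by
  have h3 := c2_ge_one γ b
  have h4 := HH_ge_one P
  have h5 : δ ≤ c2 γ b :=
    (Int.le_of_dvd (abs_pos.2 (P.γ_ne 0)) ((dvd_abs _ _).2 (hδγ 0))).trans
      ((γ_le γ b 0).trans (cc_le_c2 γ b))
  calc (d * δ) ^ 2 = P.D * δ := by rw [hD]; ring
    _ ≤ HH P * c2 γ b := mul_le_mul (D_le P) h5 hδ.le (by linarith)
    _ = c2 γ b * HH P := mul_comm _ _
    _ ≤ c2 γ b ^ 2 * HH P :=
        mul_le_mul_of_nonneg_right (by nlinarith) (by linarith)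

lemma t_le (hδγ : ∀ l, δ ∣ γ l)
    (ht : ∀ l, t l ^ 2 = γ l * δ * (P.A - b l * P.D)) (l : Fin 4) :
    (t l) ^ 2 ≤ c2 γ b ^ 2 * HH P := by
  have h3 := c2_ge_one γ b
  have h4 := HH_ge_one P
  have h5 : δ ≤ c2 γ b :=
    (Int.le_of_dvd (abs_pos.2 (P.γ_ne 0)) ((dvd_abs _ _).2 (hδγ 0))).trans
      ((γ_le γ b 0).trans (cc_le_c2 γ b))
  have h6 := (le_abs_self _).trans (g_le P l)
  have h7 : 0 ≤ γ l * (P.A - b l * P.D) := by
    have h8 : 0 ≤ P.D * (γ l * (P.A - b l * P.D)) := by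
      have : P.D * (γ l * (P.A - b l * P.D)) = P.Z l ^ 2 := by rw [P.hZ l]; ring
      rw [this]; positivity
    exact nonneg_of_mul_nonneg_right h8 P.hD
  calc (t l) ^ 2 = δ * (γ l * (P.A - b l * P.D)) := by rw [ht l]; ring
    _ ≤ c2 γ b * (c2 γ b * HH P) := mul_le_mul h5 h6 h7 (by linarith)
    _ = _ := by ring

end sizes

/-- Conditions on the two points. -/
structure Rel (P P' : IPt γ b) : Prop where
  hγ : ∀ i, 0 < γ i
  one : P.D ≤ P.A
  two : 2 * (P.A * P'.D) ≤ P'.A * P.D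

section rel

variable {P P' : IPt γ b}

lemma Rel.posA (h : Rel P P') : 0 < P.A := lt_of_lt_of_le P.hD h.one

lemma Rel.one' (h : Rel P P') : P'.D ≤ P'.A := by
  have h1 := h.two
  have h2 := h.one
  have h3 := P.hD
  have h4 := P'.hD
  have h5 : P.D * P'.D ≤ P.D * P'.A := by nlinarith
  exact le_of_mul_le_mul_left h5 h3

lemma Rel.posA' (h : Rel P P') : 0 < P'.A := lt_of_lt_of_le P'.hD h.one'

lemma Rel.N0_ge (h : Rel P P') : HH P' ≤ 2 * N0 P P' := by
  have h1 := h.two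
  have h3 := P.hD
  have h4 := P'.hD
  have h5 := h.one'
  have h6 := h.posA'
  have e : HH P' = P'.A := by unfold HH; rw [abs_of_pos h6]; exact max_eq_left h5
  rw [e]
  unfold N0
  nlinarith

lemma Rel.N0_pos (h : Rel P P') : 0 < N0 P P' := by
  have h1 := h.N0_ge
  have h2 := HH_ge_one P'
  omega

lemma Rel.N0_ne (h : Rel P P') : N0 P P' ≠ 0 := h.N0_pos.ne'

lemma Rel.t_ne (h : Rel P P') {d δ : ℤ} {t : Fin 4 → ℤ} (hd : P'.D = d ^ 2 * δ)
    (ht : ∀ l, P'.Z l = d * t l) (i : Fin 4) :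
    t i * P.D - P.Z i * (d * δ) ≠ 0 := by
  intro h0
  have h1 : P'.Z i * P.D - P.Z i * P'.D = 0 := by
    rw [ht i, hd]
    linear_combination d * h0
  have h2 := key_mul P P' i
  rw [h1, zero_mul] at h2
  exact mul_ne_zero (mul_ne_zero (mul_ne_zero (P.γ_ne i) P.D_ne) P'.D_ne) h.N0_ne h2.symm

end rel

section logs

lemma hh_nonneg (P : IPt γ b) : 0 ≤ hh P :=
  Real.log_nonneg (by exact_mod_cast HH_ge_one P)

/-- logarithm of an integer bounded by a monomial -/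
lemma log_le_of_le (P : IPt γ b) (M : ℤ) (hM : M ≠ 0) (k n m : ℕ) (hk : 0 < k)
    (h : |M| ≤ k * c2 γ b ^ n * HH P ^ m) :
    Real.log |(M : ℝ)| ≤ Real.log k + n * Real.log (c2 γ b) + m * hh P := by
  have h3 : (0 : ℝ) < c2 γ b := by exact_mod_cast lt_of_lt_of_le one_pos (c2_ge_one γ b)
  have h4 : (0 : ℝ) < HH P := by exact_mod_cast lt_of_lt_of_le one_pos (HH_ge_one P)
  have h5 : |(M : ℝ)| ≤ k * (c2 γ b : ℝ) ^ n * (HH P : ℝ) ^ m := by exact_mod_cast h
  have h6 : 0 < |(M : ℝ)| := abs_pos.2 (by exact_mod_cast hM)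
  have hk' : (0 : ℝ) < k := by exact_mod_cast hk
  calc Real.log |(M : ℝ)| ≤ Real.log (k * (c2 γ b : ℝ) ^ n * (HH P : ℝ) ^ m) :=
        Real.log_le_log h6 h5
    _ = _ := by
        rw [Real.log_mul (by positivity) (by positivity),
          Real.log_mul (by positivity) (by positivity), Real.log_pow, Real.log_pow]
        rfl

/-- logarithm of an integer, with a factor `√H'`. -/
lemma log_le_of_le2 (P P' : IPt γ b) (M : ℤ) (hM : M ≠ 0) (k n m : ℕ) (hk : 0 < k)
    (h : M ^ 2 ≤ (k * c2 γ b ^ n * HH P ^ m) ^ 2 * HH P') :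
    Real.log |(M : ℝ)| ≤ Real.log k + n * Real.log (c2 γ b) + m * hh P + hh P' / 2 := by
  have h3 : (0 : ℝ) < c2 γ b := by exact_mod_cast lt_of_lt_of_le one_pos (c2_ge_one γ b)
  have h4 : (0 : ℝ) < HH P := by exact_mod_cast lt_of_lt_of_le one_pos (HH_ge_one P)
  have h4' : (0 : ℝ) < HH P' := by exact_mod_cast lt_of_lt_of_le one_pos (HH_ge_one P')
  have h5 : (M : ℝ) ^ 2 ≤ (k * (c2 γ b : ℝ) ^ n * (HH P : ℝ) ^ m) ^ 2 * HH P' := by
    exact_mod_cast h
  have hk' : (0 : ℝ) < k := by exact_mod_cast hk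
  have hM' : (M : ℝ) ≠ 0 := by exact_mod_cast hM
  have h6 : 0 < (M : ℝ) ^ 2 := by positivity
  have h7 : Real.log ((M : ℝ) ^ 2) ≤
      2 * (Real.log k + n * Real.log (c2 γ b) + m * hh P) + hh P' := by
    refine (Real.log_le_log h6 h5).trans (le_of_eq ?_)
    rw [Real.log_mul (by positivity) (by positivity), Real.log_pow,
      Real.log_mul (by positivity) (by positivity),
      Real.log_mul (by positivity) (by positivity), Real.log_pow, Real.log_pow]
    unfold hh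
    push_cast
    ring
  rw [← sq_abs, Real.log_pow] at h7
  push_cast at h7
  linarith

end logs

end Pool.Agent.Work.MP_36d6be_co_V
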