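import Pool.Agent.Work.MP_36d6be_co_V.LocalE

/-!
Block C, last part: the main lower bound for the pattern weight.
-/

set_option autoImplicit false

namespace Pool.Agent.Work.MP_36d6be_co_V

open Finset

variable {γ b : Fin 4 → ℤ}

lemma SE_formula (P P' : IPt γ b) (i j k : Fin 4) (hN : N0 P P' ≠ 0) (x x' y y' Γ e1 e2 e3 : ℚ)
    (hx : x = xE P i j k) (hx' : x' = xE P' i j k) (hy : y = yE P i j k) (hy' : y' = yE P' i j k)
    (hΓ : Γ = Ga γ i j k) (he1 : e1 = Γ * b i) (he2 : e2 = Γ * b j) (he3 : e3 = Γ * b k) :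
    SE P P' i j k * (x' - x) ^ 2 = x * x' * (x + x') - 2 * (e1 + e2 + e3) * (x * x') +
      (e1 * e2 + e1 * e3 + e2 * e3) * (x + x') - 2 * (e1 * e2 * e3) - 2 * y * y' := by
  have hD : (P.D : ℚ) ≠ 0 := by exact_mod_cast P.D_ne
  have hD' : (P'.D : ℚ) ≠ 0 := by exact_mod_cast P'.D_ne
  have hN' : (N0 P P' : ℚ) ≠ 0 := by exact_mod_cast hN
  have hG : (Ga γ i j k : ℚ) ≠ 0 := by exact_mod_cast Ga_ne P i j k
  have hxs := xE_sub P P' i j k
  have hxne : x' - x ≠ 0 := by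
    rw [hx, hx', hxs]; exact div_ne_zero (mul_ne_zero hG hN') (mul_ne_zero hD hD')
  have c1 := curve_eq P i j k
  have c2 := curve_eq P' i j k
  have hS : SE P P' i j k = ((y' - y) / (x' - x)) ^ 2 + e1 + e2 + e3 - x - x' := by
    unfold SE
    rw [hx, hx', hy, hy', he1, he2, he3, hΓ]
    push_cast
    ring
  rw [hS]
  have e : ((y' - y) / (x' - x)) ^ 2 * (x' - x) ^ 2 = (y' - y) ^ 2 := by
    field_simp
  push_cast at c1 c2
  rw [← hx, ← hy, ← hΓ, ← he1, ← he2, ← he3] at c1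
  rw [← hx', ← hy', ← hΓ, ← he1, ← he2, ← he3] at c2
  linear_combination e + c1 + c2

lemma ybound (e1 e2 e3 E X Y : ℚ) (hE : 1 ≤ E) (h1 : |e1| ≤ E) (h2 : |e2| ≤ E) (h3 : |e3| ≤ E)
    (hX : 1 ≤ X) (hY : Y ^ 2 = (X - e1) * (X - e2) * (X - e3)) :
    Y ≤ 4 * E ^ 2 * X ^ 2 := by
  have hX0 : (0 : ℚ) < X := by linarith
  have hEX : E ≤ E * X := le_mul_of_one_le_right (by linarith) hX
  have hXE : X ≤ E * X := le_mul_of_one_le_left (by linarith) hE
  have a : ∀ e : ℚ, |e| ≤ E → |X - e| ≤ 2 * E * X := by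
    intro e he
    have := abs_sub X e
    rw [abs_of_pos hX0] at this
    linarith
  have a4 : Y ^ 2 ≤ (2 * E * X) ^ 3 := by
    rw [hY]
    calc (X - e1) * (X - e2) * (X - e3) ≤ |(X - e1) * (X - e2) * (X - e3)| := le_abs_self _
      _ = |X - e1| * |X - e2| * |X - e3| := by rw [abs_mul, abs_mul]
      _ ≤ (2 * E * X) * (2 * E * X) * (2 * E * X) :=
          mul_le_mul (mul_le_mul (a e1 h1) (a e2 h2) (abs_nonneg _) (by positivity)) (a e3 h3)
            (abs_nonneg _) (by positivity)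
      _ = _ := by ring
  have a5 : 1 ≤ 2 * E * X := by linarith
  have a6 : (2 * E * X) ^ 3 ≤ (4 * E ^ 2 * X ^ 2) ^ 2 := by
    calc (2 * E * X) ^ 3 ≤ (2 * E * X) ^ 4 := pow_le_pow_right₀ a5 (by norm_num)
      _ = _ := by ring
  exact le_of_sq_le_sq (a4.trans a6) (by positivity)

/-- archimedean bound, abstract form -/
lemma arch_bound (x x' y y' e1 e2 e3 E S : ℚ) (hE : 1 ≤ E) (hx : 1 ≤ x) (hxx : 2 * x ≤ x')
    (h1 : |e1| ≤ E) (h2 : |e2| ≤ E) (h3 : |e3| ≤ E) (hy0 : 0 ≤ y) (hy0' : 0 ≤ y')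
    (hy : y ^ 2 = (x - e1) * (x - e2) * (x - e3))
    (hy' : y' ^ 2 = (x' - e1) * (x' - e2) * (x' - e3))
    (hS : S * (x' - x) ^ 2 = x * x' * (x + x') - 2 * (e1 + e2 + e3) * (x * x') +
      (e1 * e2 + e1 * e3 + e2 * e3) * (x + x') - 2 * (e1 * e2 * e3) - 2 * y * y') :
    |S| ≤ 192 * E ^ 4 * x ^ 2 := by
  have hx' : 2 ≤ x' := by linarith
  have b1 := ybound e1 e2 e3 E x y hE h1 h2 h3 hx hy
  have b2 := ybound e1 e2 e3 E x' y' hE h1 h2 h3 (by linarith) hy'
  have hx0 : (0 : ℚ) < x := by linarith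
  have hx0' : (0 : ℚ) < x' := by linarith
  have hE0 : (0 : ℚ) < E := by linarith
  -- bound for the numerator
  have r0 : 1 ≤ x * x' := one_le_mul_of_one_le_of_one_le hx (by linarith)
  have rx : x ≤ x * x' := le_mul_of_one_le_right hx0.le (by linarith)
  have rx' : x' ≤ x * x' := le_mul_of_one_le_left hx0'.le hx
  have rs : x + x' ≤ 2 * (x * x') := by linarith
  have r1 : x * x' ≤ x ^ 2 * x' ^ 2 := by
    calc x * x' ≤ (x * x') * (x * x') := le_mul_of_one_le_left (by positivity) r0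
      _ = _ := by ring
  have r2 : x + x' ≤ 2 * (x ^ 2 * x' ^ 2) := by linarith
  have r3 : 1 ≤ x ^ 2 * x' ^ 2 := r0.trans r1
  have n1 : |x * x' * (x + x')| ≤ 2 * (E ^ 4 * x ^ 2 * x' ^ 2) := by
    rw [abs_of_pos (by positivity)]
    have q1 : x * x' * (x + x') ≤ 2 * (x ^ 2 * x' ^ 2) := by
      calc x * x' * (x + x') ≤ x * x' * (2 * (x * x')) :=
            mul_le_mul_of_nonneg_left rs (by positivity)
        _ = _ := by ring
    have q2 : 1 ≤ E ^ 4 := one_le_pow₀ hE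
    have q3 : x ^ 2 * x' ^ 2 ≤ E ^ 4 * (x ^ 2 * x' ^ 2) :=
      le_mul_of_one_le_left (by positivity) q2
    nlinarith
  have q0 : 1 ≤ E ^ 3 := one_le_pow₀ hE
  have q00 : E ^ 1 ≤ E ^ 4 := pow_le_pow_right₀ hE (by norm_num)
  have q01 : E ^ 2 ≤ E ^ 4 := pow_le_pow_right₀ hE (by norm_num)
  have q02 : E ^ 3 ≤ E ^ 4 := pow_le_pow_right₀ hE (by norm_num)
  have n2 : |2 * (e1 + e2 + e3) * (x * x')| ≤ 6 * (E ^ 4 * x ^ 2 * x' ^ 2) := by
    rw [abs_mul, abs_mul, abs_of_pos (by positivity : (0:ℚ) < x * x'), abs_of_pos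
      (by norm_num : (0:ℚ) < 2)]
    have s1 : |e1 + e2 + e3| ≤ 3 * E := by
      calc |e1 + e2 + e3| ≤ |e1| + |e2| + |e3| := abs_add_three _ _ _
        _ ≤ _ := by linarith
    calc 2 * |e1 + e2 + e3| * (x * x') ≤ 2 * (3 * E ^ 4) * (x ^ 2 * x' ^ 2) := by
          apply mul_le_mul _ r1 (by positivity) (by positivity)
          linarith
      _ = _ := by ring
  have n3 : |(e1 * e2 + e1 * e3 + e2 * e3) * (x + x')| ≤ 6 * (E ^ 4 * x ^ 2 * x' ^ 2) := by
    rw [abs_mul, abs_of_pos (by positivity : (0:ℚ) < x + x')]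
    have s1 : |e1 * e2 + e1 * e3 + e2 * e3| ≤ 3 * E ^ 2 := by
      calc |e1 * e2 + e1 * e3 + e2 * e3| ≤ |e1 * e2| + |e1 * e3| + |e2 * e3| :=
            abs_add_three _ _ _
        _ = |e1| * |e2| + |e1| * |e3| + |e2| * |e3| := by rw [abs_mul, abs_mul, abs_mul]
        _ ≤ E * E + E * E + E * E := by
            gcongr
        _ = _ := by ring
    calc |e1 * e2 + e1 * e3 + e2 * e3| * (x + x')
        ≤ (3 * E ^ 4) * (2 * (x ^ 2 * x' ^ 2)) := by
          apply mul_le_mul _ r2 (by positivity) (by positivity)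
          linarith
      _ = _ := by ring
  have n4 : |2 * (e1 * e2 * e3)| ≤ 2 * (E ^ 4 * x ^ 2 * x' ^ 2) := by
    rw [abs_mul, abs_mul, abs_mul, abs_of_pos (by norm_num : (0:ℚ) < 2)]
    calc 2 * (|e1| * |e2| * |e3|) ≤ 2 * (E * E * E) := by gcongr
      _ = 2 * (E ^ 3 * 1) := by ring
      _ ≤ 2 * (E ^ 4 * (x ^ 2 * x' ^ 2)) := by gcongr
      _ = _ := by ring
  have n5 : |2 * y * y'| ≤ 32 * (E ^ 4 * x ^ 2 * x' ^ 2) := by
    rw [abs_of_nonneg (by positivity)]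
    calc 2 * y * y' ≤ 2 * (4 * E ^ 2 * x ^ 2) * (4 * E ^ 2 * x' ^ 2) := by gcongr
      _ = _ := by ring
  have hsub : x' ^ 2 ≤ 4 * (x' - x) ^ 2 := by nlinarith
  have hsubpos : 0 < (x' - x) ^ 2 := by
    have : 0 < x' - x := by linarith
    positivity
  have htot : |S| * (x' - x) ^ 2 ≤ 48 * (E ^ 4 * x ^ 2 * x' ^ 2) := by
    rw [← abs_of_pos hsubpos, ← abs_mul, hS]
    calc |x * x' * (x + x') - 2 * (e1 + e2 + e3) * (x * x') +
          (e1 * e2 + e1 * e3 + e2 * e3) * (x + x') - 2 * (e1 * e2 * e3) - 2 * y * y'|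
        ≤ |x * x' * (x + x')| + |2 * (e1 + e2 + e3) * (x * x')| +
          |(e1 * e2 + e1 * e3 + e2 * e3) * (x + x')| + |2 * (e1 * e2 * e3)| + |2 * y * y'| := by
          refine (abs_sub _ _).trans (add_le_add_left ?_ _)
          refine (abs_sub _ _).trans (add_le_add_left ?_ _)
          refine (abs_add_le _ _).trans (add_le_add_left ?_ _)
          exact abs_sub _ _
      _ ≤ _ := by linarith
  have hfin : |S| * (x' - x) ^ 2 ≤ (192 * E ^ 4 * x ^ 2) * (x' - x) ^ 2 := by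
    calc |S| * (x' - x) ^ 2 ≤ 48 * (E ^ 4 * x ^ 2 * x' ^ 2) := htot
      _ = 48 * (E ^ 4 * x ^ 2) * x' ^ 2 := by ring
      _ ≤ 48 * (E ^ 4 * x ^ 2) * (4 * (x' - x) ^ 2) := by gcongr
      _ = _ := by ring
  exact le_of_mul_le_mul_right hfin hsubpos

lemma ht_le (S : ℚ) (B : ℝ) (hB : 1 ≤ B) (h : |(S : ℝ)| ≤ B) :
    ht S ≤ Real.log (S.den : ℝ) + Real.log B := by
  have hden : (1 : ℝ) ≤ S.den := by exact_mod_cast S.pos
  have h1 : (S : ℝ) * S.den = S.num := by exact_mod_cast Rat.mul_den_eq_num S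
  unfold ht
  rw [← Real.log_mul (by positivity) (by positivity)]
  apply Real.log_le_log
  · have : 0 < max S.num.natAbs S.den := lt_of_lt_of_le S.pos (le_max_right _ _)
    exact_mod_cast this
  · push_cast
    apply max_le
    · rw [Nat.cast_natAbs]
      push_cast
      rw [← h1, abs_mul, abs_of_pos (by positivity : (0 : ℝ) < S.den), mul_comm]
      gcongr
    · nlinarith

/-- the weight of the patterns -/
noncomputable def WW (P P' : IPt γ b) : ℝ := ∑ p ∈ gs P P', Lw P P' p * (pat (eps P P' p) : ℝ)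

/-- weight of the primes where the product of the signs over a list is `-1` -/
noncomputable def m1 (P P' : IPt γ b) (i : Fin 4) : ℝ := mu P P' (fun p => eps P P' p i = -1)

noncomputable def m2 (P P' : IPt γ b) (i j : Fin 4) : ℝ :=
  mu P P' (fun p => eps P P' p i * eps P P' p j = -1)

noncomputable def m3 (P P' : IPt γ b) (i j k : Fin 4) : ℝ :=
  mu P P' (fun p => eps P P' p i * eps P P' p j * eps P P' p k = -1)

lemma mu_eq (P P' : IPt γ b) (c : ℕ → Prop) [DecidablePred c] :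
    mu P P' c = ∑ p ∈ gs P P', Lw P P' p * (if c p then 1 else 0) := by
  unfold mu
  apply sum_congr rfl
  intro p _
  split_ifs <;> simp

lemma WW_eq (P P' : IPt γ b) : WW P P' =
    1 / 4 * (m1 P P' 0 + m1 P P' 1 + m1 P P' 2 + m1 P P' 3) -
    1 / 2 * (m2 P P' 0 1 + m2 P P' 0 2 + m2 P P' 0 3 + m2 P P' 1 2 + m2 P P' 1 3 + m2 P P' 2 3) +
    3 / 4 * (m3 P P' 0 1 2 + m3 P P' 0 1 3 + m3 P P' 0 2 3 + m3 P P' 1 2 3) := by
  unfold WW m1 m2 m3
  simp only [mu_eq]
  simp only [← sum_add_distrib, mul_sum, ← sum_sub_distrib]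
  apply sum_congr rfl
  intro p _
  rw [pat_eq _ (eps_sq P P' p)]
  ring

section bounds

variable {P P' : IPt γ b}

/-- the constants -/
noncomputable def lc2 (γ b : Fin 4 → ℤ) : ℝ := Real.log (c2 γ b)

lemma lc2_nonneg (γ b : Fin 4 → ℤ) : 0 ≤ lc2 γ b :=
  Real.log_nonneg (by exact_mod_cast c2_ge_one γ b)

lemma log_KK_le (P : IPt γ b) : Real.log |(KK P : ℝ)| ≤ Real.log 16 + 4 * lc2 γ b + 8 * hh P := by
  have h := log_le_of_le P (KK P) (KK_ne P) 16 4 8 (by norm_num) (by exact_mod_cast KK_le P)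
  exact_mod_cast h

lemma log_EE_le (P : IPt γ b) (i j k : Fin 4) :
    Real.log |(EE P i j k : ℝ)| ≤ Real.log 32 + 10 * lc2 γ b + 15 * hh P := by
  have h := log_le_of_le P (EE P i j k) (EE_ne P i j k) 32 10 15 (by norm_num)
    (by exact_mod_cast EE_le P i j k)
  exact_mod_cast h

lemma total_lower (h : Rel P P') :
    hh P' - Real.log 2 - (Real.log 16 + 4 * lc2 γ b + 8 * hh P) ≤ ∑ p ∈ gs P P', Lw P P' p := by
  have h1 := total_ge P P'
  have h2 := log_KK_le P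
  have h3 : hh P' ≤ Real.log 2 + Real.log |(N0 P P' : ℝ)| := by
    have h4 : (0 : ℝ) < N0 P P' := by exact_mod_cast h.N0_pos
    have h5 : (0 : ℝ) < HH P' := by exact_mod_cast lt_of_lt_of_le one_pos (HH_ge_one P')
    rw [abs_of_pos h4, ← Real.log_mul (by norm_num) h4.ne']
    exact Real.log_le_log h5 (by exact_mod_cast h.N0_ge)
  linarith

lemma sq_add_le (a b M : ℤ) (ha : a ^ 2 ≤ M) (hb : b ^ 2 ≤ M) : (a + b) ^ 2 ≤ 4 * M := by
  nlinarith [sq_nonneg (a - b)]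

lemma m1_lower (h : Rel P P') (i : Fin 4) :
    hh P' / 2 - (Real.log 2 + Real.log 16 + Real.log 4) - 7 * lc2 γ b - 11 * hh P
      ≤ m1 P P' i := by
  obtain ⟨d, δ, t, hd, hδ, hD, hZ, hδγ, htpos, ht⟩ := split_den P'
  have hne := h.t_ne hD hZ i
  -- the opposite sign
  have hplus : mu P P' (fun p => eps P P' p i = 1) ≤
      Real.log 4 + 3 * lc2 γ b + 3 * hh P + hh P' / 2 := by
    have hM : P.D * (2 * P.Z i * (t i * P.D - P.Z i * (d * δ))) ≠ 0 :=
      mul_ne_zero P.D_ne (mul_ne_zero (mul_ne_zero two_ne_zero (P.Z_ne i)) hne)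
    refine (mu_le P P' _ _ hM fun p hg hi => hg.single hD hZ i hi hne).trans ?_
    have hk : (P.D * (2 * P.Z i * (t i * P.D - P.Z i * (d * δ)))) ^ 2 ≤
        ((4 : ℕ) * c2 γ b ^ 3 * HH P ^ 3) ^ 2 * HH P' := by
      have c1 := c2_ge_one γ b
      have c4 := HH_ge_one P
      have c4' := HH_ge_one P'
      have a1 : (t i * P.D) ^ 2 ≤ c2 γ b ^ 4 * HH P ^ 2 * HH P' := by
        calc (t i * P.D) ^ 2 = t i ^ 2 * P.D ^ 2 := by ring
          _ ≤ (c2 γ b ^ 2 * HH P') * HH P ^ 2 :=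
              mul_le_mul (t_le P' hδγ ht i) (pow_le_pow_left₀ P.hD.le (D_le P) 2)
                (by positivity) (by positivity)
          _ = c2 γ b ^ 2 * (HH P ^ 2 * HH P') := by ring
          _ ≤ c2 γ b ^ 4 * (HH P ^ 2 * HH P') := by
              apply mul_le_mul_of_nonneg_right _ (by positivity)
              exact pow_le_pow_right₀ c1 (by norm_num)
          _ = _ := by ring
      have a2 : (-(P.Z i * (d * δ))) ^ 2 ≤ c2 γ b ^ 4 * HH P ^ 2 * HH P' := by
        calc (-(P.Z i * (d * δ))) ^ 2 = P.Z i ^ 2 * (d * δ) ^ 2 := by ring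
          _ ≤ (c2 γ b * HH P) ^ 2 * (c2 γ b ^ 2 * HH P') :=
              mul_le_mul (pow_le_pow_left₀ (P.hpos i).le (Z_le P i) 2)
                (dδ_le P' hδ hD hδγ) (by positivity) (by positivity)
          _ = _ := by ring
      have a3 := sq_add_le _ _ _ a1 a2
      have a4 : (P.D * (2 * P.Z i)) ^ 2 ≤ (2 * c2 γ b * HH P ^ 2) ^ 2 := by
        apply pow_le_pow_left₀ (by have := P.hD; have := P.hpos i; positivity)
        calc P.D * (2 * P.Z i) ≤ HH P * (2 * (c2 γ b * HH P)) := by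
              apply mul_le_mul (D_le P) _ (by have := P.hpos i; positivity) (by positivity)
              linarith [Z_le P i]
          _ = _ := by ring
      calc (P.D * (2 * P.Z i * (t i * P.D - P.Z i * (d * δ)))) ^ 2
          = (P.D * (2 * P.Z i)) ^ 2 * (t i * P.D + -(P.Z i * (d * δ))) ^ 2 := by ring
        _ ≤ (2 * c2 γ b * HH P ^ 2) ^ 2 * (4 * (c2 γ b ^ 4 * HH P ^ 2 * HH P')) :=
            mul_le_mul a4 a3 (by positivity) (by positivity)
        _ = _ := by push_cast; ring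
    have := log_le_of_le2 P P' _ hM 4 3 3 (by norm_num) hk
    push_cast at this ⊢
    unfold lc2
    linarith
  have hsum : mu P P' (fun p => eps P P' p i = 1) + m1 P P' i = ∑ p ∈ gs P P', Lw P P' p := by
    unfold m1
    rw [mu_eq, mu_eq, ← sum_add_distrib]
    apply sum_congr rfl
    intro p _
    rcases eps_sq P P' p i with h' | h' <;> rw [h'] <;> norm_num
  have htot := total_lower h
  linarith

end bounds

end Pool.Agent.Work.MP_36d6be_co_V
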